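import Pool.Agent.Run7.h751.Toggle

open PowerSeries Finset

namespace Run7.h751

section frob
variable {k : Type*} [Field k] (ℓ : ℕ) [hℓ : Fact ℓ.Prime] [CharP k ℓ]

lemma pow_char_eq_expand (f : PowerSeries k) (hf : ∀ n, (PowerSeries.coeff n f) ^ ℓ =
    PowerSeries.coeff n f) :
    f ^ ℓ = PowerSeries.expand ℓ hℓ.out.ne_zero f := by
  have h := MvPowerSeries.map_frobenius_expand (R := k) (σ := Unit) (p := ℓ) (hp := hℓ.out.ne_zero)
    (f := f)
  have h2 : f ^ ℓ = PowerSeries.map (frobenius k ℓ) (PowerSeries.expand ℓ hℓ.out.ne_zero f) :=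
    h.symm
  rw [h2, PowerSeries.map_expand]
  congr 1
  ext n
  rw [PowerSeries.coeff_map, frobenius_def, hf n]

lemma pow_pow_char_eq_expand (f : PowerSeries k) (hf : ∀ n, (PowerSeries.coeff n f) ^ ℓ =
    PowerSeries.coeff n f) (i : ℕ) :
    f ^ (ℓ ^ i) = PowerSeries.expand (ℓ ^ i) (pow_ne_zero i hℓ.out.ne_zero) f := by
  induction i with
  | zero =>
    have : PowerSeries.expand (ℓ ^ 0) (pow_ne_zero 0 hℓ.out.ne_zero) f
        = PowerSeries.expand 1 one_ne_zero f := by congr 1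
    rw [this, PowerSeries.expand_one_apply]
    simp
  | succ i ih =>
    have h1 : PowerSeries.expand (ℓ ^ (i + 1)) (pow_ne_zero (i + 1) hℓ.out.ne_zero) f
      = PowerSeries.expand (ℓ ^ i * ℓ) (Nat.mul_ne_zero (pow_ne_zero i hℓ.out.ne_zero)
        hℓ.out.ne_zero) f := by
      congr 1
    rw [h1, PowerSeries.expand_mul (ℓ ^ i) (pow_ne_zero i hℓ.out.ne_zero) ℓ hℓ.out.ne_zero f,
      ← pow_char_eq_expand ℓ f hf, map_pow, ← ih, pow_succ, pow_mul]

lemma natCast_pow_char (n : ℕ) : ((n : k)) ^ ℓ = (n : k) := by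
  have := map_natCast (frobenius k ℓ) n
  rwa [frobenius_def] at this

lemma FF_pow_char (d i : ℕ) : (FF k d) ^ (ℓ ^ i) =
    PowerSeries.expand (ℓ ^ i) (pow_ne_zero i hℓ.out.ne_zero) (FF k d) :=
  pow_pow_char_eq_expand ℓ _ (fun n => by
    rw [FF, PowerSeries.coeff_mk]; exact natCast_pow_char ℓ _) i

lemma LL_pow_char (d i : ℕ) : (LL k d) ^ (ℓ ^ i) =
    PowerSeries.expand (ℓ ^ i) (pow_ne_zero i hℓ.out.ne_zero) (LL k d) :=
  pow_pow_char_eq_expand ℓ _ (fun n => by
    rw [LL, PowerSeries.coeff_mk]; exact natCast_pow_char ℓ _) i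

/-- algebraic elements satisfy an additive relation. -/
lemma rel_of_isAlgebraic (f : PowerSeries k) (hf : IsAlgebraic (Polynomial k) f) :
    ∃ (N : ℕ) (A : ℕ → Polynomial k), ∑ i ∈ Finset.range N, (A i : PowerSeries k) *
      f ^ (ℓ ^ i) = 0 ∧ ∃ i < N, A i ≠ 0 := by
  classical
  obtain ⟨a, ha, hint⟩ := hf.exists_integral_multiple
  set g := a • f with hg
  have hfg := hint.fg_adjoin_singleton
  set S := Subalgebra.toSubmodule (Algebra.adjoin (Polynomial k) {g}) with hS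
  haveI : IsNoetherian (Polynomial k) S := isNoetherian_of_fg_of_noetherian S hfg
  have hmem : ∀ i : ℕ, g ^ (ℓ ^ i) ∈ S := by
    intro i
    exact Subalgebra.pow_mem _ (Algebra.self_mem_adjoin_singleton _ _) _
  have hnot : ¬ LinearIndependent (Polynomial k) (fun i : ℕ => (⟨g ^ (ℓ ^ i), hmem i⟩ : S)) := by
    intro hLI
    have := hLI.finite_of_isNoetherian
    exact not_finite ℕ
  rw [not_linearIndependent_iff] at hnot
  obtain ⟨s, c, hsum, i1, hi1, hci1⟩ := hnot
  obtain ⟨N, hN⟩ : ∃ N, s ⊆ Finset.range N := by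
    refine ⟨s.sup id + 1, fun x hx => ?_⟩
    rw [Finset.mem_range]
    have := Finset.le_sup (f := id) hx
    simp only [id] at this
    omega
  refine ⟨N, fun i => if i ∈ s then c i * a ^ (ℓ ^ i) else 0, ?_, i1, ?_, ?_⟩
  · have h1 := congrArg (Subtype.val) hsum
    rw [Submodule.coe_sum] at h1
    simp only [Submodule.coe_smul, Submodule.coe_zero] at h1
    rw [← h1]
    symm
    rw [← Finset.sum_subset hN]
    · apply Finset.sum_congr rfl
      intro i hi
      simp only [if_pos hi]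
      rw [hg, Algebra.smul_def, smul_pow, Algebra.smul_def, ← mul_assoc, ← map_mul]
      rfl
    · intro i _ his
      simp only [if_neg his]; simp
  · exact Finset.mem_range.mp (hN hi1)
  · simp only [if_pos hi1]
    exact mul_ne_zero hci1 (pow_ne_zero _ ha)

/-- section operator. -/
noncomputable def Sec (ℓ r : ℕ) (g : PowerSeries k) : PowerSeries k :=
  PowerSeries.mk fun n => PowerSeries.coeff (ℓ * n + r) g

omit hℓ [CharP k ℓ] in
lemma Sec_mul_expand (hℓ0 : ℓ ≠ 0) (r : ℕ) (hr : r < ℓ) (A h : PowerSeries k) :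
    Sec ℓ r (A * PowerSeries.expand ℓ hℓ0 h) = Sec ℓ r A * h := by
  ext n
  rw [Sec, PowerSeries.coeff_mk, PowerSeries.coeff_mul, PowerSeries.coeff_mul]
  symm
  rw [← Finset.sum_filter_add_sum_filter_not (Finset.HasAntidiagonal.antidiagonal (ℓ * n + r))
    (fun x => ℓ ∣ x.2)]
  have h0 : ∑ x ∈ (Finset.HasAntidiagonal.antidiagonal (ℓ * n + r)).filter (fun x => ¬ ℓ ∣ x.2),
      PowerSeries.coeff x.1 A * PowerSeries.coeff x.2 (PowerSeries.expand ℓ hℓ0 h) = 0 := by
    apply Finset.sum_eq_zero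
    intro x hx
    rw [Finset.mem_filter] at hx
    rw [PowerSeries.coeff_expand, if_neg hx.2, mul_zero]
  rw [h0, add_zero]
  refine Finset.sum_bij (fun x _ => (ℓ * x.1 + r, ℓ * x.2)) ?_ ?_ ?_ ?_
  · rintro ⟨a, b⟩ hab
    rw [Finset.HasAntidiagonal.mem_antidiagonal] at hab
    rw [Finset.mem_filter, Finset.HasAntidiagonal.mem_antidiagonal]
    simp only at hab ⊢
    refine ⟨?_, Dvd.intro _ rfl⟩
    rw [← hab]; ring
  · rintro ⟨a, b⟩ _ ⟨a', b'⟩ _ heq
    simp only [Prod.mk.injEq] at heq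
    have hpos : 0 < ℓ := Nat.pos_of_ne_zero hℓ0
    have h1 : ℓ * a = ℓ * a' := by omega
    have h2 := Nat.eq_of_mul_eq_mul_left hpos h1
    have h3 := Nat.eq_of_mul_eq_mul_left hpos heq.2
    rw [h2, h3]
  · rintro ⟨a, b⟩ hab
    rw [Finset.mem_filter, Finset.HasAntidiagonal.mem_antidiagonal] at hab
    obtain ⟨hab1, b', hb'⟩ := hab
    simp only at hab1 hb'
    have hpos : 0 < ℓ := Nat.pos_of_ne_zero hℓ0
    have hble : b' ≤ n := by
      by_contra hcon
      push Not at hcon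
      have : ℓ * (n + 1) ≤ ℓ * b' := Nat.mul_le_mul_left ℓ hcon
      rw [mul_add, mul_one] at this
      omega
    refine ⟨(n - b', b'), ?_, ?_⟩
    · rw [Finset.HasAntidiagonal.mem_antidiagonal]
      simp only
      omega
    · simp only [Prod.mk.injEq]
      refine ⟨?_, hb'.symm⟩
      rw [Nat.mul_sub]
      have : ℓ * b' ≤ ℓ * n := Nat.mul_le_mul_left ℓ hble
      omega
  · rintro ⟨a, b⟩ _
    simp only
    rw [Sec, PowerSeries.coeff_mk, PowerSeries.coeff_expand_mul]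

/-- polynomial sections. -/
noncomputable def psec (ℓ r : ℕ) (P : Polynomial k) : Polynomial k :=
  ∑ j ∈ Finset.range (P.natDegree + 1), Polynomial.monomial j (P.coeff (ℓ * j + r))

omit [CharP k ℓ] in
lemma psec_coeff (r j : ℕ) (P : Polynomial k) : (psec ℓ r P).coeff j = P.coeff (ℓ * j + r) := by
  unfold psec
  rw [Polynomial.finset_sum_coeff]
  simp only [Polynomial.coeff_monomial]
  rw [Finset.sum_ite_eq' (Finset.range (P.natDegree + 1)) j]
  split_ifs with h
  · rfl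
  · rw [Finset.mem_range] at h
    symm
    apply Polynomial.coeff_eq_zero_of_natDegree_lt
    have : j ≤ ℓ * j := Nat.le_mul_of_pos_left _ hℓ.out.pos
    omega

omit [CharP k ℓ] in
lemma psec_coe (r : ℕ) (P : Polynomial k) : ((psec ℓ r P : Polynomial k) : PowerSeries k)
    = Sec ℓ r (P : PowerSeries k) := by
  ext n
  rw [Polynomial.coeff_coe, psec_coeff, Sec, PowerSeries.coeff_mk, Polynomial.coeff_coe]

omit [CharP k ℓ] in
/-- reduction to `A 0 ≠ 0`. -/
lemma rel_reduce (f : PowerSeries k) (N : ℕ) : ∀ (A : ℕ → Polynomial k),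
    ∑ i ∈ Finset.range N, (A i : PowerSeries k) *
      PowerSeries.expand (ℓ ^ i) (pow_ne_zero i hℓ.out.ne_zero) f = 0 →
    (∃ i < N, A i ≠ 0) →
    ∃ (M : ℕ) (B : ℕ → Polynomial k), ∑ i ∈ Finset.range M, (B i : PowerSeries k) *
      PowerSeries.expand (ℓ ^ i) (pow_ne_zero i hℓ.out.ne_zero) f = 0 ∧ 0 < M ∧ B 0 ≠ 0 := by
  induction N with
  | zero => rintro A _ ⟨i, hi, _⟩; omega
  | succ N ih =>
    rintro A hrel ⟨i1, hi1, hAi1⟩
    by_cases hA0 : A 0 = 0
    swap
    · exact ⟨N + 1, A, hrel, by omega, hA0⟩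
    have hi10 : i1 ≠ 0 := by rintro rfl; exact hAi1 hA0
    obtain ⟨i2, rfl⟩ : ∃ i2, i1 = i2 + 1 := ⟨i1 - 1, by omega⟩
    obtain ⟨j1, hj1⟩ : ∃ j1, (A (i2 + 1)).coeff j1 ≠ 0 := by
      by_contra h
      push Not at h
      exact hAi1 (Polynomial.ext (by simpa using h))
    set r := j1 % ℓ with hr
    have hrl : r < ℓ := Nat.mod_lt _ hℓ.out.pos
    rw [Finset.sum_range_succ', hA0] at hrel
    simp only [Polynomial.coe_zero, zero_mul, add_zero] at hrel
    have hstep : ∀ i, PowerSeries.expand (ℓ ^ (i + 1)) (pow_ne_zero (i + 1) hℓ.out.ne_zero) f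
        = PowerSeries.expand ℓ hℓ.out.ne_zero
          (PowerSeries.expand (ℓ ^ i) (pow_ne_zero i hℓ.out.ne_zero) f) := by
      intro i
      rw [← PowerSeries.expand_mul ℓ hℓ.out.ne_zero (ℓ ^ i) (pow_ne_zero i hℓ.out.ne_zero) f]
      have e : ℓ ^ (i + 1) = ℓ * ℓ ^ i := by rw [pow_succ, mul_comm]
      ext n
      rw [PowerSeries.coeff_expand, PowerSeries.coeff_expand, e]
    apply ih (fun i => psec ℓ r (A (i + 1)))
    · have h1 := congrArg (Sec ℓ r) hrel
      have h2 : Sec ℓ r (0 : PowerSeries k) = 0 := by ext n; simp [Sec]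
      have h3 : Sec ℓ r (∑ i ∈ Finset.range N, (A (i + 1) : PowerSeries k) *
          PowerSeries.expand (ℓ ^ (i + 1)) (pow_ne_zero (i + 1) hℓ.out.ne_zero) f)
          = ∑ i ∈ Finset.range N, Sec ℓ r ((A (i + 1) : PowerSeries k) *
          PowerSeries.expand (ℓ ^ (i + 1)) (pow_ne_zero (i + 1) hℓ.out.ne_zero) f) := by
        ext n
        simp only [Sec, PowerSeries.coeff_mk, map_sum]
      rw [h3, h2] at h1
      rw [← h1]
      apply Finset.sum_congr rfl
      intro i _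
      rw [hstep, Sec_mul_expand ℓ hℓ.out.ne_zero r hrl, psec_coe]
    · refine ⟨i2, by omega, ?_⟩
      intro h
      apply hj1
      have h4 : (psec ℓ r (A (i2 + 1))).coeff (j1 / ℓ) = 0 := by
        rw [h]; simp
      rw [psec_coeff, hr, Nat.div_add_mod] at h4
      exact h4

end frob

end Run7.h751
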