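import Mathlib

open PowerSeries Finset

namespace Run7.h751

section evt
variable {P : Type*} [CommRing P]

/-- truncated evaluation. -/
noncomputable def evt (n : ℕ) (x : P) (G : PowerSeries P) : P :=
  ∑ e ∈ Finset.range n, x ^ e * PowerSeries.coeff e G

lemma evt_eq_eval (n : ℕ) (x : P) (G : PowerSeries P) :
    evt n x G = (PowerSeries.trunc n G).eval x := by
  unfold evt
  rw [← Polynomial.eval₂_id, PowerSeries.eval₂_trunc_eq_sum_range]
  apply Finset.sum_congr rfl
  intro e _
  rw [RingHom.id_apply, mul_comm]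

lemma evt_add (n : ℕ) (x : P) (G H : PowerSeries P) :
    evt n x (G + H) = evt n x G + evt n x H := by
  simp only [evt_eq_eval, map_add, Polynomial.eval_add]

lemma evt_sub (n : ℕ) (x : P) (G H : PowerSeries P) :
    evt n x (G - H) = evt n x G - evt n x H := by
  simp only [evt_eq_eval, map_sub, Polynomial.eval_sub]

lemma evt_C_mul (n : ℕ) (x : P) (a : P) (G : PowerSeries P) :
    evt n x (PowerSeries.C a * G) = a * evt n x G := by
  unfold evt
  rw [Finset.mul_sum]
  apply Finset.sum_congr rfl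
  intro e _
  rw [PowerSeries.coeff_C_mul]; ring

lemma eval_dvd_of_X_pow_dvd (n : ℕ) (x : P) (A B : Polynomial P)
    (h : ∀ e < n, A.coeff e = B.coeff e) : x ^ n ∣ A.eval x - B.eval x := by
  have h1 : (Polynomial.X : Polynomial P) ^ n ∣ A - B := by
    rw [Polynomial.X_pow_dvd_iff]
    intro e he
    rw [Polynomial.coeff_sub, h e he, sub_self]
  obtain ⟨c, hc⟩ := h1
  refine ⟨c.eval x, ?_⟩
  rw [← Polynomial.eval_sub, hc]
  simp

lemma evt_mul (n : ℕ) (x : P) (G H : PowerSeries P) :
    x ^ n ∣ evt n x (G * H) - evt n x G * evt n x H := by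
  rw [evt_eq_eval, evt_eq_eval, evt_eq_eval, ← Polynomial.eval_mul]
  apply eval_dvd_of_X_pow_dvd
  intro e he
  rw [PowerSeries.coeff_trunc, if_pos he, ← Polynomial.coeff_coe (_ * _), Polynomial.coe_mul,
    PowerSeries.coeff_mul, PowerSeries.coeff_mul]
  apply Finset.sum_congr rfl
  rintro ⟨a, b⟩ hab
  rw [Finset.HasAntidiagonal.mem_antidiagonal] at hab
  simp only at hab ⊢
  rw [Polynomial.coeff_coe, Polynomial.coeff_coe, PowerSeries.coeff_trunc,
    PowerSeries.coeff_trunc, if_pos (by omega), if_pos (by omega)]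

lemma evt_expand (n : ℕ) (x : P) (a : ℕ) (ha : a ≠ 0) (G : PowerSeries P) :
    x ^ n ∣ evt n x (PowerSeries.expand a ha G) - evt n (x ^ a) G := by
  have hpos : 0 < a := Nat.pos_of_ne_zero ha
  have h1 : evt n (x ^ a) G = (Polynomial.expand P a (PowerSeries.trunc n G)).eval x := by
    rw [evt_eq_eval, Polynomial.expand_eval]
  rw [h1, evt_eq_eval]
  apply eval_dvd_of_X_pow_dvd
  intro e he
  rw [PowerSeries.coeff_trunc, if_pos he, PowerSeries.coeff_expand, Polynomial.coeff_expand hpos]
  split_ifs with h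
  · rw [PowerSeries.coeff_trunc, if_pos]
    exact lt_of_le_of_lt (Nat.div_le_self _ _) he
  · rfl

lemma evt_mono (n m : ℕ) (hnm : n ≤ m) (x : P) (G : PowerSeries P) :
    x ^ n ∣ evt m x G - evt n x G := by
  rw [evt_eq_eval, evt_eq_eval]
  apply eval_dvd_of_X_pow_dvd
  intro e he
  rw [PowerSeries.coeff_trunc, PowerSeries.coeff_trunc, if_pos he, if_pos (by omega)]

end evt

section seqs
variable {k : Type*} [Field k]

/-- periodicity of the solutions of the scalar recurrence. -/
lemma per_scalar (ℓ : ℕ) [hℓ : Fact ℓ.Prime] [CharP k ℓ] (hℓ2 : ℓ ≠ 2) (d : ℕ)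
    (t : ℕ → k) (h : ∀ i, 2 * t i = t (i + 1) + 2 * t (i + d) - t (i + d + 1)) (i : ℕ) :
    t (i + d * (ℓ * (ℓ - 1))) = t i := by
  set w : ℕ → k := fun i => 2 * t i - t (i + 1) with hw
  have hwper : ∀ i, w (i + d) = w i := by
    intro i
    simp only [hw]
    linear_combination -(h i)
  have hwper' : ∀ n i, w (i + d * n) = w i := by
    intro n
    induction n with
    | zero => intro i; simp
    | succ n ih =>
      intro i
      have : i + d * (n + 1) = (i + d * n) + d := by ring
      rw [this, hwper, ih]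
  have hstep : ∀ i, t (i + 1) = 2 * t i - w i := by intro i; simp only [hw]; ring
  -- t (i+j) = 2^j t i - W_j i
  have hW : ∀ j i, t (i + j) = 2 ^ j * t i - ∑ a ∈ Finset.range j, 2 ^ (j - 1 - a) * w (i + a) := by
    intro j
    induction j with
    | zero => intro i; simp
    | succ j ih =>
      intro i
      have e1 : i + (j + 1) = (i + j) + 1 := by ring
      rw [e1, hstep, ih, Finset.sum_range_succ]
      have e2 : ∀ a ∈ Finset.range j, (2 : k) ^ (j + 1 - 1 - a) * w (i + a)
          = 2 * (2 ^ (j - 1 - a) * w (i + a)) := by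
        intro a ha
        rw [Finset.mem_range] at ha
        have : j + 1 - 1 - a = (j - 1 - a) + 1 := by omega
        rw [this, pow_succ]; ring
      rw [Finset.sum_congr rfl e2, ← Finset.mul_sum]
      have e3 : j + 1 - 1 - j = 0 := by omega
      rw [e3]
      ring
  set W : ℕ → k := fun i => ∑ a ∈ Finset.range d, 2 ^ (d - 1 - a) * w (i + a) with hWd
  have hWper : ∀ n i, W (i + d * n) = W i := by
    intro n i
    simp only [hWd]
    apply Finset.sum_congr rfl
    intro a _
    have : i + d * n + a = (i + a) + d * n := by ring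
    rw [this, hwper']
  have hT : ∀ n i, t (i + d * n) = (2 ^ d) ^ n * t i - W i * ∑ j ∈ Finset.range n, (2 ^ d) ^ j := by
    intro n
    induction n with
    | zero => intro i; simp
    | succ n ih =>
      intro i
      have e1 : i + d * (n + 1) = (i + d * n) + d := by ring
      have e2 := hW d (i + d * n)
      rw [e1, e2]
      have e3 : ∑ a ∈ Finset.range d, 2 ^ (d - 1 - a) * w (i + d * n + a) = W i := by
        have := hWper n i
        simpa only [hWd] using this
      rw [e3, ih, geom_sum_succ]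
      ring
  rw [hT (ℓ * (ℓ - 1)) i]
  have h2ne : (2 : k) ≠ 0 := by
    intro h2
    have h3 : ((2 : ℕ) : k) = 0 := by exact_mod_cast h2
    rw [CharP.cast_eq_zero_iff k ℓ] at h3
    exact hℓ2 ((Nat.prime_dvd_prime_iff_eq hℓ.out Nat.prime_two).mp h3)
  have hfer : (2 : k) ^ (ℓ - 1) = 1 := by
    have h3 : (2 : k) ^ ℓ = 2 := by
      have := map_ofNat (frobenius k ℓ) 2
      rwa [frobenius_def] at this
    have h4 : ℓ = (ℓ - 1) + 1 := by have := hℓ.out.one_lt; omega
    rw [h4, pow_succ] at h3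
    exact mul_right_cancel₀ h2ne (by rw [one_mul]; exact h3)
  have h5 : ((2 : k) ^ d) ^ (ℓ * (ℓ - 1)) = 1 := by
    rw [← pow_mul, mul_comm ℓ (ℓ - 1), ← mul_assoc, mul_comm d (ℓ - 1), mul_assoc, pow_mul, hfer,
      one_pow]
  have h6 : ∑ j ∈ Finset.range (ℓ * (ℓ - 1)), ((2 : k) ^ d) ^ j = 0 := by
    by_cases h1 : (2 : k) ^ d = 1
    · rw [h1]
      simp
    · have := geom_sum_mul ((2 : k) ^ d) (ℓ * (ℓ - 1))
      rw [h5, sub_self] at this
      exact (mul_eq_zero.mp this).resolve_right (sub_ne_zero.mpr h1)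
  rw [h5, h6]
  ring

/-- the limit sequence. -/
noncomputable def lim (g : ℕ) (s : ℕ → PowerSeries k) (i : ℕ) : PowerSeries k :=
  PowerSeries.mk fun n => PowerSeries.coeff n (s (i + g * n))

/-- stability of the coefficients of `lim`. -/
lemma coeff_lim (g : ℕ) (s : ℕ → PowerSeries k) (M : ℕ → ℕ) (hM : ∀ i, i < M i) (hg : 1 ≤ g)
    (hs : ∀ i n, n < M i → PowerSeries.coeff n (s (i + g)) = PowerSeries.coeff n (s i))
    (hMm : Monotone M) (i n N : ℕ) (hN : n < M (i + g * N)) :
    PowerSeries.coeff n (lim g s i) = PowerSeries.coeff n (s (i + g * N)) := by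
  have hst : ∀ N, n < M (i + g * N) → ∀ j, PowerSeries.coeff n (s (i + g * (N + j))) =
      PowerSeries.coeff n (s (i + g * N)) := by
    intro N hN j
    induction j with
    | zero => rfl
    | succ j ih =>
      rw [← ih]
      have e : i + g * (N + (j + 1)) = (i + g * (N + j)) + g := by ring
      rw [e]
      apply hs
      exact lt_of_lt_of_le hN (hMm (by
        have : g * N ≤ g * (N + j) := Nat.mul_le_mul_left g (by omega)
        omega))
  unfold lim
  rw [PowerSeries.coeff_mk]
  have hn1 : n < M (i + g * n) := by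
    have h2 := hM (i + g * n)
    have h3 : n ≤ g * n := Nat.le_mul_of_pos_left _ hg
    omega
  rw [← hst N hN n, ← hst n hn1 N, Nat.add_comm N n]

lemma lim_per (g : ℕ) (s : ℕ → PowerSeries k) (M : ℕ → ℕ) (hM : ∀ i, i < M i) (hg : 1 ≤ g)
    (hs : ∀ i n, n < M i → PowerSeries.coeff n (s (i + g)) = PowerSeries.coeff n (s i))
    (hMm : Monotone M) (i : ℕ) : lim g s (i + g) = lim g s i := by
  ext n
  have hn1 : n < M (i + g * (n + 1)) := by
    have h2 := hM (i + g * (n + 1))
    have h3 : n + 1 ≤ g * (n + 1) := Nat.le_mul_of_pos_left _ hg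
    omega
  have hn2 : n < M ((i + g) + g * n) := by
    have e : (i + g) + g * n = i + g * (n + 1) := by ring
    rw [e]; exact hn1
  rw [coeff_lim g s M hM hg hs hMm i n (n + 1) hn1, coeff_lim g s M hM hg hs hMm (i + g) n n hn2]
  have e : (i + g) + g * n = i + g * (n + 1) := by ring
  rw [e]

lemma lim_sub (g : ℕ) (s : ℕ → PowerSeries k) (M : ℕ → ℕ) (hM : ∀ i, i < M i) (hg : 1 ≤ g)
    (hs : ∀ i n, n < M i → PowerSeries.coeff n (s (i + g)) = PowerSeries.coeff n (s i))
    (hMm : Monotone M) (i : ℕ) : (X : PowerSeries k) ^ (M i) ∣ s i - lim g s i := by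
  rw [PowerSeries.X_pow_dvd_iff]
  intro n hn
  have := coeff_lim g s M hM hg hs hMm i n 0 (by simpa using hn)
  rw [map_sub, this]
  simp

/-- periodic series divisible by arbitrarily high powers vanish. -/
lemma eq_zero_of_per (g : ℕ) (hg : 1 ≤ g) (c : ℕ → PowerSeries k) (hc : ∀ i, c (i + g) = c i)
    (M : ℕ → ℕ) (hM : ∀ i, i ≤ M i) (i0 : ℕ)
    (h : ∀ i, i0 ≤ i → (X : PowerSeries k) ^ (M i) ∣ c i) : ∀ i, c i = 0 := by
  intro i
  have hcN : ∀ N, c (i + g * N) = c i := by
    intro N
    induction N with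
    | zero => simp
    | succ N ih =>
      have e : i + g * (N + 1) = (i + g * N) + g := by ring
      rw [e, hc, ih]
  ext n
  have h1 : i0 + n + 1 ≤ g * (i0 + n + 1) := Nat.le_mul_of_pos_left _ hg
  have h2 := h (i + g * (i0 + n + 1)) (by omega)
  rw [hcN] at h2
  rw [PowerSeries.X_pow_dvd_iff] at h2
  rw [map_zero]
  apply h2
  have := hM (i + g * (i0 + n + 1))
  omega

end seqs

end Run7.h751
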