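import Pool.Agent.Run7.h751.An1

open PowerSeries Finset

namespace Run7.h751

variable {k : Type*} [Field k]

/-- the coefficient sequences `U_e(i)`. -/
noncomputable def UU (θ : ℕ → k) (d : ℕ) (u : ℕ → PowerSeries k) : ℕ → ℕ → PowerSeries k
  | 0, i => u i
  | (e + 1), i => ∑ j ∈ Finset.range (e + 2), θ j • ((2 : k)⁻¹ • (
      (if _h : 2 ∣ (e + 1 - j) ∧ (e + 1 - j) / 2 < e + 1 then UU θ d u ((e + 1 - j) / 2) (i + 1)
        else 0)
      + 2 * (if _h : 2 ^ d ∣ (e + 1 - j) ∧ (e + 1 - j) / 2 ^ d < e + 1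
        then UU θ d u ((e + 1 - j) / 2 ^ d) (i + d) else 0)
      - (if _h : 2 ^ (d + 1) ∣ (e + 1 - j) ∧ (e + 1 - j) / 2 ^ (d + 1) < e + 1
        then UU θ d u ((e + 1 - j) / 2 ^ (d + 1)) (i + d + 1) else 0)))
termination_by e _ => e
decreasing_by
  all_goals omega

lemma two_mul_eq_smul (a : PowerSeries k) : 2 * a = (2 : k) • a := by
  rw [PowerSeries.smul_eq_C_mul, map_ofNat]

/-- one step of the 2-power operator on coefficient sequences. -/
noncomputable def cc (d : ℕ) (U : ℕ → ℕ → PowerSeries k) (e i : ℕ) : PowerSeries k :=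
  (2 : k)⁻¹ • ((if 2 ∣ e then U (e / 2) (i + 1) else 0)
      + 2 * (if 2 ^ d ∣ e then U (e / 2 ^ d) (i + d) else 0)
      - (if 2 ^ (d + 1) ∣ e then U (e / 2 ^ (d + 1)) (i + d + 1) else 0))

lemma UU_eq (θ : ℕ → k) (hθ : θ 0 = 1) (h2 : (2 : k) ≠ 0) (d : ℕ) (hd : 1 ≤ d)
    (u : ℕ → PowerSeries k)
    (hu : ∀ i, 2 * u i = u (i + 1) + 2 * u (i + d) - u (i + d + 1)) (e i : ℕ) :
    UU θ d u e i = ∑ j ∈ Finset.range (e + 1), θ j • cc d (UU θ d u) (e - j) i := by
  cases e with
  | zero =>
    simp only [zero_add, Finset.range_one, Finset.sum_singleton, hθ, one_smul]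
    unfold cc
    simp only [Nat.sub_zero, dvd_zero, if_true, Nat.zero_div]
    simp only [UU]
    rw [← hu i, two_mul_eq_smul, smul_smul, inv_mul_cancel₀ h2, one_smul]
  | succ e =>
    rw [UU]
    apply Finset.sum_congr rfl
    intro j _
    unfold cc
    have hp : ∀ a, 1 ≤ a → (e + 1 - j) / 2 ^ a < e + 1 := by
      intro a ha
      have h1 : (e + 1 - j) / 2 ^ a ≤ (e + 1 - j) / 2 := by
        apply Nat.div_le_div_left _ (by norm_num)
        calc 2 = 2 ^ 1 := by norm_num
          _ ≤ 2 ^ a := Nat.pow_le_pow_right (by norm_num) ha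
      omega
    have h1 := hp 1 (le_refl 1)
    rw [pow_one] at h1
    have h3 := hp d hd
    have h4 := hp (d + 1) (by omega)
    simp only [h1, h3, h4, and_true, dite_eq_ite]

/-- the formal series attached to `u`. -/
noncomputable def GG (θ : ℕ → k) (d : ℕ) (u : ℕ → PowerSeries k) (i : ℕ) :
    PowerSeries (PowerSeries k) :=
  PowerSeries.mk fun e => UU θ d u e i

lemma GG_eq (Cs : PowerSeries k) (hθ : PowerSeries.coeff 0 Cs = 1) (h2 : (2 : k) ≠ 0) (d : ℕ)
    (hd : 1 ≤ d) (u : ℕ → PowerSeries k)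
    (hu : ∀ i, 2 * u i = u (i + 1) + 2 * u (i + d) - u (i + d + 1)) (i : ℕ) :
    2 * GG (fun e => PowerSeries.coeff e Cs) d u i =
      PowerSeries.map (PowerSeries.C) Cs *
      (PowerSeries.expand 2 two_ne_zero (GG (fun e => PowerSeries.coeff e Cs) d u (i + 1))
      + 2 * PowerSeries.expand (2 ^ d) (by positivity) (GG (fun e => PowerSeries.coeff e Cs) d u (i + d))
      - PowerSeries.expand (2 ^ (d + 1)) (by positivity)
        (GG (fun e => PowerSeries.coeff e Cs) d u (i + d + 1))) := by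
  set θ : ℕ → k := fun e => PowerSeries.coeff e Cs with hθd
  have h2C : ∀ G : PowerSeries (PowerSeries k), 2 * G = PowerSeries.C (2 : PowerSeries k) * G := by
    intro G; rw [map_ofNat]
  ext1 e
  rw [h2C (GG θ d u i), PowerSeries.coeff_C_mul, PowerSeries.coeff_mul,
    Finset.Nat.sum_antidiagonal_eq_sum_range_succ_mk]
  have hGi : PowerSeries.coeff e (GG θ d u i) = UU θ d u e i := by
    rw [GG, PowerSeries.coeff_mk]
  rw [hGi, UU_eq θ hθ h2 d hd u hu e i, Finset.mul_sum]
  apply Finset.sum_congr rfl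
  intro j hj
  simp only
  rw [PowerSeries.coeff_map, map_sub, map_add, h2C, PowerSeries.coeff_C_mul,
    PowerSeries.coeff_expand, PowerSeries.coeff_expand, PowerSeries.coeff_expand]
  simp only [GG, PowerSeries.coeff_mk]
  unfold cc
  rw [← PowerSeries.smul_eq_C_mul, two_mul_eq_smul, smul_comm (2 : k) (θ j), smul_smul (2 : k),
    mul_inv_cancel₀ h2, one_smul]

/-- the expansion theorem. -/
theorem expansion (Cs : PowerSeries k) (hθ : PowerSeries.coeff 0 Cs = 1) (h2 : (2 : k) ≠ 0) (d : ℕ)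
    (hd : 1 ≤ d) (M : ℕ → ℕ) (hM : ∀ i, M (i + 1) = 2 * M i) (x : ℕ → PowerSeries k)
    (hx : ∀ i, x (i + 1) = x i ^ 2) (hxM : ∀ i, (X : PowerSeries k) ^ (M i) ∣ x i)
    (Cx : ℕ → PowerSeries k)
    (hCx : ∀ i n, (X : PowerSeries k) ^ (n * M i) ∣ Cx i -
      evt n (x i) (PowerSeries.map (PowerSeries.C) Cs))
    (s u : ℕ → PowerSeries k)
    (hs : ∀ i, 2 * s i = Cx i * (s (i + 1) + 2 * s (i + d) - s (i + d + 1)))
    (hu : ∀ i, 2 * u i = u (i + 1) + 2 * u (i + d) - u (i + d + 1))
    (h0 : ∀ i, (X : PowerSeries k) ^ (M i) ∣ s i - u i) (n : ℕ) :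
    ∀ i, (X : PowerSeries k) ^ (n * M i) ∣ s i -
      evt n (x i) (GG (fun e => PowerSeries.coeff e Cs) d u i) := by
  set θ : ℕ → k := fun e => PowerSeries.coeff e Cs with hθd
  have hMj : ∀ j i, M (i + j) = 2 ^ j * M i := by
    intro j
    induction j with
    | zero => intro i; simp
    | succ j ih => intro i; rw [← add_assoc, hM, ih, pow_succ]; ring
  have hxj : ∀ j i, x (i + j) = x i ^ (2 ^ j) := by
    intro j
    induction j with
    | zero => intro i; simp
    | succ j ih => intro i; rw [← add_assoc, hx, ih, ← pow_mul, ← pow_succ]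
  have hxn : ∀ i n, (X : PowerSeries k) ^ (n * M i) ∣ x i ^ n := by
    intro i n
    rw [mul_comm n, pow_mul]
    exact pow_dvd_pow_of_dvd (hxM i) n
  rcases Nat.eq_zero_or_pos n with rfl | hn
  · intro i; simp
  induction n, hn using Nat.le_induction with
  | base =>
    intro i
    have : evt 1 (x i) (GG θ d u i) = u i := by
      simp [evt, GG, UU]
    show (X : PowerSeries k) ^ (1 * M i) ∣ s i - evt 1 (x i) (GG θ d u i)
    rw [this, one_mul]
    exact h0 i
  | succ n hn ih =>
    intro i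
    set N := n + 1 with hN
    set T : PowerSeries (PowerSeries k) :=
      (PowerSeries.expand 2 two_ne_zero (GG θ d u (i + 1))
      + 2 * PowerSeries.expand (2 ^ d) (by positivity) (GG θ d u (i + d))
      - PowerSeries.expand (2 ^ (d + 1)) (by positivity) (GG θ d u (i + d + 1))) with hT
    have hG : 2 * GG θ d u i = PowerSeries.map (PowerSeries.C) Cs * T :=
      GG_eq Cs hθ h2 d hd u hu i
    have h2C : ∀ G : PowerSeries (PowerSeries k), 2 * G = PowerSeries.C (2 : PowerSeries k) * G := by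
      intro G; rw [map_ofNat]
    -- comparison for each of the three terms
    have hcomp : ∀ j, 1 ≤ j → ∀ hj : 2 ^ j ≠ 0, (X : PowerSeries k) ^ (N * M i) ∣
        s (i + j) - evt N (x i) (PowerSeries.expand (2 ^ j) hj (GG θ d u (i + j))) := by
      intro j hj1 hj
      have hle : N * M i ≤ n * M (i + j) := by
        rw [hMj]
        have : 2 ^ 1 ≤ 2 ^ j := Nat.pow_le_pow_right (by norm_num) hj1
        calc N * M i ≤ (n * 2) * M i := Nat.mul_le_mul_right _ (by omega)
          _ ≤ (n * 2 ^ j) * M i := Nat.mul_le_mul_right _ (Nat.mul_le_mul_left n (by simpa using this))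
          _ = n * (2 ^ j * M i) := by ring
      have a1 : (X : PowerSeries k) ^ (N * M i) ∣ s (i + j) - evt n (x (i + j)) (GG θ d u (i + j)) :=
        dvd_trans (pow_dvd_pow _ hle) (ih (i + j))
      have a2 : (X : PowerSeries k) ^ (N * M i) ∣ evt N (x (i + j)) (GG θ d u (i + j)) -
          evt n (x (i + j)) (GG θ d u (i + j)) :=
        dvd_trans (dvd_trans (pow_dvd_pow _ hle) (hxn (i + j) n)) (evt_mono n N (by omega) _ _)
      have a3 : (X : PowerSeries k) ^ (N * M i) ∣ evt N (x i) (PowerSeries.expand (2 ^ j) hj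
          (GG θ d u (i + j))) - evt N (x i ^ (2 ^ j)) (GG θ d u (i + j)) :=
        dvd_trans (hxn i N) (evt_expand N (x i) (2 ^ j) hj _)
      rw [← hxj j i] at a3
      have := (a1.sub a2).sub a3
      have e : s (i + j) - evt N (x i) (PowerSeries.expand (2 ^ j) hj (GG θ d u (i + j))) =
        s (i + j) - evt n (x (i + j)) (GG θ d u (i + j)) -
        (evt N (x (i + j)) (GG θ d u (i + j)) - evt n (x (i + j)) (GG θ d u (i + j))) -
        (evt N (x i) (PowerSeries.expand (2 ^ j) hj
          (GG θ d u (i + j))) - evt N (x (i + j)) (GG θ d u (i + j))) := by ring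
      rw [e]; exact this
    have c1 := hcomp 1 (le_refl 1) (by norm_num)
    have c2 := hcomp d hd (by positivity)
    have c3 := hcomp (d + 1) (by omega) (by positivity)
    have hTe : evt N (x i) T = evt N (x i) (PowerSeries.expand (2 ^ 1) (by norm_num) (GG θ d u (i + 1)))
        + 2 * evt N (x i) (PowerSeries.expand (2 ^ d) (by positivity) (GG θ d u (i + d)))
        - evt N (x i) (PowerSeries.expand (2 ^ (d + 1)) (by positivity) (GG θ d u (i + (d + 1)))) := by
      rw [hT, evt_sub, evt_add, h2C, evt_C_mul]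
      rfl
    have hT2 : (X : PowerSeries k) ^ (N * M i) ∣ (s (i + 1) + 2 * s (i + d) - s (i + d + 1)) -
        evt N (x i) T := by
      rw [hTe]
      have := (c1.add (c2.mul_left 2)).sub c3
      have e : (s (i + 1) + 2 * s (i + d) - s (i + d + 1)) - (evt N (x i) (PowerSeries.expand (2 ^ 1) (by norm_num) (GG θ d u (i + 1)))
        + 2 * evt N (x i) (PowerSeries.expand (2 ^ d) (by positivity) (GG θ d u (i + d)))
        - evt N (x i) (PowerSeries.expand (2 ^ (d + 1)) (by positivity) (GG θ d u (i + (d + 1)))))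
        = s (i + 1) - evt N (x i) (PowerSeries.expand (2 ^ 1) (by norm_num) (GG θ d u (i + 1)))
          + 2 * (s (i + d) - evt N (x i) (PowerSeries.expand (2 ^ d) (by positivity) (GG θ d u (i + d))))
          - (s (i + (d + 1)) - evt N (x i) (PowerSeries.expand (2 ^ (d + 1)) (by positivity) (GG θ d u (i + (d + 1))))) := by
        rw [← add_assoc i d 1]; ring
      rw [e]; exact this
    have hm := dvd_trans (hxn i N) (evt_mul N (x i) (PowerSeries.map (PowerSeries.C) Cs) T)
    rw [← hG, h2C, evt_C_mul] at hm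
    have hc := hCx i N
    -- assemble
    have key : (X : PowerSeries k) ^ (N * M i) ∣ 2 * (s i - evt N (x i) (GG θ d u i)) := by
      have := ((hT2.mul_left (Cx i)).add (hc.mul_right (evt N (x i) T))).sub hm
      have e : 2 * (s i - evt N (x i) (GG θ d u i)) =
        Cx i * (s (i + 1) + 2 * s (i + d) - s (i + d + 1) - evt N (x i) T) +
        (Cx i - evt N (x i) (PowerSeries.map (PowerSeries.C) Cs)) * evt N (x i) T -
        (2 * evt N (x i) (GG θ d u i) -
        evt N (x i) (PowerSeries.map (PowerSeries.C) Cs) * evt N (x i) T) := by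
        rw [mul_sub, hs i]; ring
      rw [e]; exact this
    rw [two_mul_eq_smul, PowerSeries.smul_eq_C_mul] at key
    have hunit : IsUnit (PowerSeries.C (2 : k)) := (isUnit_iff_ne_zero.mpr h2).map _
    exact (hunit.dvd_mul_left).mp key

end Run7.h751
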