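import Pool.Agent.Run7.h751.An2

open PowerSeries Finset

namespace Run7.h751

variable {k : Type*} [Field k]

lemma coeff_two_mul (n : ℕ) (a : PowerSeries k) :
    PowerSeries.coeff n (2 * a) = 2 * PowerSeries.coeff n a := by
  rw [two_mul_eq_smul, PowerSeries.coeff_smul, smul_eq_mul]

lemma cc_per (d : ℕ) (U : ℕ → ℕ → PowerSeries k) (g e : ℕ)
    (h : ∀ e' i, e' ≤ e → U e' (i + g) = U e' i) (i : ℕ) : cc d U e (i + g) = cc d U e i := by
  unfold cc
  have e1 : i + g + 1 = (i + 1) + g := by ring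
  have e2 : i + g + d = (i + d) + g := by ring
  have e3 : (i + d) + g + 1 = (i + d + 1) + g := by ring
  rw [e1, e2, e3, h (e / 2) (i + 1) (Nat.div_le_self _ _), h (e / 2 ^ d) (i + d) (Nat.div_le_self _ _),
    h (e / 2 ^ (d + 1)) (i + d + 1) (Nat.div_le_self _ _)]

lemma UU_per (θ : ℕ → k) (hθ : θ 0 = 1) (h2 : (2 : k) ≠ 0) (d : ℕ) (hd : 1 ≤ d)
    (u : ℕ → PowerSeries k)
    (hu : ∀ i, 2 * u i = u (i + 1) + 2 * u (i + d) - u (i + d + 1)) (g : ℕ)
    (hg : ∀ i, u (i + g) = u i) (e : ℕ) : ∀ i, UU θ d u e (i + g) = UU θ d u e i := by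
  induction e using Nat.strong_induction_on with
  | _ e ih =>
    intro i
    rcases Nat.eq_zero_or_pos e with rfl | he
    · simp only [UU]; exact hg i
    rw [UU_eq θ hθ h2 d hd u hu, UU_eq θ hθ h2 d hd u hu e i]
    apply Finset.sum_congr rfl
    intro j _
    congr 1
    by_cases hj : e - j = 0
    · rw [hj]
      exact cc_per d _ g 0 (fun e' i he' => by
        have : e' = 0 := by omega
        subst this
        simp only [UU]; exact hg i) i
    · -- only strictly smaller indices are used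
      unfold cc
      have e1 : i + g + 1 = (i + 1) + g := by ring
      have e2 : i + g + d = (i + d) + g := by ring
      have e3 : (i + d) + g + 1 = (i + d + 1) + g := by ring
      have hp : ∀ a, 1 ≤ a → (e - j) / 2 ^ a < e := by
        intro a ha
        have h1 : (e - j) / 2 ^ a ≤ (e - j) / 2 := by
          apply Nat.div_le_div_left _ (by norm_num)
          calc 2 = 2 ^ 1 := by norm_num
            _ ≤ 2 ^ a := Nat.pow_le_pow_right (by norm_num) ha
        omega
      have h1 := hp 1 (le_refl 1)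
      rw [pow_one] at h1
      rw [e1, e2, e3, ih _ h1 (i + 1), ih _ (hp d hd) (i + d), ih _ (hp (d + 1) (by omega)) (i + d + 1)]

/-- the killing lemma. -/
lemma kill (g : ℕ) (hg : 1 ≤ g) (H : ℕ → PowerSeries (PowerSeries k))
    (hper : ∀ e i, PowerSeries.coeff e (H (i + g)) = PowerSeries.coeff e (H i))
    (hdiv : ∀ n i, (X : PowerSeries k) ^ (n * 2 ^ i) ∣ evt n ((X : PowerSeries k) ^ (2 ^ i)) (H i)) :
    ∀ e i, PowerSeries.coeff e (H i) = 0 := by
  intro e
  induction e using Nat.strong_induction_on with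
  | _ e ih =>
    refine eq_zero_of_per g hg _ (hper e) (fun i => 2 ^ i) (fun i => Nat.lt_two_pow_self.le) 0 ?_
    intro i _
    have h1 := hdiv (e + 1) i
    unfold evt at h1
    rw [Finset.sum_range_succ, Finset.sum_eq_zero, zero_add] at h1
    · have e1 : (X : PowerSeries k) ^ ((e + 1) * 2 ^ i) = (X ^ (2 ^ i)) ^ e * X ^ (2 ^ i) := by
        rw [← pow_mul, ← pow_add]; congr 1; ring
      rw [e1] at h1
      exact (mul_dvd_mul_iff_left (pow_ne_zero _ (pow_ne_zero _ PowerSeries.X_ne_zero))).mp h1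
    · intro a ha
      rw [ih a (Finset.mem_range.mp ha) i, mul_zero]

/-- orbit data. -/
noncomputable def ox (η : k) (m i : ℕ) : PowerSeries k :=
  PowerSeries.C (η ^ (2 ^ i)) * X ^ (m * 2 ^ i)

/-- evaluation of a series at `(η q^m)^{2^i}`. -/
noncomputable def oev (η : k) (m : ℕ) (i : ℕ) (f : PowerSeries k) : PowerSeries k :=
  if hm : m * 2 ^ i ≠ 0 then PowerSeries.expand (m * 2 ^ i) hm (PowerSeries.rescale (η ^ (2 ^ i)) f)
  else 0

lemma ox_succ (η : k) (m i : ℕ) : ox η m (i + 1) = ox η m i ^ 2 := by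
  unfold ox
  rw [mul_pow, ← map_pow, ← pow_mul, ← pow_mul]
  congr 2
  rw [pow_succ]; ring

lemma coeff_oev (η : k) (m i : ℕ) (hm : 1 ≤ m) (f : PowerSeries k) (n : ℕ) :
    PowerSeries.coeff n (oev η m i f) =
      if m * 2 ^ i ∣ n then (η ^ (2 ^ i)) ^ (n / (m * 2 ^ i)) * PowerSeries.coeff (n / (m * 2 ^ i)) f
      else 0 := by
  have hm' : m * 2 ^ i ≠ 0 := by positivity
  unfold oev
  rw [dif_pos hm', PowerSeries.coeff_expand]
  split_ifs with h
  · rw [PowerSeries.coeff_rescale]
  · rfl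

lemma oev_evt (η : k) (m i n : ℕ) (hm : 1 ≤ m) (f : PowerSeries k) :
    (X : PowerSeries k) ^ (n * (m * 2 ^ i)) ∣ oev η m i f -
      evt n (ox η m i) (PowerSeries.map (PowerSeries.C) f) := by
  have hm' : 0 < m * 2 ^ i := by positivity
  rw [PowerSeries.X_pow_dvd_iff]
  intro a ha
  rw [map_sub, sub_eq_zero, coeff_oev η m i hm]
  unfold evt ox
  rw [map_sum]
  have hterm : ∀ e ∈ Finset.range n, PowerSeries.coeff a
      ((PowerSeries.C (η ^ (2 ^ i)) * (X : PowerSeries k) ^ (m * 2 ^ i)) ^ e *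
      PowerSeries.coeff e (PowerSeries.map (PowerSeries.C) f))
      = if a = (m * 2 ^ i) * e then (η ^ (2 ^ i)) ^ e * PowerSeries.coeff e f else 0 := by
    intro e _
    rw [PowerSeries.coeff_map]
    have : (PowerSeries.C (η ^ (2 ^ i)) * (X : PowerSeries k) ^ (m * 2 ^ i)) ^ e *
      PowerSeries.C (PowerSeries.coeff e f) =
      PowerSeries.C ((η ^ (2 ^ i)) ^ e * PowerSeries.coeff e f) * X ^ (m * 2 ^ i * e) := by
      rw [map_mul, map_pow (PowerSeries.C) (η ^ 2 ^ i) e, mul_pow, ← pow_mul X]; ring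
    rw [this, PowerSeries.coeff_C_mul, PowerSeries.coeff_X_pow]
    split_ifs <;> simp
  rw [Finset.sum_congr rfl hterm]
  split_ifs with h
  · obtain ⟨b, hb⟩ := h
    have hbn : b < n := by
      by_contra hcon
      push Not at hcon
      have : n * (m * 2 ^ i) ≤ m * 2 ^ i * b := by
        rw [mul_comm n]; exact Nat.mul_le_mul_left _ hcon
      omega
    rw [Finset.sum_eq_single b]
    · rw [if_pos hb, hb, Nat.mul_div_cancel_left _ hm']
    · intro c _ hcb
      rw [if_neg]
      intro h2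
      apply hcb
      rw [hb] at h2
      exact (Nat.eq_of_mul_eq_mul_left hm' h2).symm
    · intro h3
      exact absurd (Finset.mem_range.mpr hbn) h3
  · symm
    apply Finset.sum_eq_zero
    intro e _
    rw [if_neg]
    rintro rfl
    exact h (Dvd.intro _ rfl)

/-- **Orbit theorem**, odd parity class. -/
theorem orbit_expansion (ℓ : ℕ) [hℓ : Fact ℓ.Prime] [CharP k ℓ] (hℓ2 : ℓ ≠ 2)
    (Cs : PowerSeries k) (hθ : PowerSeries.coeff 0 Cs = 1) (d : ℕ)
    (hd : 1 ≤ d) (η : k) (m : ℕ) (hm : 1 ≤ m) (s : ℕ → PowerSeries k)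
    (hs : ∀ i, 2 * s i = oev η m i Cs * (s (i + 1) + 2 * s (i + d) - s (i + d + 1))) :
    ∃ u : ℕ → PowerSeries k,
      (∀ i, 2 * u i = u (i + 1) + 2 * u (i + d) - u (i + d + 1)) ∧
      (∀ i, u (i + d * (ℓ * (ℓ - 1))) = u i) ∧
      ∀ n i, (X : PowerSeries k) ^ (n * (m * 2 ^ i)) ∣ s i -
        evt n (ox η m i) (GG (fun e => PowerSeries.coeff e Cs) d u i) := by
  have h2ne : (2 : k) ≠ 0 := by
    intro h2
    have h3 : ((2 : ℕ) : k) = 0 := by exact_mod_cast h2
    rw [CharP.cast_eq_zero_iff k ℓ] at h3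
    exact hℓ2 ((Nat.prime_dvd_prime_iff_eq hℓ.out Nat.prime_two).mp h3)
  set M : ℕ → ℕ := fun i => m * 2 ^ i with hMdef
  set g := d * (ℓ * (ℓ - 1)) with hgdef
  have hg : 1 ≤ g := by
    have := hℓ.out.two_le
    have h1 : 1 ≤ ℓ * (ℓ - 1) := Nat.mul_pos (by omega) (by omega)
    exact Nat.mul_pos hd h1
  have hMi : ∀ i, i < M i := by
    intro i
    have h1 : i < 2 ^ i := Nat.lt_two_pow_self
    have h2 : 2 ^ i ≤ m * 2 ^ i := Nat.le_mul_of_pos_left _ hm
    simp only [hMdef]; omega
  have hMm : Monotone M := by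
    intro a b hab
    simp only [hMdef]
    exact Nat.mul_le_mul_left m (Nat.pow_le_pow_right (by norm_num) hab)
  have hMs : ∀ i, M (i + 1) = 2 * M i := by
    intro i; simp only [hMdef, pow_succ]; ring
  have hCx0 : ∀ i, (X : PowerSeries k) ^ (M i) ∣ oev η m i Cs - 1 := by
    intro i
    have h1 := oev_evt η m i 1 hm Cs
    have h2 : evt 1 (ox η m i) (PowerSeries.map (PowerSeries.C) Cs) = 1 := by
      unfold evt
      rw [Finset.sum_range_one, pow_zero, one_mul, PowerSeries.coeff_map, hθ, map_one]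
    rw [h2, one_mul] at h1
    exact h1
  -- recurrence for the coefficients
  have hcoef : ∀ i n, n < M i → 2 * PowerSeries.coeff n (s i) = PowerSeries.coeff n (s (i + 1))
      + 2 * PowerSeries.coeff n (s (i + d)) - PowerSeries.coeff n (s (i + d + 1)) := by
    intro i n hn
    obtain ⟨c, hc⟩ := hCx0 i
    have h1 : oev η m i Cs = 1 + X ^ (M i) * c := by rw [← hc]; ring
    have h2 := congrArg (PowerSeries.coeff n) (hs i)
    rw [h1, add_mul, one_mul, map_add, mul_assoc, PowerSeries.coeff_X_pow_mul', if_neg (by omega),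
      add_zero, map_sub, map_add] at h2
    rw [coeff_two_mul, coeff_two_mul] at h2
    exact h2
  have hper : ∀ i n, n < M i → PowerSeries.coeff n (s (i + g)) = PowerSeries.coeff n (s i) := by
    intro i n hn
    have h1 := per_scalar (k := k) ℓ hℓ2 d (fun j => PowerSeries.coeff n (s (i + j))) (by
      intro j
      have h2 := hcoef (i + j) n (lt_of_lt_of_le hn (hMm (by omega)))
      simp only [← add_assoc]
      exact h2) 0
    simpa using h1
  have hurec : ∀ i, 2 * lim g s i = lim g s (i + 1) + 2 * lim g s (i + d) - lim g s (i + d + 1) := by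
    intro i
    ext n
    have hlt : ∀ j, n < M (i + j + g * n) := by
      intro j
      have h4 := hMi (i + j + g * n)
      have h5 : n ≤ g * n := Nat.le_mul_of_pos_left _ hg
      omega
    rw [map_sub, map_add, coeff_two_mul, coeff_two_mul]
    have c0 := coeff_lim g s M hMi hg hper hMm i n n (by simpa using hlt 0)
    have c1 := coeff_lim g s M hMi hg hper hMm (i + 1) n n (hlt 1)
    have c2 := coeff_lim g s M hMi hg hper hMm (i + d) n n (hlt d)
    have c3 := coeff_lim g s M hMi hg hper hMm (i + d + 1) n n (by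
      have := hlt (d + 1)
      rw [← add_assoc] at this
      exact this)
    rw [c0, c1, c2, c3]
    have h6 := hcoef (i + g * n) n (by simpa using hlt 0)
    have e1 : i + g * n + 1 = i + 1 + g * n := by ring
    have e2 : i + g * n + d = i + d + g * n := by ring
    have e3 : i + d + g * n + 1 = i + d + 1 + g * n := by ring
    rw [e1, e2, e3] at h6
    exact h6
  refine ⟨lim g s, hurec, ?_, ?_⟩
  · intro i
    exact lim_per g s M hMi hg hper hMm i
  · intro n
    exact expansion Cs hθ h2ne d hd M hMs (ox η m) (ox_succ η m) (fun i => ⟨_, mul_comm _ _⟩)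
      (fun i => oev η m i Cs) (fun i n => oev_evt η m i n hm Cs) s (lim g s) hs hurec
      (fun i => lim_sub g s M hMi hg hper hMm i) n

end Run7.h751
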