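import Pool.Agent.Run7.h751.An3

open PowerSeries Finset

namespace Run7.h751

variable {k : Type*} [Field k]

lemma evt_rescale (n : ℕ) (c : k) (M : ℕ) (G : PowerSeries (PowerSeries k)) :
    evt n ((X : PowerSeries k) ^ M) (PowerSeries.rescale (PowerSeries.C c) G)
      = evt n (PowerSeries.C c * X ^ M) G := by
  unfold evt
  apply Finset.sum_congr rfl
  intro e _
  rw [PowerSeries.coeff_rescale, mul_pow]
  ring

lemma evt_expand' (n M a : ℕ) (ha : a ≠ 0) (G : PowerSeries (PowerSeries k)) :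
    (X : PowerSeries k) ^ (n * M) ∣ evt n ((X : PowerSeries k) ^ M) (PowerSeries.expand a ha G) -
      evt n (PowerSeries.C 1 * X ^ (a * M)) G := by
  have h := evt_expand n ((X : PowerSeries k) ^ M) a ha G
  rw [← pow_mul, ← pow_mul] at h
  rw [map_one, one_mul, mul_comm n M, mul_comm a M]
  exact h

/-- the data of a solution of the linearised system (odd class) -/
structure Sys (ω : k) (d : ℕ) (Cs : PowerSeries k) where
  s : Fin 3 → ℕ → PowerSeries k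
  y1 : ℕ → PowerSeries k
  yd : ℕ → PowerSeries k
  yD : ℕ → PowerSeries k
  hs : ∀ a i, 2 * s a i = oev (ω ^ (a : ℕ)) 1 i Cs * (s a (i + 1) + 2 * s a (i + d) - s a (i + d + 1))
  h1 : ∀ i, 2 * y1 i = oev 1 3 i Cs * (y1 (i + 1) + 2 * y1 (i + d) - y1 (i + d + 1))
  hd : ∀ i, 2 * yd i = oev 1 (3 ^ d) i Cs * (yd (i + 1) + 2 * yd (i + d) - yd (i + d + 1))
  hD : ∀ i, 2 * yD i = oev 1 (3 ^ (d + 1)) i Cs * (yD (i + 1) + 2 * yD (i + d) - yD (i + d + 1))
  rel : ∀ i, ∑ a, s a i = y1 i + 3 * yd i - yD i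

lemma pow_cube_congr {z : k} (hz : z ^ 3 = 1) {a b : ℕ} (h : a ≡ b [MOD 3]) : z ^ a = z ^ b := by
  rw [pow_eq_pow_mod a hz, pow_eq_pow_mod b hz]
  congr 1

lemma C_three_mul (G : PowerSeries (PowerSeries k)) :
    3 * G = PowerSeries.C (3 : PowerSeries k) * G := by rw [map_ofNat]

/-- formal coefficient identities. -/
theorem Sys.formal {ω : k} (hω : ω ^ 3 = 1) {d : ℕ} (hd1 : 1 ≤ d) {Cs : PowerSeries k}
    (S : Sys ω d Cs) (ℓ : ℕ) [hℓ : Fact ℓ.Prime] [CharP k ℓ] (hℓ2 : ℓ ≠ 2)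
    (hθ : PowerSeries.coeff 0 Cs = 1) :
    ∃ (u : Fin 3 → ℕ → PowerSeries k) (v1 vd vD : ℕ → PowerSeries k),
      (∀ a i, 2 * u a i = u a (i + 1) + 2 * u a (i + d) - u a (i + d + 1)) ∧
      (∀ i, 2 * v1 i = v1 (i + 1) + 2 * v1 (i + d) - v1 (i + d + 1)) ∧
      (∀ i, 2 * vd i = vd (i + 1) + 2 * vd (i + d) - vd (i + d + 1)) ∧
      (∀ i, 2 * vD i = vD (i + 1) + 2 * vD (i + d) - vD (i + d + 1)) ∧
      (∀ a i, u a (i + d * (ℓ * (ℓ - 1))) = u a i) ∧
      (∀ e i, ∑ a : Fin 3, PowerSeries.C (((ω ^ (a : ℕ)) ^ (2 ^ i)) ^ e) *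
        UU (fun e => PowerSeries.coeff e Cs) d (u a) e i =
        (if 3 ∣ e then UU (fun e => PowerSeries.coeff e Cs) d v1 (e / 3) i else 0)
        + 3 * (if 3 ^ d ∣ e then UU (fun e => PowerSeries.coeff e Cs) d vd (e / 3 ^ d) i else 0)
        - (if 3 ^ (d + 1) ∣ e then UU (fun e => PowerSeries.coeff e Cs) d vD (e / 3 ^ (d + 1)) i
          else 0)) ∧
      ((∀ a, (∀ i, u a i = 0) → ∀ i, S.s a i = 0) ∧ ((∀ i, v1 i = 0) → ∀ i, S.y1 i = 0) ∧
        ((∀ i, vd i = 0) → ∀ i, S.yd i = 0) ∧ ((∀ i, vD i = 0) → ∀ i, S.yD i = 0)) := by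
  set θ : ℕ → k := fun e => PowerSeries.coeff e Cs with hθd
  set g := d * (ℓ * (ℓ - 1)) with hgdef
  have hg : 1 ≤ g := by
    have := hℓ.out.two_le
    have h1 : 1 ≤ ℓ * (ℓ - 1) := Nat.mul_pos (by omega) (by omega)
    exact Nat.mul_pos hd1 h1
  have h2ne : (2 : k) ≠ 0 := by
    intro h2
    have h3 : ((2 : ℕ) : k) = 0 := by exact_mod_cast h2
    rw [CharP.cast_eq_zero_iff k ℓ] at h3
    exact hℓ2 ((Nat.prime_dvd_prime_iff_eq hℓ.out Nat.prime_two).mp h3)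
  choose u hu1 hu2 hu3 using fun a : Fin 3 => orbit_expansion ℓ hℓ2 Cs hθ d hd1 (ω ^ (a : ℕ)) 1
    (le_refl 1) (S.s a) (S.hs a)
  obtain ⟨v1, hv1, hv1p, hv1e⟩ := orbit_expansion ℓ hℓ2 Cs hθ d hd1 (1 : k) 3 (by norm_num) S.y1 S.h1
  obtain ⟨vd, hvd, hvdp, hvde⟩ := orbit_expansion ℓ hℓ2 Cs hθ d hd1 (1 : k) (3 ^ d)
    (Nat.one_le_pow _ _ (by norm_num)) S.yd S.hd
  obtain ⟨vD, hvD, hvDp, hvDe⟩ := orbit_expansion ℓ hℓ2 Cs hθ d hd1 (1 : k) (3 ^ (d + 1))
    (Nat.one_le_pow _ _ (by norm_num)) S.yD S.hD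
  have h3d : 3 ^ d ≠ 0 := by positivity
  have h3D : 3 ^ (d + 1) ≠ 0 := by positivity
  set H : ℕ → PowerSeries (PowerSeries k) := fun i =>
    ∑ a : Fin 3, PowerSeries.rescale (PowerSeries.C ((ω ^ (a : ℕ)) ^ (2 ^ i))) (GG θ d (u a) i)
    - PowerSeries.expand 3 three_ne_zero (GG θ d v1 i)
    - 3 * PowerSeries.expand (3 ^ d) h3d (GG θ d vd i)
    + PowerSeries.expand (3 ^ (d + 1)) h3D (GG θ d vD i) with hH
  -- coefficients of H
  have hHc : ∀ e i, PowerSeries.coeff e (H i) =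
      ∑ a : Fin 3, PowerSeries.C (((ω ^ (a : ℕ)) ^ (2 ^ i)) ^ e) * UU θ d (u a) e i
      - (if 3 ∣ e then UU θ d v1 (e / 3) i else 0)
      - 3 * (if 3 ^ d ∣ e then UU θ d vd (e / 3 ^ d) i else 0)
      + (if 3 ^ (d + 1) ∣ e then UU θ d vD (e / 3 ^ (d + 1)) i else 0) := by
    intro e i
    simp only [hH]
    rw [map_add, map_sub, map_sub, map_sum, C_three_mul, PowerSeries.coeff_C_mul,
      PowerSeries.coeff_expand, PowerSeries.coeff_expand, PowerSeries.coeff_expand]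
    simp only [PowerSeries.coeff_rescale, GG, PowerSeries.coeff_mk, map_pow]
  have h2g : ∀ i, 2 ^ (i + g) ≡ 2 ^ i [MOD 3] := by
    intro i
    have hgeven : Even g := by
      rw [hgdef]
      have he : Even (ℓ - 1) := by
        obtain ⟨t, ht⟩ := hℓ.out.odd_of_ne_two hℓ2
        exact ⟨t, by omega⟩
      exact (he.mul_left ℓ).mul_left d
    obtain ⟨t, ht⟩ := hgeven
    rw [pow_add, ht, ← two_mul, pow_mul]
    have : (2 ^ 2) ^ t ≡ 1 ^ t [MOD 3] := Nat.ModEq.pow t (by decide)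
    calc 2 ^ i * (2 ^ 2) ^ t ≡ 2 ^ i * 1 ^ t [MOD 3] := Nat.ModEq.mul_left _ this
      _ = 2 ^ i := by rw [one_pow, mul_one]
  have hωper : ∀ (a : Fin 3) i, (ω ^ (a : ℕ)) ^ (2 ^ (i + g)) = (ω ^ (a : ℕ)) ^ (2 ^ i) := by
    intro a i
    have h3 : (ω ^ (a : ℕ)) ^ 3 = 1 := by rw [← pow_mul, mul_comm, pow_mul, hω, one_pow]
    exact pow_cube_congr h3 (h2g i)
  have hHper : ∀ e i, PowerSeries.coeff e (H (i + g)) = PowerSeries.coeff e (H i) := by
    intro e i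
    rw [hHc, hHc]
    have hp : ∀ (w : ℕ → PowerSeries k), (∀ i, 2 * w i = w (i + 1) + 2 * w (i + d) - w (i + d + 1)) →
      (∀ i, w (i + g) = w i) → ∀ e, UU θ d w e (i + g) = UU θ d w e i := by
      intro w hw1 hw2 e
      exact UU_per θ hθ h2ne d hd1 w hw1 g hw2 e i
    rw [hp v1 hv1 hv1p, hp vd hvd hvdp, hp vD hvD hvDp]
    congr 3
    apply Finset.sum_congr rfl
    intro a _
    rw [hp (u a) (hu1 a) (hu2 a), hωper]
  have hdiv : ∀ n i, (X : PowerSeries k) ^ (n * 2 ^ i) ∣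
      evt n ((X : PowerSeries k) ^ (2 ^ i)) (H i) := by
    intro n i
    have hsum : evt n ((X : PowerSeries k) ^ (2 ^ i)) (∑ a : Fin 3,
        PowerSeries.rescale (PowerSeries.C ((ω ^ (a : ℕ)) ^ (2 ^ i))) (GG θ d (u a) i))
        = ∑ a : Fin 3, evt n (ox (ω ^ (a : ℕ)) 1 i) (GG θ d (u a) i) := by
      rw [Fin.sum_univ_three, Fin.sum_univ_three, evt_add, evt_add]
      simp only [evt_rescale, ox, one_mul]
    have hle : ∀ m, 1 ≤ m → n * 2 ^ i ≤ n * (m * 2 ^ i) := fun m hm =>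
      Nat.mul_le_mul_left n (Nat.le_mul_of_pos_left _ hm)
    have b1 := evt_expand' n (2 ^ i) 3 three_ne_zero (GG θ d v1 i)
    have bd := evt_expand' n (2 ^ i) (3 ^ d) h3d (GG θ d vd i)
    have bD := evt_expand' n (2 ^ i) (3 ^ (d + 1)) h3D (GG θ d vD i)
    have c1 := dvd_trans (pow_dvd_pow _ (hle 3 (by norm_num))) (hv1e n i)
    have cd := dvd_trans (pow_dvd_pow _ (hle (3 ^ d) (Nat.one_le_pow _ _ (by norm_num)))) (hvde n i)
    have cD := dvd_trans (pow_dvd_pow _ (hle (3 ^ (d + 1)) (Nat.one_le_pow _ _ (by norm_num))))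
      (hvDe n i)
    have ca : ∀ a : Fin 3, (X : PowerSeries k) ^ (n * 2 ^ i) ∣ S.s a i -
        evt n (ox (ω ^ (a : ℕ)) 1 i) (GG θ d (u a) i) := by
      intro a
      have := hu3 a n i
      rwa [one_mul] at this
    simp only [ox, one_pow] at c1 cd cD
    have hev : evt n ((X : PowerSeries k) ^ (2 ^ i)) (H i) =
        ∑ a : Fin 3, evt n (ox (ω ^ (a : ℕ)) 1 i) (GG θ d (u a) i)
        - evt n ((X : PowerSeries k) ^ (2 ^ i)) (PowerSeries.expand 3 three_ne_zero (GG θ d v1 i))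
        - 3 * evt n ((X : PowerSeries k) ^ (2 ^ i)) (PowerSeries.expand (3 ^ d) h3d (GG θ d vd i))
        + evt n ((X : PowerSeries k) ^ (2 ^ i))
          (PowerSeries.expand (3 ^ (d + 1)) h3D (GG θ d vD i)) := by
      simp only [hH]
      rw [evt_add, evt_sub, evt_sub, hsum, C_three_mul, evt_C_mul]
    rw [hev]
    have hrel := S.rel i
    rw [Fin.sum_univ_three] at hrel ⊢
    have t := (((((((ca 0).add (ca 1)).add (ca 2)).sub c1).sub (cd.mul_left 3)).add cD).add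
      ((b1.add (bd.mul_left 3)).sub bD))
    have e : evt n (ox (ω ^ ((0 : Fin 3) : ℕ)) 1 i) (GG θ d (u 0) i) +
        evt n (ox (ω ^ ((1 : Fin 3) : ℕ)) 1 i) (GG θ d (u 1) i) +
        evt n (ox (ω ^ ((2 : Fin 3) : ℕ)) 1 i) (GG θ d (u 2) i)
        - evt n ((X : PowerSeries k) ^ (2 ^ i)) (PowerSeries.expand 3 three_ne_zero (GG θ d v1 i))
        - 3 * evt n ((X : PowerSeries k) ^ (2 ^ i)) (PowerSeries.expand (3 ^ d) h3d (GG θ d vd i))
        + evt n ((X : PowerSeries k) ^ (2 ^ i))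
          (PowerSeries.expand (3 ^ (d + 1)) h3D (GG θ d vD i)) =
        - (S.s 0 i - evt n (ox (ω ^ ((0 : Fin 3) : ℕ)) 1 i) (GG θ d (u 0) i) +
          (S.s 1 i - evt n (ox (ω ^ ((1 : Fin 3) : ℕ)) 1 i) (GG θ d (u 1) i)) +
          (S.s 2 i - evt n (ox (ω ^ ((2 : Fin 3) : ℕ)) 1 i) (GG θ d (u 2) i)) -
          (S.y1 i - evt n (PowerSeries.C 1 * X ^ (3 * 2 ^ i)) (GG θ d v1 i)) -
          3 * (S.yd i - evt n (PowerSeries.C 1 * X ^ (3 ^ d * 2 ^ i)) (GG θ d vd i)) +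
          (S.yD i - evt n (PowerSeries.C 1 * X ^ (3 ^ (d + 1) * 2 ^ i)) (GG θ d vD i)) +
          (evt n ((X : PowerSeries k) ^ (2 ^ i)) (PowerSeries.expand 3 three_ne_zero (GG θ d v1 i)) -
            evt n (PowerSeries.C 1 * X ^ (3 * 2 ^ i)) (GG θ d v1 i) +
            3 * (evt n ((X : PowerSeries k) ^ (2 ^ i)) (PowerSeries.expand (3 ^ d) h3d (GG θ d vd i)) -
            evt n (PowerSeries.C 1 * X ^ (3 ^ d * 2 ^ i)) (GG θ d vd i)) -
            (evt n ((X : PowerSeries k) ^ (2 ^ i)) (PowerSeries.expand (3 ^ (d + 1)) h3D (GG θ d vD i)) -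
            evt n (PowerSeries.C 1 * X ^ (3 ^ (d + 1) * 2 ^ i)) (GG θ d vD i)))) := by
      linear_combination hrel
    rw [e]
    exact t.neg_right
  have hzero := kill g hg H hHper hdiv
  refine ⟨u, v1, vd, vD, hu1, hv1, hvd, hvD, hu2, ?_, ?_⟩
  · intro e i
    have h1 := hzero e i
    rw [hHc] at h1
    linear_combination h1
  · have hz : ∀ (w : ℕ → PowerSeries k), (∀ i, w i = 0) → ∀ e i, UU θ d w e i = 0 := by
      intro w hw e
      induction e using Nat.strong_induction_on with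
      | _ e ih =>
        intro i
        rcases Nat.eq_zero_or_pos e with rfl | he
        · simp only [UU]; exact hw i
        · obtain ⟨e', rfl⟩ : ∃ e', e = e' + 1 := ⟨e - 1, by omega⟩
          rw [UU]
          apply Finset.sum_eq_zero
          intro j _
          have q1 : (if _h : 2 ∣ (e' + 1 - j) ∧ (e' + 1 - j) / 2 < e' + 1 then
            UU θ d w ((e' + 1 - j) / 2) (i + 1) else 0) = 0 := by
            split_ifs with h
            · exact ih _ h.2 _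
            · rfl
          have q2 : (if _h : 2 ^ d ∣ (e' + 1 - j) ∧ (e' + 1 - j) / 2 ^ d < e' + 1 then
            UU θ d w ((e' + 1 - j) / 2 ^ d) (i + d) else 0) = 0 := by
            split_ifs with h
            · exact ih _ h.2 _
            · rfl
          have q3 : (if _h : 2 ^ (d + 1) ∣ (e' + 1 - j) ∧ (e' + 1 - j) / 2 ^ (d + 1) < e' + 1 then
            UU θ d w ((e' + 1 - j) / 2 ^ (d + 1)) (i + d + 1) else 0) = 0 := by
            split_ifs with h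
            · exact ih _ h.2 _
            · rfl
          rw [q1, q2, q3]
          simp
    have hfin : ∀ (w y : ℕ → PowerSeries k) (η : k) (m : ℕ), 1 ≤ m → (∀ i, w i = 0) →
        (∀ n i, (X : PowerSeries k) ^ (n * (m * 2 ^ i)) ∣ y i - evt n (ox η m i) (GG θ d w i)) →
        ∀ i, y i = 0 := by
      intro w y η m hm hw hy i
      ext n
      have h1 := hy (n + 1) i
      have h2 : evt (n + 1) (ox η m i) (GG θ d w i) = 0 := by
        unfold evt
        apply Finset.sum_eq_zero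
        intro e _
        rw [GG, PowerSeries.coeff_mk, hz w hw, mul_zero]
      rw [h2, sub_zero, PowerSeries.X_pow_dvd_iff] at h1
      rw [map_zero]
      apply h1
      have h3 : 1 ≤ m * 2 ^ i := Nat.mul_pos hm (by positivity)
      have h4 : (n + 1) * 1 ≤ (n + 1) * (m * 2 ^ i) := Nat.mul_le_mul_left _ h3
      omega
    refine ⟨fun a ha => hfin (u a) (S.s a) _ 1 (le_refl 1) ha (hu3 a), fun h =>
      hfin v1 S.y1 1 3 (by norm_num) h hv1e, fun h => hfin vd S.yd 1 (3 ^ d)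
      (Nat.one_le_pow _ _ (by norm_num)) h hvde, fun h => hfin vD S.yD 1 (3 ^ (d + 1))
      (Nat.one_le_pow _ _ (by norm_num)) h hvDe⟩

end Run7.h751
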