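import Pool.Agent.Run7.h751.An4

open PowerSeries Finset

namespace Run7.h751

variable {k : Type*} [Field k]

lemma UU_zero (θ : ℕ → k) (d : ℕ) (w : ℕ → PowerSeries k) (hw : ∀ i, w i = 0) :
    ∀ e i, UU θ d w e i = 0 := by
  intro e
  induction e using Nat.strong_induction_on with
  | _ e ih =>
    intro i
    rcases Nat.eq_zero_or_pos e with rfl | he
    · simp only [UU]; exact hw i
    · obtain ⟨e', rfl⟩ : ∃ e', e = e' + 1 := ⟨e - 1, by omega⟩
      rw [UU]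
      apply Finset.sum_eq_zero
      intro j _
      have q1 : (if _h : 2 ∣ (e' + 1 - j) ∧ (e' + 1 - j) / 2 < e' + 1 then
        UU θ d w ((e' + 1 - j) / 2) (i + 1) else 0) = 0 := by
        split_ifs with h
        · exact ih _ h.2 _
        · rfl
      have q2 : (if _h : 2 ^ d ∣ (e' + 1 - j) ∧ (e' + 1 - j) / 2 ^ d < e' + 1 then
        UU θ d w ((e' + 1 - j) / 2 ^ d) (i + d) else 0) = 0 := by
        split_ifs with h
        · exact ih _ h.2 _
        · rfl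
      have q3 : (if _h : 2 ^ (d + 1) ∣ (e' + 1 - j) ∧ (e' + 1 - j) / 2 ^ (d + 1) < e' + 1 then
        UU θ d w ((e' + 1 - j) / 2 ^ (d + 1)) (i + d + 1) else 0) = 0 := by
        split_ifs with h
        · exact ih _ h.2 _
        · rfl
      rw [q1, q2, q3]
      simp

lemma three_eq {ζ : k} (hζ : 1 + ζ + ζ ^ 2 = 0) (h2 : (2 : k) ≠ 0) (h3 : (3 : k) ≠ 0)
    (p q r : PowerSeries k)
    (h1 : p + PowerSeries.C ζ * q + PowerSeries.C (ζ ^ 2) * r = 0)
    (h2' : p + PowerSeries.C (ζ ^ 2) * q + PowerSeries.C ζ * r = 0) : p = q ∧ q = r := by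
  set z := (PowerSeries.C ζ : PowerSeries k) with hz
  have hC : (1 : PowerSeries k) + z + z ^ 2 = 0 := by
    rw [hz, ← map_pow, ← map_one (PowerSeries.C (R := k)), ← map_add, ← map_add, hζ, map_zero]
  rw [map_pow] at h1 h2'
  have h3' : (3 : PowerSeries k) ≠ 0 := by
    intro h
    apply h3
    have := congrArg (PowerSeries.constantCoeff) h
    rwa [map_ofNat, map_zero] at this
  have h2'' : (2 : PowerSeries k) ≠ 0 := by
    intro h
    apply h2
    have := congrArg (PowerSeries.constantCoeff) h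
    rwa [map_ofNat, map_zero] at this
  have e1 : (3 : PowerSeries k) * (q - r) = 0 := by
    linear_combination (-(z - z ^ 2)) * (h1 - h2') + (z ^ 2 - 3 * z + 3) * (q - r) * hC
  have e2 : q - r = 0 := (mul_eq_zero.mp e1).resolve_left h3'
  have e3 : q = r := sub_eq_zero.mp e2
  refine ⟨?_, e3⟩
  subst e3
  linear_combination h1 - q * hC

lemma smul_inv_two (h2 : (2 : k) ≠ 0) (a : PowerSeries k) : 2 * ((2 : k)⁻¹ • a) = a := by
  rw [two_mul_eq_smul, smul_smul, mul_inv_cancel₀ h2, one_smul]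

lemma not_dvd_pow_two {d e : ℕ} (hd : 3 ≤ d) (he : ¬ 8 ∣ e) : ¬ 2 ^ d ∣ e := by
  intro h
  apply he
  exact dvd_trans (by
    have : (8 : ℕ) = 2 ^ 3 := by norm_num
    rw [this]
    exact pow_dvd_pow 2 hd) h

lemma UU_low (θ : ℕ → k) (hθ0 : θ 0 = 1) (hθ1 : θ 1 = -1) (hθj : ∀ j, 2 ≤ j → j ≤ 15 → θ j = 0)
    (h2 : (2 : k) ≠ 0) (d : ℕ) (hd : 1 ≤ d) (u : ℕ → PowerSeries k)
    (hu : ∀ i, 2 * u i = u (i + 1) + 2 * u (i + d) - u (i + d + 1)) (m : ℕ) (hm : m ≤ 14) (i : ℕ) :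
    UU θ d u (m + 1) i = cc d (UU θ d u) (m + 1) i - cc d (UU θ d u) m i := by
  rw [UU_eq θ hθ0 h2 d hd u hu, Finset.sum_range_succ', Finset.sum_range_succ',
    Finset.sum_eq_zero]
  · rw [zero_add, zero_add, hθ0, hθ1, Nat.add_sub_cancel, Nat.sub_zero, one_smul, neg_smul, one_smul]
    ring
  · intro j hj
    rw [Finset.mem_range] at hj
    rw [hθj (j + 1 + 1) (by omega) (by omega), zero_smul]

lemma cc_odd (d : ℕ) (hd : 1 ≤ d) (U : ℕ → ℕ → PowerSeries k) (e i : ℕ) (he : ¬ 2 ∣ e) :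
    cc d U e i = 0 := by
  unfold cc
  have h1 : ¬ 2 ^ d ∣ e := fun h => he (dvd_trans (dvd_pow_self 2 (by omega)) h)
  have h2 : ¬ 2 ^ (d + 1) ∣ e := fun h => he (dvd_trans (dvd_pow_self 2 (by omega)) h)
  rw [if_neg he, if_neg h1, if_neg h2]
  simp

lemma cc_even (d : ℕ) (hd : 3 ≤ d) (U : ℕ → ℕ → PowerSeries k) (e i : ℕ) (he : ¬ 8 ∣ 2 * e) :
    cc d U (2 * e) i = (2 : k)⁻¹ • U e (i + 1) := by
  unfold cc
  rw [if_pos (Dvd.intro _ rfl), if_neg (not_dvd_pow_two hd he),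
    if_neg (not_dvd_pow_two (by omega) he), Nat.mul_div_cancel_left _ (by norm_num)]
  simp

lemma cc_zero (θ : ℕ → k) (h2 : (2 : k) ≠ 0) (d : ℕ) (u : ℕ → PowerSeries k)
    (hu : ∀ i, 2 * u i = u (i + 1) + 2 * u (i + d) - u (i + d + 1)) (i : ℕ) :
    cc d (UU θ d u) 0 i = u i := by
  unfold cc
  simp only [dvd_zero, if_true, Nat.zero_div]
  simp only [UU]
  rw [← hu i, two_mul_eq_smul, smul_smul, inv_mul_cancel₀ h2, one_smul]

/-- the common consequences of the first identities. -/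
lemma u_equal {ω : k} (hω : 1 + ω + ω ^ 2 = 0) (h2 : (2 : k) ≠ 0) (h3 : (3 : k) ≠ 0)
    (u : Fin 3 → ℕ → PowerSeries k) (i : ℕ)
    (hA : ∑ a : Fin 3, PowerSeries.C ((ω ^ (a : ℕ)) ^ (2 ^ i)) * u a i = 0)
    (hB : ∑ a : Fin 3, PowerSeries.C ((ω ^ (a : ℕ)) ^ (2 ^ (i + 1))) * u a i = 0) :
    u 0 i = u 1 i ∧ u 1 i = u 2 i := by
  have hω3 : ω ^ 3 = 1 := by linear_combination (ω - 1) * hω
  have hmod : ∀ n, ω ^ n = ω ^ (n % 3) := fun n => pow_eq_pow_mod n hω3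
  rw [Fin.sum_univ_three] at hA hB
  simp only [Fin.val_zero, Fin.val_one, Fin.val_two, pow_zero, one_pow, map_one, one_mul,
    pow_one, ← pow_mul] at hA hB
  have h2p : 2 ^ i % 3 = 1 ∨ 2 ^ i % 3 = 2 := by
    induction i with
    | zero => left; rfl
    | succ i _ =>
      have : ∀ i, 2 ^ i % 3 = 1 ∨ 2 ^ i % 3 = 2 := by
        intro i
        induction i with
        | zero => left; rfl
        | succ i ih => rw [pow_succ]; omega
      exact this _
  have e1 : 2 ^ (i + 1) = 2 * 2 ^ i := by rw [pow_succ]; ring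
  rw [e1] at hB
  rcases h2p with h | h
  · have a1 : ω ^ (2 ^ i) = ω := by rw [hmod, h, pow_one]
    have a2 : ω ^ (2 * 2 ^ i) = ω ^ 2 := by
      rw [hmod]; congr 1; omega
    have a3 : ω ^ (2 * (2 * 2 ^ i)) = ω := by
      rw [hmod]
      have : 2 * (2 * 2 ^ i) % 3 = 1 := by omega
      rw [this, pow_one]
    rw [a1, a2] at hA
    rw [a2, a3] at hB
    exact three_eq hω h2 h3 _ _ _ hA hB
  · have a1 : ω ^ (2 ^ i) = ω ^ 2 := by rw [hmod, h]
    have a2 : ω ^ (2 * 2 ^ i) = ω := by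
      rw [hmod]
      have : 2 * 2 ^ i % 3 = 1 := by omega
      rw [this, pow_one]
    have a3 : ω ^ (2 * (2 * 2 ^ i)) = ω ^ 2 := by
      rw [hmod]; congr 1; omega
    rw [a1, a2] at hA
    rw [a2, a3] at hB
    exact three_eq hω h2 h3 _ _ _ hB hA

/-- the coefficient identities. -/
def EId (ω : k) (d : ℕ) (θ : ℕ → k) (u : Fin 3 → ℕ → PowerSeries k)
    (v1 vd vD : ℕ → PowerSeries k) : Prop :=
  ∀ e i, ∑ a : Fin 3, PowerSeries.C (((ω ^ (a : ℕ)) ^ (2 ^ i)) ^ e) * UU θ d (u a) e i =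
        (if 3 ∣ e then UU θ d v1 (e / 3) i else 0)
        + 3 * (if 3 ^ d ∣ e then UU θ d vd (e / 3 ^ d) i else 0)
        - (if 3 ^ (d + 1) ∣ e then UU θ d vD (e / 3 ^ (d + 1)) i else 0)

lemma EId_no {ω : k} {d : ℕ} (hd : 1 ≤ d) {θ : ℕ → k} {u : Fin 3 → ℕ → PowerSeries k}
    {v1 vd vD : ℕ → PowerSeries k} (hE : EId ω d θ u v1 vd vD) (e i : ℕ) (he : ¬ 3 ∣ e) :
    ∑ a : Fin 3, PowerSeries.C (((ω ^ (a : ℕ)) ^ (2 ^ i)) ^ e) * UU θ d (u a) e i = 0 := by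
  rw [hE e i, if_neg he, if_neg (fun h => he (dvd_trans (dvd_pow_self 3 (by omega)) h)),
    if_neg (fun h => he (dvd_trans (dvd_pow_self 3 (by omega)) h))]
  simp

lemma EId_three {ω : k} (hω3 : ω ^ 3 = 1) {d : ℕ} (hd : 2 ≤ d) {θ : ℕ → k}
    {u : Fin 3 → ℕ → PowerSeries k}
    {v1 vd vD : ℕ → PowerSeries k} (hE : EId ω d θ u v1 vd vD) (e i : ℕ) (he : ¬ 3 ∣ e) :
    ∑ a : Fin 3, UU θ d (u a) (3 * e) i = UU θ d v1 e i := by
  have h9 : ∀ c, 2 ≤ c → ¬ 3 ^ c ∣ 3 * e := by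
    intro c hc h
    have h1 : 3 * 3 ∣ 3 * e := dvd_trans (by
      have : 3 * 3 = 3 ^ 2 := by norm_num
      rw [this]; exact pow_dvd_pow 3 hc) h
    exact he ((Nat.mul_dvd_mul_iff_left (by norm_num)).mp h1)
  have h := hE (3 * e) i
  rw [if_pos (Dvd.intro _ rfl), if_neg (h9 d hd), if_neg (h9 (d + 1) (by omega)),
    Nat.mul_div_cancel_left _ (by norm_num), mul_zero, add_zero, sub_zero] at h
  rw [← h]
  apply Finset.sum_congr rfl
  intro a _
  have : ((ω ^ (a : ℕ)) ^ (2 ^ i)) ^ (3 * e) = 1 := by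
    rw [← pow_mul, ← pow_mul, show (a : ℕ) * (2 ^ i * (3 * e)) = 3 * ((a : ℕ) * (2 ^ i * e)) by ring,
      pow_mul, hω3, one_pow]
  rw [this, map_one, one_mul]

/-- once the `u`'s vanish everything vanishes. -/
lemma finish_elim {ω : k} {d : ℕ} (hd : 2 ≤ d) {θ : ℕ → k} (hθ0 : θ 0 = 1) (hθ1 : θ 1 = -1)
    (h2 : (2 : k) ≠ 0) (h3 : (3 : k) ≠ 0)
    {u : Fin 3 → ℕ → PowerSeries k}
    {v1 vd vD : ℕ → PowerSeries k} (hE : EId ω d θ u v1 vd vD)
    (hu0 : ∀ a i, u a i = 0)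
    (hv1 : ∀ i, 2 * v1 i = v1 (i + 1) + 2 * v1 (i + d) - v1 (i + d + 1))
    (hvd : ∀ i, 2 * vd i = vd (i + 1) + 2 * vd (i + d) - vd (i + d + 1)) :
    (∀ i, v1 i = 0) ∧ (∀ i, vd i = 0) ∧ (∀ i, vD i = 0) := by
  have hU : ∀ a e i, UU θ d (u a) e i = 0 := fun a => UU_zero θ d (u a) (hu0 a)
  have hone : ∀ (w : ℕ → PowerSeries k),
      (∀ i, 2 * w i = w (i + 1) + 2 * w (i + d) - w (i + d + 1)) → ∀ i, UU θ d w 1 i = - w i := by
    intro w hw i
    rw [UU_eq θ hθ0 h2 d (by omega) w hw, Finset.sum_range_succ, Finset.sum_range_one,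
      Nat.sub_self, Nat.sub_zero, cc_odd d (by omega) _ 1 i (by norm_num), smul_zero, zero_add,
      hθ1, cc_zero θ h2 d w hw, neg_smul, one_smul]
  have hv1z : ∀ i, v1 i = 0 := by
    intro i
    have h := hE 3 i
    have h9 : ∀ c, 2 ≤ c → ¬ 3 ^ c ∣ 3 := by
      intro c hc hh
      have h1 : 3 ^ 2 ∣ 3 := dvd_trans (pow_dvd_pow 3 hc) hh
      norm_num at h1
    simp only [hU, mul_zero, Finset.sum_const_zero] at h
    rw [if_pos (dvd_refl 3), if_neg (h9 d hd), if_neg (h9 (d + 1) (by omega)), mul_zero, add_zero,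
      sub_zero, Nat.div_self (by norm_num), hone v1 hv1] at h
    exact neg_eq_zero.mp h.symm
  have hV1 : ∀ e i, UU θ d v1 e i = 0 := UU_zero θ d v1 hv1z
  have hvdz : ∀ i, vd i = 0 := by
    intro i
    have h := hE (3 ^ d) i
    simp only [hU, hV1, mul_zero, Finset.sum_const_zero, ite_self, zero_add] at h
    have hnd : ¬ 3 ^ (d + 1) ∣ 3 ^ d := by
      rw [Nat.pow_dvd_pow_iff_le_right (by norm_num)]
      omega
    rw [if_pos (dvd_refl _), if_neg hnd, sub_zero, Nat.div_self (by positivity), hone vd hvd] at h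
    have h3' : (3 : PowerSeries k) ≠ 0 := by
      intro hh
      apply h3
      have := congrArg (PowerSeries.constantCoeff) hh
      rwa [map_ofNat, map_zero] at this
    exact neg_eq_zero.mp ((mul_eq_zero.mp h.symm).resolve_left h3')
  refine ⟨hv1z, hvdz, ?_⟩
  intro i
  have h := hE 0 i
  simp only [hU, hV1, UU_zero θ d vd hvdz, mul_zero, Finset.sum_const_zero, ite_self, zero_add,
    zero_sub, dvd_zero, if_true, Nat.zero_div] at h
  simp only [UU] at h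
  exact neg_eq_zero.mp h.symm

end Run7.h751
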