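import Pool.Agent.Run7.h751.An5

open PowerSeries Finset

namespace Run7.h751

variable {k : Type*} [Field k]

lemma per_zero (g : ℕ) (hg : 1 ≤ g) (u : ℕ → PowerSeries k) (hper : ∀ i, u (i + g) = u i) (i0 : ℕ)
    (h : ∀ i, i0 ≤ i → u i = 0) (i : ℕ) : u i = 0 := by
  have hN : ∀ N, u (i + g * N) = u i := by
    intro N
    induction N with
    | zero => simp
    | succ N ih =>
      have e : i + g * (N + 1) = (i + g * N) + g := by ring
      rw [e, hper, ih]
  rw [← hN i0]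
  apply h
  have : i0 ≤ g * i0 := Nat.le_mul_of_pos_left _ hg
  omega

lemma natCast_ne_zero_PS (n : ℕ) (hn : (n : k) ≠ 0) : (n : PowerSeries k) ≠ 0 := by
  intro hh
  apply hn
  have := congrArg (PowerSeries.constantCoeff) hh
  rwa [map_natCast, map_zero] at this

/-- Elimination for `d ≥ 3`. -/
theorem elim_ge3 {ω : k} (hω : 1 + ω + ω ^ 2 = 0) {d : ℕ} (hd : 3 ≤ d) {θ : ℕ → k} (hθ0 : θ 0 = 1)
    (hθ1 : θ 1 = -1) (hθj : ∀ j, 2 ≤ j → j ≤ 15 → θ j = 0)
    (h2 : (2 : k) ≠ 0) (h3 : (3 : k) ≠ 0)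
    {u : Fin 3 → ℕ → PowerSeries k} {v1 vd vD : ℕ → PowerSeries k}
    (hE : EId ω d θ u v1 vd vD) (g : ℕ) (hg : 1 ≤ g)
    (hper : ∀ a i, u a (i + g) = u a i)
    (hu : ∀ a i, 2 * u a i = u a (i + 1) + 2 * u a (i + d) - u a (i + d + 1))
    (hv1 : ∀ i, 2 * v1 i = v1 (i + 1) + 2 * v1 (i + d) - v1 (i + d + 1)) :
    ∀ a i, u a i = 0 := by
  have hω3 : ω ^ 3 = 1 := by linear_combination (ω - 1) * hω
  have L := fun (w : ℕ → PowerSeries k) (hw : ∀ i, 2 * w i = w (i + 1) + 2 * w (i + d) - w (i + d + 1))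
    => UU_low θ hθ0 hθ1 hθj h2 d (by omega) w hw
  -- the explicit values
  have val : ∀ (w : ℕ → PowerSeries k),
      (∀ i, 2 * w i = w (i + 1) + 2 * w (i + d) - w (i + d + 1)) →
      (∀ i, UU θ d w 1 i = - w i) ∧ (∀ i, 2 * UU θ d w 3 i = w (i + 1)) ∧
      (∀ i, 4 * UU θ d w 5 i = w (i + 2)) ∧ (∀ i, 8 * UU θ d w 15 i = w (i + 3)) := by
    intro w hw
    have l := L w hw
    have c : ∀ e i, ¬ 8 ∣ 2 * e → 2 * cc d (UU θ d w) (2 * e) i = UU θ d w e (i + 1) := by
      intro e i he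
      rw [cc_even d hd _ e i he, smul_inv_two h2]
    have co : ∀ e i, ¬ 2 ∣ e → cc d (UU θ d w) e i = 0 := fun e i he => cc_odd d (by omega) _ e i he
    have u1 : ∀ i, UU θ d w 1 i = - w i := by
      intro i
      rw [l 0 (by norm_num), co 1 i (by norm_num), cc_zero θ h2 d w hw, zero_sub]
    have u2 : ∀ i, 2 * UU θ d w 2 i = - w (i + 1) := by
      intro i
      have h := l 1 (by norm_num) i
      have h' := c 1 i (by norm_num)
      rw [co 1 i (by norm_num)] at h
      rw [h, sub_zero]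
      show 2 * cc d (UU θ d w) (2 * 1) i = _
      rw [h', u1]
    have u3 : ∀ i, 2 * UU θ d w 3 i = w (i + 1) := by
      intro i
      have h := l 2 (by norm_num) i
      have h' := c 1 i (by norm_num)
      rw [co 3 i (by norm_num)] at h
      rw [h, zero_sub, mul_neg]
      show -(2 * cc d (UU θ d w) (2 * 1) i) = _
      rw [h', u1, neg_neg]
    have u5 : ∀ i, 4 * UU θ d w 5 i = w (i + 2) := by
      intro i
      have h := l 4 (by norm_num) i
      have h' := c 2 i (by norm_num)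
      rw [co 5 i (by norm_num)] at h
      rw [h, zero_sub]
      have h'' := u2 (i + 1)
      have : (4 : PowerSeries k) * -cc d (UU θ d w) 4 i = -(2 * (2 * cc d (UU θ d w) (2 * 2) i)) := by
        ring_nf
      rw [this, h', h'', neg_neg]
    have u7 : ∀ i, 4 * UU θ d w 7 i = - w (i + 2) := by
      intro i
      have h := l 6 (by norm_num) i
      have h' := c 3 i (by norm_num)
      rw [co 7 i (by norm_num)] at h
      rw [h, zero_sub]
      have h'' := u3 (i + 1)
      have : (4 : PowerSeries k) * -cc d (UU θ d w) 6 i = -(2 * (2 * cc d (UU θ d w) (2 * 3) i)) := by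
        ring_nf
      rw [this, h', h'']
    have u15 : ∀ i, 8 * UU θ d w 15 i = w (i + 3) := by
      intro i
      have h := l 14 (by norm_num) i
      have h' := c 7 i (by norm_num)
      rw [co 15 i (by norm_num)] at h
      rw [h, zero_sub]
      have h'' := u7 (i + 1)
      have : (8 : PowerSeries k) * -cc d (UU θ d w) 14 i = -(4 * (2 * cc d (UU θ d w) (2 * 7) i)) := by
        ring_nf
      rw [this, h', h'', neg_neg]
    exact ⟨u1, u3, u5, u15⟩
  have hA : ∀ i, ∑ a : Fin 3, PowerSeries.C ((ω ^ (a : ℕ)) ^ (2 ^ i)) * u a i = 0 := by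
    intro i
    have h := EId_no (by omega) hE 1 i (by norm_num)
    have h' : ∑ a : Fin 3, PowerSeries.C (((ω ^ (a : ℕ)) ^ (2 ^ i)) ^ 1) * UU θ d (u a) 1 i =
        - ∑ a : Fin 3, PowerSeries.C ((ω ^ (a : ℕ)) ^ (2 ^ i)) * u a i := by
      rw [← Finset.sum_neg_distrib]
      apply Finset.sum_congr rfl
      intro a _
      rw [(val (u a) (hu a)).1 i, pow_one]; ring
    rw [h'] at h
    exact neg_eq_zero.mp h
  have hB : ∀ i, ∑ a : Fin 3, PowerSeries.C ((ω ^ (a : ℕ)) ^ (2 ^ (i + 2 + 1))) * u a (i + 2) = 0 := by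
    intro i
    have h := EId_no (by omega) hE 5 i (by norm_num)
    have h' : 4 * ∑ a : Fin 3, PowerSeries.C (((ω ^ (a : ℕ)) ^ (2 ^ i)) ^ 5) * UU θ d (u a) 5 i =
        ∑ a : Fin 3, PowerSeries.C ((ω ^ (a : ℕ)) ^ (2 ^ (i + 2 + 1))) * u a (i + 2) := by
      rw [Finset.mul_sum]
      apply Finset.sum_congr rfl
      intro a _
      have h5 := (val (u a) (hu a)).2.2.1 i
      rw [← h5]
      have h3' : (ω ^ (a : ℕ)) ^ 3 = 1 := by rw [← pow_mul, mul_comm, pow_mul, hω3, one_pow]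
      have : ((ω ^ (a : ℕ)) ^ (2 ^ i)) ^ 5 = (ω ^ (a : ℕ)) ^ (2 ^ (i + 2 + 1)) := by
        rw [← pow_mul]
        apply pow_cube_congr h3'
        show (2 ^ i * 5) % 3 = (2 ^ (i + 2 + 1)) % 3
        rw [pow_add, pow_add]
        omega
      rw [this]; ring
    rw [h, mul_zero] at h'
    exact h'.symm
  have heq : ∀ i, u 0 (i + 2) = u 1 (i + 2) ∧ u 1 (i + 2) = u 2 (i + 2) := fun i =>
    u_equal hω h2 h3 u (i + 2) (hA (i + 2)) (hB i)
  have hv : ∀ i, -(2 * v1 (i + 1)) = 3 * u 0 (i + 2) := by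
    intro i
    have h := EId_three hω3 (by omega) hE 1 (i + 1) (by norm_num)
    rw [(val v1 hv1).1] at h
    have h' : 2 * ∑ a : Fin 3, UU θ d (u a) (3 * 1) (i + 1) = 3 * u 0 (i + 2) := by
      rw [Fin.sum_univ_three, mul_add, mul_add]
      show 2 * UU θ d (u 0) 3 (i + 1) + 2 * UU θ d (u 1) 3 (i + 1) + 2 * UU θ d (u 2) 3 (i + 1) = _
      rw [(val (u 0) (hu 0)).2.1, (val (u 1) (hu 1)).2.1, (val (u 2) (hu 2)).2.1]
      show u 0 (i + 2) + u 1 (i + 2) + u 2 (i + 2) = _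
      rw [← (heq i).2, ← (heq i).1]; ring
    rw [h] at h'
    rw [← h']; ring
  have hz : ∀ i, u 0 (i + 3) = 0 := by
    intro i
    have h := EId_three hω3 (by omega) hE 5 i (by norm_num)
    have h5 := (val v1 hv1).2.2.1 i
    have h' : 8 * ∑ a : Fin 3, UU θ d (u a) (3 * 5) i = 3 * u 0 (i + 3) := by
      rw [Fin.sum_univ_three, mul_add, mul_add]
      show 8 * UU θ d (u 0) 15 i + 8 * UU θ d (u 1) 15 i + 8 * UU θ d (u 2) 15 i = _
      rw [(val (u 0) (hu 0)).2.2.2, (val (u 1) (hu 1)).2.2.2, (val (u 2) (hu 2)).2.2.2]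
      have := heq (i + 1)
      rw [show i + 1 + 2 = i + 3 by ring] at this
      rw [← this.2, ← this.1]; ring
    rw [h] at h'
    have hvv := hv (i + 1)
    rw [show i + 1 + 1 = i + 2 by ring, show i + 1 + 2 = i + 3 by ring] at hvv
    have : (6 : PowerSeries k) * u 0 (i + 3) = 0 := by
      linear_combination -h' - hvv + 2 * h5
    have h6 : (6 : PowerSeries k) ≠ 0 := by
      have := natCast_ne_zero_PS (k := k) 6 (by
        have : ((6 : ℕ) : k) = 2 * 3 := by norm_num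
        rw [this]; exact mul_ne_zero h2 h3)
      exact_mod_cast this
    exact (mul_eq_zero.mp this).resolve_left h6
  intro a i
  apply per_zero g hg (u a) (hper a) 3
  intro j hj
  obtain ⟨j', rfl⟩ : ∃ j', j = j' + 3 := ⟨j - 3, by omega⟩
  have h0 := hz j'
  have he := heq (j' + 1)
  rw [show j' + 1 + 2 = j' + 3 by ring] at he
  fin_cases a
  · exact h0
  · show u 1 (j' + 3) = 0
    rw [← he.1]; exact h0
  · show u 2 (j' + 3) = 0
    rw [← he.2, ← he.1]; exact h0

end Run7.h751
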