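import Pool.Agent.Run7.h751.An6

open PowerSeries Finset

namespace Run7.h751

variable {k : Type*} [Field k]

/-- low order coefficients for `d = 2`. -/
def tt (j : ℕ) : ℤ :=
  [1, -1, 0, 0, 0, 0, 0, 0, 0, -1, 0, 1, 0, 0, 0, 0, 0, 0, 0, 1, 0, -1, 0, 0, 0, -1, 0, 1, 0, -1,
    0, 1, 0, 0, 0, 2, 0, -2, 0, 1].getD j 0

/-- scalars for `d = 2`. -/
def bb (j : ℕ) : ℤ :=
  [1, -1, -1, 1, -5, 5, 1, -1, -5, 4, 5, -3, 5, -1, -1, -5, -21, 27, 4, -13, 25, -27, -3, 5, 5, 20,
    -1, -28, -5, -3, -5, 29, -21, 17, 27, -55, 20, 11, -13, 23].getD j 0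

/-- auxiliary scalars. -/
def cb (m : ℕ) : ℤ :=
  (if 2 ∣ m then bb (m / 2) else 0) + 4 * (if 4 ∣ m then bb (m / 4) else 0)
    - 4 * (if 8 ∣ m then bb (m / 8) else 0)

lemma bb_rec : ∀ e, 1 ≤ e → e < 40 → ∑ j ∈ Finset.range (e + 1), tt j * cb (e - j) = bb e := by
  decide +kernel

lemma UU_scalar (θ : ℕ → k) (hθ : ∀ j, j < 40 → θ j = (tt j : k)) (h2 : (2 : k) ≠ 0)
    (w : ℕ → PowerSeries k) (hw : ∀ i, w (i + 1) = 2 * w i) :
    ∀ e, e < 40 → ∀ i, UU θ 2 w e i = (bb e : PowerSeries k) * w i := by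
  have hθ0 : θ 0 = 1 := by rw [hθ 0 (by norm_num)]; simp [tt]
  have hrec : ∀ i, 2 * w i = w (i + 1) + 2 * w (i + 2) - w (i + 2 + 1) := by
    intro i
    rw [hw (i + 2), hw i]; ring
  intro e
  induction e using Nat.strong_induction_on with
  | _ e ih =>
    intro he i
    rcases Nat.eq_zero_or_pos e with rfl | he1
    · simp only [UU]
      simp [bb]
    have hcc : ∀ m, m ≤ e → cc 2 (UU θ 2 w) m i = (cb m : PowerSeries k) * w i := by
      intro m hm
      unfold cc cb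
      have h1 : UU θ 2 w (m / 2) (i + 1) = (bb (m / 2) : PowerSeries k) * (2 * w i) := by
        rw [ih (m / 2) (by omega) (by omega), hw]
      have h2' : UU θ 2 w (m / 2 ^ 2) (i + 2) = (bb (m / 4) : PowerSeries k) * (4 * w i) := by
        rw [show m / 2 ^ 2 = m / 4 by norm_num, ih (m / 4) (by omega) (by omega),
          show i + 2 = i + 1 + 1 by ring, hw, hw]
        ring
      have h3 : UU θ 2 w (m / 2 ^ (2 + 1)) (i + 2 + 1) = (bb (m / 8) : PowerSeries k) * (8 * w i) := by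
        rw [show m / 2 ^ (2 + 1) = m / 8 by norm_num, ih (m / 8) (by omega) (by omega),
          hw, show i + 2 = i + 1 + 1 by ring, hw, hw]
        ring
      rw [h1, h2', h3]
      have e4 : (2 ^ 2 : ℕ) = 4 := by norm_num
      have e8 : (2 ^ (2 + 1) : ℕ) = 8 := by norm_num
      rw [e4, e8]
      have key : ∀ a b : PowerSeries k, a = 2 * b → (2 : k)⁻¹ • a = b := by
        intro a b hab
        rw [hab, two_mul_eq_smul, smul_smul, inv_mul_cancel₀ h2, one_smul]
      apply key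
      split_ifs <;> push_cast <;> ring
    rw [UU_eq θ hθ0 h2 2 (by norm_num) w hrec, ← bb_rec e he1 he, Int.cast_sum, Finset.sum_mul]
    apply Finset.sum_congr rfl
    intro j hj
    rw [Finset.mem_range] at hj
    rw [hcc (e - j) (by omega), hθ j (by omega), PowerSeries.smul_eq_C_mul, map_intCast]
    push_cast; ring

/-- values for `d = 2`. -/
lemma val2 (θ : ℕ → k) (hθ : ∀ j, j < 40 → θ j = (tt j : k)) (h2 : (2 : k) ≠ 0)
    (w : ℕ → PowerSeries k) (hw : ∀ i, 2 * w i = w (i + 1) + 2 * w (i + 2) - w (i + 2 + 1)) :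
    (∀ i, UU θ 2 w 1 i = - w i) ∧ (∀ i, 2 * UU θ 2 w 3 i = w (i + 1)) ∧
      (∀ i, 4 * UU θ 2 w 5 i = 5 * w (i + 2)) ∧
      (∀ i, 8 * UU θ 2 w 11 i = - 5 * w (i + 3) + 4 * w (i + 1) + 8 * w i) ∧
      (∀ i, 8 * UU θ 2 w 15 i = w (i + 3) - 12 * w (i + 2)) := by
  have hθ0 : θ 0 = 1 := by rw [hθ 0 (by norm_num)]; simp [tt]
  have hθ1 : θ 1 = -1 := by rw [hθ 1 (by norm_num)]; simp [tt]
  have l : ∀ e i, UU θ 2 w e i = ∑ j ∈ range (e + 1), θ j • cc 2 (UU θ 2 w) (e - j) i :=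
    fun e i => UU_eq θ hθ0 h2 2 (by norm_num) w hw e i
  have co : ∀ e i, ¬ 2 ∣ e → cc 2 (UU θ 2 w) e i = 0 := fun e i he => cc_odd 2 (by omega) _ e i he
  have c0 : ∀ i, cc 2 (UU θ 2 w) 0 i = w i := fun i => cc_zero θ h2 2 w hw i
  have c : ∀ e i, ¬ 4 ∣ 2 * e → 2 * cc 2 (UU θ 2 w) (2 * e) i = UU θ 2 w e (i + 1) := by
    intro e i he
    unfold cc
    rw [if_pos (Dvd.intro _ rfl), if_neg (by norm_num; exact he),
      if_neg (by norm_num; exact fun h => he (dvd_trans (by norm_num) h)),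
      Nat.mul_div_cancel_left _ (by norm_num), smul_inv_two h2]
    ring
  have c' : ∀ e i, ¬ 8 ∣ 4 * e → 2 * cc 2 (UU θ 2 w) (4 * e) i = UU θ 2 w (2 * e) (i + 1)
      + 2 * UU θ 2 w e (i + 2) := by
    intro e i he
    unfold cc
    have q1 : 2 ∣ 4 * e := ⟨2 * e, by ring⟩
    have q2 : 2 ^ 2 ∣ 4 * e := ⟨e, by ring⟩
    have q3 : 4 * e / 2 = 2 * e := by omega
    have q4 : 4 * e / 2 ^ 2 = e := by omega
    rw [if_pos q1, if_pos q2,
      if_neg (by norm_num; exact he), q3, q4, smul_inv_two h2]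
    ring
  have t : ∀ j, j < 40 → θ j = (tt j : k) := hθ
  have t2 : θ 2 = 0 := by rw [t 2 (by norm_num)]; simp [tt]
  have t3 : θ 3 = 0 := by rw [t 3 (by norm_num)]; simp [tt]
  have t4 : θ 4 = 0 := by rw [t 4 (by norm_num)]; simp [tt]
  have t5 : θ 5 = 0 := by rw [t 5 (by norm_num)]; simp [tt]
  have t6 : θ 6 = 0 := by rw [t 6 (by norm_num)]; simp [tt]
  have t7 : θ 7 = 0 := by rw [t 7 (by norm_num)]; simp [tt]
  have t8 : θ 8 = 0 := by rw [t 8 (by norm_num)]; simp [tt]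
  have t9 : θ 9 = -1 := by rw [t 9 (by norm_num)]; simp [tt]
  have t10 : θ 10 = 0 := by rw [t 10 (by norm_num)]; simp [tt]
  have t11 : θ 11 = 1 := by rw [t 11 (by norm_num)]; simp [tt]
  have t12 : θ 12 = 0 := by rw [t 12 (by norm_num)]; simp [tt]
  have t13 : θ 13 = 0 := by rw [t 13 (by norm_num)]; simp [tt]
  have t14 : θ 14 = 0 := by rw [t 14 (by norm_num)]; simp [tt]
  have t15 : θ 15 = 0 := by rw [t 15 (by norm_num)]; simp [tt]
  have u1 : ∀ i, UU θ 2 w 1 i = - w i := by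
    intro i
    rw [l 1 i]
    simp only [Finset.sum_range_succ, Finset.sum_range_zero, hθ0, hθ1, Nat.sub_zero, Nat.sub_self,
      one_smul, neg_smul, zero_add]
    rw [co 1 i (by norm_num), c0]; ring
  have u2 : ∀ i, 2 * UU θ 2 w 2 i = - w (i + 1) := by
    intro i
    rw [l 2 i]
    simp only [Finset.sum_range_succ, Finset.sum_range_zero, hθ0, hθ1, t2, Nat.sub_zero,
      Nat.sub_self, one_smul, neg_smul, zero_add, zero_smul, add_zero]
    norm_num only
    have h := c 1 i (by norm_num)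
    rw [co 1 i (by norm_num), neg_zero, add_zero]
    show 2 * cc 2 (UU θ 2 w) (2 * 1) i = _
    rw [h, u1]
  have u3 : ∀ i, 2 * UU θ 2 w 3 i = w (i + 1) := by
    intro i
    rw [l 3 i]
    simp only [Finset.sum_range_succ, Finset.sum_range_zero, hθ0, hθ1, t2, t3, Nat.sub_zero,
      Nat.sub_self, one_smul, neg_smul, zero_add, zero_smul, add_zero]
    norm_num only
    have h := c 1 i (by norm_num)
    rw [co 3 i (by norm_num), zero_add, mul_neg]
    show -(2 * cc 2 (UU θ 2 w) (2 * 1) i) = _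
    rw [h, u1, neg_neg]
  have u5 : ∀ i, 4 * UU θ 2 w 5 i = 5 * w (i + 2) := by
    intro i
    rw [l 5 i]
    simp only [Finset.sum_range_succ, Finset.sum_range_zero, hθ0, hθ1, t2, t3, t4, t5, Nat.sub_zero,
      Nat.sub_self, one_smul, neg_smul, zero_add, zero_smul, add_zero]
    norm_num only
    have h := c' 1 i (by norm_num)
    rw [co 5 i (by norm_num), zero_add]
    rw [mul_one, mul_one] at h
    have h' := u2 (i + 1)
    have h'' := u1 (i + 2)
    rw [show i + 1 + 1 = i + 2 by ring] at h'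
    linear_combination -2 * h - h' - 4 * h''
  have u7 : ∀ i, 4 * UU θ 2 w 7 i = - w (i + 2) := by
    intro i
    rw [l 7 i]
    simp only [Finset.sum_range_succ, Finset.sum_range_zero, hθ0, hθ1, t2, t3, t4, t5, t6, t7,
      Nat.sub_zero, Nat.sub_self, one_smul, neg_smul, zero_add, zero_smul, add_zero]
    norm_num only
    have h := c 3 i (by norm_num)
    rw [co 7 i (by norm_num), zero_add]
    rw [show 2 * 3 = 6 by norm_num] at h
    have h' := u3 (i + 1)
    rw [show i + 1 + 1 = i + 2 by ring] at h'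
    linear_combination -2 * h - h'
  refine ⟨u1, u3, u5, ?_, ?_⟩
  · intro i
    rw [l 11 i]
    simp only [Finset.sum_range_succ, Finset.sum_range_zero, hθ0, hθ1, t2, t3, t4, t5, t6, t7, t8,
      t9, t10, t11, Nat.sub_zero, Nat.sub_self, one_smul, neg_smul, zero_add, zero_smul, add_zero]
    norm_num only
    have h := c 5 i (by norm_num)
    rw [show 2 * 5 = 10 by norm_num] at h
    have h' := u5 (i + 1)
    rw [show i + 1 + 2 = i + 3 by ring] at h'
    have g := c 1 i (by norm_num)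
    rw [show 2 * 1 = 2 by norm_num, u1] at g
    rw [co 11 i (by norm_num), c0]
    linear_combination -4 * h - h' - 4 * g
  · intro i
    rw [l 15 i]
    simp only [Finset.sum_range_succ, Finset.sum_range_zero, hθ0, hθ1, t2, t3, t4, t5, t6, t7, t8,
      t9, t10, t11, t12, t13, t14, t15, Nat.sub_zero, Nat.sub_self, one_smul, neg_smul, zero_add,
      zero_smul, add_zero]
    norm_num only
    have h := c 7 i (by norm_num)
    rw [show 2 * 7 = 14 by norm_num] at h
    have h' := u7 (i + 1)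
    rw [show i + 1 + 2 = i + 3 by ring] at h'
    have g := c 3 i (by norm_num)
    rw [show 2 * 3 = 6 by norm_num] at g
    have g' := u3 (i + 1)
    rw [show i + 1 + 1 = i + 2 by ring] at g'
    have f := c' 1 i (by norm_num)
    rw [show 4 * 1 = 4 by norm_num, show 2 * 1 = 2 by norm_num] at f
    have f' := u2 (i + 1)
    have f'' := u1 (i + 2)
    rw [show i + 1 + 1 = i + 2 by ring] at f'
    rw [co 15 i (by norm_num)]
    linear_combination -4 * h - h' - 4 * g - 2 * g' + 4 * f + 2 * f' + 8 * f''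

/-- Elimination for `d = 2`. -/
theorem elim_two {ω : k} (hω : 1 + ω + ω ^ 2 = 0) {θ : ℕ → k}
    (hθ : ∀ j, j < 40 → θ j = (tt j : k))
    (h2 : (2 : k) ≠ 0) (h3 : (3 : k) ≠ 0)
    {u : Fin 3 → ℕ → PowerSeries k} {v1 vd vD : ℕ → PowerSeries k}
    (hE : EId ω 2 θ u v1 vd vD) (g : ℕ) (hg : 1 ≤ g)
    (hper : ∀ a i, u a (i + g) = u a i)
    (hu : ∀ a i, 2 * u a i = u a (i + 1) + 2 * u a (i + 2) - u a (i + 2 + 1))
    (hv1 : ∀ i, 2 * v1 i = v1 (i + 1) + 2 * v1 (i + 2) - v1 (i + 2 + 1)) :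
    ∀ a i, u a i = 0 := by
  have hω3 : ω ^ 3 = 1 := by linear_combination (ω - 1) * hω
  have hP : ∀ n : ℕ, (n : k) ≠ 0 → ∀ a : PowerSeries k, (n : PowerSeries k) * a = 0 → a = 0 :=
    fun n hn a ha => (mul_eq_zero.mp ha).resolve_left (natCast_ne_zero_PS n hn)
  have val := fun w hw => val2 θ hθ h2 w hw
  have hA : ∀ i, ∑ a : Fin 3, PowerSeries.C ((ω ^ (a : ℕ)) ^ (2 ^ i)) * u a i = 0 := by
    intro i
    have h := EId_no (by omega) hE 1 i (by norm_num)
    have h' : ∑ a : Fin 3, PowerSeries.C (((ω ^ (a : ℕ)) ^ (2 ^ i)) ^ 1) * UU θ 2 (u a) 1 i =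
        - ∑ a : Fin 3, PowerSeries.C ((ω ^ (a : ℕ)) ^ (2 ^ i)) * u a i := by
      rw [← Finset.sum_neg_distrib]
      apply Finset.sum_congr rfl
      intro a _
      rw [(val (u a) (hu a)).1 i, pow_one]; ring
    rw [h'] at h
    exact neg_eq_zero.mp h
  have hB : ∀ i, ∑ a : Fin 3, PowerSeries.C ((ω ^ (a : ℕ)) ^ (2 ^ (i + 1))) * u a i = 0 := by
    intro i
    have h := EId_no (by omega) hE 11 i (by norm_num)
    have hr : ∀ (a : Fin 3), ((ω ^ (a : ℕ)) ^ (2 ^ i)) ^ 11 = (ω ^ (a : ℕ)) ^ (2 ^ (i + 1)) ∧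
        (ω ^ (a : ℕ)) ^ (2 ^ (i + 3)) = (ω ^ (a : ℕ)) ^ (2 ^ (i + 1)) := by
      intro a
      have h3' : (ω ^ (a : ℕ)) ^ 3 = 1 := by rw [← pow_mul, mul_comm, pow_mul, hω3, one_pow]
      constructor
      · rw [← pow_mul]
        apply pow_cube_congr h3'
        show (2 ^ i * 11) % 3 = (2 ^ (i + 1)) % 3
        rw [pow_add]
        omega
      · apply pow_cube_congr h3'
        show (2 ^ (i + 3)) % 3 = (2 ^ (i + 1)) % 3
        rw [pow_add, pow_add]
        omega
    have h' : 8 * ∑ a : Fin 3, PowerSeries.C (((ω ^ (a : ℕ)) ^ (2 ^ i)) ^ 11) * UU θ 2 (u a) 11 i =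
        - 5 * ∑ a : Fin 3, PowerSeries.C ((ω ^ (a : ℕ)) ^ (2 ^ (i + 3))) * u a (i + 3)
        + 4 * ∑ a : Fin 3, PowerSeries.C ((ω ^ (a : ℕ)) ^ (2 ^ (i + 1))) * u a (i + 1)
        + 8 * ∑ a : Fin 3, PowerSeries.C ((ω ^ (a : ℕ)) ^ (2 ^ (i + 1))) * u a i := by
      rw [Finset.mul_sum, Finset.mul_sum, Finset.mul_sum, Finset.mul_sum, ← Finset.sum_add_distrib,
        ← Finset.sum_add_distrib]
      apply Finset.sum_congr rfl
      intro a _
      have h11 := (val (u a) (hu a)).2.2.2.1 i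
      rw [(hr a).1, (hr a).2]
      linear_combination (PowerSeries.C ((ω ^ (a : ℕ)) ^ (2 ^ (i + 1)))) * h11
    rw [h, hA (i + 3), hA (i + 1), mul_zero, mul_zero, mul_zero, zero_add, zero_add] at h'
    exact hP 8 (by
      have : ((8 : ℕ) : k) = 2 ^ 3 := by norm_num
      rw [this]; exact pow_ne_zero _ h2) _ (by exact_mod_cast h'.symm)
  have heq : ∀ i, u 0 i = u 1 i ∧ u 1 i = u 2 i := fun i =>
    u_equal hω h2 h3 u i (hA i) (hB i)
  have hsum : ∀ e i, ∑ a : Fin 3, UU θ 2 (u a) e i = 3 * UU θ 2 (u 0) e i := by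
    intro e i
    have e1 : u 1 = u 0 := by funext j; exact (heq j).1.symm
    have e2 : u 2 = u 0 := by funext j; rw [← (heq j).2, ← (heq j).1]
    rw [Fin.sum_univ_three, e1, e2]; ring
  have hv : ∀ i, -(2 * v1 i) = 3 * u 0 (i + 1) := by
    intro i
    have h := EId_three hω3 (by omega) hE 1 i (by norm_num)
    rw [(val v1 hv1).1, hsum] at h
    have h' := (val (u 0) (hu 0)).2.1 i
    rw [show 3 * 1 = 3 by norm_num] at h
    linear_combination 2 * h.symm + 3 * h'
  have hdbl : ∀ i, u 0 (i + 3) = 2 * u 0 (i + 2) := by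
    intro i
    have h := EId_three hω3 (by omega) hE 5 i (by norm_num)
    rw [hsum, show 3 * 5 = 15 by norm_num] at h
    have h5 := (val v1 hv1).2.2.1 i
    have h15 := (val (u 0) (hu 0)).2.2.2.2 i
    have hvv := hv (i + 2)
    rw [show i + 2 + 1 = i + 3 by ring] at hvv
    have : (18 : PowerSeries k) * (u 0 (i + 3) - 2 * u 0 (i + 2)) = 0 := by
      linear_combination 8 * h - 3 * h15 + 2 * h5 - 5 * hvv
    have h18 := hP 18 (by
      have : ((18 : ℕ) : k) = 2 * 3 ^ 2 := by norm_num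
      rw [this]; exact mul_ne_zero h2 (pow_ne_zero _ h3)) _ (by exact_mod_cast this)
    exact sub_eq_zero.mp h18
  -- extend to all indices by periodicity
  have hdbl' : ∀ i, u 0 (i + 1) - 2 * u 0 i = 0 := by
    intro i
    apply per_zero g hg (fun i => u 0 (i + 1) - 2 * u 0 i) _ 2
    · intro j hj
      obtain ⟨j', rfl⟩ : ∃ j', j = j' + 2 := ⟨j - 2, by omega⟩
      have := hdbl j'
      rw [show j' + 2 + 1 = j' + 3 by ring, this]; ring
    · intro j
      show u 0 (j + g + 1) - 2 * u 0 (j + g) = u 0 (j + 1) - 2 * u 0 j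
      rw [show j + g + 1 = (j + 1) + g by ring, hper, hper]
  have hd1 : ∀ i, u 0 (i + 1) = 2 * u 0 i := fun i => sub_eq_zero.mp (hdbl' i)
  have hv3 : ∀ i, v1 i = -3 * u 0 i := by
    intro i
    have h1 := hv i
    rw [hd1] at h1
    have : (2 : PowerSeries k) * (v1 i + 3 * u 0 i) = 0 := by linear_combination -h1
    have := hP 2 (by exact_mod_cast h2) _ (by exact_mod_cast this)
    linear_combination this
  have hv1d : ∀ i, v1 (i + 1) = 2 * v1 i := by
    intro i; rw [hv3, hv3, hd1]; ring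
  have U := UU_scalar θ hθ h2 (u 0) hd1
  have V := UU_scalar θ hθ h2 v1 hv1d
  have hzero : ∀ i, u 0 i = 0 := by
    intro i
    have h21 := EId_three hω3 (by omega) hE 7 i (by norm_num)
    have h39 := EId_three hω3 (by omega) hE 13 i (by norm_num)
    rw [hsum, show 3 * 7 = 21 by norm_num, U 21 (by norm_num), V 7 (by norm_num), hv3] at h21
    rw [hsum, show 3 * 13 = 39 by norm_num, U 39 (by norm_num), V 13 (by norm_num), hv3] at h39
    have b21 : bb 21 = -27 := by decide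
    have b7 : bb 7 = -1 := by decide
    have b39 : bb 39 = 23 := by decide
    have b13 : bb 13 = -1 := by decide
    rw [b21, b7] at h21
    rw [b39, b13] at h39
    push_cast at h21 h39
    have : (6 : PowerSeries k) * u 0 i = 0 := by
      linear_combination (-4) * h21 - 5 * h39
    exact hP 6 (by
      have : ((6 : ℕ) : k) = 2 * 3 := by norm_num
      rw [this]; exact mul_ne_zero h2 h3) _ (by exact_mod_cast this)
  intro a i
  fin_cases a
  · exact hzero i
  · show u 1 i = 0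
    rw [← (heq i).1]; exact hzero i
  · show u 2 i = 0
    rw [← (heq i).2, ← (heq i).1]; exact hzero i

end Run7.h751
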