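import Pool.Agent.Run7.h751.Basic2

open PowerSeries Finset

namespace Run7.h751

variable {R : Type*} [CommRing R]

lemma expand_one_sub (a : ℕ) (ha : a ≠ 0) (n : ℕ) :
    PowerSeries.expand a ha (1 - (X : PowerSeries R) ^ n) = 1 - X ^ (a * n) := by
  rw [map_sub, map_one, map_pow, PowerSeries.expand_X, ← pow_mul]

lemma rescale_one_sub (c : R) (n : ℕ) :
    PowerSeries.rescale c (1 - (X : PowerSeries R) ^ n) = 1 - PowerSeries.C (c ^ n) * X ^ n := by
  rw [map_sub, map_one, map_pow, PowerSeries.rescale_X, mul_pow, map_pow]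

lemma norm_two_trunc (d : ℕ) (hd : 1 ≤ d) (h2 : 2 ^ d ≠ 0) (h2' : 2 ^ (d + 1) ≠ 0) (K : ℕ) :
    (PK R d (2 * K) * PowerSeries.rescale (-1) (PK R d (2 * K))) *
      PowerSeries.expand (2 ^ (d + 1)) h2' (PK R d K) =
    PowerSeries.expand 2 two_ne_zero (PK R d (2 * K)) *
      (PowerSeries.expand (2 ^ d) h2 (PK R d K)) ^ 2 := by
  induction K with
  | zero => simp [PK_zero]
  | succ K ih =>
    have e : 2 * (K + 1) = (2 * K + 1) + 1 := by ring
    rw [e, PK_succ, PK_succ, PK_succ d K]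
    simp only [map_mul, expand_one_sub, rescale_one_sub]
    have hn : (-1 : R) ^ ((2 * K + 1) ^ d) = -1 := by
      apply Odd.neg_one_pow
      exact Odd.pow ⟨K, rfl⟩
    have hm : (-1 : R) ^ ((2 * K + 1 + 1) ^ d) = 1 := by
      apply Even.neg_one_pow
      exact Even.pow_of_ne_zero ⟨K + 1, by ring⟩ (by omega)
    have hm2 : (2 * K + 1 + 1) ^ d = 2 ^ d * (K + 1) ^ d := by
      rw [← mul_pow]; congr 1
    rw [hn, hm, map_neg, map_one]
    have hm3 : 2 * (2 * K + 1 + 1) ^ d = 2 ^ (d + 1) * (K + 1) ^ d := by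
      rw [hm2, pow_succ]; ring
    rw [hm3, hm2]
    have hx : (X : PowerSeries R) ^ (2 * (2 * K + 1) ^ d) = (X ^ ((2 * K + 1) ^ d)) ^ 2 := by
      rw [← pow_mul, mul_comm]
    rw [hx]
    set A := PK R d (2 * K)
    set B := PowerSeries.rescale (-1) (PK R d (2 * K))
    set D := PowerSeries.expand (2 ^ (d + 1)) h2' (PK R d K)
    set E := PowerSeries.expand 2 two_ne_zero (PK R d (2 * K))
    set G := PowerSeries.expand (2 ^ d) h2 (PK R d K)
    set x := (X : PowerSeries R) ^ ((2 * K + 1) ^ d)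
    set y := (X : PowerSeries R) ^ (2 ^ d * (K + 1) ^ d)
    set z := (X : PowerSeries R) ^ (2 ^ (d + 1) * (K + 1) ^ d)
    linear_combination (1 - x ^ 2) * (1 - z) * (1 - y) ^ 2 * ih

lemma omega_pow {ω : R} (hω : 1 + ω + ω ^ 2 = 0) (n : ℕ) (hn : ¬ 3 ∣ n) :
    1 + ω ^ n + (ω ^ 2) ^ n = 0 := by
  have hω3 : ω ^ 3 = 1 := by linear_combination (ω - 1) * hω
  have h1 : ω ^ n = ω ^ (n % 3) := pow_eq_pow_mod n hω3
  have h2 : (ω ^ 2) ^ n = ω ^ ((2 * n) % 3) := by
    rw [← pow_mul]; exact pow_eq_pow_mod (2 * n) hω3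
  have h3 : n % 3 = 1 ∨ n % 3 = 2 := by omega
  rcases h3 with h | h
  · have h' : 2 * n % 3 = 2 := by omega
    rw [h1, h2, h, h']; linear_combination hω
  · have h' : 2 * n % 3 = 1 := by omega
    rw [h1, h2, h, h']; linear_combination hω

lemma cube_factor {ω : R} (hω : 1 + ω + ω ^ 2 = 0) (n : ℕ) (hn : ¬ 3 ∣ n) (x : PowerSeries R) :
    (1 - x) * (1 - PowerSeries.C (ω ^ n) * x) * (1 - PowerSeries.C ((ω ^ 2) ^ n) * x) =
      1 - x ^ 3 := by
  have h := omega_pow hω n hn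
  have hω3 : ω ^ 3 = 1 := by linear_combination (ω - 1) * hω
  have h' : ω ^ n * (ω ^ 2) ^ n = 1 := by
    rw [← mul_pow, show ω * ω ^ 2 = ω ^ 3 by ring, hω3, one_pow]
  have c1 := congrArg (PowerSeries.C (R := R)) h
  have c2 := congrArg (PowerSeries.C (R := R)) h'
  rw [map_add, map_add, map_one, map_zero] at c1
  rw [map_mul, map_one] at c2
  set a := (PowerSeries.C (ω ^ n) : PowerSeries R)
  set b := (PowerSeries.C ((ω ^ 2) ^ n) : PowerSeries R)
  linear_combination (- x + x ^ 2) * c1 + (x ^ 2 - x ^ 3) * c2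

lemma norm_three_trunc {ω : R} (hω : 1 + ω + ω ^ 2 = 0) (d : ℕ) (hd : 1 ≤ d) (h3 : 3 ^ d ≠ 0)
    (h3' : 3 ^ (d + 1) ≠ 0) (K : ℕ) :
    (PK R d (3 * K) * PowerSeries.rescale ω (PK R d (3 * K)) *
      PowerSeries.rescale (ω ^ 2) (PK R d (3 * K))) *
      PowerSeries.expand (3 ^ (d + 1)) h3' (PK R d K) =
    PowerSeries.expand 3 three_ne_zero (PK R d (3 * K)) *
      (PowerSeries.expand (3 ^ d) h3 (PK R d K)) ^ 3 := by
  induction K with
  | zero => simp [PK_zero]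
  | succ K ih =>
    have e : 3 * (K + 1) = ((3 * K + 1) + 1) + 1 := by ring
    rw [e, PK_succ, PK_succ, PK_succ, PK_succ d K]
    simp only [map_mul, expand_one_sub, rescale_one_sub]
    have hnd : ∀ m, ¬ 3 ∣ m → ¬ 3 ∣ m ^ d := fun m hm h =>
      hm (Nat.Prime.dvd_of_dvd_pow Nat.prime_three h)
    have f1 := cube_factor hω ((3 * K + 1) ^ d) (hnd _ (by omega)) (X ^ ((3 * K + 1) ^ d))
    have f2 := cube_factor hω ((3 * K + 1 + 1) ^ d) (hnd _ (by omega)) (X ^ ((3 * K + 1 + 1) ^ d))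
    have hω3 : ω ^ 3 = 1 := by linear_combination (ω - 1) * hω
    have hm2 : (3 * K + 1 + 1 + 1) ^ d = 3 ^ d * (K + 1) ^ d := by
      rw [← mul_pow]; congr 1
    have hdvd : 3 ∣ 3 ^ d * (K + 1) ^ d := Dvd.dvd.mul_right (dvd_pow_self 3 (by omega)) _
    obtain ⟨t, ht⟩ := hdvd
    have g1 : ω ^ ((3 * K + 1 + 1 + 1) ^ d) = 1 := by
      rw [hm2, ht, pow_mul, hω3, one_pow]
    have g2 : (ω ^ 2) ^ ((3 * K + 1 + 1 + 1) ^ d) = 1 := by
      rw [hm2, ht, ← pow_mul, show 2 * (3 * t) = 3 * (2 * t) by ring, pow_mul, hω3, one_pow]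
    rw [g1, g2, map_one]
    have hm3 : 3 * (3 * K + 1 + 1 + 1) ^ d = 3 ^ (d + 1) * (K + 1) ^ d := by
      rw [hm2, pow_succ]; ring
    rw [hm3, hm2]
    have hx : ∀ n, (X : PowerSeries R) ^ (3 * n) = (X ^ n) ^ 3 := by
      intro n; rw [← pow_mul, mul_comm]
    rw [hx, hx]
    rw [← f1, ← f2]
    set A := PK R d (3 * K)
    set B := PowerSeries.rescale ω (PK R d (3 * K))
    set B' := PowerSeries.rescale (ω ^ 2) (PK R d (3 * K))
    set D := PowerSeries.expand (3 ^ (d + 1)) h3' (PK R d K)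
    set E := PowerSeries.expand 3 three_ne_zero (PK R d (3 * K))
    set G := PowerSeries.expand (3 ^ d) h3 (PK R d K)
    set x := (X : PowerSeries R) ^ ((3 * K + 1) ^ d)
    set x' := (X : PowerSeries R) ^ ((3 * K + 1 + 1) ^ d)
    set c1 := (PowerSeries.C (ω ^ (3 * K + 1) ^ d) : PowerSeries R)
    set c2 := (PowerSeries.C ((ω ^ 2) ^ (3 * K + 1) ^ d) : PowerSeries R)
    set c3 := (PowerSeries.C (ω ^ (3 * K + 1 + 1) ^ d) : PowerSeries R)
    set c4 := (PowerSeries.C ((ω ^ 2) ^ (3 * K + 1 + 1) ^ d) : PowerSeries R)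
    set y := (X : PowerSeries R) ^ (3 ^ d * (K + 1) ^ d)
    set z := (X : PowerSeries R) ^ (3 ^ (d + 1) * (K + 1) ^ d)
    linear_combination (((1 - x) * (1 - c1 * x) * (1 - c2 * x)) *
      ((1 - x') * (1 - c3 * x') * (1 - c4 * x'))) * (1 - z) * (1 - y) ^ 3 * ih

/-- two series with the same approximate inverses are equal. -/
lemma eq_of_inv (A B : PowerSeries R) (a : ℕ → PowerSeries R)
    (hA : ∀ K, X ^ (K + 1) ∣ A * a K - 1) (hB : ∀ K, X ^ (K + 1) ∣ B * a K - 1) : A = B := by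
  have h : ∀ K, X ^ (K + 1) ∣ A - B := by
    intro K
    have := ((hA K).mul_left B).sub ((hB K).mul_left A)
    have e : B * (A * a K - 1) - A * (B * a K - 1) = A - B := by ring
    rwa [e] at this
  ext n
  have h1 := h n
  rw [PowerSeries.X_pow_dvd_iff] at h1
  have h2 := h1 n (by omega)
  rw [map_sub] at h2
  exact sub_eq_zero.mp h2

lemma mul_inv_dvd {N : ℕ} {A a B b : PowerSeries R} (hA : X ^ N ∣ A * a - 1)
    (hB : X ^ N ∣ B * b - 1) : X ^ N ∣ (A * B) * (a * b) - 1 := by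
  have := (hA.mul_right (B * b)).add hB
  have e : (A * a - 1) * (B * b) + (B * b - 1) = (A * B) * (a * b) - 1 := by ring
  rwa [e] at this

lemma rescale_inv_dvd {N : ℕ} {A a : PowerSeries R} (c : R) (hA : X ^ N ∣ A * a - 1) :
    X ^ N ∣ PowerSeries.rescale c A * PowerSeries.rescale c a - 1 := by
  obtain ⟨t, ht⟩ := hA
  have := congrArg (PowerSeries.rescale c) ht
  rw [map_sub, map_mul, map_one, map_mul, map_pow, PowerSeries.rescale_X, mul_pow] at this
  rw [this]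
  exact ⟨PowerSeries.C c ^ N * PowerSeries.rescale c t, by ring⟩

lemma expand_inv_dvd {N : ℕ} {A a : PowerSeries R} (e : ℕ) (he : e ≠ 0) (hA : X ^ N ∣ A * a - 1) :
    X ^ N ∣ PowerSeries.expand e he A * PowerSeries.expand e he a - 1 := by
  obtain ⟨t, ht⟩ := hA
  have := congrArg (PowerSeries.expand e he) ht
  rw [map_sub, map_mul, map_one, map_mul, map_pow, PowerSeries.expand_X] at this
  rw [this, ← pow_mul]
  exact Dvd.dvd.mul_right (pow_dvd_pow _ (Nat.le_mul_of_pos_left _ (Nat.pos_of_ne_zero he))) _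

lemma FF_PK_dvd (d : ℕ) (hd : 1 ≤ d) (K K' : ℕ) (h : K ≤ K') :
    (X : PowerSeries R) ^ (K + 1) ∣ FF R d * PK R d K' - 1 := by
  refine dvd_trans (pow_dvd_pow _ ?_) (FF_mul_PK d (by omega) K')
  calc K + 1 ≤ K' + 1 := by omega
    _ ≤ (K' + 1) ^ d := Nat.le_self_pow (by omega) _

theorem norm_two (d : ℕ) (hd : 1 ≤ d) (h2 : 2 ^ d ≠ 0) (h2' : 2 ^ (d + 1) ≠ 0) :
    (FF R d * PowerSeries.rescale (-1) (FF R d)) *
      PowerSeries.expand (2 ^ (d + 1)) h2' (FF R d) =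
    PowerSeries.expand 2 two_ne_zero (FF R d) *
      (PowerSeries.expand (2 ^ d) h2 (FF R d)) ^ 2 := by
  apply eq_of_inv _ _ (fun K => (PK R d (2 * K) * PowerSeries.rescale (-1) (PK R d (2 * K))) *
      PowerSeries.expand (2 ^ (d + 1)) h2' (PK R d K))
  · intro K
    apply mul_inv_dvd
    · apply mul_inv_dvd
      · exact FF_PK_dvd d hd K (2 * K) (by omega)
      · exact rescale_inv_dvd _ (FF_PK_dvd d hd K (2 * K) (by omega))
    · exact expand_inv_dvd _ _ (FF_PK_dvd d hd K K (le_refl _))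
  · intro K
    show X ^ (K + 1) ∣ _ * ((PK R d (2 * K) * PowerSeries.rescale (-1) (PK R d (2 * K))) *
      PowerSeries.expand (2 ^ (d + 1)) h2' (PK R d K)) - 1
    rw [norm_two_trunc d hd h2 h2' K]
    apply mul_inv_dvd
    · exact expand_inv_dvd _ _ (FF_PK_dvd d hd K (2 * K) (by omega))
    · rw [pow_two, pow_two]
      apply mul_inv_dvd <;> exact expand_inv_dvd _ _ (FF_PK_dvd d hd K K (le_refl _))

theorem norm_three {ω : R} (hω : 1 + ω + ω ^ 2 = 0) (d : ℕ) (hd : 1 ≤ d) (h3 : 3 ^ d ≠ 0)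
    (h3' : 3 ^ (d + 1) ≠ 0) :
    (FF R d * PowerSeries.rescale ω (FF R d) * PowerSeries.rescale (ω ^ 2) (FF R d)) *
      PowerSeries.expand (3 ^ (d + 1)) h3' (FF R d) =
    PowerSeries.expand 3 three_ne_zero (FF R d) *
      (PowerSeries.expand (3 ^ d) h3 (FF R d)) ^ 3 := by
  apply eq_of_inv _ _ (fun K => (PK R d (3 * K) * PowerSeries.rescale ω (PK R d (3 * K)) *
      PowerSeries.rescale (ω ^ 2) (PK R d (3 * K))) *
      PowerSeries.expand (3 ^ (d + 1)) h3' (PK R d K))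
  · intro K
    have b : X ^ (K + 1) ∣ FF R d * PK R d (3 * K) - 1 := FF_PK_dvd d hd K (3 * K) (by omega)
    apply mul_inv_dvd
    · exact mul_inv_dvd (mul_inv_dvd b (rescale_inv_dvd _ b)) (rescale_inv_dvd _ b)
    · exact expand_inv_dvd _ _ (FF_PK_dvd d hd K K (le_refl _))
  · intro K
    show X ^ (K + 1) ∣ _ * ((PK R d (3 * K) * PowerSeries.rescale ω (PK R d (3 * K)) *
      PowerSeries.rescale (ω ^ 2) (PK R d (3 * K))) *
      PowerSeries.expand (3 ^ (d + 1)) h3' (PK R d K)) - 1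
    rw [norm_three_trunc hω d hd h3 h3' K]
    apply mul_inv_dvd
    · exact expand_inv_dvd _ _ (FF_PK_dvd d hd K (3 * K) (by omega))
    · have b : X ^ (K + 1) ∣ PowerSeries.expand (3 ^ d) h3 (FF R d) *
        PowerSeries.expand (3 ^ d) h3 (PK R d K) - 1 :=
        expand_inv_dvd _ _ (FF_PK_dvd d hd K K (le_refl _))
      rw [pow_three', pow_three']
      exact mul_inv_dvd (mul_inv_dvd b b) b

end Run7.h751
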