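import Pool.Agent.Run7.h751.An7
import Pool.Agent.Run7.h751.Norm

open PowerSeries Finset

namespace Run7.h751

variable {k : Type*} [Field k]

/-- the reflected series -/
noncomputable def FM (k : Type*) [Field k] (d : ℕ) : PowerSeries k :=
  PowerSeries.rescale (-1) (FF k d)

lemma constCoeff_FM (d : ℕ) (hd : d ≠ 0) : PowerSeries.constantCoeff (FM k d) = 1 := by
  unfold FM
  rw [← PowerSeries.coeff_zero_eq_constantCoeff_apply, PowerSeries.coeff_rescale, pow_zero, one_mul,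
    PowerSeries.coeff_zero_eq_constantCoeff_apply, constCoeff_FF d hd]

/-- the cocycle series `C(z) = 2F(-z)/(F(z)+F(-z))` -/
noncomputable def CS (k : Type*) [Field k] (d : ℕ) : PowerSeries k :=
  2 * FM k d * (FF k d + FM k d)⁻¹

lemma CS_mul (h2 : (2 : k) ≠ 0) (d : ℕ) (hd : d ≠ 0) :
    CS k d * (FF k d + FM k d) = 2 * FM k d := by
  unfold CS
  rw [mul_assoc, PowerSeries.inv_mul_cancel, mul_one]
  rw [map_add, constCoeff_FF d hd, constCoeff_FM d hd]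
  norm_num
  exact h2

lemma dvd_of_unit_mul {N : ℕ} {U a : PowerSeries k} (hU : PowerSeries.constantCoeff U ≠ 0)
    (h : X ^ N ∣ U * a) : X ^ N ∣ a := by
  have hunit : IsUnit U := by
    rw [PowerSeries.isUnit_iff_constantCoeff]
    exact isUnit_iff_ne_zero.mpr hU
  exact (hunit.dvd_mul_left).mp h

/-- general low order congruence. -/
lemma CS_cong (h2 : (2 : k) ≠ 0) (d : ℕ) (hd : d ≠ 0) (K : ℕ) :
    (X : PowerSeries k) ^ ((K + 1) ^ d) ∣ CS k d * (PK k d K + PowerSeries.rescale (-1) (PK k d K))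
      - 2 * PK k d K := by
  have h1 := FF_mul_PK (R := k) d hd K
  have h3 := rescale_inv_dvd (-1) h1
  have h4 := CS_mul h2 d hd
  have h5 : (X : PowerSeries k) ^ ((K + 1) ^ d) ∣ FM k d * PowerSeries.rescale (-1) (PK k d K) - 1 :=
    h3
  set F := FF k d
  set G := FM k d
  set P := PK k d K
  set Q := PowerSeries.rescale (-1) (PK k d K)
  set C := CS k d
  obtain ⟨s, hs⟩ := h1
  obtain ⟨t, ht⟩ := h5
  set x := (X : PowerSeries k) ^ ((K + 1) ^ d)
  refine ⟨2 * P * t - C * Q * s - C * P * t, ?_⟩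
  linear_combination P * Q * h4 + (2 * P - C * P) * ht - (C * Q) * hs

lemma CS_low_ge3 (h2 : (2 : k) ≠ 0) (d : ℕ) (hd : 3 ≤ d) :
    (X : PowerSeries k) ^ 16 ∣ CS k d - (1 - X) := by
  have h := CS_cong h2 d (by omega) 2
  have hN : 16 ≤ (2 + 1) ^ d := by
    calc 16 ≤ 3 ^ 3 := by norm_num
      _ ≤ 3 ^ d := Nat.pow_le_pow_right (by norm_num) hd
  have h' := dvd_trans (pow_dvd_pow _ hN) h
  have hP : PK k d 2 = (1 - X) * (1 - X ^ (2 ^ d)) := by
    rw [show (2 : ℕ) = 0 + 1 + 1 by norm_num, PK_succ, PK_succ, PK_zero]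
    simp
  have hQ : PowerSeries.rescale (-1) (PK k d 2) = (1 + X) * (1 - X ^ (2 ^ d)) := by
    rw [hP, map_mul, rescale_one_sub]
    have he : (-1 : k) ^ (2 ^ d) = 1 := by
      apply Even.neg_one_pow
      exact Even.pow_of_ne_zero even_two (by omega)
    rw [he, map_one, one_mul, map_sub, map_one, PowerSeries.rescale_X, map_neg, map_one]
    ring
  rw [hQ, hP] at h'
  have e : CS k d * ((1 - X) * (1 - X ^ 2 ^ d) + (1 + X) * (1 - X ^ 2 ^ d)) -
      2 * ((1 - X) * (1 - X ^ 2 ^ d)) = (2 * (1 - X ^ (2 ^ d))) * (CS k d - (1 - X)) := by ring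
  rw [e] at h'
  refine dvd_of_unit_mul ?_ h'
  rw [map_mul, map_ofNat, map_sub, map_one, map_pow, PowerSeries.constantCoeff_X, zero_pow (by positivity)]
  simpa using h2

/-- explicit polynomial for `d = 2` -/
noncomputable def TT (k : Type*) [Field k] : PowerSeries k :=
  1 - X - X ^ 9 + X ^ 11 + X ^ 19 - X ^ 21 - X ^ 25 + X ^ 27 - X ^ 29 + X ^ 31 + 2 * X ^ 35
    - 2 * X ^ 37 + X ^ 39

lemma CS_low_two (h2 : (2 : k) ≠ 0) : (X : PowerSeries k) ^ 40 ∣ CS k 2 - TT k := by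
  have h := CS_cong h2 2 (by omega) 6
  have hN : 40 ≤ (6 + 1) ^ 2 := by norm_num
  have h' := dvd_trans (pow_dvd_pow _ hN) h
  have hP : PK k 2 6 = (1 - X) * (1 - X ^ 4) * (1 - X ^ 9) * (1 - X ^ 16) * (1 - X ^ 25) *
      (1 - X ^ 36) := by
    rw [show (6 : ℕ) = 0 + 1 + 1 + 1 + 1 + 1 + 1 by norm_num, PK_succ, PK_succ, PK_succ, PK_succ,
      PK_succ, PK_succ, PK_zero]
    norm_num
  have hQ : PowerSeries.rescale (-1) (PK k 2 6) =
      (1 + X) * (1 - X ^ 4) * (1 + X ^ 9) * (1 - X ^ 16) * (1 + X ^ 25) * (1 - X ^ 36) := by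
    rw [hP]
    simp only [map_mul, rescale_one_sub]
    rw [map_sub, map_one, PowerSeries.rescale_X, map_neg, map_one]
    norm_num
  rw [hQ, hP] at h'
  set C := CS k 2
  set S : PowerSeries k := 1 + X ^ 10 + X ^ 26 + X ^ 34
  have e : C * ((1 - X) * (1 - X ^ 4) * (1 - X ^ 9) * (1 - X ^ 16) * (1 - X ^ 25) *
      (1 - X ^ 36) + (1 + X) * (1 - X ^ 4) * (1 + X ^ 9) * (1 - X ^ 16) * (1 + X ^ 25) *
      (1 - X ^ 36)) - 2 * ((1 - X) * (1 - X ^ 4) * (1 - X ^ 9) * (1 - X ^ 16) * (1 - X ^ 25) *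
      (1 - X ^ 36)) = (2 * (1 - X ^ 4) * (1 - X ^ 16) * (1 - X ^ 36)) * (C * S -
      (1 - X) * (1 - X ^ 9) * (1 - X ^ 25)) := by
    simp only [S]; ring
  rw [e] at h'
  have h1 : (X : PowerSeries k) ^ 40 ∣ C * S - (1 - X) * (1 - X ^ 9) * (1 - X ^ 25) := by
    refine dvd_of_unit_mul ?_ h'
    simp only [map_mul, map_ofNat, map_sub, map_one, map_pow, PowerSeries.constantCoeff_X]
    norm_num
    exact h2
  have h3 : (X : PowerSeries k) ^ 40 ∣ TT k * S - (1 - X) * (1 - X ^ 9) * (1 - X ^ 25) := by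
    refine ⟨0 + X - X ^ 3 + 4 * X ^ 5 - 3 * X ^ 7 + X ^ 9 - X ^ 11 + 2 * X ^ 13 - 2 * X ^ 15 + X ^ 17 - X ^ 19 + 3 * X ^ 21 - 3 * X ^ 23 + 2 * X ^ 25 + 2 * X ^ 29 - 2 * X ^ 31 + X ^ 33, ?_⟩
    simp only [S, TT]
    ring
  have h4 := h1.sub h3
  have e2 : C * S - (1 - X) * (1 - X ^ 9) * (1 - X ^ 25) - (TT k * S - (1 - X) * (1 - X ^ 9) *
      (1 - X ^ 25)) = S * (C - TT k) := by ring
  rw [e2] at h4
  refine dvd_of_unit_mul ?_ h4
  simp only [S, map_add, map_one, map_pow, PowerSeries.constantCoeff_X]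
  norm_num

end Run7.h751
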