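import Pool.Agent.Run7.h751.An8

open PowerSeries Finset

namespace Run7.h751

variable {k : Type*} [Field k]

lemma coeff_TT (j : ℕ) (hj : j < 40) : PowerSeries.coeff j (TT k) = (tt j : k) := by
  have h2C : ∀ n : ℕ, (2 : PowerSeries k) * X ^ n = PowerSeries.C (2 : k) * X ^ n := by
    intro n; rw [map_ofNat]
  unfold TT
  rw [h2C, h2C]
  simp only [map_add, map_sub, PowerSeries.coeff_C_mul, PowerSeries.coeff_X_pow,
    PowerSeries.coeff_X, PowerSeries.coeff_one]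
  interval_cases j <;> simp [tt]

lemma coeff_eq_of_dvd {N : ℕ} {a b : PowerSeries k} (h : (X : PowerSeries k) ^ N ∣ a - b) (j : ℕ)
    (hj : j < N) : PowerSeries.coeff j a = PowerSeries.coeff j b := by
  rw [PowerSeries.X_pow_dvd_iff] at h
  have := h j hj
  rw [map_sub] at this
  exact sub_eq_zero.mp this

theorem Sys.zero {ω : k} (hω : 1 + ω + ω ^ 2 = 0) {d : ℕ} (hd2 : 2 ≤ d) (ℓ : ℕ) [hℓ : Fact ℓ.Prime]
    [CharP k ℓ] (hℓ5 : 5 ≤ ℓ) (S : Sys ω d (CS k d)) :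
    (∀ a i, S.s a i = 0) ∧ (∀ i, S.y1 i = 0) ∧ (∀ i, S.yd i = 0) ∧ (∀ i, S.yD i = 0) := by
  have hne : ∀ p : ℕ, p.Prime → p < 5 → (p : k) ≠ 0 := by
    intro p hp hp5 h0
    rw [CharP.cast_eq_zero_iff k ℓ] at h0
    have := (Nat.prime_dvd_prime_iff_eq hℓ.out hp).mp h0
    omega
  have h2 : (2 : k) ≠ 0 := by exact_mod_cast hne 2 Nat.prime_two (by norm_num)
  have h3 : (3 : k) ≠ 0 := by exact_mod_cast hne 3 Nat.prime_three (by norm_num)
  have hω3 : ω ^ 3 = 1 := by linear_combination (ω - 1) * hω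
  have hθ0 : PowerSeries.coeff 0 (CS k d) = 1 ∧ PowerSeries.coeff 1 (CS k d) = -1 := by
    rcases Nat.eq_or_lt_of_le hd2 with h | h
    · subst h
      have hc := CS_low_two h2
      rw [coeff_eq_of_dvd hc 0 (by norm_num), coeff_eq_of_dvd hc 1 (by norm_num),
        coeff_TT 0 (by norm_num), coeff_TT 1 (by norm_num)]
      simp [tt]
    · have hc := CS_low_ge3 h2 d h
      rw [coeff_eq_of_dvd hc 0 (by norm_num), coeff_eq_of_dvd hc 1 (by norm_num)]
      simp [PowerSeries.coeff_one, PowerSeries.coeff_X]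
  obtain ⟨u, v1, vd, vD, hu, hv1, hvd, hvD, hper, hE, hfin1, hfin2, hfin3, hfin4⟩ :=
    S.formal hω3 (by omega) ℓ (by omega) hθ0.1
  have hE' : EId ω d (fun e => PowerSeries.coeff e (CS k d)) u v1 vd vD := hE
  have hg : 1 ≤ d * (ℓ * (ℓ - 1)) := by
    have h1 : 1 ≤ ℓ * (ℓ - 1) := Nat.mul_pos (by omega) (by omega)
    exact Nat.mul_pos (by omega) h1
  have hu0 : ∀ a i, u a i = 0 := by
    rcases Nat.eq_or_lt_of_le hd2 with h | h
    · subst h
      exact elim_two hω (fun j hj => by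
        show PowerSeries.coeff j (CS k 2) = _
        rw [coeff_eq_of_dvd (CS_low_two h2) j hj, coeff_TT j hj]) h2 h3 hE' _ hg hper hu hv1
    · exact elim_ge3 hω h hθ0.1 hθ0.2 (fun j hj2 hj15 => by
        show PowerSeries.coeff j (CS k d) = _
        rw [coeff_eq_of_dvd (CS_low_ge3 h2 d h) j (by omega)]
        rw [map_sub, PowerSeries.coeff_one, PowerSeries.coeff_X, if_neg (by omega),
          if_neg (by omega), sub_zero]) h2 h3 hE' _ hg hper hu hv1
  obtain ⟨z1, zd, zD⟩ := finish_elim hd2 hθ0.1 hθ0.2 h2 h3 hE' hu0 hv1 hvd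
  exact ⟨fun a => hfin1 a (hu0 a), hfin2 z1, hfin3 zd, hfin4 zD⟩

end Run7.h751
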