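import Pool.Agent.Run7.h751.Basic2

open PowerSeries Finset

namespace Run7.h751

lemma sd_prime (d P : ℕ) (hd : 2 ≤ d) (hP : P.Prime) : sd d P = 1 := by
  unfold sd
  have : (Finset.Icc 1 P).filter (fun k => k ^ d ∣ P) = {1} := by
    ext k
    simp only [Finset.mem_filter, Finset.mem_Icc, Finset.mem_singleton]
    constructor
    · rintro ⟨⟨h1, h2⟩, h3⟩
      by_contra hk
      have h4 : k * k ∣ P := by
        refine dvd_trans ?_ h3
        rw [← pow_two]
        exact pow_dvd_pow k hd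
      have h5 := (Nat.squarefree_iff_prime_squarefree.mp hP.squarefree)
      have h6 := hP.squarefree k h4
      rw [Nat.isUnit_iff] at h6
      exact hk h6
    · rintro rfl
      exact ⟨⟨le_refl _, hP.one_le⟩, by simp⟩
  rw [this]; simp

lemma sd_mul_pow (d t m e : ℕ) (hd : 2 ≤ d) (ht : t.Prime) (htm : ¬ t ∣ m) :
    sd d (t ^ (d * e) * m) = (∑ j ∈ Finset.range (e + 1), t ^ (j * d)) * sd d m := by
  have hm : m ≠ 0 := by rintro rfl; exact htm (dvd_zero t)
  unfold sd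
  rw [Finset.sum_mul_sum, ← Finset.sum_product']
  symm
  refine Finset.sum_bij (fun x _ => t ^ x.1 * x.2) ?_ ?_ ?_ ?_
  · rintro ⟨j, k⟩ hx
    simp only [Finset.mem_product, Finset.mem_range, Finset.mem_filter, Finset.mem_Icc] at hx ⊢
    obtain ⟨hj, ⟨hk1, hk2⟩, hk3⟩ := hx
    have hdvd : (t ^ j * k) ^ d ∣ t ^ (d * e) * m := by
      rw [mul_pow, ← pow_mul]
      refine mul_dvd_mul (pow_dvd_pow t ?_) hk3
      rw [mul_comm]; exact Nat.mul_le_mul_left d (by omega)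
    have hpos : 0 < t ^ (d * e) * m := Nat.mul_pos (pow_pos ht.pos _) (by omega)
    refine ⟨⟨Nat.mul_pos (pow_pos ht.pos _) hk1, ?_⟩, hdvd⟩
    exact le_trans (Nat.le_self_pow (by omega) _) (Nat.le_of_dvd hpos hdvd)
  · rintro ⟨j, k⟩ hx ⟨j', k'⟩ hx' heq
    simp only [Finset.mem_product, Finset.mem_range, Finset.mem_filter, Finset.mem_Icc] at hx hx'
    obtain ⟨hj, ⟨hk1, hk2⟩, hk3⟩ := hx
    obtain ⟨hj', ⟨hk1', hk2'⟩, hk3'⟩ := hx'
    have hnk : ¬ t ∣ k := fun h => htm (dvd_trans (dvd_trans h (dvd_pow_self k (by omega))) hk3)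
    have hnk' : ¬ t ∣ k' := fun h => htm (dvd_trans (dvd_trans h (dvd_pow_self k' (by omega))) hk3')
    simp only at heq
    have hjj : j = j' := by
      rcases lt_trichotomy j j' with h | h | h
      · exfalso
        obtain ⟨c, rfl⟩ := Nat.exists_eq_add_of_lt h
        have : t ^ (j + c + 1) = t ^ j * (t * t ^ c) := by ring
        rw [this, mul_assoc] at heq
        have h2 := Nat.eq_of_mul_eq_mul_left (pow_pos ht.pos j) heq
        exact hnk ⟨t ^ c * k', by rw [h2]; ring⟩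
      · exact h
      · exfalso
        obtain ⟨c, rfl⟩ := Nat.exists_eq_add_of_lt h
        have : t ^ (j' + c + 1) = t ^ j' * (t * t ^ c) := by ring
        rw [this, mul_assoc] at heq
        have h2 := Nat.eq_of_mul_eq_mul_left (pow_pos ht.pos j') heq
        exact hnk' ⟨t ^ c * k, by rw [← h2]; ring⟩
    subst hjj
    have := Nat.eq_of_mul_eq_mul_left (pow_pos ht.pos j) heq
    rw [this]
  · intro k hk
    simp only [Finset.mem_filter, Finset.mem_Icc] at hk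
    obtain ⟨⟨hk1, hk2⟩, hk3⟩ := hk
    obtain ⟨j, k', hk', hkk⟩ := Nat.exists_eq_pow_mul_and_not_dvd (n := k) (by omega) t ht.ne_one
    have hk'0 : k' ≠ 0 := by rintro rfl; simp at hk'
    rw [hkk, mul_pow, ← pow_mul] at hk3
    have hcop : Nat.Coprime (k' ^ d) (t ^ (d * e)) :=
      Nat.Coprime.pow _ _ ((Nat.coprime_comm.mp ((Nat.Prime.coprime_iff_not_dvd ht).mpr hk')))
    have h1 : k' ^ d ∣ m := hcop.dvd_of_dvd_mul_left (dvd_trans (Dvd.intro_left _ rfl) hk3)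
    have h2 : t ^ (j * d) ∣ t ^ (d * e) := by
      have h3 : t ^ (j * d) ∣ t ^ (d * e) * m := dvd_trans (Dvd.intro _ rfl) hk3
      have hc2 : Nat.Coprime (t ^ (j * d)) m :=
        Nat.Coprime.pow_left _ ((Nat.Prime.coprime_iff_not_dvd ht).mpr htm)
      exact hc2.dvd_of_dvd_mul_right h3
    have h3 : j * d ≤ d * e := (Nat.pow_dvd_pow_iff_le_right ht.one_lt).mp h2
    have h4 : j ≤ e := by
      rw [mul_comm] at h3
      exact Nat.le_of_mul_le_mul_left h3 (by omega)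
    refine ⟨(j, k'), ?_, hkk.symm⟩
    simp only [Finset.mem_product, Finset.mem_range, Finset.mem_filter, Finset.mem_Icc]
    refine ⟨by omega, ⟨Nat.one_le_iff_ne_zero.mpr hk'0, ?_⟩, h1⟩
    exact le_trans (Nat.le_self_pow (by omega) _) (Nat.le_of_dvd (by omega) h1)
  · rintro ⟨j, k⟩ hx
    simp only
    rw [mul_pow, ← pow_mul]

lemma sd_toggle (d t m ℓ : ℕ) (hd : 2 ≤ d) (hℓ : ℓ.Prime) (ht : t.Prime) (ht1 : t % ℓ = 1)
    (htm : ¬ t ∣ m) : ℓ ∣ sd d (t ^ (d * (ℓ - 1)) * m) := by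
  rw [sd_mul_pow d t m (ℓ - 1) hd ht htm]
  refine Dvd.dvd.mul_right ?_ _
  have : ℓ - 1 + 1 = ℓ := Nat.sub_add_cancel hℓ.one_le
  rw [this, Nat.dvd_iff_mod_eq_zero, Finset.sum_nat_mod]
  have h1 : ∀ j ∈ Finset.range ℓ, t ^ (j * d) % ℓ = 1 % ℓ := by
    intro j _
    rw [Nat.pow_mod, ht1, one_pow]
  rw [Finset.sum_congr rfl h1]
  have h2 : 1 % ℓ = 1 := Nat.mod_eq_of_lt hℓ.one_lt
  simp [h2]

end Run7.h751
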