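import Pool.Agent.Run7.h751.Odd

open PowerSeries Finset

namespace Run7.h751

/-- the part of the generating series in the class `c` mod 2 -/
noncomputable def FP (k : Type*) [Field k] (d c : ℕ) : PowerSeries k :=
  PowerSeries.mk fun n => if n % 2 = c then (pd d n : k) else 0

lemma F1_eq (k : Type*) [Field k] (d : ℕ) : F1 k d = FP k d 1 := rfl

lemma FP_decomp (k : Type*) [Field k] (d c b : ℕ) (hb : b % 2 = c) :
    FP k d c = ((PowerSeries.trunc b (FP k d c) : Polynomial k) : PowerSeries k) +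
      X ^ b * PowerSeries.expand 2 two_ne_zero (PowerSeries.mk fun n => (pd d (2 * n + b) : k)) := by
  ext n
  rw [map_add, Polynomial.coeff_coe, PowerSeries.coeff_trunc, PowerSeries.coeff_X_pow_mul']
  by_cases h : n < b
  · rw [if_pos h, if_neg (by omega), add_zero]
  · rw [if_neg h, if_pos (by omega), zero_add, PowerSeries.coeff_expand]
    unfold FP
    rw [PowerSeries.coeff_mk, PowerSeries.coeff_mk]
    by_cases h2 : n % 2 = c
    · rw [if_pos h2, if_pos (by omega)]
      congr 2; omega
    · rw [if_neg h2, if_neg (by omega)]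

lemma isAlgebraic_basechange {k0 k : Type*} [Field k0] [Field k] [Algebra k0 k]
    (f : PowerSeries k0) (hf : IsAlgebraic (Polynomial k0) f) :
    IsAlgebraic (Polynomial k) (PowerSeries.map (algebraMap k0 k) f) := by
  obtain ⟨p, hp0, hp⟩ := hf
  refine ⟨p.map (Polynomial.mapRingHom (algebraMap k0 k)), ?_, ?_⟩
  · rw [Ne, Polynomial.map_eq_zero_iff]
    · exact hp0
    · exact Polynomial.map_injective _ (algebraMap k0 k).injective
  · rw [Polynomial.aeval_def, Polynomial.eval₂_map]
    have h1 : (algebraMap (Polynomial k) (PowerSeries k)).comp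
        (Polynomial.mapRingHom (algebraMap k0 k))
        = (PowerSeries.map (algebraMap k0 k)).comp (algebraMap (Polynomial k0) (PowerSeries k0)) := by
      apply RingHom.ext
      intro P
      show ((P.map (algebraMap k0 k) : Polynomial k) : PowerSeries k) =
        PowerSeries.map (algebraMap k0 k) (P : PowerSeries k0)
      ext n
      rw [Polynomial.coeff_coe, PowerSeries.coeff_map, Polynomial.coeff_map, Polynomial.coeff_coe]
    rw [h1, ← Polynomial.hom_eval₂]
    rw [Polynomial.aeval_def] at hp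
    rw [hp, map_zero]

theorem class_transcendental (ℓ : ℕ) [hℓ : Fact ℓ.Prime] (d c : ℕ)
    (k : Type*) [Field k] [Algebra (ZMod ℓ) k]
    (htr : Transcendental (Polynomial k) (FP k d c)) (b : ℕ) (hb : b % 2 = c) :
    Transcendental (Polynomial (ZMod ℓ))
      (PowerSeries.mk fun n : ℕ => ((pd d (2 * n + b) : ℕ) : ZMod ℓ)) := by
  intro halg
  apply htr
  have h1 := isAlgebraic_basechange (k := k) _ halg
  have h2 : PowerSeries.map (algebraMap (ZMod ℓ) k)
      (PowerSeries.mk fun n : ℕ => ((pd d (2 * n + b) : ℕ) : ZMod ℓ)) =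
      PowerSeries.mk fun n => (pd d (2 * n + b) : k) := by
    ext n
    rw [PowerSeries.coeff_map, PowerSeries.coeff_mk, PowerSeries.coeff_mk, map_natCast]
  rw [h2] at h1
  rw [FP_decomp k d c b hb]
  apply IsAlgebraic.add
  · exact isAlgebraic_algebraMap (PowerSeries.trunc b (FP k d c) : Polynomial k)
  · apply IsAlgebraic.mul
    · apply IsAlgebraic.pow
      rw [← Polynomial.coe_X]
      exact isAlgebraic_algebraMap (Polynomial.X : Polynomial k)
    · exact isAlgebraic_expand 2 two_ne_zero _ h1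

lemma exists_omega (k : Type*) [Field k] [IsAlgClosed k] : ∃ ω : k, 1 + ω + ω ^ 2 = 0 := by
  have hdeg : (Polynomial.X ^ 2 + Polynomial.X + 1 : Polynomial k).degree ≠ 0 := by
    have : (Polynomial.X ^ 2 + Polynomial.X + 1 : Polynomial k).degree = 2 := by
      compute_degree!
    rw [this]; norm_num
  obtain ⟨ω, hω⟩ := IsAlgClosed.exists_root _ hdeg
  refine ⟨ω, ?_⟩
  simp only [Polynomial.IsRoot.def, Polynomial.eval_add, Polynomial.eval_pow, Polynomial.eval_X,
    Polynomial.eval_one] at hω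
  linear_combination hω

theorem odd_class (ℓ : ℕ) [hℓ : Fact ℓ.Prime] (hℓ5 : 5 ≤ ℓ) (d : ℕ) (hd : 2 ≤ d) (b : ℕ)
    (hb : b % 2 = 1) :
    Transcendental (Polynomial (ZMod ℓ))
      (PowerSeries.mk fun n : ℕ => ((pd d (2 * n + b) : ℕ) : ZMod ℓ)) := by
  obtain ⟨ω, hω⟩ := exists_omega (AlgebraicClosure (ZMod ℓ))
  exact class_transcendental ℓ d 1 (AlgebraicClosure (ZMod ℓ))
    (odd_transcendental hω ℓ hℓ5 d hd) b hb

/-- a transcendental residue class admits no congruence -/
lemma no_congruence (ℓ : ℕ) [hℓ : Fact ℓ.Prime] (d a b : ℕ)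
    (htr : Transcendental (Polynomial (ZMod ℓ))
      (PowerSeries.mk fun n : ℕ => ((pd d (a * n + b) : ℕ) : ZMod ℓ))) (m : ℕ) (hm : ℓ ∣ m) (r : ℕ) :
    ∃ n : ℕ, ¬ (pd d (a * n + b) ≡ r [MOD m]) := by
  by_contra hcon
  push Not at hcon
  apply htr
  set g : PowerSeries (ZMod ℓ) := PowerSeries.mk fun n : ℕ => ((pd d (a * n + b) : ℕ) : ZMod ℓ)
  have hg : ((1 - Polynomial.X : Polynomial (ZMod ℓ)) : PowerSeries (ZMod ℓ)) * g =
      ((Polynomial.C (r : ZMod ℓ) : Polynomial (ZMod ℓ)) : PowerSeries (ZMod ℓ)) := by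
    have hgr : g = PowerSeries.mk fun _ => (r : ZMod ℓ) := by
      ext n
      rw [PowerSeries.coeff_mk, PowerSeries.coeff_mk]
      have h1 := hcon n
      have h2 : pd d (a * n + b) ≡ r [MOD ℓ] := h1.of_dvd hm
      exact (ZMod.natCast_eq_natCast_iff _ _ _).mpr h2
    rw [hgr]
    ext n
    rw [Polynomial.coe_sub, Polynomial.coe_one, Polynomial.coe_X, Polynomial.coe_C, sub_mul,
      one_mul, map_sub, PowerSeries.coeff_mk]
    cases n with
    | zero => simp
    | succ n =>
      rw [PowerSeries.coeff_succ_X_mul, PowerSeries.coeff_mk, PowerSeries.coeff_C,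
        if_neg (by omega), sub_self]
  refine ⟨Polynomial.C (1 - Polynomial.X) * Polynomial.X - Polynomial.C (Polynomial.C (r : ZMod ℓ)),
    ?_, ?_⟩
  · intro h0
    have h1 := congrArg (fun p => p.coeff 1) h0
    simp only [Polynomial.coeff_sub, Polynomial.coeff_C_mul, Polynomial.coeff_X_one, mul_one,
      Polynomial.coeff_C_succ, sub_zero, Polynomial.coeff_zero] at h1
    have h2 := congrArg (fun p => p.coeff 0) h1
    simp at h2
  · rw [map_sub, map_mul, Polynomial.aeval_C, Polynomial.aeval_C, Polynomial.aeval_X]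
    exact sub_eq_zero.mpr hg

end Run7.h751
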