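import Mathlib

open PowerSeries Finset

namespace Run7.h751

open Classical in
/-- Number of partitions of `n` into `d`-th powers of positive integers. -/
noncomputable def pd (d n : ℕ) : ℕ :=
  ((Finset.univ : Finset (Nat.Partition n)).filter
      (fun P => ∀ i ∈ P.parts, ∃ k : ℕ, i = k ^ d)).card

/-- generating function over a commutative ring. -/
noncomputable def FF (R : Type*) [CommRing R] (d : ℕ) : PowerSeries R :=
  PowerSeries.mk fun n => (pd d n : R)

/-- truncated product. -/
noncomputable def PK (R : Type*) [CommRing R] (d K : ℕ) : PowerSeries R :=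
  ∏ k ∈ Finset.Icc 1 K, (1 - (X : PowerSeries R) ^ (k ^ d))

lemma X_pow_dvd_of_tendsto {R : Type*} [CommRing R] [TopologicalSpace R] [DiscreteTopology R]
    (f : ℕ → PowerSeries R) (F : PowerSeries R)
    (h : letI := PowerSeries.WithPiTopology.instTopologicalSpace R; HasProd f F) (N : ℕ) :
    ∃ s0 : Finset ℕ, ∀ s : Finset ℕ, s0 ⊆ s → (X : PowerSeries R) ^ N ∣ F - ∏ i ∈ s, f i := by
  letI := PowerSeries.WithPiTopology.instTopologicalSpace R
  have h1 : ∀ n : ℕ, ∃ s0 : Finset ℕ, ∀ s : Finset ℕ, s0 ⊆ s →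
      PowerSeries.coeff n (∏ i ∈ s, f i) = PowerSeries.coeff n F := by
    intro n
    have hc := (PowerSeries.WithPiTopology.continuous_coeff R n).tendsto F
    have h2 := hc.comp h
    have h3 : Filter.Tendsto (fun s : Finset ℕ => PowerSeries.coeff n (∏ i ∈ s, f i))
        Filter.atTop (pure (PowerSeries.coeff n F)) := by
      simpa [nhds_discrete, Function.comp_def] using h2
    have h4 := Filter.tendsto_pure.mp h3
    rcases Filter.eventually_atTop.mp h4 with ⟨s0, hs0⟩
    exact ⟨s0, fun s hs => hs0 s hs⟩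
  choose g hg using h1
  refine ⟨(Finset.range N).biUnion g, fun s hs => ?_⟩
  rw [PowerSeries.X_pow_dvd_iff]
  intro m hm
  rw [map_sub, hg m s, sub_self]
  refine subset_trans ?_ hs
  exact Finset.subset_biUnion_of_mem g (Finset.mem_range.mpr hm)

lemma pd_eq (d n : ℕ) [DecidablePred (fun i : ℕ => ∃ k : ℕ, i = k ^ d)] :
    pd d n = (Nat.Partition.restricted n (fun i : ℕ => ∃ k : ℕ, i = k ^ d)).card := by
  classical
  unfold pd Nat.Partition.restricted
  congr

/-- `F * P_K ≡ 1` for suitable large `K`. -/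
lemma FF_mul_PK_aux {R : Type*} [CommRing R] (d : ℕ) (hd : d ≠ 0) (N : ℕ) :
    ∃ K0 : ℕ, ∀ K, K0 ≤ K → (X : PowerSeries R) ^ N ∣ FF R d * PK R d K - 1 := by
  classical
  letI : TopologicalSpace R := ⊥
  haveI : DiscreteTopology R := ⟨rfl⟩
  letI := PowerSeries.WithPiTopology.instTopologicalSpace R
  set p : ℕ → Prop := fun i => ∃ k : ℕ, i = k ^ d with hp
  have h := Nat.Partition.hasProd_powerSeriesMk_card_restricted R p
  have hF : (PowerSeries.mk fun n ↦ (((Nat.Partition.restricted n p).card : ℕ) : R)) = FF R d := by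
    unfold FF
    refine congrArg PowerSeries.mk ?_
    funext n
    rw [pd_eq]
  rw [hF] at h
  obtain ⟨s0, hs0⟩ := X_pow_dvd_of_tendsto _ _ h N
  -- choose K0 with s0 ⊆ range K0
  obtain ⟨M, hM⟩ : ∃ M, s0 ⊆ Finset.range M := by
    refine ⟨s0.sup id + 1, fun x hx => ?_⟩
    rw [Finset.mem_range]
    have := Finset.le_sup (f := id) hx
    simp only [id] at this
    omega
  refine ⟨M, fun K hK => ?_⟩
  have hMK : M ≤ K ^ d := le_trans hK (Nat.le_self_pow hd K)
  have h1 := hs0 (Finset.range (K ^ d)) (hM.trans (Finset.range_subset_range.mpr hMK))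
  set f : ℕ → PowerSeries R := fun i ↦ if p (i + 1) then ∑' j : ℕ, X ^ ((i + 1) * j) else 1
    with hf
  set g : ℕ → PowerSeries R := fun i ↦ if p (i + 1) then 1 - X ^ (i + 1) else 1 with hg
  have hfg : ∀ i, f i * g i = 1 := by
    intro i
    simp only [hf, hg]
    split_ifs with hi
    · have : ∀ j : ℕ, (X : PowerSeries R) ^ ((i + 1) * j) = (X ^ (i + 1)) ^ j := by
        intro j; rw [pow_mul]
      simp_rw [this]
      have hc : PowerSeries.constantCoeff ((X : PowerSeries R) ^ (i + 1)) = 0 := by simp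
      exact PowerSeries.WithPiTopology.tsum_pow_mul_one_sub_of_constantCoeff_eq_zero hc
    · simp
  have hprod : ∏ i ∈ Finset.range (K ^ d), g i = PK R d K := by
    unfold PK
    rw [← Finset.prod_filter_mul_prod_filter_not (Finset.range (K ^ d)) (fun i => p (i + 1))]
    have h2 : ∏ i ∈ (Finset.range (K ^ d)).filter (fun i => ¬ p (i + 1)), g i = 1 := by
      apply Finset.prod_eq_one
      intro i hi
      rw [Finset.mem_filter] at hi
      simp only [hg]
      rw [if_neg hi.2]
    rw [h2, mul_one]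
    symm
    refine Finset.prod_bij (fun k _ => k ^ d - 1) ?_ ?_ ?_ ?_
    · intro k hk
      rw [Finset.mem_Icc] at hk
      have hk1 : 1 ≤ k ^ d := Nat.one_le_pow _ _ hk.1
      have hk2 : k ^ d ≤ K ^ d := Nat.pow_le_pow_left hk.2 d
      rw [Finset.mem_filter, Finset.mem_range]
      refine ⟨by omega, k, by omega⟩
    · intro a ha b hb hab
      rw [Finset.mem_Icc] at ha hb
      have ha1 : 1 ≤ a ^ d := Nat.one_le_pow _ _ ha.1
      have hb1 : 1 ≤ b ^ d := Nat.one_le_pow _ _ hb.1
      have : a ^ d = b ^ d := by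
        omega
      exact Nat.pow_left_injective hd this
    · intro i hi
      rw [Finset.mem_filter, Finset.mem_range] at hi
      obtain ⟨hi1, k, hk⟩ := hi
      have hk0 : k ≠ 0 := by
        rintro rfl
        rw [zero_pow hd] at hk
        omega
      refine ⟨k, ?_, by omega⟩
      rw [Finset.mem_Icc]
      refine ⟨Nat.one_le_iff_ne_zero.mpr hk0, ?_⟩
      have : k ^ d ≤ K ^ d := by omega
      exact (Nat.pow_le_pow_iff_left hd).mp this
    · intro k hk
      rw [Finset.mem_Icc] at hk
      have hk1 : 1 ≤ k ^ d := Nat.one_le_pow _ _ hk.1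
      simp only [hg]
      have : k ^ d - 1 + 1 = k ^ d := by omega
      rw [this, if_pos ⟨k, rfl⟩]
  obtain ⟨c, hc⟩ := h1
  refine ⟨c * PK R d K, ?_⟩
  have h3 : (∏ i ∈ Finset.range (K ^ d), f i) * (∏ i ∈ Finset.range (K ^ d), g i) = 1 := by
    rw [← Finset.prod_mul_distrib]
    exact Finset.prod_eq_one fun i _ => hfg i
  rw [hprod] at h3
  have h4 : FF R d = ∏ i ∈ Finset.range (K ^ d), f i + X ^ N * c := by
    rw [← hc]; ring
  calc FF R d * PK R d K - 1 = (∏ i ∈ Finset.range (K ^ d), f i) * PK R d K - 1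
        + X ^ N * (c * PK R d K) := by rw [h4]; ring
    _ = _ := by rw [h3]; ring

end Run7.h751
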