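import Pool.Agent.Run7.h751.Basic

open PowerSeries Finset

namespace Run7.h751

variable {R : Type*} [CommRing R]

lemma PK_succ (d K : ℕ) : PK R d (K + 1) = PK R d K * (1 - X ^ ((K + 1) ^ d)) := by
  unfold PK
  rw [Finset.prod_Icc_succ_top (by omega)]

lemma PK_zero (d : ℕ) : PK R d 0 = 1 := by
  unfold PK; simp

lemma PK_stable (d K K' : ℕ) (h : K ≤ K') :
    (X : PowerSeries R) ^ ((K + 1) ^ d) ∣ PK R d K' - PK R d K := by
  induction K', h using Nat.le_induction with
  | base => simp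
  | succ K' hK ih =>
    rw [PK_succ]
    have h1 : (X : PowerSeries R) ^ ((K + 1) ^ d) ∣ X ^ ((K' + 1) ^ d) :=
      pow_dvd_pow _ (Nat.pow_le_pow_left (by omega) d)
    have : PK R d K' * (1 - X ^ ((K' + 1) ^ d)) - PK R d K
      = (PK R d K' - PK R d K) - PK R d K' * X ^ ((K' + 1) ^ d) := by ring
    rw [this]
    exact dvd_sub ih (Dvd.dvd.mul_left h1 _)

/-- `F * P_K ≡ 1 mod X^{(K+1)^d}`. -/
lemma FF_mul_PK (d : ℕ) (hd : d ≠ 0) (K : ℕ) :
    (X : PowerSeries R) ^ ((K + 1) ^ d) ∣ FF R d * PK R d K - 1 := by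
  obtain ⟨K0, h0⟩ := FF_mul_PK_aux (R := R) d hd ((K + 1) ^ d)
  have h1 := h0 (max K0 K) (le_max_left _ _)
  have h2 := PK_stable (R := R) d K (max K0 K) (le_max_right _ _)
  have : FF R d * PK R d K - 1 = (FF R d * PK R d (max K0 K) - 1)
    - FF R d * (PK R d (max K0 K) - PK R d K) := by ring
  rw [this]
  exact dvd_sub h1 (Dvd.dvd.mul_left h2 _)

lemma constCoeff_FF (d : ℕ) (hd : d ≠ 0) : PowerSeries.constantCoeff (FF R d) = 1 := by
  have h := FF_mul_PK (R := R) d hd 0
  rw [PK_zero, mul_one] at h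
  have h2 : (X : PowerSeries R) ∣ FF R d - 1 := by
    have : (0 + 1) ^ d = 1 := by simp
    rw [this, pow_one] at h
    exact h
  rw [PowerSeries.X_dvd_iff, map_sub, map_one, sub_eq_zero] at h2
  exact h2

/-- geometric series. -/
noncomputable def geo (R : Type*) [CommRing R] (m : ℕ) : PowerSeries R :=
  PowerSeries.mk fun n => if m ∣ n then 1 else 0

lemma dvd_sub_self_iff' {m n : ℕ} (h : m ≤ n) : m ∣ n - m ↔ m ∣ n := by
  constructor
  · intro h1
    have := Nat.dvd_add h1 (dvd_refl m)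
    rwa [Nat.sub_add_cancel h] at this
  · intro h1
    exact Nat.dvd_sub h1 (dvd_refl m)

lemma geo_mul (m : ℕ) (hm : 1 ≤ m) : (1 - X ^ m) * geo R m = 1 := by
  ext n
  rw [sub_mul, one_mul, map_sub, PowerSeries.coeff_X_pow_mul', geo]
  simp only [PowerSeries.coeff_mk, PowerSeries.coeff_one]
  by_cases hn : n = 0
  · subst hn
    have : ¬ m ≤ 0 := by omega
    simp [this]
  · rw [if_neg hn]
    by_cases h1 : m ∣ n
    · have h2 : m ≤ n := Nat.le_of_dvd (by omega) h1
      rw [if_pos h1, if_pos h2, if_pos ((dvd_sub_self_iff' h2).mpr h1), sub_self]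
    · rw [if_neg h1]
      by_cases h2 : m ≤ n
      · rw [if_pos h2, if_neg (fun h => h1 ((dvd_sub_self_iff' h2).mp h)), sub_self]
      · rw [if_neg h2, sub_self]

/-- truncated logarithmic derivative. -/
noncomputable def LK (R : Type*) [CommRing R] (d K : ℕ) : PowerSeries R :=
  ∑ k ∈ Finset.Icc 1 K, ((k ^ d : ℕ) : PowerSeries R) * (X ^ (k ^ d) * geo R (k ^ d))

lemma LK_succ (d K : ℕ) : LK R d (K + 1) = LK R d K +
    (((K + 1) ^ d : ℕ) : PowerSeries R) * (X ^ ((K + 1) ^ d) * geo R ((K + 1) ^ d)) := by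
  unfold LK
  rw [Finset.sum_Icc_succ_top (by omega)]

lemma X_deriv_PK (d K : ℕ) :
    X * (d⁄dX R) (PK R d K) = - (PK R d K * LK R d K) := by
  induction K with
  | zero =>
    rw [PK_zero, PowerSeries.derivative_one]
    simp [LK]
  | succ K ih =>
    rw [PK_succ, LK_succ, Derivation.leibniz]
    set m := (K + 1) ^ d with hm
    have hm1 : 1 ≤ m := Nat.one_le_pow _ _ (by omega)
    have h1 : X * (d⁄dX R) ((1 : PowerSeries R) - X ^ m) = - ((m : PowerSeries R) * X ^ m) := by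
      rw [map_sub, PowerSeries.derivative_one, zero_sub, Derivation.leibniz_pow,
        PowerSeries.derivative_X]
      obtain ⟨t, ht⟩ : ∃ t, m = t + 1 := ⟨m - 1, by omega⟩
      rw [ht]
      simp only [Nat.add_sub_cancel, smul_eq_mul, mul_one, nsmul_eq_mul]
      ring
    have h2 := geo_mul (R := R) m hm1
    simp only [smul_eq_mul]
    calc X * (PK R d K * (d⁄dX R) (1 - X ^ m) + (1 - X ^ m) * (d⁄dX R) (PK R d K))
        = PK R d K * (X * (d⁄dX R) (1 - X ^ m)) + (1 - X ^ m) * (X * (d⁄dX R) (PK R d K)) := by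
          ring
      _ = PK R d K * (-((m : PowerSeries R) * X ^ m) * ((1 - X ^ m) * geo R m)) +
          (1 - X ^ m) * (-(PK R d K * LK R d K)) := by rw [h1, ih, h2, mul_one]
      _ = _ := by ring

/-- divisor sum over `d`-th powers. -/
noncomputable def sd (d n : ℕ) : ℕ := ∑ k ∈ (Finset.Icc 1 n).filter (fun k => k ^ d ∣ n), k ^ d

/-- the logarithmic derivative series. -/
noncomputable def LL (R : Type*) [CommRing R] (d : ℕ) : PowerSeries R :=
  PowerSeries.mk fun n => (sd d n : R)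

lemma coeff_X_geo (m n : ℕ) (hm : 1 ≤ m) :
    PowerSeries.coeff n (X ^ m * geo R m) = if (m ∣ n ∧ 1 ≤ n) then 1 else 0 := by
  rw [PowerSeries.coeff_X_pow_mul', geo]
  simp only [PowerSeries.coeff_mk]
  by_cases h1 : m ≤ n
  · rw [if_pos h1]
    simp only [dvd_sub_self_iff' h1]
    have : 1 ≤ n := by omega
    simp [this]
  · rw [if_neg h1, if_neg]
    rintro ⟨h2, h3⟩
    exact h1 (Nat.le_of_dvd (by omega) h2)

lemma LK_sub_LL (d : ℕ) (hd : d ≠ 0) (K : ℕ) :
    (X : PowerSeries R) ^ ((K + 1) ^ d) ∣ LL R d - LK R d K := by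
  rw [PowerSeries.X_pow_dvd_iff]
  intro n hn
  rw [map_sub, sub_eq_zero]
  unfold LL LK sd
  rw [PowerSeries.coeff_mk, map_sum, Nat.cast_sum]
  have h1 : ∀ k ∈ Finset.Icc 1 K, PowerSeries.coeff n
      (((k ^ d : ℕ) : PowerSeries R) * (X ^ (k ^ d) * geo R (k ^ d)))
      = if (k ^ d ∣ n ∧ 1 ≤ n) then ((k ^ d : ℕ) : R) else 0 := by
    intro k hk
    rw [Finset.mem_Icc] at hk
    have : ((k ^ d : ℕ) : PowerSeries R) = PowerSeries.C ((k ^ d : ℕ) : R) := by simp
    rw [this, PowerSeries.coeff_C_mul, coeff_X_geo _ _ (Nat.one_le_pow _ _ hk.1)]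
    split_ifs <;> simp
  rw [Finset.sum_congr rfl h1, ← Finset.sum_filter]
  apply Finset.sum_congr
  · ext k
    simp only [Finset.mem_filter, Finset.mem_Icc]
    constructor
    · rintro ⟨⟨hk1, hk2⟩, hk3⟩
      refine ⟨⟨hk1, ?_⟩, hk3, by omega⟩
      have h2 : k ^ d ≤ n := Nat.le_of_dvd (by omega) hk3
      have h3 : k ^ d < (K + 1) ^ d := lt_of_le_of_lt h2 hn
      have := (Nat.pow_lt_pow_iff_left hd).mp h3
      omega
    · rintro ⟨⟨hk1, hk2⟩, hk3, hn1⟩
      refine ⟨⟨hk1, ?_⟩, hk3⟩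
      have h2 : k ^ d ≤ n := Nat.le_of_dvd (by omega) hk3
      exact le_trans (Nat.le_self_pow hd k) h2
  · intros; rfl

/-- `X F' = L F`. -/
lemma X_deriv_FF (d : ℕ) (hd : d ≠ 0) :
    X * (d⁄dX R) (FF R d) = LL R d * FF R d := by
  have key : ∀ K : ℕ, (X : PowerSeries R) ^ ((K + 1) ^ d) ∣
      X * (d⁄dX R) (FF R d) - LL R d * FF R d := by
    intro K
    obtain ⟨c, hc⟩ := FF_mul_PK (R := R) d hd K
    set N := (K + 1) ^ d with hN
    have hN1 : 1 ≤ N := Nat.one_le_pow _ _ (by omega)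
    have h1 : FF R d * PK R d K = 1 + X ^ N * c := by rw [← hc]; ring
    have h2 : X * (d⁄dX R) (FF R d * PK R d K) = X ^ N * ((N : PowerSeries R) * c +
        X * (d⁄dX R) c) := by
      rw [h1, map_add, PowerSeries.derivative_one, zero_add, Derivation.leibniz,
        Derivation.leibniz_pow, PowerSeries.derivative_X]
      obtain ⟨t, ht⟩ : ∃ t, N = t + 1 := ⟨N - 1, by omega⟩
      rw [ht]
      simp only [Nat.add_sub_cancel, smul_eq_mul, mul_one, nsmul_eq_mul]
      ring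
    have h3 : X * (d⁄dX R) (FF R d * PK R d K) =
        PK R d K * (X * (d⁄dX R) (FF R d)) - (FF R d * PK R d K) * LK R d K := by
      rw [Derivation.leibniz]
      simp only [smul_eq_mul]
      have := X_deriv_PK (R := R) d K
      calc X * (FF R d * (d⁄dX R) (PK R d K) + PK R d K * (d⁄dX R) (FF R d))
          = FF R d * (X * (d⁄dX R) (PK R d K)) + PK R d K * (X * (d⁄dX R) (FF R d)) := by ring
        _ = _ := by rw [this]; ring
    obtain ⟨e, he⟩ := LK_sub_LL (R := R) d hd K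
    -- multiply by FF
    have h4 : (X * (d⁄dX R) (FF R d)) * (FF R d * PK R d K) =
        LL R d * FF R d * (FF R d * PK R d K) + X ^ N * (FF R d * ((N : PowerSeries R) * c +
        X * (d⁄dX R) c) - e * FF R d * (FF R d * PK R d K)) := by
      have h5 : PK R d K * (X * (d⁄dX R) (FF R d)) = X ^ N * ((N : PowerSeries R) * c +
        X * (d⁄dX R) c) + (FF R d * PK R d K) * LK R d K := by
        rw [← h2, h3]; ring
      have h6 : LK R d K = LL R d - X ^ N * e := by rw [← he]; ring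
      calc (X * (d⁄dX R) (FF R d)) * (FF R d * PK R d K)
          = FF R d * (PK R d K * (X * (d⁄dX R) (FF R d))) := by ring
        _ = _ := by rw [h5, h6]; ring
    rw [h1] at h4
    refine ⟨(FF R d * ((N : PowerSeries R) * c +
        X * (d⁄dX R) c) - e * FF R d * (1 + X ^ N * c)) + (LL R d * FF R d -
        X * (d⁄dX R) (FF R d)) * c, ?_⟩
    linear_combination h4
  rw [← sub_eq_zero]
  ext n
  rw [map_zero]
  have h := key n
  rw [PowerSeries.X_pow_dvd_iff] at h
  refine h n ?_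
  have : n + 1 ≤ (n + 1) ^ d := Nat.le_self_pow hd _
  omega

end Run7.h751
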