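import Mathlib

open Finset

namespace Run7.h751

section dercrit
variable {K Λ : Type*} [Field K] [Field Λ] [Algebra K Λ]

/-- If every derivation of a finitely generated extension `L = K(S) ⊆ Λ` with values in `Λ`
vanishes on `S`, then `L` is algebraic over `K`. -/
theorem der_criterion (S : Finset Λ)
    (h : ∀ D : Derivation K (IntermediateField.adjoin K (S : Set Λ)) Λ,
      ∀ x (hx : x ∈ (S : Set Λ)), D ⟨x, IntermediateField.subset_adjoin K (S : Set Λ) hx⟩ = 0) :
    ∀ x ∈ IntermediateField.adjoin K (S : Set Λ), IsAlgebraic K x := by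
  set L := IntermediateField.adjoin K (S : Set Λ) with hL
  -- all derivations vanish
  have hD : ∀ D : Derivation K L Λ, ∀ y : L, D y = 0 := by
    intro D
    have key : ∀ x (hx : x ∈ L), D ⟨x, hx⟩ = 0 := by
      intro x hx
      induction hx using IntermediateField.adjoin_induction with
      | mem x hx => exact h D x hx
      | algebraMap x =>
        exact D.map_algebraMap x
      | add x y hx hy h1 h2 =>
        have : (⟨x + y, add_mem hx hy⟩ : L) = ⟨x, hx⟩ + ⟨y, hy⟩ := rfl
        rw [this, map_add, h1, h2, add_zero]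
      | inv x hx h1 =>
        have : (⟨x⁻¹, inv_mem hx⟩ : L) = (⟨x, hx⟩ : L)⁻¹ := rfl
        rw [this, Derivation.leibniz_inv, h1, smul_zero]
      | mul x y hx hy h1 h2 =>
        have : (⟨x * y, mul_mem hx hy⟩ : L) = ⟨x, hx⟩ * ⟨y, hy⟩ := rfl
        rw [this, Derivation.leibniz, h1, h2, smul_zero, smul_zero, add_zero]
    rintro ⟨x, hx⟩
    exact key x hx
  -- derivations into L vanish
  have hD0 : ∀ D : Derivation K L L, D = 0 := by
    intro D
    ext y
    have h1 := hD ((Algebra.linearMap L Λ).compDer D) y
    have h2 : (Algebra.linearMap L Λ) (D y) = 0 := h1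
    have h3 : ((D y : L) : Λ) = 0 := h2
    exact_mod_cast h3
  have hsub : Subsingleton (Ω[L⁄K]) := by
    rw [subsingleton_iff_forall_eq 0]
    intro w
    rw [← Module.forall_dual_apply_eq_zero_iff L w]
    intro φ
    have h1 := hD0 (φ.compDer (KaehlerDifferential.D K L))
    have h2 : φ = 0 := by
      apply (KaehlerDifferential.linearMapEquivDerivation K L).injective
      rw [map_zero]
      exact h1
    rw [h2]; rfl
  have hunr : Algebra.FormallyUnramified K L := by
    rw [Algebra.formallyUnramified_iff]; exact hsub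
  have hfg : Algebra.EssFiniteType K L := by
    rw [IntermediateField.essFiniteType_iff]
    exact ⟨S, rfl⟩
  have hsep : Algebra.IsSeparable K L := Algebra.FormallyUnramified.isSeparable K L
  intro x hx
  have h1 : IsAlgebraic K (⟨x, hx⟩ : L) := Algebra.IsAlgebraic.isAlgebraic _
  have h2 := h1.algebraMap (A := Λ)
  exact h2

end dercrit

end Run7.h751
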