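import Mathlib

open Polynomial

namespace Run7.h751

universe u

/-- shift operator on sequences -/
def shiftE (R k : Type*) [CommSemiring R] [AddCommMonoid k] [Module R k] :
    Module.End R (ℕ → k) where
  toFun t := fun j => t (j + 1)
  map_add' _ _ := rfl
  map_smul' _ _ := rfl

lemma shiftE_pow (R k : Type*) [CommSemiring R] [AddCommMonoid k] [Module R k] (n : ℕ)
    (t : ℕ → k) (j : ℕ) : ((shiftE R k) ^ n) t j = t (j + n) := by
  induction n generalizing j with
  | zero => rfl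
  | succ n ih =>
    rw [pow_succ']
    show (((shiftE R k) ^ n) t) (j + 1) = _
    rw [ih]
    congr 1; ring

/-- uniform periodicity for the recurrence `t j + 2 t (j+d-1) - t (j+d) = 0` in characteristic `ℓ`. -/
theorem per_lin (ℓ : ℕ) [hℓ : Fact ℓ.Prime] (d : ℕ) (hd : 2 ≤ d) :
    ∃ g : ℕ, 1 ≤ g ∧ 2 ∣ g ∧ ∀ (k : Type u) [Field k] [Algebra (ZMod ℓ) k] (t : ℕ → k),
      (∀ j, t j + 2 * t (j + (d - 1)) - t (j + d) = 0) → ∀ j, t (j + g) = t j := by
  set P : (ZMod ℓ)[X] := X ^ d - C 2 * X ^ (d - 1) - 1 with hP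
  have hdeg : (C 2 * X ^ (d - 1) + 1 : (ZMod ℓ)[X]).degree < d := by
    have h1 : (C 2 * X ^ (d - 1) : (ZMod ℓ)[X]).degree ≤ ((d - 1 : ℕ) : WithBot ℕ) :=
      degree_C_mul_X_pow_le _ _
    have h2 : ((d - 1 : ℕ) : WithBot ℕ) < d := by
      exact_mod_cast (by omega : d - 1 < d)
    have h3 : (1 : (ZMod ℓ)[X]).degree < (d : WithBot ℕ) := by
      rw [degree_one]; exact_mod_cast (by omega : 0 < d)
    exact lt_of_le_of_lt (degree_add_le _ _) (max_lt (lt_of_le_of_lt h1 h2) h3)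
  have hPm : P.Monic := by
    have : P = X ^ d - (C 2 * X ^ (d - 1) + 1) := by rw [hP]; ring
    rw [this]
    exact monic_X_pow_sub hdeg
  have hfin : Module.Finite (ZMod ℓ) (AdjoinRoot P) := hPm.finite_adjoinRoot
  have hfinite : Finite (AdjoinRoot P) := Module.finite_of_finite (ZMod ℓ)
  set r : AdjoinRoot P := AdjoinRoot.root P with hr
  have hroot : r ^ d - 2 * r ^ (d - 1) - 1 = 0 := by
    have h := AdjoinRoot.mk_self (f := P)
    have h2 : AdjoinRoot.mk P (X ^ d - C 2 * X ^ (d - 1) - 1) = r ^ d - 2 * r ^ (d - 1) - 1 := by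
      rw [map_sub, map_sub, map_mul, map_pow, map_pow, AdjoinRoot.mk_X, map_one, ← hr,
        ← algebraMap_eq, map_ofNat, map_ofNat]
    rw [← h2, ← hP, h]
  have hunit : IsUnit r := by
    refine IsUnit.of_mul_eq_one (r ^ (d - 1) - 2 * r ^ (d - 2)) ?_
    have e1 : r ^ d = r * r ^ (d - 1) := by
      rw [← pow_succ']; congr 1; omega
    have e2 : r ^ (d - 1) = r * r ^ (d - 2) := by
      rw [← pow_succ']; congr 1; omega
    rw [e1] at hroot
    linear_combination hroot + 2 * e2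
  obtain ⟨ru, hru⟩ := hunit
  obtain ⟨n, hn, hrn⟩ := (isOfFinOrder_iff_pow_eq_one).mp (isOfFinOrder_of_finite ru)
  refine ⟨2 * n, by omega, Dvd.intro _ rfl, ?_⟩
  have hpow : r ^ (2 * n) = 1 := by
    rw [← hru, mul_comm, pow_mul, ← Units.val_pow_eq_pow_val, hrn]; simp
  have hdvd : P ∣ X ^ (2 * n) - 1 := by
    rw [← AdjoinRoot.mk_eq_zero, map_sub, map_pow, AdjoinRoot.mk_X, map_one, ← hr, hpow, sub_self]
  obtain ⟨Q, hQ⟩ := hdvd
  intro k _ _ t ht j
  have h1 : aeval (shiftE (ZMod ℓ) k) P t = 0 := by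
    ext i
    rw [hP]
    simp only [map_sub, map_mul, map_pow, aeval_X, aeval_C, map_one, LinearMap.sub_apply,
      Module.End.mul_apply, Module.End.one_apply, Pi.sub_apply, shiftE_pow]
    have h2 : ((algebraMap (ZMod ℓ) (Module.End (ZMod ℓ) (ℕ → k))) 2)
        (((shiftE (ZMod ℓ) k) ^ (d - 1)) t) i = 2 * t (i + (d - 1)) := by
      rw [map_ofNat]
      show (((2 : ℕ) : Module.End (ZMod ℓ) (ℕ → k)) (((shiftE (ZMod ℓ) k) ^ (d - 1)) t)) i = _
      rw [← Nat.cast_ofNat (n := 2), Module.End.natCast_apply]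
      show ((2 : ℕ) • (((shiftE (ZMod ℓ) k) ^ (d - 1)) t)) i = _
      rw [Pi.smul_apply, shiftE_pow, nsmul_eq_mul]
      norm_num
    rw [h2]
    show t (i + d) - 2 * t (i + (d - 1)) - t i = 0
    linear_combination -(ht i)
  have h3 := congrArg (fun p => aeval (shiftE (ZMod ℓ) k) p t j) hQ
  simp only [map_sub, map_pow, aeval_X, map_one, LinearMap.sub_apply, Pi.sub_apply, shiftE_pow,
    Module.End.one_apply] at h3
  rw [mul_comm P Q, map_mul, Module.End.mul_apply, h1, map_zero, Pi.zero_apply] at h3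
  exact sub_eq_zero.mp h3

end Run7.h751
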