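import Pool.Agent.Run7.h751.Ev9

open PowerSeries Finset

namespace Run7.h751

universe u
variable {k : Type u} [Field k]

lemma FF_add_FM (d : ℕ) : FF k d - (-1) * FM k d = 2 * FP k d 0 := by
  ext n
  rw [show FF k d - (-1) * FM k d = FF k d + FM k d by ring, map_add, coeff_two_mul]
  unfold FM FF FP
  rw [PowerSeries.coeff_rescale, PowerSeries.coeff_mk, PowerSeries.coeff_mk]
  split_ifs with h
  · have : (-1 : k) ^ n = 1 := Even.neg_one_pow (Nat.even_iff.mpr h)
    rw [this]; ring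
  · have : (-1 : k) ^ n = -1 := Odd.neg_one_pow (Nat.odd_iff.mpr (by omega))
    rw [this]; ring

theorem even_transcendental {ω : k} (hω : 1 + ω + ω ^ 2 = 0) (ℓ : ℕ) [hℓ : Fact ℓ.Prime] [hc : CharP k ℓ]
    (hℓ5 : 5 ≤ ℓ) (d : ℕ) (hd : 2 ≤ d) : Transcendental (Polynomial k) (FP k d 0) := by
  intro halg
  have hd0 : d ≠ 0 := by omega
  letI : Algebra (ZMod ℓ) k := ZMod.algebra k ℓ
  obtain ⟨g, hg, hg2, hper⟩ := per_lin.{u} ℓ d hd
  obtain ⟨S, hS0, hS1, hS⟩ := exists_SW (k := k) d hd ((-2) ^ d)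
  have H : EvHyp ℓ ω d g S :=
    { prime := hℓ.out, char := hc, five := hℓ5, hom := hω, hd := hd, hg := hg, hg2 := hg2
      hper := fun t ht => hper k t ht, hS0 := hS0, hS1 := hS1, hS := hS }
  refine reduction hω ℓ (by omega) d hd (-1) (Or.inr rfl) (FP k d 0) (FF_add_FM d) halg ?_
  intro s hs hrel
  apply H.zero s
  refine ⟨?_, hrel⟩
  intro o i
  have hnz : om d o * 2 ^ i ≠ 0 := by
    have := om_pos d o
    positivity
  have h1 := congrArg (oevH (oη ω o) (om d o) i hnz) (KS_mul (k := k) d hd0)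
  rw [map_mul, map_sub] at h1
  simp only [← oev_eq] at h1
  have hu : IsUnit (oev (oη ω o) (om d o) i (FM k d)) := by
    rw [oev_eq _ _ _ hnz, PowerSeries.isUnit_iff_constantCoeff, constantCoeff_oevH,
      constCoeff_FM d hd0]
    exact isUnit_one
  have h3 := hs o i
  apply hu.mul_left_cancel
  linear_combination -h3 + s o i * h1

theorem both_classes (ℓ : ℕ) [hℓ : Fact ℓ.Prime] (hℓ5 : 5 ≤ ℓ) (d : ℕ) (hd : 2 ≤ d) (b : ℕ) :
    Transcendental (Polynomial (ZMod ℓ))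
      (PowerSeries.mk fun n : ℕ => ((pd d (2 * n + b) : ℕ) : ZMod ℓ)) := by
  rcases Nat.mod_two_eq_zero_or_one b with hb | hb
  · obtain ⟨ω, hω⟩ := exists_omega (AlgebraicClosure (ZMod ℓ))
    exact class_transcendental ℓ d 0 (AlgebraicClosure (ZMod ℓ))
      (even_transcendental hω ℓ hℓ5 d hd) b hb
  · exact odd_class ℓ hℓ5 d hd b hb

end Run7.h751
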