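import Pool.Agent.Run7.h751.Base
import Pool.Agent.Run7.h751.Ev1

open PowerSeries Finset

namespace Run7.h751

variable {k : Type*} [Field k]

/-- the series `(F(z)-F(-z))/F(-z)` -/
noncomputable def KS (k : Type*) [Field k] (d : ℕ) : PowerSeries k :=
  (FF k d - FM k d) * (FM k d)⁻¹

lemma KS_mul (d : ℕ) (hd : d ≠ 0) : KS k d * FM k d = FF k d - FM k d := by
  unfold KS
  rw [mul_assoc, PowerSeries.inv_mul_cancel, mul_one]
  rw [constCoeff_FM d hd]
  exact one_ne_zero

lemma KS_cong (d : ℕ) (hd : d ≠ 0) (K : ℕ) :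
    (X : PowerSeries k) ^ ((K + 1) ^ d) ∣ KS k d * PK k d K -
      (PowerSeries.rescale (-1) (PK k d K) - PK k d K) := by
  have h1 := FF_mul_PK (R := k) d hd K
  have h3 := rescale_inv_dvd (-1) h1
  have h4 := KS_mul (k := k) d hd
  have h5 : (X : PowerSeries k) ^ ((K + 1) ^ d) ∣ FM k d * PowerSeries.rescale (-1) (PK k d K) - 1 :=
    h3
  set F := FF k d
  set G := FM k d
  set P := PK k d K
  set Q := PowerSeries.rescale (-1) (PK k d K)
  set C := KS k d
  obtain ⟨s, hs⟩ := h1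
  obtain ⟨t, ht⟩ := h5
  set x := (X : PowerSeries k) ^ ((K + 1) ^ d)
  refine ⟨Q * s - P * t - C * P * t, ?_⟩
  linear_combination P * Q * h4 + Q * hs - (P + C * P) * ht

lemma KS_low (d : ℕ) (hd : 2 ≤ d) : (X : PowerSeries k) ^ 2 ∣ KS k d - 2 * X := by
  have h := KS_cong (k := k) d (by omega) 1
  have hN : 2 ≤ (1 + 1) ^ d := by
    calc 2 ≤ 2 ^ 2 := by norm_num
      _ ≤ 2 ^ d := Nat.pow_le_pow_right (by norm_num) hd
  have h' := dvd_trans (pow_dvd_pow _ hN) h
  have hP : PK k d 1 = 1 - X := by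
    rw [show (1 : ℕ) = 0 + 1 by norm_num, PK_succ, PK_zero]
    simp
  have hQ : PowerSeries.rescale (-1) (PK k d 1) = 1 + X := by
    rw [hP, map_sub, map_one, PowerSeries.rescale_X, map_neg, map_one]
    ring
  rw [hQ, hP] at h'
  have e : KS k d * (1 - X) - (1 + X - (1 - X)) + X ^ 2 * 2 = (1 - X) * (KS k d - 2 * X) := by
    ring
  have h2 := h'.add (Dvd.intro (2 : PowerSeries k) (rfl : X ^ 2 * (2 : PowerSeries k) = _))
  rw [e] at h2
  refine dvd_of_unit_mul ?_ h2
  simp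

lemma oev_KS (d : ℕ) (hd : 2 ≤ d) (η : k) (m i : ℕ) (hm : 1 ≤ m) :
    (X : PowerSeries k) ^ (2 * (m * 2 ^ i)) ∣ oev η m i (KS k d) - 2 * ox η m i := by
  have h := oev_evt η m i 2 hm (KS k d)
  have h0 : PowerSeries.coeff 0 (KS k d) = 0 := by
    rw [coeff_eq_of_dvd (KS_low d hd) 0 (by norm_num)]
    simp
  have h1 : PowerSeries.coeff 1 (KS k d) = 2 := by
    rw [coeff_eq_of_dvd (KS_low d hd) 1 (by norm_num), coeff_two_mul]
    simp
  have e : evt 2 (ox η m i) (PowerSeries.map (PowerSeries.C) (KS k d)) = 2 * ox η m i := by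
    unfold evt
    rw [Finset.sum_range_succ, Finset.sum_range_one, PowerSeries.coeff_map, PowerSeries.coeff_map,
      h0, h1, map_zero, map_ofNat]
    ring
  rwa [e] at h

lemma X_pow_dvd_ox (η : k) (m i : ℕ) : (X : PowerSeries k) ^ (m * 2 ^ i) ∣ ox η m i :=
  ⟨_, mul_comm _ _⟩

lemma X_pow_dvd_oev_KS (d : ℕ) (hd : 2 ≤ d) (η : k) (m i : ℕ) (hm : 1 ≤ m) :
    (X : PowerSeries k) ^ (m * 2 ^ i) ∣ oev η m i (KS k d) := by
  have h := dvd_trans (pow_dvd_pow _ (by omega : m * 2 ^ i ≤ 2 * (m * 2 ^ i)))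
    (oev_KS (k := k) d hd η m i hm)
  have h2 := (X_pow_dvd_ox η m i).mul_left 2
  have := h.add h2
  rwa [sub_add_cancel] at this

/-- orbit equation of the even class -/
def EvOrb (d : ℕ) (η : k) (m : ℕ) (s : ℕ → PowerSeries k) : Prop :=
  ∀ i, s (i + 1) + 2 * s (i + d) - s (i + d + 1) = - (oev η m i (KS k d) * s i)

lemma EvOrb.smul {d : ℕ} {η : k} {m : ℕ} {s : ℕ → PowerSeries k} (h : EvOrb d η m s)
    (c : PowerSeries k) : EvOrb d η m (fun i => c * s i) := by
  intro i
  have := h i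
  linear_combination c * this

/-- limits for the even class. -/
theorem ev_limit (d : ℕ) (hd : 2 ≤ d) (g : ℕ) (hg : 1 ≤ g)
    (hper : ∀ t : ℕ → k, (∀ j, t j + 2 * t (j + (d - 1)) - t (j + d) = 0) → ∀ j, t (j + g) = t j)
    (η : k) (m : ℕ) (hm : 1 ≤ m) (s : ℕ → PowerSeries k) (hs : EvOrb d η m s) :
    ∃ u : ℕ → PowerSeries k,
      (∀ j, u j + 2 * u (j + (d - 1)) - u (j + d) = 0) ∧ (∀ j, u (j + g) = u j) ∧
      (∀ j, (X : PowerSeries k) ^ (m * 2 ^ j) ∣ s (j + 1) - u j) ∧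
      (∀ j, (X : PowerSeries k) ^ (3 * (m * 2 ^ j)) ∣
        s (j + 2) - (u (j + 1) - 2 * ox η m (j + 1) * u j)) := by
  set s' : ℕ → PowerSeries k := fun j => s (j + 1) with hs'
  set M : ℕ → ℕ := fun i => m * 2 ^ i with hMdef
  have hMi : ∀ i, i < M i := by
    intro i
    have h1 : i < 2 ^ i := Nat.lt_two_pow_self
    have h2 : 2 ^ i ≤ m * 2 ^ i := Nat.le_mul_of_pos_left _ hm
    simp only [hMdef]; omega
  have hMm : Monotone M := by
    intro a b hab
    simp only [hMdef]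
    exact Nat.mul_le_mul_left m (Nat.pow_le_pow_right (by norm_num) hab)
  have hMs : ∀ j i, M (i + j) = 2 ^ j * M i := by
    intro j i; simp only [hMdef, pow_add]; ring
  have hcoef : ∀ i n, n < M i → PowerSeries.coeff n (s' i) + 2 * PowerSeries.coeff n (s' (i + (d - 1)))
      - PowerSeries.coeff n (s' (i + d)) = 0 := by
    intro i n hn
    obtain ⟨c, hc⟩ := X_pow_dvd_oev_KS (k := k) d hd η m i hm
    have h2 := congrArg (PowerSeries.coeff n) (hs i)
    rw [hc, map_sub, map_add, coeff_two_mul, map_neg, mul_assoc, PowerSeries.coeff_X_pow_mul',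
      if_neg (by simpa [hMdef] using hn)] at h2
    rw [neg_zero] at h2
    simp only [hs']
    rw [show i + (d - 1) + 1 = i + d by omega]
    exact h2
  have hpers : ∀ i n, n < M i → PowerSeries.coeff n (s' (i + g)) = PowerSeries.coeff n (s' i) := by
    intro i n hn
    have h1 := hper (fun j => PowerSeries.coeff n (s' (i + j))) (by
      intro j
      have h2 := hcoef (i + j) n (lt_of_lt_of_le hn (hMm (by omega)))
      simp only [← add_assoc]
      exact h2) 0
    simpa using h1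
  have hurec : ∀ i, lim g s' i + 2 * lim g s' (i + (d - 1)) - lim g s' (i + d) = 0 := by
    intro i
    ext n
    have hlt : ∀ j, n < M (i + j + g * n) := by
      intro j
      have h4 := hMi (i + j + g * n)
      have h5 : n ≤ g * n := Nat.le_mul_of_pos_left _ hg
      omega
    rw [map_sub, map_add, coeff_two_mul, map_zero]
    have c0 := coeff_lim g s' M hMi hg hpers hMm i n n (by simpa using hlt 0)
    have c1 := coeff_lim g s' M hMi hg hpers hMm (i + (d - 1)) n n (hlt (d - 1))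
    have c2 := coeff_lim g s' M hMi hg hpers hMm (i + d) n n (hlt d)
    rw [c0, c1, c2]
    have h6 := hcoef (i + g * n) n (by simpa using hlt 0)
    have e2 : i + g * n + (d - 1) = i + (d - 1) + g * n := by ring
    have e3 : i + g * n + d = i + d + g * n := by ring
    rw [e2, e3] at h6
    exact h6
  have happ : ∀ j, (X : PowerSeries k) ^ (M j) ∣ s (j + 1) - lim g s' j := fun j =>
    lim_sub g s' M hMi hg hpers hMm j
  refine ⟨lim g s', hurec, fun i => lim_per g s' M hMi hg hpers hMm i, happ, ?_⟩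
  intro j
  set u := lim g s' with hu
  have a1 := happ (j + 1)
  have hd1 : ∃ e, d = e + 2 := ⟨d - 2, by omega⟩
  obtain ⟨e, rfl⟩ := hd1
  -- e-terms
  have hle : ∀ a, 2 ≤ a → 3 * (m * 2 ^ j) ≤ M (j + a) := by
    intro a ha
    rw [hMs]
    have : 2 ^ 2 ≤ 2 ^ a := Nat.pow_le_pow_right (by norm_num) ha
    have h4 : 4 * (m * 2 ^ j) ≤ 2 ^ a * (m * 2 ^ j) := Nat.mul_le_mul_right _ (by simpa using this)
    simp only [hMdef]
    omega
  have b1 := dvd_trans (pow_dvd_pow _ (hle (e + 2) (by omega))) (happ (j + (e + 2)))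
  have b2 := dvd_trans (pow_dvd_pow _ (hle (e + 3) (by omega))) (happ (j + (e + 3)))
  have hs1 := hs (j + 1)
  have hr := hurec (j + 1)
  have c1 := oev_KS (k := k) (e + 2) hd η m (j + 1) hm
  have c1' := dvd_trans (pow_dvd_pow _ (by
    have : 3 * (m * 2 ^ j) ≤ 2 * (m * 2 ^ (j + 1)) := by rw [pow_succ]; ring_nf; omega
    exact this)) c1
  have c2 : (X : PowerSeries k) ^ (3 * (m * 2 ^ j)) ∣ 2 * ox η m (j + 1) * (s (j + 1) - u j) := by
    have := mul_dvd_mul (X_pow_dvd_ox η m (j + 1)) (happ j)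
    rw [← pow_add] at this
    have e1 : m * 2 ^ (j + 1) + M j = 3 * (m * 2 ^ j) := by
      simp only [hMdef]; rw [pow_succ]; ring
    rw [e1] at this
    have h3 := this.mul_left 2
    have e2 : 2 * (ox η m (j + 1) * (s (j + 1) - u j)) = 2 * ox η m (j + 1) * (s (j + 1) - u j) := by
      ring
    rw [e2] at h3
    exact h3
  have hfin := ((b2.sub (b1.mul_left 2)).sub (c1'.mul_right (s (j + 1)))).sub c2
  have e1 : s (j + (e + 3) + 1) - u (j + (e + 3)) - 2 * (s (j + (e + 2) + 1) - u (j + (e + 2)))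
      - (oev η m (j + 1) (KS k (e + 2)) - 2 * ox η m (j + 1)) * s (j + 1)
      - 2 * ox η m (j + 1) * (s (j + 1) - u j) =
      s (j + 2) - (u (j + 1) - 2 * ox η m (j + 1) * u j) := by
    have i1 : j + 1 + 1 = j + 2 := by ring
    have i2 : j + 1 + (e + 2) = j + (e + 3) := by ring
    have i4 : j + (e + 2) + 1 = j + (e + 3) := by ring
    have i5 : j + 1 + (e + 2 - 1) = j + (e + 2) := by omega
    rw [i1, i2] at hs1
    rw [i5, i2] at hr
    rw [i4]
    linear_combination -hs1 + hr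
  rw [e1] at hfin
  exact hfin

/-- divisibility when the limit vanishes. -/
theorem ev_div (d : ℕ) (hd : 2 ≤ d) (η : k) (m : ℕ) (hm : 1 ≤ m) (s : ℕ → PowerSeries k)
    (hs : EvOrb d η m s) (h0 : ∀ j, (X : PowerSeries k) ^ (m * 2 ^ j) ∣ s (j + 1)) :
    ∀ j, (X : PowerSeries k) ^ (m * (2 ^ j - 1)) ∣ s j := by
  intro j
  induction j with
  | zero => simp
  | succ j ih =>
    have h1 := mul_dvd_mul (X_pow_dvd_oev_KS (k := k) d hd η m j hm) ih
    rw [← pow_add] at h1
    have hpos : 1 ≤ 2 ^ j := Nat.one_le_two_pow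
    have e1 : m * 2 ^ j + m * (2 ^ j - 1) = m * (2 ^ (j + 1) - 1) := by
      rw [← mul_add]; congr 1; rw [pow_succ]; omega
    rw [e1] at h1
    have hle : ∀ a, 1 ≤ a → m * (2 ^ (j + 1) - 1) ≤ m * 2 ^ (j + a) := by
      intro a ha
      apply Nat.mul_le_mul_left
      have : 2 ^ (j + 1) ≤ 2 ^ (j + a) := Nat.pow_le_pow_right (by norm_num) (by omega)
      omega
    have h2 := dvd_trans (pow_dvd_pow _ (hle (d - 1) (by omega))) (h0 (j + (d - 1)))
    have h3 := dvd_trans (pow_dvd_pow _ (hle d (by omega))) (h0 (j + d))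
    rw [show j + (d - 1) + 1 = j + d by omega] at h2
    have hfin := (h3.sub (h2.mul_left 2)).sub h1
    have e2 : s (j + d + 1) - 2 * s (j + d) - oev η m j (KS k d) * s j = s (j + 1) := by
      have := hs j
      linear_combination -this
    rwa [e2] at hfin

end Run7.h751
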