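import Pool.Agent.Run7.h751.Ev2

open PowerSeries Finset

namespace Run7.h751

variable {k : Type*} [Field k]

/-- contraction principle for power series. -/
lemma exists_fixed (Φ : PowerSeries k → PowerSeries k)
    (h : ∀ n, 1 ≤ n → ∀ G H, (X : PowerSeries k) ^ n ∣ G - H → X ^ (n + 1) ∣ Φ G - Φ H)
    (G0 : PowerSeries k) (h0 : (X : PowerSeries k) ^ 1 ∣ Φ G0 - G0) :
    ∃ W : PowerSeries k, Φ W = W ∧ (X : PowerSeries k) ^ 1 ∣ W - G0 := by
  set G : ℕ → PowerSeries k := fun n => Φ^[n] G0 with hG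
  have hGs : ∀ n, G (n + 1) = Φ (G n) := fun n => Function.iterate_succ_apply' Φ n G0
  have h1 : ∀ n, (X : PowerSeries k) ^ (n + 1) ∣ G (n + 1) - G n := by
    intro n
    induction n with
    | zero => exact h0
    | succ n ih =>
      rw [hGs (n + 1), hGs n]
      have := h (n + 1) (by omega) _ _ ih
      rw [hGs n] at this
      exact this
  have h2 : ∀ n j, (X : PowerSeries k) ^ (n + 1) ∣ G (n + j) - G n := by
    intro n j
    induction j with
    | zero => simp
    | succ j ih =>
      have a := dvd_trans (pow_dvd_pow (X : PowerSeries k) (by omega : n + 1 ≤ n + j + 1)) (h1 (n + j))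
      have := a.add ih
      rw [sub_add_sub_cancel] at this
      exact this
  set W : PowerSeries k := PowerSeries.mk fun n => PowerSeries.coeff n (G n) with hW
  have h3 : ∀ n, (X : PowerSeries k) ^ (n + 1) ∣ W - G n := by
    intro n
    rw [PowerSeries.X_pow_dvd_iff]
    intro j hj
    rw [map_sub, hW, PowerSeries.coeff_mk]
    have := h2 j (n - j)
    rw [show j + (n - j) = n by omega] at this
    rw [PowerSeries.X_pow_dvd_iff] at this
    have h4 := this j (by omega)
    rw [map_sub] at h4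
    rw [sub_eq_zero] at h4 ⊢
    exact h4.symm
  refine ⟨W, ?_, ?_⟩
  · have h4 : ∀ n, (X : PowerSeries k) ^ (n + 1) ∣ Φ W - W := by
      intro n
      have a := h (n + 1) (by omega) _ _ (h3 n)
      rw [← hGs] at a
      have b := h3 (n + 1)
      have c := dvd_trans (pow_dvd_pow (X : PowerSeries k) (by omega : n + 1 ≤ n + 1 + 1)) (a.sub b)
      have e : Φ W - G (n + 1) - (W - G (n + 1)) = Φ W - W := by ring
      rwa [e] at c
    ext n
    have := h4 n
    rw [PowerSeries.X_pow_dvd_iff] at this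
    have h5 := this n (by omega)
    rw [map_sub] at h5
    exact sub_eq_zero.mp h5
  · exact h3 0

lemma FF_coeff_one (d : ℕ) (hd : 2 ≤ d) : PowerSeries.coeff 1 (FF k d) = 1 := by
  have h := FF_mul_PK (R := k) d (by omega) 1
  have hN : 2 ≤ (1 + 1) ^ d := by
    calc 2 ≤ 2 ^ 2 := by norm_num
      _ ≤ 2 ^ d := Nat.pow_le_pow_right (by norm_num) hd
  have h' := dvd_trans (pow_dvd_pow _ hN) h
  have hP : PK k d 1 = 1 - X := by
    rw [show (1 : ℕ) = 0 + 1 by norm_num, PK_succ, PK_zero]
    simp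
  rw [hP, PowerSeries.X_pow_dvd_iff] at h'
  have h1 := h' 1 (by norm_num)
  rw [mul_sub, mul_one, map_sub, map_sub, show (1 : ℕ) = 0 + 1 by norm_num,
    PowerSeries.coeff_succ_mul_X, PowerSeries.coeff_zero_eq_constantCoeff_apply,
    constCoeff_FF d (by omega), PowerSeries.coeff_one, if_neg (by norm_num)] at h1
  linear_combination h1

/-- `F_1 / X` -/
noncomputable def EE (k : Type*) [Field k] (d : ℕ) : PowerSeries k :=
  PowerSeries.mk fun n => PowerSeries.coeff (n + 1) (F1 k d)

lemma X_mul_EE (d : ℕ) : X * EE k d = F1 k d := by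
  ext n
  cases n with
  | zero =>
    rw [PowerSeries.coeff_zero_X_mul]
    unfold F1
    rw [PowerSeries.coeff_mk, if_neg (by norm_num)]
  | succ n => rw [PowerSeries.coeff_succ_X_mul, EE, PowerSeries.coeff_mk]

lemma constCoeff_EE (d : ℕ) (hd : 2 ≤ d) : PowerSeries.constantCoeff (EE k d) = 1 := by
  rw [← PowerSeries.coeff_zero_eq_constantCoeff_apply, EE, PowerSeries.coeff_mk, F1,
    PowerSeries.coeff_mk, if_pos (by norm_num)]
  have := FF_coeff_one (k := k) d hd
  rw [FF, PowerSeries.coeff_mk] at this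
  exact this

/-- the cocycle of the even class -/
noncomputable def CT (k : Type*) [Field k] (d : ℕ) : PowerSeries k := FM k d * (EE k d)⁻¹

lemma constCoeff_CT (d : ℕ) (hd : 2 ≤ d) : PowerSeries.constantCoeff (CT k d) = 1 := by
  unfold CT
  rw [map_mul, constCoeff_FM d (by omega), PowerSeries.constantCoeff_inv, constCoeff_EE d hd]
  simp

lemma CT_mul_EE (d : ℕ) (hd : 2 ≤ d) : CT k d * EE k d = FM k d := by
  unfold CT
  rw [mul_assoc, PowerSeries.inv_mul_cancel, mul_one]
  rw [constCoeff_EE d hd]; exact one_ne_zero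

lemma KS_mul_CT (d : ℕ) (hd : 2 ≤ d) : KS k d * CT k d = 2 * X := by
  have h1 := KS_mul (k := k) d (by omega)
  have h2 := FF_sub_FM (k := k) d
  rw [one_mul] at h2
  have h3 := X_mul_EE (k := k) d
  have h4 := CT_mul_EE (k := k) d hd
  have hE : EE k d ≠ 0 := by
    intro h
    have := constCoeff_EE (k := k) d hd
    rw [h, map_zero] at this
    exact zero_ne_one this
  apply mul_right_cancel₀ hE
  rw [mul_assoc, h4, h1, h2, ← h3]
  ring

/-- the formal solution -/
theorem exists_SW (d : ℕ) (hd : 2 ≤ d) (A : k) : ∃ S : PowerSeries k,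
    PowerSeries.coeff 0 S = 0 ∧ PowerSeries.coeff 1 S = 1 ∧
    X * S = CT k d * (PowerSeries.expand 2 two_ne_zero S
      - PowerSeries.C A * PowerSeries.expand (2 ^ d) (by positivity) S
      - PowerSeries.C A * PowerSeries.expand (2 ^ (d + 1)) (by positivity) S) := by
  have hp : (2 : ℕ) ^ d ≠ 0 := by positivity
  have hp' : (2 : ℕ) ^ (d + 1) ≠ 0 := by positivity
  have h2d : 4 ≤ 2 ^ d := by
    calc 4 = 2 ^ 2 := by norm_num
      _ ≤ 2 ^ d := Nat.pow_le_pow_right (by norm_num) hd
  set Φ : PowerSeries k → PowerSeries k := fun W => CT k d * (PowerSeries.expand 2 two_ne_zero W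
      - PowerSeries.C A * X ^ (2 ^ d - 2) * PowerSeries.expand (2 ^ d) hp W
      - PowerSeries.C A * X ^ (2 ^ (d + 1) - 2) * PowerSeries.expand (2 ^ (d + 1)) hp' W) with hΦ
  have hexp : ∀ (a : ℕ) (ha : a ≠ 0) (n : ℕ) (G H : PowerSeries k), 2 ≤ a →
      (X : PowerSeries k) ^ n ∣ G - H → 1 ≤ n →
      X ^ (n + 1) ∣ PowerSeries.expand a ha G - PowerSeries.expand a ha H := by
    intro a ha n G H ha2 hGH hn
    obtain ⟨t, ht⟩ := hGH
    rw [← map_sub, ht, map_mul, map_pow, PowerSeries.expand_X, ← pow_mul]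
    refine Dvd.dvd.mul_right (pow_dvd_pow _ ?_) _
    calc n + 1 ≤ 2 * n := by omega
      _ ≤ a * n := Nat.mul_le_mul_right n ha2
  obtain ⟨W, hW1, hW2⟩ := exists_fixed Φ (by
    intro n hn G H hGH
    have e1 := hexp 2 two_ne_zero n G H (le_refl 2) hGH hn
    have e2 := hexp (2 ^ d) hp n G H (by omega) hGH hn
    have e3 := hexp (2 ^ (d + 1)) hp' n G H (by rw [pow_succ]; omega) hGH hn
    have := ((e1.sub (e2.mul_left (PowerSeries.C A * X ^ (2 ^ d - 2)))).sub
      (e3.mul_left (PowerSeries.C A * X ^ (2 ^ (d + 1) - 2)))).mul_left (CT k d)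
    have e : Φ G - Φ H = CT k d * (PowerSeries.expand 2 two_ne_zero G -
        PowerSeries.expand 2 two_ne_zero H - PowerSeries.C A * X ^ (2 ^ d - 2) *
        (PowerSeries.expand (2 ^ d) hp G - PowerSeries.expand (2 ^ d) hp H) -
        PowerSeries.C A * X ^ (2 ^ (d + 1) - 2) *
        (PowerSeries.expand (2 ^ (d + 1)) hp' G - PowerSeries.expand (2 ^ (d + 1)) hp' H)) := by
      simp only [hΦ]; ring
    rw [e]; exact this) 1 (by
    rw [pow_one, PowerSeries.X_dvd_iff]
    simp only [hΦ, map_one, mul_one]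
    rw [map_sub, map_mul, map_sub, map_sub, map_mul, map_mul, map_one, constCoeff_CT d hd,
      map_pow, map_pow, PowerSeries.constantCoeff_X, zero_pow (by omega),
      zero_pow (by rw [pow_succ]; omega)]
    ring)
  refine ⟨X * W, ?_, ?_, ?_⟩
  · simp
  · rw [show (1 : ℕ) = 0 + 1 by norm_num, PowerSeries.coeff_succ_X_mul,
      PowerSeries.coeff_zero_eq_constantCoeff_apply]
    rw [pow_one, PowerSeries.X_dvd_iff, map_sub, map_one] at hW2
    exact sub_eq_zero.mp hW2
  · simp only [map_mul, PowerSeries.expand_X]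
    have e1 : (X : PowerSeries k) ^ 2 ^ d = X ^ 2 * X ^ (2 ^ d - 2) := by
      rw [← pow_add]; congr 1; omega
    have e2 : (X : PowerSeries k) ^ 2 ^ (d + 1) = X ^ 2 * X ^ (2 ^ (d + 1) - 2) := by
      rw [← pow_add]; congr 1; rw [pow_succ]; omega
    rw [e1, e2]
    conv_lhs => rw [← hW1]
    simp only [hΦ]
    ring

end Run7.h751
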