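import Pool.Agent.Run7.h751.Ev3

open PowerSeries Finset

namespace Run7.h751

variable {k : Type*} [Field k]

lemma ox_add (η : k) (m i j : ℕ) : ox η m (i + j) = ox η m i ^ (2 ^ j) := by
  induction j with
  | zero => simp
  | succ j ih => rw [← add_assoc, ox_succ, ih, ← pow_mul, ← pow_succ]

lemma dvd_of_C_mul {a : k} (ha : a ≠ 0) {x y : PowerSeries k}
    (h : x ∣ PowerSeries.C a * y) : x ∣ y := by
  have hunit : IsUnit (PowerSeries.C a) := (isUnit_iff_ne_zero.mpr ha).map _
  exact (hunit.dvd_mul_left).mp h

lemma evt_congr_order (n m : ℕ) (x : PowerSeries k) (M : ℕ) (hx : (X : PowerSeries k) ^ M ∣ x)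
    (G : PowerSeries (PowerSeries k)) (h : m ≤ n) :
    (X : PowerSeries k) ^ (m * M) ∣ evt n x G - evt m x G := by
  have h1 := evt_mono m n h x G
  have h2 : (X : PowerSeries k) ^ (m * M) ∣ x ^ m := by
    rw [mul_comm, pow_mul]
    exact pow_dvd_pow_of_dvd hx m
  exact dvd_trans h2 h1

/-- the expansion theorem for the even class -/
theorem ev_expansion (ℓ : ℕ) [hℓ : Fact ℓ.Prime] [CharP k ℓ] (hℓ2 : ℓ ≠ 2) (d : ℕ) (hd : 2 ≤ d)
    (S : PowerSeries k) (hS0 : PowerSeries.coeff 0 S = 0) (hS1 : PowerSeries.coeff 1 S = 1)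
    (hS : X * S = CT k d * (PowerSeries.expand 2 two_ne_zero S
      - PowerSeries.C ((-2) ^ d) * PowerSeries.expand (2 ^ d) (by positivity) S
      - PowerSeries.C ((-2) ^ d) * PowerSeries.expand (2 ^ (d + 1)) (by positivity) S))
    (η : k) (hη : η ≠ 0) (m : ℕ) (hm : 1 ≤ m)
    (s : ℕ → PowerSeries k) (hs : EvOrb d η m s) (hdiv : ∀ i, (X : PowerSeries k) ^ (m * 2 ^ i) ∣ s i) :
    ∃ w : ℕ → PowerSeries k, (∀ i, w (i + 1) = -2 * w i) ∧
      ∀ n i, (X : PowerSeries k) ^ (n * (m * 2 ^ i)) ∣ s i -
        evt n (ox η m i) (PowerSeries.C (w i) * PowerSeries.map (PowerSeries.C) S) := by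
  have h2ne : (2 : k) ≠ 0 := by
    intro h2
    have h3 : ((2 : ℕ) : k) = 0 := by exact_mod_cast h2
    rw [CharP.cast_eq_zero_iff k ℓ] at h3
    exact hℓ2 ((Nat.prime_dvd_prime_iff_eq hℓ.out Nat.prime_two).mp h3)
  set M : ℕ → ℕ := fun i => m * 2 ^ i with hMdef
  have hMi : ∀ i, i < M i := by
    intro i
    have h1 : i < 2 ^ i := Nat.lt_two_pow_self
    have h2 : 2 ^ i ≤ m * 2 ^ i := Nat.le_mul_of_pos_left _ hm
    simp only [hMdef]; omega
  have hMm : Monotone M := by
    intro a b hab
    simp only [hMdef]
    exact Nat.mul_le_mul_left m (Nat.pow_le_pow_right (by norm_num) hab)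
  have hMs : ∀ j i, M (i + j) = 2 ^ j * M i := by
    intro j i; simp only [hMdef, pow_add]; ring
  have hxM : ∀ i, (X : PowerSeries k) ^ (M i) ∣ ox η m i := fun i => X_pow_dvd_ox η m i
  -- the quotient
  have hy : ∀ i, ∃ y, s i = ox η m i * y := by
    intro i
    obtain ⟨c, hc⟩ := hdiv i
    refine ⟨PowerSeries.C ((η ^ (2 ^ i))⁻¹) * c, ?_⟩
    unfold ox
    rw [hc]
    have : PowerSeries.C (η ^ (2 ^ i)) * PowerSeries.C ((η ^ (2 ^ i))⁻¹) = (1 : PowerSeries k) := by
      rw [← map_mul, mul_inv_cancel₀ (pow_ne_zero _ hη), map_one]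
    linear_combination (- (X : PowerSeries k) ^ (m * 2 ^ i) * c) * this
  choose y hy using hy
  -- cancellation of x_i
  have hcan : ∀ i N z, (X : PowerSeries k) ^ (M i + N) ∣ ox η m i * z → (X : PowerSeries k) ^ N ∣ z := by
    intro i N z hz
    unfold ox at hz
    rw [mul_assoc] at hz
    have h1 := dvd_of_C_mul (pow_ne_zero _ hη) hz
    rw [pow_add] at h1
    exact (mul_dvd_mul_iff_left (pow_ne_zero _ PowerSeries.X_ne_zero)).mp h1
  have hyrec : ∀ i, (X : PowerSeries k) ^ (M i) ∣ y (i + 1) + 2 * y i := by
    intro i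
    have hle : ∀ a, 2 ≤ a → 3 * M i ≤ M (i + a) := by
      intro a ha
      rw [hMs]
      have : 2 ^ 2 ≤ 2 ^ a := Nat.pow_le_pow_right (by norm_num) ha
      have h4 : 4 * M i ≤ 2 ^ a * M i := Nat.mul_le_mul_right _ (by simpa using this)
      omega
    have a1 := dvd_trans (pow_dvd_pow _ (hle d hd)) (hdiv (i + d))
    have a2 := dvd_trans (pow_dvd_pow _ (hle (d + 1) (by omega))) (hdiv (i + (d + 1)))
    have a3 := mul_dvd_mul (oev_KS (k := k) d hd η m i hm) (hdiv i)
    rw [← pow_add, show 2 * (m * 2 ^ i) + m * 2 ^ i = 3 * M i by simp only [hMdef]; ring] at a3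
    have h := (a2.sub (a1.mul_left 2)).sub a3
    have e : s (i + (d + 1)) - 2 * s (i + d) - (oev η m i (KS k d) - 2 * ox η m i) * s i =
        ox η m i * (ox η m i * (y (i + 1) + 2 * y i)) := by
      have h1 := hs i
      rw [hy i, hy (i + 1), ox_succ] at h1
      rw [hy i]
      rw [show i + (d + 1) = i + d + 1 by ring]
      linear_combination -h1
    rw [e] at h
    apply hcan i (M i)
    apply hcan i (M i + M i)
    rw [show M i + (M i + M i) = 3 * M i by ring]
    exact h
  -- periodicity
  have hg : 1 ≤ ℓ - 1 := by have := hℓ.out.two_le; omega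
  have hper : ∀ i n, n < M i → PowerSeries.coeff n (y (i + (ℓ - 1))) = PowerSeries.coeff n (y i) := by
    intro i n hn
    have hstep : ∀ j, PowerSeries.coeff n (y (i + j)) = (-2) ^ j * PowerSeries.coeff n (y i) := by
      intro j
      induction j with
      | zero => simp
      | succ j ih =>
        have h1 := hyrec (i + j)
        rw [PowerSeries.X_pow_dvd_iff] at h1
        have h2 := h1 n (lt_of_lt_of_le hn (hMm (by omega)))
        rw [map_add, coeff_two_mul, ih] at h2
        rw [← add_assoc, pow_succ]
        linear_combination h2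
    rw [hstep]
    have hneg : (-2 : k) ≠ 0 := neg_ne_zero.mpr h2ne
    have hfer : (-2 : k) ^ (ℓ - 1) = 1 := by
      have h3 : (-2 : k) ^ ℓ = -2 := by
        have := map_neg (frobenius k ℓ) 2
        rw [map_ofNat, frobenius_def] at this
        exact this
      have h4 : ℓ = (ℓ - 1) + 1 := by have := hℓ.out.one_lt; omega
      rw [h4, pow_succ] at h3
      exact mul_right_cancel₀ hneg (by rw [one_mul]; exact h3)
    rw [hfer, one_mul]
  set w := lim (ℓ - 1) y with hw
  have hwapp : ∀ i, (X : PowerSeries k) ^ (M i) ∣ y i - w i := fun i =>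
    lim_sub (ℓ - 1) y M hMi hg hper hMm i
  have hwrec : ∀ i, w (i + 1) = -2 * w i := by
    intro i
    ext n
    have hlt : ∀ j, n < M (i + j + (ℓ - 1) * n) := by
      intro j
      have h4 := hMi (i + j + (ℓ - 1) * n)
      have h5 : n ≤ (ℓ - 1) * n := Nat.le_mul_of_pos_left _ hg
      omega
    have c0 := coeff_lim (ℓ - 1) y M hMi hg hper hMm i n n (by simpa using hlt 0)
    have c1 := coeff_lim (ℓ - 1) y M hMi hg hper hMm (i + 1) n n (hlt 1)
    rw [show (-2 : PowerSeries k) * w i = - (2 * w i) by ring, map_neg, coeff_two_mul, hw, c0, c1]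
    have h1 := hyrec (i + (ℓ - 1) * n)
    rw [PowerSeries.X_pow_dvd_iff] at h1
    have h2 := h1 n (by simpa using hlt 0)
    rw [map_add, coeff_two_mul] at h2
    rw [show i + 1 + (ℓ - 1) * n = i + (ℓ - 1) * n + 1 by ring]
    linear_combination h2
  refine ⟨w, hwrec, ?_⟩
  set Sm : PowerSeries (PowerSeries k) := PowerSeries.map (PowerSeries.C) S with hSm
  set G : ℕ → PowerSeries (PowerSeries k) := fun i => PowerSeries.C (w i) * Sm with hG
  have hp : (2 : ℕ) ^ d ≠ 0 := by positivity
  have hp' : (2 : ℕ) ^ (d + 1) ≠ 0 := by positivity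
  have hmapexp : ∀ (a : ℕ) (ha : a ≠ 0), PowerSeries.map (PowerSeries.C (R := k))
      (PowerSeries.expand a ha S) = PowerSeries.expand a ha Sm := by
    intro a ha
    ext1 n
    rw [PowerSeries.coeff_map, PowerSeries.coeff_expand, PowerSeries.coeff_expand, hSm,
      PowerSeries.coeff_map]
    split_ifs
    · rfl
    · rw [map_zero]
  have hCexp : ∀ (a : ℕ) (ha : a ≠ 0) (c : PowerSeries k), PowerSeries.expand a ha
      (PowerSeries.C c * Sm) = PowerSeries.C c * PowerSeries.expand a ha Sm := by
    intro a ha c
    rw [map_mul, PowerSeries.expand_C]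
  -- the formal identity
  have hformal : ∀ i, PowerSeries.map (PowerSeries.C) (KS k d) * G i =
      - (PowerSeries.expand 2 two_ne_zero (G (i + 1)) + PowerSeries.C 2 *
        PowerSeries.expand (2 ^ d) hp (G (i + d)) -
        PowerSeries.expand (2 ^ (d + 1)) hp' (G (i + d + 1))) := by
    intro i
    have hwj : ∀ j, w (i + j) = (-2) ^ j * w i := by
      intro j
      induction j with
      | zero => simp
      | succ j ih => rw [← add_assoc, hwrec, ih, pow_succ]; ring
    simp only [hG]
    rw [hCexp, hCexp, hCexp, hwrec, hwj d, add_assoc i d 1, hwj (d + 1)]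
    have hCT0 : PowerSeries.map (PowerSeries.C) (CT k d) ≠ 0 := by
      intro h
      have h1 := congrArg (fun p => PowerSeries.constantCoeff (PowerSeries.coeff 0 p)) h
      simp only [map_zero, PowerSeries.coeff_map] at h1
      rw [PowerSeries.constantCoeff_C, PowerSeries.coeff_zero_eq_constantCoeff_apply,
        constCoeff_CT d hd] at h1
      exact one_ne_zero h1
    apply mul_left_cancel₀ hCT0
    have hKC := congrArg (PowerSeries.map (PowerSeries.C (R := k))) (KS_mul_CT (k := k) d hd)
    have hSS := congrArg (PowerSeries.map (PowerSeries.C (R := k))) hS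
    rw [map_mul, map_mul, map_ofNat, PowerSeries.map_X] at hKC
    rw [map_mul, map_mul, map_sub, map_sub, map_mul, map_mul, hmapexp, hmapexp, hmapexp,
      PowerSeries.map_X, PowerSeries.map_C] at hSS
    have hCd : (PowerSeries.C (PowerSeries.C ((-2 : k) ^ d)) : PowerSeries (PowerSeries k)) =
        PowerSeries.C ((-2) ^ d) := by
      rw [map_pow, map_neg, map_ofNat]
    rw [hCd] at hSS
    rw [map_mul, map_mul, map_mul, map_pow, map_pow, map_neg, map_ofNat]
    rw [map_pow, map_neg, map_ofNat] at hSS
    rw [← hSm] at hSS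
    linear_combination (PowerSeries.C (w i) * Sm) * hKC + (2 * PowerSeries.C (w i)) * hSS
  have hxn : ∀ i n, (X : PowerSeries k) ^ (n * M i) ∣ ox η m i ^ n := by
    intro i n
    rw [mul_comm n, pow_mul]
    exact pow_dvd_pow_of_dvd (hxM i) n
  -- order two
  have hbase : ∀ i, (X : PowerSeries k) ^ (2 * M i) ∣ s i - evt 2 (ox η m i) (G i) := by
    intro i
    have e : evt 2 (ox η m i) (G i) = ox η m i * w i := by
      unfold evt
      simp only [hG]
      rw [Finset.sum_range_succ, Finset.sum_range_one, PowerSeries.coeff_C_mul,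
        PowerSeries.coeff_C_mul, hSm, PowerSeries.coeff_map, PowerSeries.coeff_map, hS0, hS1,
        map_zero, map_one]
      ring
    rw [e, hy i, ← mul_sub, two_mul, pow_add]
    exact mul_dvd_mul (hxM i) (hwapp i)
  intro n
  induction n using Nat.strong_induction_on with
  | _ n ih =>
    rcases Nat.lt_or_ge n 3 with hn | hn
    · intro i
      have h1 := evt_congr_order 2 n (ox η m i) (M i) (hxM i) (G i) (by omega)
      have h2 := dvd_trans (pow_dvd_pow (X : PowerSeries k)
        (Nat.mul_le_mul_right (M i) (by omega : n ≤ 2))) (hbase i)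
      have := h2.add h1
      have e : s i - evt 2 (ox η m i) (G i) + (evt 2 (ox η m i) (G i) - evt n (ox η m i) (G i)) =
        s i - evt n (ox η m i) (G i) := by ring
      rw [e] at this
      exact this
    · intro i
      obtain ⟨N, rfl⟩ : ∃ N, n = N + 1 := ⟨n - 1, by omega⟩
      have hN := ih N (by omega)
      set T := N + 2 with hT
      have hcomp : ∀ j, 1 ≤ j → ∀ hj : 2 ^ j ≠ 0, (X : PowerSeries k) ^ (T * M i) ∣
          s (i + j) - evt T (ox η m i) (PowerSeries.expand (2 ^ j) hj (G (i + j))) := by
        intro j hj1 hj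
        have hle : T * M i ≤ N * M (i + j) := by
          rw [hMs]
          have : 2 ^ 1 ≤ 2 ^ j := Nat.pow_le_pow_right (by norm_num) hj1
          calc T * M i ≤ (N * 2) * M i := Nat.mul_le_mul_right _ (by omega)
            _ ≤ (N * 2 ^ j) * M i := Nat.mul_le_mul_right _ (Nat.mul_le_mul_left N (by simpa using this))
            _ = N * (2 ^ j * M i) := by ring
        have a1 := dvd_trans (pow_dvd_pow (X : PowerSeries k) hle) (hN (i + j))
        have a2 := dvd_trans (pow_dvd_pow (X : PowerSeries k) hle)
          (evt_congr_order T N (ox η m (i + j)) (M (i + j)) (hxM (i + j)) (G (i + j)) (by omega))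
        have a3 := dvd_trans (hxn i T) (evt_expand T (ox η m i) (2 ^ j) hj (G (i + j)))
        rw [← ox_add] at a3
        have := (a1.sub a2).sub a3
        have e : s (i + j) - evt N (ox η m (i + j)) (G (i + j)) -
          (evt T (ox η m (i + j)) (G (i + j)) - evt N (ox η m (i + j)) (G (i + j))) -
          (evt T (ox η m i) (PowerSeries.expand (2 ^ j) hj (G (i + j))) -
            evt T (ox η m (i + j)) (G (i + j))) =
          s (i + j) - evt T (ox η m i) (PowerSeries.expand (2 ^ j) hj (G (i + j))) := by ring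
        rw [e] at this
        exact this
      have c1 := hcomp 1 (le_refl 1) (by norm_num)
      have c2 := hcomp d (by omega) hp
      have c3 := hcomp (d + 1) (by omega) hp'
      have hprod := dvd_trans (hxn i T) (evt_mul T (ox η m i) (PowerSeries.map (PowerSeries.C)
        (KS k d)) (G i))
      rw [hformal i] at hprod
      have hnegevt : ∀ H : PowerSeries (PowerSeries k), evt T (ox η m i) (-H) =
          - evt T (ox η m i) H := by
        intro H
        have := evt_sub T (ox η m i) 0 H
        have h0 : evt T (ox η m i) (0 : PowerSeries (PowerSeries k)) = 0 := by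
          unfold evt; simp
        rw [zero_sub, h0, zero_sub] at this
        exact this
      rw [hnegevt, evt_sub, evt_add, evt_C_mul] at hprod
      have hKSe := oev_evt η m i T hm (KS k d)
      have hKSe' : (X : PowerSeries k) ^ (T * M i) ∣ oev η m i (KS k d) -
        evt T (ox η m i) (PowerSeries.map (PowerSeries.C) (KS k d)) := hKSe
      have hsi := hs i
      have key : (X : PowerSeries k) ^ (T * M i) ∣ oev η m i (KS k d) *
          (s i - evt T (ox η m i) (G i)) := by
        have := (((c3.sub (c2.mul_left 2)).sub c1).add hprod).sub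
          (hKSe'.mul_right (evt T (ox η m i) (G i)))
        have e : s (i + (d + 1)) - evt T (ox η m i) (PowerSeries.expand (2 ^ (d + 1)) hp' (G (i + (d + 1))))
            - 2 * (s (i + d) - evt T (ox η m i) (PowerSeries.expand (2 ^ d) hp (G (i + d))))
            - (s (i + 1) - evt T (ox η m i) (PowerSeries.expand (2 ^ 1) (by norm_num) (G (i + 1))))
            + (-(evt T (ox η m i) (PowerSeries.expand 2 two_ne_zero (G (i + 1))) +
              2 * evt T (ox η m i) (PowerSeries.expand (2 ^ d) hp (G (i + d))) -
              evt T (ox η m i) (PowerSeries.expand (2 ^ (d + 1)) hp' (G (i + d + 1)))) -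
              evt T (ox η m i) (PowerSeries.map (PowerSeries.C) (KS k d)) * evt T (ox η m i) (G i))
            - (oev η m i (KS k d) - evt T (ox η m i) (PowerSeries.map (PowerSeries.C) (KS k d))) *
              evt T (ox η m i) (G i) =
            oev η m i (KS k d) * (s i - evt T (ox η m i) (G i)) := by
          have e1 : PowerSeries.expand (2 ^ 1) (by norm_num) (G (i + 1)) =
            PowerSeries.expand 2 two_ne_zero (G (i + 1)) := rfl
          rw [e1, show i + (d + 1) = i + d + 1 by ring]
          linear_combination -hsi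
        rw [e] at this
        exact this
      -- multiply by CT
      have hnz : m * 2 ^ i ≠ 0 := by positivity
      have hKCT := congrArg (oevH η m i hnz) (KS_mul_CT (k := k) d hd)
      rw [map_mul, map_mul, map_ofNat] at hKCT
      simp only [← oev_eq] at hKCT
      have hoX : oev η m i (X : PowerSeries k) = ox η m i := by
        unfold oev ox
        rw [dif_pos hnz, PowerSeries.rescale_X, map_mul, PowerSeries.expand_C, PowerSeries.expand_X]
      rw [hoX] at hKCT
      have key2 := key.mul_left (oev η m i (CT k d))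
      have e2 : oev η m i (CT k d) * (oev η m i (KS k d) * (s i - evt T (ox η m i) (G i))) =
          PowerSeries.C (2 : k) * (ox η m i * (s i - evt T (ox η m i) (G i))) := by
        rw [map_ofNat]
        linear_combination (s i - evt T (ox η m i) (G i)) * hKCT
      rw [e2] at key2
      have key3 := dvd_of_C_mul h2ne key2
      have e3 : T * M i = M i + (N + 1) * M i := by rw [hT]; ring
      rw [e3] at key3
      have key4 := hcan i ((N + 1) * M i) _ key3
      have h5 := evt_congr_order T (N + 1) (ox η m i) (M i) (hxM i) (G i) (by omega)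
      have := key4.add h5
      have e : s i - evt T (ox η m i) (G i) + (evt T (ox η m i) (G i) -
        evt (N + 1) (ox η m i) (G i)) = s i - evt (N + 1) (ox η m i) (G i) := by ring
      rw [e] at this
      exact this

end Run7.h751
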