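import Pool.Agent.Run7.h751.Ev4

open PowerSeries Finset

namespace Run7.h751

variable {k : Type*} [Field k]

/-- the character sums -/
noncomputable def AA (ω : k) (i : ℕ) (p q r : PowerSeries k) : PowerSeries k :=
  p + PowerSeries.C (ω ^ (2 ^ i)) * q + PowerSeries.C ((ω ^ 2) ^ (2 ^ i)) * r

lemma two_pow_mod_three (i i' : ℕ) (h : i % 2 = i' % 2) : 2 ^ i ≡ 2 ^ i' [MOD 3] := by
  have key : ∀ n, 2 ^ n % 3 = if n % 2 = 0 then 1 else 2 := by
    intro n
    induction n with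
    | zero => rfl
    | succ n ih =>
      rw [pow_succ]
      split_ifs at ih ⊢ <;> omega
  show 2 ^ i % 3 = 2 ^ i' % 3
  rw [key, key, h]

lemma AA_parity {ω : k} (hω3 : ω ^ 3 = 1) (i i' : ℕ) (h : i % 2 = i' % 2) (p q r : PowerSeries k) :
    AA ω i p q r = AA ω i' p q r := by
  have h1 : ω ^ (2 ^ i) = ω ^ (2 ^ i') := pow_cube_congr hω3 (two_pow_mod_three i i' h)
  have h2 : (ω ^ 2) ^ (2 ^ i) = (ω ^ 2) ^ (2 ^ i') :=
    pow_cube_congr (by rw [← pow_mul, mul_comm, pow_mul, hω3, one_pow]) (two_pow_mod_three i i' h)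
  unfold AA
  rw [h1, h2]

lemma AA_equal {ω : k} (hω : 1 + ω + ω ^ 2 = 0) (h2 : (2 : k) ≠ 0) (h3 : (3 : k) ≠ 0) (i : ℕ)
    (p q r : PowerSeries k) (h1 : AA ω i p q r = 0) (h1' : AA ω (i + 1) p q r = 0) :
    p = q ∧ q = r := by
  have h := u_equal hω h2 h3 (fun (a : Fin 3) (_ : ℕ) => if a = 0 then p else if a = 1 then q else r) i
    (by
      rw [Fin.sum_univ_three]
      simp only [Fin.val_zero, Fin.val_one, Fin.val_two, pow_zero, one_pow, map_one, one_mul, pow_one]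
      simpa [AA] using h1)
    (by
      rw [Fin.sum_univ_three]
      simp only [Fin.val_zero, Fin.val_one, Fin.val_two, pow_zero, one_pow, map_one, one_mul, pow_one]
      simpa [AA] using h1')
  simpa using h

/-- the linearised system of the even class -/
structure EvSys (ω : k) (d : ℕ) (s : Fin 6 → ℕ → PowerSeries k) : Prop where
  orb : ∀ o, EvOrb d (oη ω o) (om d o) (s o)
  rel : ∀ i, s 0 i + s 1 i + s 2 i + s 5 i = s 3 i + 3 * s 4 i

lemma EvSys.smul {ω : k} {d : ℕ} {s : Fin 6 → ℕ → PowerSeries k} (h : EvSys ω d s)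
    (c : PowerSeries k) : EvSys ω d (fun o i => c * s o i) where
  orb o := (h.orb o).smul c
  rel i := by
    have := h.rel i
    linear_combination c * this

lemma oη_zero (ω : k) : oη ω 0 = 1 := by simp [oη]
lemma oη_one (ω : k) : oη ω 1 = ω := by simp [oη]
lemma oη_two (ω : k) : oη ω 2 = ω ^ 2 := by simp [oη]
lemma om_zero (d : ℕ) : om d 0 = 1 := by simp [om]
lemma om_one (d : ℕ) : om d 1 = 1 := by simp [om]
lemma om_two (d : ℕ) : om d 2 = 1 := by simp [om]
lemma om_three (d : ℕ) : om d 3 = 3 := by simp [om]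
lemma om_four (d : ℕ) : om d 4 = 3 ^ d := by simp [om]
lemma om_five (d : ℕ) : om d 5 = 3 ^ (d + 1) := by simp [om]

lemma X_pow_cancel {N M : ℕ} {z : PowerSeries k} (h : (X : PowerSeries k) ^ (M + N) ∣ X ^ M * z) :
    (X : PowerSeries k) ^ N ∣ z := by
  rw [pow_add] at h
  exact (mul_dvd_mul_iff_left (pow_ne_zero _ PowerSeries.X_ne_zero)).mp h

theorem ev_stage1 {ω : k} (hω : 1 + ω + ω ^ 2 = 0) (h2 : (2 : k) ≠ 0) (h3 : (3 : k) ≠ 0)
    (d : ℕ) (hd : 2 ≤ d) (g : ℕ) (hg : 1 ≤ g) (hg2 : 2 ∣ g)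
    (hper : ∀ t : ℕ → k, (∀ j, t j + 2 * t (j + (d - 1)) - t (j + d) = 0) → ∀ j, t (j + g) = t j)
    (s : Fin 6 → ℕ → PowerSeries k) (hS : EvSys ω d s) :
    (∀ j, (X : PowerSeries k) ^ (2 ^ j) ∣ s 0 (j + 1)) ∧
    (∀ j, (X : PowerSeries k) ^ (2 ^ j) ∣ s 1 (j + 1)) ∧
    (∀ j, (X : PowerSeries k) ^ (2 ^ j) ∣ s 2 (j + 1)) := by
  have hω3 : ω ^ 3 = 1 := by linear_combination (ω - 1) * hω
  choose u hrec huper app1 app2 using fun o => ev_limit d hd g hg hper (oη ω o) (om d o) (om_pos d o)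
    (s o) (hS.orb o)
  have b0 := app1 0
  have b1 := app1 1
  have b2 := app1 2
  have b3 := app1 3
  have b4 := app1 4
  have b5 := app1 5
  have c0 := app2 0
  have c1 := app2 1
  have c2 := app2 2
  rw [om_zero] at b0 c0
  rw [om_one] at b1 c1
  rw [om_two] at b2 c2
  rw [om_three] at b3
  rw [om_four] at b4
  rw [om_five] at b5
  rw [oη_zero] at c0
  rw [oη_one] at c1
  rw [oη_two] at c2
  have h3d : 3 ≤ 3 ^ d := by
    calc 3 = 3 ^ 1 := by norm_num
      _ ≤ 3 ^ d := Nat.pow_le_pow_right (by norm_num) (by omega)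
  have h3D : 3 ≤ 3 ^ (d + 1) := by
    calc 3 = 3 ^ 1 := by norm_num
      _ ≤ 3 ^ (d + 1) := Nat.pow_le_pow_right (by norm_num) (by omega)
  -- (U0)
  have hU0 : ∀ j, u 0 j + u 1 j + u 2 j + u 5 j - u 3 j - 3 * u 4 j = 0 := by
    apply eq_zero_of_per g hg _ _ (fun i => 2 ^ i) (fun i => Nat.lt_two_pow_self.le) 0
    · intro j _
      have hle : ∀ m, 1 ≤ m → 2 ^ j ≤ m * 2 ^ j := fun m hm => Nat.le_mul_of_pos_left _ hm
      have a0 := dvd_trans (pow_dvd_pow (X : PowerSeries k) (hle 1 (le_refl _))) (b0 j)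
      have a1 := dvd_trans (pow_dvd_pow (X : PowerSeries k) (hle 1 (le_refl _))) (b1 j)
      have a2 := dvd_trans (pow_dvd_pow (X : PowerSeries k) (hle 1 (le_refl _))) (b2 j)
      have a3 := dvd_trans (pow_dvd_pow (X : PowerSeries k) (hle 3 (by norm_num))) (b3 j)
      have a4 := dvd_trans (pow_dvd_pow (X : PowerSeries k) (hle (3 ^ d) (by omega))) (b4 j)
      have a5 := dvd_trans (pow_dvd_pow (X : PowerSeries k) (hle (3 ^ (d + 1)) (by omega))) (b5 j)
      have h := (((a3.add (a4.mul_left 3)).sub a0).sub a1).sub (a2.add a5)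
      have e : s 3 (j + 1) - u 3 j + 3 * (s 4 (j + 1) - u 4 j) - (s 0 (j + 1) - u 0 j) -
          (s 1 (j + 1) - u 1 j) - (s 2 (j + 1) - u 2 j + (s 5 (j + 1) - u 5 j)) =
          u 0 j + u 1 j + u 2 j + u 5 j - u 3 j - 3 * u 4 j := by
        have := hS.rel (j + 1)
        linear_combination -this
      rw [e] at h
      exact h
    · intro i
      simp only [huper]
  -- (U1)
  have hU1 : ∀ j, AA ω (j + 1) (u 0 j) (u 1 j) (u 2 j) = 0 := by
    apply eq_zero_of_per g hg _ _ (fun i => 2 ^ i) (fun i => Nat.lt_two_pow_self.le) 0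
    · intro j _
      have hle : ∀ m, 3 ≤ m → 3 * 2 ^ j ≤ m * 2 ^ (j + 1) := by
        intro m hm
        calc 3 * 2 ^ j ≤ m * 2 ^ j := Nat.mul_le_mul_right _ hm
          _ ≤ m * 2 ^ (j + 1) := Nat.mul_le_mul_left _ (Nat.pow_le_pow_right (by norm_num) (by omega))
      have a3 := dvd_trans (pow_dvd_pow (X : PowerSeries k) (hle 3 (le_refl _))) (b3 (j + 1))
      have a4 := dvd_trans (pow_dvd_pow (X : PowerSeries k) (hle (3 ^ d) h3d)) (b4 (j + 1))
      have a5 := dvd_trans (pow_dvd_pow (X : PowerSeries k) (hle (3 ^ (d + 1)) h3D)) (b5 (j + 1))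
      have a0 := c0 j
      have a1 := c1 j
      have a2 := c2 j
      rw [one_mul] at a0 a1 a2
      have h := (((a0.add a1).add a2).add a5).sub (a3.add (a4.mul_left 3))
      have e : s 0 (j + 2) - (u 0 (j + 1) - 2 * ox 1 1 (j + 1) * u 0 j) +
          (s 1 (j + 2) - (u 1 (j + 1) - 2 * ox ω 1 (j + 1) * u 1 j)) +
          (s 2 (j + 2) - (u 2 (j + 1) - 2 * ox (ω ^ 2) 1 (j + 1) * u 2 j)) +
          (s 5 (j + 1 + 1) - u 5 (j + 1)) -
          (s 3 (j + 1 + 1) - u 3 (j + 1) + 3 * (s 4 (j + 1 + 1) - u 4 (j + 1))) =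
          PowerSeries.C (2 : k) * (X ^ (2 ^ (j + 1)) * AA ω (j + 1) (u 0 j) (u 1 j) (u 2 j)) := by
        have r := hS.rel (j + 2)
        have r2 := hU0 (j + 1)
        unfold ox AA
        rw [one_pow, map_one, map_ofNat, one_mul]
        rw [show j + 1 + 1 = j + 2 by ring]
        linear_combination r - r2
      rw [e] at h
      have h4 := dvd_of_C_mul h2 h
      rw [show 3 * 2 ^ j = 2 ^ (j + 1) + 2 ^ j by rw [pow_succ]; ring] at h4
      exact X_pow_cancel h4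
    · intro i
      simp only [huper]
      apply AA_parity hω3
      obtain ⟨g', rfl⟩ := hg2
      omega
  -- (B)
  have hB : ∀ i, (X : PowerSeries k) ^ (2 ^ i) ∣ AA ω i (s 0 i) (s 1 i) (s 2 i) := by
    intro i
    have o0 := hS.orb 0 i
    have o1 := hS.orb 1 i
    have o2 := hS.orb 2 i
    have o3 := hS.orb 3 i
    have o4 := hS.orb 4 i
    have o5 := hS.orb 5 i
    rw [oη_zero, om_zero] at o0
    rw [oη_one, om_one] at o1
    rw [oη_two, om_two] at o2
    have k3 := X_pow_dvd_oev_KS (k := k) d hd (oη ω 3) (om d 3) i (om_pos d 3)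
    have k4 := X_pow_dvd_oev_KS (k := k) d hd (oη ω 4) (om d 4) i (om_pos d 4)
    have k5 := X_pow_dvd_oev_KS (k := k) d hd (oη ω 5) (om d 5) i (om_pos d 5)
    have hle : ∀ m, 3 ≤ m → 2 * 2 ^ i ≤ m * 2 ^ i := fun m hm => Nat.mul_le_mul_right _ (by omega)
    have k3' := dvd_trans (pow_dvd_pow (X : PowerSeries k) (hle (om d 3) (by rw [om_three]))) k3
    have k4' := dvd_trans (pow_dvd_pow (X : PowerSeries k) (hle (om d 4) (by rw [om_four]; exact h3d))) k4
    have k5' := dvd_trans (pow_dvd_pow (X : PowerSeries k) (hle (om d 5) (by rw [om_five]; exact h3D))) k5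
    have l0 := oev_KS (k := k) d hd 1 1 i (le_refl 1)
    have l1 := oev_KS (k := k) d hd ω 1 i (le_refl 1)
    have l2 := oev_KS (k := k) d hd (ω ^ 2) 1 i (le_refl 1)
    rw [one_mul] at l0 l1 l2
    have h := ((((k3'.mul_right (s 3 i)).add ((k4'.mul_right (s 4 i)).mul_left 3)).sub
      (k5'.mul_right (s 5 i))).sub (l0.mul_right (s 0 i))).sub
      ((l1.mul_right (s 1 i)).add (l2.mul_right (s 2 i)))
    have e : oev (oη ω 3) (om d 3) i (KS k d) * s 3 i + 3 * (oev (oη ω 4) (om d 4) i (KS k d) * s 4 i) -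
        oev (oη ω 5) (om d 5) i (KS k d) * s 5 i -
        (oev 1 1 i (KS k d) - 2 * ox 1 1 i) * s 0 i -
        ((oev ω 1 i (KS k d) - 2 * ox ω 1 i) * s 1 i +
          (oev (ω ^ 2) 1 i (KS k d) - 2 * ox (ω ^ 2) 1 i) * s 2 i) =
        PowerSeries.C (2 : k) * (X ^ (2 ^ i) * AA ω i (s 0 i) (s 1 i) (s 2 i)) := by
      have r1 := hS.rel (i + 1)
      have r2 := hS.rel (i + d)
      have r3 := hS.rel (i + d + 1)
      unfold ox AA
      rw [one_pow, map_one, map_ofNat, one_mul]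
      linear_combination r1 + 2 * r2 - r3 - o0 - o1 - o2 - o5 + o3 + 3 * o4
    rw [e] at h
    have h4 := dvd_of_C_mul h2 h
    rw [show 2 * 2 ^ i = 2 ^ i + 2 ^ i by ring] at h4
    exact X_pow_cancel h4
  -- (U2)
  have hU2 : ∀ j, u 0 j + u 1 j + u 2 j = 0 := by
    apply eq_zero_of_per g hg _ _ (fun i => 2 ^ i) (fun i => Nat.lt_two_pow_self.le) 0
    · intro j _
      have hB2 := hB (j + 2)
      have hle : 3 * 2 ^ j ≤ 2 ^ (j + 2) := by
        rw [pow_add]; omega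
      have hB3 := dvd_trans (pow_dvd_pow (X : PowerSeries k) hle) hB2
      have a0 := c0 j
      have a1 := c1 j
      have a2 := c2 j
      rw [one_mul] at a0 a1 a2
      have h := (((hB3.sub a0).sub (a1.mul_left (PowerSeries.C (ω ^ 2 ^ (j + 2))))).sub
        (a2.mul_left (PowerSeries.C ((ω ^ 2) ^ 2 ^ (j + 2)))))
      have hω1 : ω ^ 2 ^ (j + 2) * ω ^ 2 ^ (j + 1) = 1 := by
        rw [← pow_add, show 2 ^ (j + 2) + 2 ^ (j + 1) = 3 * 2 ^ (j + 1) by rw [pow_succ 2 (j + 1)]; ring,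
          pow_mul, hω3, one_pow]
      have hω2 : (ω ^ 2) ^ 2 ^ (j + 2) * (ω ^ 2) ^ 2 ^ (j + 1) = 1 := by
        rw [← pow_mul, ← pow_mul, ← pow_add, show 2 * 2 ^ (j + 2) + 2 * 2 ^ (j + 1) = 3 * (2 * 2 ^ (j + 1)) by
          rw [pow_succ 2 (j + 1)]; ring, pow_mul, hω3, one_pow]
      have C1 := congrArg (PowerSeries.C (R := k)) hω1
      have C2 := congrArg (PowerSeries.C (R := k)) hω2
      rw [map_mul, map_one] at C1 C2
      have e : AA ω (j + 2) (s 0 (j + 2)) (s 1 (j + 2)) (s 2 (j + 2)) -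
          (s 0 (j + 2) - (u 0 (j + 1) - 2 * ox 1 1 (j + 1) * u 0 j)) -
          PowerSeries.C (ω ^ 2 ^ (j + 2)) *
            (s 1 (j + 2) - (u 1 (j + 1) - 2 * ox ω 1 (j + 1) * u 1 j)) -
          PowerSeries.C ((ω ^ 2) ^ 2 ^ (j + 2)) *
            (s 2 (j + 2) - (u 2 (j + 1) - 2 * ox (ω ^ 2) 1 (j + 1) * u 2 j)) =
          PowerSeries.C (-2 : k) * (X ^ (2 ^ (j + 1)) * (u 0 j + u 1 j + u 2 j)) := by
        have r := hU1 (j + 1)
        unfold AA at r
        rw [show j + 1 + 1 = j + 2 by ring] at r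
        unfold ox AA
        rw [one_pow, map_one, map_neg, map_ofNat, one_mul]
        linear_combination r - (2 * X ^ (2 ^ (j + 1)) * u 1 j) * C1 -
          (2 * X ^ (2 ^ (j + 1)) * u 2 j) * C2
      rw [e] at h
      have h4 := dvd_of_C_mul (neg_ne_zero.mpr h2) h
      rw [show 3 * 2 ^ j = 2 ^ (j + 1) + 2 ^ j by rw [pow_succ]; ring] at h4
      exact X_pow_cancel h4
    · intro i
      simp only [huper]
  -- (U1')
  have hU1' : ∀ J, d ≤ J → AA ω (J + 2) (u 0 J) (u 1 J) (u 2 J) = 0 := by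
    have hlin : ∀ i j, AA ω i (u 0 j) (u 1 j) (u 2 j) +
        2 * AA ω i (u 0 (j + (d - 1))) (u 1 (j + (d - 1))) (u 2 (j + (d - 1))) -
        AA ω i (u 0 (j + d)) (u 1 (j + d)) (u 2 (j + d)) = 0 := by
      intro i j
      have r0 := hrec 0 j
      have r1 := hrec 1 j
      have r2 := hrec 2 j
      unfold AA
      linear_combination r0 + PowerSeries.C (ω ^ 2 ^ i) * r1 + PowerSeries.C ((ω ^ 2) ^ 2 ^ i) * r2
    have h2P : (2 : PowerSeries k) ≠ 0 := by
      have := natCast_ne_zero_PS (k := k) 2 (by exact_mod_cast h2)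
      exact_mod_cast this
    intro J hJ
    rcases Nat.even_or_odd d with hev | hodd
    · obtain ⟨d', hd'⟩ := hev
      obtain ⟨j, rfl⟩ : ∃ j, J = j + (d - 1) := ⟨J - (d - 1), by omega⟩
      have h := hlin (j + 1) j
      rw [hU1 j, AA_parity hω3 (j + 1) (j + d + 1) (by omega) (u 0 (j + d)) (u 1 (j + d)) (u 2 (j + d)),
        hU1 (j + d), zero_add, sub_zero] at h
      have h5 := (mul_eq_zero.mp h).resolve_left h2P
      rw [AA_parity hω3 (j + (d - 1) + 2) (j + 1) (by omega)]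
      exact h5
    · obtain ⟨d', hd'⟩ := hodd
      obtain ⟨j, rfl⟩ : ∃ j, J = j + d := ⟨J - d, by omega⟩
      have h := hlin (j + 1) j
      rw [hU1 j, AA_parity hω3 (j + 1) (j + (d - 1) + 1) (by omega) (u 0 (j + (d - 1)))
        (u 1 (j + (d - 1))) (u 2 (j + (d - 1))), hU1 (j + (d - 1)), mul_zero, zero_add, zero_sub,
        neg_eq_zero] at h
      rw [AA_parity hω3 (j + d + 2) (j + 1) (by omega)]
      exact h
  have hz : ∀ J, d ≤ J → u 0 J = 0 ∧ u 1 J = 0 ∧ u 2 J = 0 := by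
    intro J hJ
    obtain ⟨e1, e2⟩ := AA_equal hω h2 h3 (J + 1) _ _ _ (hU1 J) (hU1' J hJ)
    have h5 := hU2 J
    rw [← e2, ← e1] at h5
    have h3P : (3 : PowerSeries k) ≠ 0 := by
      have := natCast_ne_zero_PS (k := k) 3 (by exact_mod_cast h3)
      exact_mod_cast this
    have h6 : (3 : PowerSeries k) * u 0 J = 0 := by linear_combination h5
    have h7 := (mul_eq_zero.mp h6).resolve_left h3P
    exact ⟨h7, e1 ▸ h7, e2 ▸ e1 ▸ h7⟩
  have z0 : ∀ j, u 0 j = 0 := per_zero g hg (u 0) (huper 0) d (fun J hJ => (hz J hJ).1)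
  have z1 : ∀ j, u 1 j = 0 := per_zero g hg (u 1) (huper 1) d (fun J hJ => (hz J hJ).2.1)
  have z2 : ∀ j, u 2 j = 0 := per_zero g hg (u 2) (huper 2) d (fun J hJ => (hz J hJ).2.2)
  refine ⟨fun j => ?_, fun j => ?_, fun j => ?_⟩
  · have := b0 j
    rwa [z0, sub_zero, one_mul] at this
  · have := b1 j
    rwa [z1, sub_zero, one_mul] at this
  · have := b2 j
    rwa [z2, sub_zero, one_mul] at this

end Run7.h751
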