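import Pool.Agent.Run7.h751.Ev5

open PowerSeries Finset

namespace Run7.h751

variable {k : Type*} [Field k]

/-- the killing lemma, bounded version. -/
lemma kill_le (c g N0 : ℕ) (hc : 1 ≤ c) (hg : 1 ≤ g) (H : ℕ → PowerSeries (PowerSeries k))
    (hper : ∀ e i, e < N0 → PowerSeries.coeff e (H (i + g)) = PowerSeries.coeff e (H i))
    (hdiv : ∀ n i, n ≤ N0 → (X : PowerSeries k) ^ (n * (c * 2 ^ i)) ∣
      evt n ((X : PowerSeries k) ^ (c * 2 ^ i)) (H i)) :
    ∀ e, e < N0 → ∀ i, PowerSeries.coeff e (H i) = 0 := by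
  intro e
  induction e using Nat.strong_induction_on with
  | _ e ih =>
    intro heN i
    refine eq_zero_of_per g hg (fun i => PowerSeries.coeff e (H i)) (fun i => hper e i heN)
      (fun i => c * 2 ^ i) (fun i => ?_) 0 ?_ i
    · exact le_trans (Nat.lt_two_pow_self.le) (Nat.le_mul_of_pos_left _ hc)
    intro i _
    have h1 := hdiv (e + 1) i heN
    unfold evt at h1
    rw [Finset.sum_range_succ, Finset.sum_eq_zero, zero_add] at h1
    · have e1 : (X : PowerSeries k) ^ ((e + 1) * (c * 2 ^ i)) =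
          (X ^ (c * 2 ^ i)) ^ e * X ^ (c * 2 ^ i) := by
        rw [← pow_mul, ← pow_add]; congr 1; ring
      rw [e1] at h1
      exact (mul_dvd_mul_iff_left (pow_ne_zero _ (pow_ne_zero _ PowerSeries.X_ne_zero))).mp h1
    · intro a ha
      have ha' := Finset.mem_range.mp ha
      rw [ih a ha' (by omega) i, mul_zero]

/-- the formal series of an orbit. -/
noncomputable def FO (c : k) (m : ℕ) (hm : m ≠ 0) (G : PowerSeries (PowerSeries k)) :
    PowerSeries (PowerSeries k) :=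
  PowerSeries.expand m hm (PowerSeries.rescale (PowerSeries.C c) G)

lemma evt_FO (n M : ℕ) (c : k) (m : ℕ) (hm : m ≠ 0) (G : PowerSeries (PowerSeries k)) :
    (X : PowerSeries k) ^ (n * M) ∣ evt n ((X : PowerSeries k) ^ M) (FO c m hm G) -
      evt n (PowerSeries.C c * X ^ (m * M)) G := by
  have h := evt_expand n ((X : PowerSeries k) ^ M) m hm (PowerSeries.rescale (PowerSeries.C c) G)
  rw [← pow_mul, ← pow_mul, mul_comm M n, mul_comm M m, evt_rescale] at h
  exact h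

lemma coeff_FO (e : ℕ) (c : k) (m : ℕ) (hm : m ≠ 0) (w : PowerSeries k) (S : PowerSeries k) :
    PowerSeries.coeff e (FO c m hm (PowerSeries.C w * PowerSeries.map (PowerSeries.C) S)) =
      if m ∣ e then PowerSeries.C (c ^ (e / m) * PowerSeries.coeff (e / m) S) * w else 0 := by
  unfold FO
  rw [PowerSeries.coeff_expand]
  split_ifs
  · rw [PowerSeries.coeff_rescale, PowerSeries.coeff_C_mul, PowerSeries.coeff_map, map_mul, map_pow]
    ring
  · rfl

lemma per_neg_two (ℓ : ℕ) [hℓ : Fact ℓ.Prime] [CharP k ℓ] (hℓ2 : ℓ ≠ 2)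
    (w : ℕ → PowerSeries k) (hw : ∀ i, w (i + 1) = -2 * w i) (N : ℕ) :
    ∀ i, w (i + (ℓ - 1) * N) = w i := by
  have h2ne : (2 : k) ≠ 0 := by
    intro h2
    have h3 : ((2 : ℕ) : k) = 0 := by exact_mod_cast h2
    rw [CharP.cast_eq_zero_iff k ℓ] at h3
    exact hℓ2 ((Nat.prime_dvd_prime_iff_eq hℓ.out Nat.prime_two).mp h3)
  have hneg : (-2 : k) ≠ 0 := neg_ne_zero.mpr h2ne
  have hfer : (-2 : k) ^ (ℓ - 1) = 1 := by
    have h3 : (-2 : k) ^ ℓ = -2 := by
      have := map_neg (frobenius k ℓ) 2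
      rw [map_ofNat, frobenius_def] at this
      exact this
    have h4 : ℓ = (ℓ - 1) + 1 := by have := hℓ.out.one_lt; omega
    rw [h4, pow_succ] at h3
    exact mul_right_cancel₀ hneg (by rw [one_mul]; exact h3)
  have hferP : (-2 : PowerSeries k) ^ (ℓ - 1) = 1 := by
    have := congrArg (PowerSeries.C (R := k)) hfer
    rw [map_pow, map_neg, map_ofNat, map_one] at this
    exact this
  have hj : ∀ j i, w (i + j) = (-2) ^ j * w i := by
    intro j
    induction j with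
    | zero => intro i; simp
    | succ j ih => intro i; rw [← add_assoc, hw, ih, pow_succ]; ring
  intro i
  rw [hj, pow_mul, hferP, one_pow, one_mul]

/-- standing hypotheses of the even class analysis -/
structure EvHyp (ℓ : ℕ) (ω : k) (d g : ℕ) (S : PowerSeries k) : Prop where
  prime : ℓ.Prime
  char : CharP k ℓ
  five : 5 ≤ ℓ
  hom : 1 + ω + ω ^ 2 = 0
  hd : 2 ≤ d
  hg : 1 ≤ g
  hg2 : 2 ∣ g
  hper : ∀ t : ℕ → k, (∀ j, t j + 2 * t (j + (d - 1)) - t (j + d) = 0) → ∀ j, t (j + g) = t j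
  hS0 : PowerSeries.coeff 0 S = 0
  hS1 : PowerSeries.coeff 1 S = 1
  hS : X * S = CT k d * (PowerSeries.expand 2 two_ne_zero S
      - PowerSeries.C ((-2) ^ d) * PowerSeries.expand (2 ^ d) (by positivity) S
      - PowerSeries.C ((-2) ^ d) * PowerSeries.expand (2 ^ (d + 1)) (by positivity) S)

lemma EvHyp.two_ne {ℓ : ℕ} {ω : k} {d g : ℕ} {S : PowerSeries k} (h : EvHyp ℓ ω d g S) :
    (2 : k) ≠ 0 := by
  haveI := h.char
  intro h2
  have h3 : ((2 : ℕ) : k) = 0 := by exact_mod_cast h2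
  rw [CharP.cast_eq_zero_iff k ℓ] at h3
  have := (Nat.prime_dvd_prime_iff_eq h.prime Nat.prime_two).mp h3
  have := h.five
  omega

lemma EvHyp.three_ne {ℓ : ℕ} {ω : k} {d g : ℕ} {S : PowerSeries k} (h : EvHyp ℓ ω d g S) :
    (3 : k) ≠ 0 := by
  haveI := h.char
  intro h2
  have h3 : ((3 : ℕ) : k) = 0 := by exact_mod_cast h2
  rw [CharP.cast_eq_zero_iff k ℓ] at h3
  have := (Nat.prime_dvd_prime_iff_eq h.prime Nat.prime_three).mp h3
  have := h.five
  omega

lemma EvHyp.cube {ℓ : ℕ} {ω : k} {d g : ℕ} {S : PowerSeries k} (h : EvHyp ℓ ω d g S) :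
    ω ^ 3 = 1 := by
  have := h.hom
  linear_combination (ω - 1) * this

lemma EvHyp.eta_ne {ℓ : ℕ} {ω : k} {d g : ℕ} {S : PowerSeries k} (h : EvHyp ℓ ω d g S) (o : Fin 6) :
    oη ω o ≠ 0 := by
  have hω0 : ω ≠ 0 := by
    intro h0
    have := h.cube
    rw [h0] at this
    norm_num at this
  unfold oη
  split_ifs
  · exact hω0
  · exact pow_ne_zero _ hω0
  · exact one_ne_zero

/-- if the limit of the orbit `o` vanishes for all solutions then after multiplication by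
`X^N` the orbit has an expansion. -/
lemma EvHyp.expand_orbit {ℓ : ℕ} {ω : k} {d g : ℕ} {S : PowerSeries k} (h : EvHyp ℓ ω d g S)
    (s : Fin 6 → ℕ → PowerSeries k) (hs : EvSys ω d s) (o : Fin 6)
    (hz : ∀ j, (X : PowerSeries k) ^ (om d o * 2 ^ j) ∣ s o (j + 1)) (N : ℕ) (hN : om d o ≤ N) :
    ∃ w : ℕ → PowerSeries k, (∀ i, w (i + 1) = -2 * w i) ∧
      ∀ n i, (X : PowerSeries k) ^ (n * (om d o * 2 ^ i)) ∣ X ^ N * s o i -
        evt n (ox (oη ω o) (om d o) i) (PowerSeries.C (w i) * PowerSeries.map (PowerSeries.C) S) := by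
  haveI := h.char
  haveI : Fact ℓ.Prime := ⟨h.prime⟩
  have hdiv := ev_div d h.hd (oη ω o) (om d o) (om_pos d o) (s o) (hs.orb o) hz
  have hℓ2 : ℓ ≠ 2 := by have := h.five; omega
  exact ev_expansion ℓ hℓ2 d h.hd S h.hS0 h.hS1 h.hS (oη ω o) (h.eta_ne o) (om d o) (om_pos d o)
    (fun i => X ^ N * s o i) ((hs.smul (X ^ N)).orb o) (by
      intro i
      have h1 := mul_dvd_mul (dvd_refl ((X : PowerSeries k) ^ N)) (hdiv i)
      refine dvd_trans ?_ h1
      rw [← pow_add]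
      apply pow_dvd_pow
      have hpos : 1 ≤ 2 ^ i := Nat.one_le_two_pow
      obtain ⟨t, ht⟩ : ∃ t, 2 ^ i = t + 1 := ⟨2 ^ i - 1, by omega⟩
      rw [ht, Nat.add_sub_cancel, mul_add, mul_one]
      omega)

lemma EvHyp.stage1 {ℓ : ℕ} {ω : k} {d g : ℕ} {S : PowerSeries k} (h : EvHyp ℓ ω d g S)
    (s : Fin 6 → ℕ → PowerSeries k) (hs : EvSys ω d s) (o : Fin 6) (ho : o = 0 ∨ o = 1 ∨ o = 2) :
    ∀ j, (X : PowerSeries k) ^ (om d o * 2 ^ j) ∣ s o (j + 1) := by
  obtain ⟨h0, h1, h2⟩ := ev_stage1 h.hom h.two_ne h.three_ne d h.hd g h.hg h.hg2 h.hper s hs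
  rcases ho with rfl | rfl | rfl
  · rw [om_zero]; simpa using h0
  · rw [om_one]; simpa using h1
  · rw [om_two]; simpa using h2

end Run7.h751
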