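import Pool.Agent.Run7.h751.Ev6

open PowerSeries Finset

namespace Run7.h751

variable {k : Type*} [Field k]

lemma evt_two_SW (S : PowerSeries k) (hS0 : PowerSeries.coeff 0 S = 0)
    (hS1 : PowerSeries.coeff 1 S = 1) (x w : PowerSeries k) :
    evt 2 x (PowerSeries.C w * PowerSeries.map (PowerSeries.C) S) = x * w := by
  unfold evt
  rw [Finset.sum_range_succ, Finset.sum_range_one, PowerSeries.coeff_C_mul,
    PowerSeries.coeff_C_mul, PowerSeries.coeff_map, PowerSeries.coeff_map, hS0, hS1,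
    map_zero, map_one]
  ring

theorem EvHyp.stage3 {ℓ : ℕ} {ω : k} {d g : ℕ} {S : PowerSeries k} (h : EvHyp ℓ ω d g S)
    (s : Fin 6 → ℕ → PowerSeries k) (hs : EvSys ω d s) :
    ∀ j, (X : PowerSeries k) ^ (om d 3 * 2 ^ j) ∣ s 3 (j + 1) := by
  haveI := h.char
  haveI : Fact ℓ.Prime := ⟨h.prime⟩
  have hℓ2 : ℓ ≠ 2 := by have := h.five; omega
  have h2 := h.two_ne
  have hω3 := h.cube
  obtain ⟨w0, hw0, he0⟩ := h.expand_orbit s hs 0 (h.stage1 s hs 0 (by simp)) 1 (by rw [om_zero])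
  obtain ⟨w1, hw1, he1⟩ := h.expand_orbit s hs 1 (h.stage1 s hs 1 (by simp)) 1 (by rw [om_one])
  obtain ⟨w2, hw2, he2⟩ := h.expand_orbit s hs 2 (h.stage1 s hs 2 (by simp)) 1 (by rw [om_two])
  obtain ⟨u3, hr3, hp3, a3, b3⟩ := ev_limit d h.hd g h.hg h.hper (oη ω 3) (om d 3) (om_pos d 3)
    (s 3) (hs.orb 3)
  obtain ⟨u4, hr4, hp4, a4, b4⟩ := ev_limit d h.hd g h.hg h.hper (oη ω 4) (om d 4) (om_pos d 4)
    (s 4) (hs.orb 4)
  obtain ⟨u5, hr5, hp5, a5, b5⟩ := ev_limit d h.hd g h.hg h.hper (oη ω 5) (om d 5) (om_pos d 5)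
    (s 5) (hs.orb 5)
  have hη3 : oη ω 3 = 1 := by simp [oη]
  have h3d : 9 ≤ 3 ^ d := by
    calc 9 = 3 ^ 2 := by norm_num
      _ ≤ 3 ^ d := Nat.pow_le_pow_right (by norm_num) h.hd
  have h3D : 9 ≤ 3 ^ (d + 1) := by rw [pow_succ]; omega
  -- main divisibility
  have hmain : ∀ j, (X : PowerSeries k) ^ (8 * 2 ^ j) ∣
      X ^ (4 * 2 ^ j) * AA ω (j + 2) (w0 (j + 2)) (w1 (j + 2)) (w2 (j + 2)) +
      X * (u5 (j + 1) - u3 (j + 1) - 3 * u4 (j + 1)) +
      X ^ (6 * 2 ^ j) * (PowerSeries.C 2 * (X * u3 j)) := by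
    intro j
    have e0 := he0 2 (j + 2)
    have e1 := he1 2 (j + 2)
    have e2 := he2 2 (j + 2)
    rw [evt_two_SW S h.hS0 h.hS1, oη_zero, om_zero] at e0
    rw [evt_two_SW S h.hS0 h.hS1, oη_one, om_one] at e1
    rw [evt_two_SW S h.hS0 h.hS1, oη_two, om_two] at e2
    have hj : 2 * (1 * 2 ^ (j + 2)) = 8 * 2 ^ j := by rw [pow_add]; ring
    rw [hj] at e0 e1 e2
    have c3 := b3 j
    rw [hη3, om_three] at c3
    have c3' := dvd_trans (pow_dvd_pow (X : PowerSeries k) (by omega : 8 * 2 ^ j ≤ 3 * (3 * 2 ^ j))) c3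
    have c4 := a4 (j + 1)
    have c5 := a5 (j + 1)
    rw [om_four] at c4
    rw [om_five] at c5
    have hle : ∀ m, 9 ≤ m → 8 * 2 ^ j ≤ m * 2 ^ (j + 1) := by
      intro m hm
      calc 8 * 2 ^ j ≤ m * 2 ^ j := Nat.mul_le_mul_right _ (by omega)
        _ ≤ m * 2 ^ (j + 1) := Nat.mul_le_mul_left _ (Nat.pow_le_pow_right (by norm_num) (by omega))
    have c4' := dvd_trans (pow_dvd_pow (X : PowerSeries k) (hle _ h3d)) c4
    have c5' := dvd_trans (pow_dvd_pow (X : PowerSeries k) (hle _ h3D)) c5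
    have hh := ((((c3'.mul_left X).add ((c4'.mul_left X).mul_left 3)).sub (c5'.mul_left X)).sub e0).sub
      (e1.add e2)
    have e : X * (s 3 (j + 2) - (u3 (j + 1) - 2 * ox 1 3 (j + 1) * u3 j)) +
        3 * (X * (s 4 (j + 1 + 1) - u4 (j + 1))) - X * (s 5 (j + 1 + 1) - u5 (j + 1)) -
        (X ^ 1 * s 0 (j + 2) - ox 1 1 (j + 2) * w0 (j + 2)) -
        (X ^ 1 * s 1 (j + 2) - ox ω 1 (j + 2) * w1 (j + 2) +
          (X ^ 1 * s 2 (j + 2) - ox (ω ^ 2) 1 (j + 2) * w2 (j + 2))) =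
        X ^ (4 * 2 ^ j) * AA ω (j + 2) (w0 (j + 2)) (w1 (j + 2)) (w2 (j + 2)) +
        X * (u5 (j + 1) - u3 (j + 1) - 3 * u4 (j + 1)) +
        X ^ (6 * 2 ^ j) * (PowerSeries.C 2 * (X * u3 j)) := by
      have r := hs.rel (j + 2)
      unfold ox AA
      have q1 : 1 * 2 ^ (j + 2) = 4 * 2 ^ j := by rw [pow_add]; ring
      have q2 : 3 * 2 ^ (j + 1) = 6 * 2 ^ j := by rw [pow_succ]; ring
      rw [q1, q2, one_pow, one_pow, map_one, map_ofNat, show j + 1 + 1 = j + 2 by ring]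
      linear_combination (-(X : PowerSeries k)) * r
    rw [e] at hh
    exact hh
  have hX0 : (X : PowerSeries k) ≠ 0 := PowerSeries.X_ne_zero
  have hc0 : ∀ j, X * (u5 (j + 1) - u3 (j + 1) - 3 * u4 (j + 1)) = 0 := by
    apply eq_zero_of_per g h.hg _ _ (fun i => 4 * 2 ^ i)
      (fun i => by have := (Nat.lt_two_pow_self (n := i)); omega) 0
    · intro j _
      have h1 := dvd_trans (pow_dvd_pow (X : PowerSeries k) (by omega : 4 * 2 ^ j ≤ 8 * 2 ^ j))
        (hmain j)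
      have h3 : (X : PowerSeries k) ^ (4 * 2 ^ j) ∣ X ^ (4 * 2 ^ j) *
        AA ω (j + 2) (w0 (j + 2)) (w1 (j + 2)) (w2 (j + 2)) := Dvd.intro _ rfl
      have h4 : (X : PowerSeries k) ^ (4 * 2 ^ j) ∣ X ^ (6 * 2 ^ j) * (PowerSeries.C 2 * (X * u3 j)) :=
        Dvd.dvd.mul_right (pow_dvd_pow _ (by omega)) _
      have := (h1.sub h3).sub h4
      ring_nf at this ⊢
      exact this
    · intro i
      rw [show i + g + 1 = i + 1 + g by ring, hp3, hp4, hp5]
  have hV : ∀ j, AA ω (j + 2) (w0 (j + 2)) (w1 (j + 2)) (w2 (j + 2)) = 0 := by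
    have hℓg : 1 ≤ (ℓ - 1) * 1 := by have := h.five; omega
    apply eq_zero_of_per ((ℓ - 1) * 1) hℓg _ _ (fun i => 2 * 2 ^ i)
      (fun i => by have := (Nat.lt_two_pow_self (n := i)); omega) 0
    · intro j _
      have h1 := dvd_trans (pow_dvd_pow (X : PowerSeries k) (by omega : 6 * 2 ^ j ≤ 8 * 2 ^ j))
        (hmain j)
      rw [hc0 j, add_zero] at h1
      have h4 : (X : PowerSeries k) ^ (6 * 2 ^ j) ∣ X ^ (6 * 2 ^ j) * (PowerSeries.C 2 * (X * u3 j)) :=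
        Dvd.intro _ rfl
      have h5 := h1.sub h4
      rw [add_sub_cancel_right, show 6 * 2 ^ j = 4 * 2 ^ j + 2 * 2 ^ j by ring] at h5
      exact X_pow_cancel h5
    · intro i
      rw [show i + (ℓ - 1) * 1 + 2 = i + 2 + (ℓ - 1) * 1 by ring, per_neg_two ℓ hℓ2 w0 hw0 1,
        per_neg_two ℓ hℓ2 w1 hw1 1, per_neg_two ℓ hℓ2 w2 hw2 1]
      apply AA_parity hω3
      obtain ⟨t, ht⟩ := h.prime.odd_of_ne_two hℓ2
      omega
  have hu3 : ∀ j, X * u3 j = 0 := by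
    apply eq_zero_of_per g h.hg _ _ (fun i => 2 * 2 ^ i)
      (fun i => by have := (Nat.lt_two_pow_self (n := i)); omega) 0
    · intro j _
      have h1 := hmain j
      rw [hc0 j, hV j, mul_zero, zero_add, zero_add, show 8 * 2 ^ j = 6 * 2 ^ j + 2 * 2 ^ j by ring] at h1
      exact dvd_of_C_mul h2 (X_pow_cancel h1)
    · intro i
      simp only [hp3]
  intro j
  have h1 := a3 j
  have h5 : u3 j = 0 := (mul_eq_zero.mp (hu3 j)).resolve_left hX0
  rw [h5, sub_zero] at h1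
  exact h1

lemma evt_C_mul_X_pow (n E : ℕ) (x b : PowerSeries k) :
    x ^ n ∣ evt n x (PowerSeries.C b * (PowerSeries.X : PowerSeries (PowerSeries k)) ^ E) - b * x ^ E := by
  unfold evt
  by_cases h : E < n
  · rw [Finset.sum_eq_single E]
    · rw [PowerSeries.coeff_C_mul, PowerSeries.coeff_X_pow_self, mul_one, mul_comm, sub_self]
      exact dvd_zero _
    · intro e _ he
      rw [PowerSeries.coeff_C_mul, PowerSeries.coeff_X_pow, if_neg he]; ring
    · intro h'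
      exact absurd (Finset.mem_range.mpr h) h'
  · rw [Finset.sum_eq_zero]
    · rw [zero_sub, dvd_neg]
      exact Dvd.dvd.mul_left (pow_dvd_pow _ (by omega)) _
    · intro e he
      rw [Finset.mem_range] at he
      rw [PowerSeries.coeff_C_mul, PowerSeries.coeff_X_pow, if_neg (by omega)]; ring

theorem EvHyp.stage4 {ℓ : ℕ} {ω : k} {d g : ℕ} {S : PowerSeries k} (h : EvHyp ℓ ω d g S)
    (s : Fin 6 → ℕ → PowerSeries k) (hs : EvSys ω d s) :
    (∀ j, (X : PowerSeries k) ^ (om d 4 * 2 ^ j) ∣ s 4 (j + 1)) ∧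
    (∀ j, (X : PowerSeries k) ^ (om d 5 * 2 ^ j) ∣ s 5 (j + 1)) := by
  haveI := h.char
  haveI : Fact ℓ.Prime := ⟨h.prime⟩
  have hℓ2 : ℓ ≠ 2 := by have := h.five; omega
  have h2 := h.two_ne
  have h3 := h.three_ne
  have hω3 := h.cube
  obtain ⟨w0, hw0, he0⟩ := h.expand_orbit s hs 0 (h.stage1 s hs 0 (by simp)) 3
    (by rw [om_zero]; norm_num)
  obtain ⟨w1, hw1, he1⟩ := h.expand_orbit s hs 1 (h.stage1 s hs 1 (by simp)) 3
    (by rw [om_one]; norm_num)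
  obtain ⟨w2, hw2, he2⟩ := h.expand_orbit s hs 2 (h.stage1 s hs 2 (by simp)) 3
    (by rw [om_two]; norm_num)
  obtain ⟨w3, hw3, he3⟩ := h.expand_orbit s hs 3 (h.stage3 s hs) 3 (by rw [om_three])
  obtain ⟨u4, hr4, hp4, a4, b4⟩ := ev_limit d h.hd g h.hg h.hper (oη ω 4) (om d 4) (om_pos d 4)
    (s 4) (hs.orb 4)
  obtain ⟨u5, hr5, hp5, a5, b5⟩ := ev_limit d h.hd g h.hg h.hper (oη ω 5) (om d 5) (om_pos d 5)
    (s 5) (hs.orb 5)
  have hη3 : oη ω 3 = 1 := by simp [oη]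
  have hη4 : oη ω 4 = 1 := by simp [oη]
  rw [oη_zero, om_zero] at he0
  rw [oη_one, om_one] at he1
  rw [oη_two, om_two] at he2
  rw [hη3, om_three] at he3
  rw [om_four] at a4
  rw [om_four, hη4] at b4
  rw [om_five] at a5
  have h3d : 9 ≤ 3 ^ d := by
    calc 9 = 3 ^ 2 := by norm_num
      _ ≤ 3 ^ d := Nat.pow_le_pow_right (by norm_num) h.hd
  set Sm : PowerSeries (PowerSeries k) := PowerSeries.map (PowerSeries.C) S with hSm
  set H : ℕ → PowerSeries (PowerSeries k) := fun j =>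
    FO (1 ^ (2 ^ (j + 2))) 2 two_ne_zero (PowerSeries.C (w0 (j + 2)) * Sm) +
    FO (ω ^ (2 ^ (j + 2))) 2 two_ne_zero (PowerSeries.C (w1 (j + 2)) * Sm) +
    FO ((ω ^ 2) ^ (2 ^ (j + 2))) 2 two_ne_zero (PowerSeries.C (w2 (j + 2)) * Sm) -
    FO (1 ^ (2 ^ (j + 2))) 6 (by norm_num) (PowerSeries.C (w3 (j + 2)) * Sm) +
    PowerSeries.C (X ^ 3 * (u5 (j + 1) - 3 * u4 (j + 1))) * PowerSeries.X ^ 0 +
    PowerSeries.C (6 * X ^ 3 * u4 j) * PowerSeries.X ^ (3 ^ d) with hH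
  have hHc : ∀ e j, PowerSeries.coeff e (H j) =
      (if 2 ∣ e then PowerSeries.C ((1 ^ (2 ^ (j + 2))) ^ (e / 2) * PowerSeries.coeff (e / 2) S) *
        w0 (j + 2) else 0) +
      (if 2 ∣ e then PowerSeries.C ((ω ^ (2 ^ (j + 2))) ^ (e / 2) * PowerSeries.coeff (e / 2) S) *
        w1 (j + 2) else 0) +
      (if 2 ∣ e then PowerSeries.C (((ω ^ 2) ^ (2 ^ (j + 2))) ^ (e / 2) *
        PowerSeries.coeff (e / 2) S) * w2 (j + 2) else 0) -
      (if 6 ∣ e then PowerSeries.C ((1 ^ (2 ^ (j + 2))) ^ (e / 6) * PowerSeries.coeff (e / 6) S) *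
        w3 (j + 2) else 0) +
      X ^ 3 * (u5 (j + 1) - 3 * u4 (j + 1)) * (if e = 0 then 1 else 0) +
      6 * X ^ 3 * u4 j * (if e = 3 ^ d then 1 else 0) := by
    intro e j
    simp only [hH]
    rw [map_add, map_add, map_sub, map_add, map_add, hSm, coeff_FO, coeff_FO, coeff_FO, coeff_FO,
      PowerSeries.coeff_C_mul, PowerSeries.coeff_C_mul, PowerSeries.coeff_X_pow,
      PowerSeries.coeff_X_pow]
  set G := (ℓ - 1) * g with hG
  have hG1 : 1 ≤ G := by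
    have h5 := h.five
    have hg := h.hg
    exact Nat.mul_pos (by omega) (by omega)
  have hGe : G % 2 = 0 := by
    obtain ⟨g', hg'⟩ := h.hg2
    rw [hG, hg']
    have : (ℓ - 1) * (2 * g') = 2 * ((ℓ - 1) * g') := by ring
    omega
  have huG : ∀ (u : ℕ → PowerSeries k), (∀ j, u (j + g) = u j) → ∀ j, u (j + G) = u j := by
    intro u hu j
    have : ∀ N, u (j + g * N) = u j := by
      intro N
      induction N with
      | zero => simp
      | succ N ih =>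
        have e : j + g * (N + 1) = (j + g * N) + g := by ring
        rw [e, hu, ih]
    rw [hG, mul_comm]; exact this _
  have hωG : ∀ z : k, z ^ 3 = 1 → ∀ j, z ^ (2 ^ (j + G)) = z ^ (2 ^ j) := by
    intro z hz j
    exact pow_cube_congr hz (two_pow_mod_three _ _ (by omega))
  have hz := kill_le 2 G (3 ^ d + 1) (by norm_num) hG1 H (by
    intro e j _
    rw [hHc, hHc]
    rw [show j + G + 2 = j + 2 + G by ring, show j + G + 1 = j + 1 + G by ring,
      per_neg_two ℓ hℓ2 w0 hw0 g, per_neg_two ℓ hℓ2 w1 hw1 g, per_neg_two ℓ hℓ2 w2 hw2 g,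
      per_neg_two ℓ hℓ2 w3 hw3 g, huG u4 hp4, huG u4 hp4, huG u5 hp5, hωG ω hω3,
      hωG (ω ^ 2) (by rw [← pow_mul, mul_comm, pow_mul, hω3, one_pow])]
    simp only [one_pow]) (by
    intro n j hn
    set M := 2 * 2 ^ j with hM
    have f0 := evt_FO n M (1 ^ (2 ^ (j + 2))) 2 two_ne_zero (PowerSeries.C (w0 (j + 2)) * Sm)
    have f1 := evt_FO n M (ω ^ (2 ^ (j + 2))) 2 two_ne_zero (PowerSeries.C (w1 (j + 2)) * Sm)
    have f2 := evt_FO n M ((ω ^ 2) ^ (2 ^ (j + 2))) 2 two_ne_zero (PowerSeries.C (w2 (j + 2)) * Sm)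
    have f3 := evt_FO n M (1 ^ (2 ^ (j + 2))) 6 (by norm_num) (PowerSeries.C (w3 (j + 2)) * Sm)
    have f4 := evt_C_mul_X_pow n 0 ((X : PowerSeries k) ^ M) (X ^ 3 * (u5 (j + 1) - 3 * u4 (j + 1)))
    have f5 := evt_C_mul_X_pow n (3 ^ d) ((X : PowerSeries k) ^ M) (6 * X ^ 3 * u4 j)
    rw [← pow_mul, mul_comm M n] at f4 f5
    have m1 : 2 * M = 1 * 2 ^ (j + 2) := by rw [hM, pow_add]; ring
    have m3 : 6 * M = 3 * 2 ^ (j + 2) := by rw [hM, pow_add]; ring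
    rw [m1] at f0 f1 f2
    rw [m3] at f3
    have hle1 : n * M ≤ n * (1 * 2 ^ (j + 2)) := Nat.mul_le_mul_left _ (by omega)
    have hle3 : n * M ≤ n * (3 * 2 ^ (j + 2)) := Nat.mul_le_mul_left _ (by omega)
    have g0 := dvd_trans (pow_dvd_pow (X : PowerSeries k) hle1) (he0 n (j + 2))
    have g1 := dvd_trans (pow_dvd_pow (X : PowerSeries k) hle1) (he1 n (j + 2))
    have g2 := dvd_trans (pow_dvd_pow (X : PowerSeries k) hle1) (he2 n (j + 2))
    have g3 := dvd_trans (pow_dvd_pow (X : PowerSeries k) hle3) (he3 n (j + 2))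
    have hle4 : n * M ≤ 3 * (3 ^ d * 2 ^ j) := by
      calc n * M ≤ (3 ^ d + 1) * M := Nat.mul_le_mul_right _ hn
        _ = (2 * 3 ^ d + 2) * 2 ^ j := by rw [hM]; ring
        _ ≤ (3 * 3 ^ d) * 2 ^ j := Nat.mul_le_mul_right _ (by omega)
        _ = 3 * (3 ^ d * 2 ^ j) := by ring
    have hle5 : n * M ≤ 3 ^ (d + 1) * 2 ^ (j + 1) := by
      calc n * M ≤ (3 ^ d + 1) * M := Nat.mul_le_mul_right _ hn
        _ = (3 ^ d + 1) * 2 ^ (j + 1) := by rw [hM, pow_succ]; ring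
        _ ≤ 3 ^ (d + 1) * 2 ^ (j + 1) := Nat.mul_le_mul_right _ (by rw [pow_succ]; omega)
    have g4 := dvd_trans (pow_dvd_pow (X : PowerSeries k) hle4) (b4 j)
    have g5 := dvd_trans (pow_dvd_pow (X : PowerSeries k) hle5) (a5 (j + 1))
    simp only [ox] at g0 g1 g2 g3 g4
    have hev : evt n ((X : PowerSeries k) ^ M) (H j) =
        evt n ((X : PowerSeries k) ^ M) (FO (1 ^ (2 ^ (j + 2))) 2 two_ne_zero
          (PowerSeries.C (w0 (j + 2)) * Sm)) +
        evt n ((X : PowerSeries k) ^ M) (FO (ω ^ (2 ^ (j + 2))) 2 two_ne_zero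
          (PowerSeries.C (w1 (j + 2)) * Sm)) +
        evt n ((X : PowerSeries k) ^ M) (FO ((ω ^ 2) ^ (2 ^ (j + 2))) 2 two_ne_zero
          (PowerSeries.C (w2 (j + 2)) * Sm)) -
        evt n ((X : PowerSeries k) ^ M) (FO (1 ^ (2 ^ (j + 2))) 6 (by norm_num)
          (PowerSeries.C (w3 (j + 2)) * Sm)) +
        evt n ((X : PowerSeries k) ^ M)
          (PowerSeries.C (X ^ 3 * (u5 (j + 1) - 3 * u4 (j + 1))) * PowerSeries.X ^ 0) +
        evt n ((X : PowerSeries k) ^ M) (PowerSeries.C (6 * X ^ 3 * u4 j) * PowerSeries.X ^ (3 ^ d)) := by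
      simp only [hH]
      rw [evt_add, evt_add, evt_sub, evt_add, evt_add]
    rw [hev]
    have t := ((((((((f0.add f1).add f2).sub f3).add f4).add f5).sub g0).sub g1).sub g2).add g3
    have t2 := (t.add ((g4.mul_left (X ^ 3)).mul_left 3)).sub (g5.mul_left (X ^ 3))
    have r := hs.rel (j + 2)
    have m4 : (X : PowerSeries k) ^ (3 ^ d * 2 ^ (j + 1)) = (X ^ M) ^ (3 ^ d) := by
      rw [← pow_mul, hM, pow_succ]; congr 1; ring
    rw [m4, show j + 1 + 1 = j + 2 by ring] at t2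
    rw [pow_zero, pow_zero, one_pow, one_pow, map_one] at t2
    rw [pow_zero, one_pow]
    convert t2 using 1
    linear_combination X ^ 3 * r)
  have hX3 : (X : PowerSeries k) ^ 3 ≠ 0 := pow_ne_zero _ PowerSeries.X_ne_zero
  have h6 : (6 : PowerSeries k) ≠ 0 := by
    have := natCast_ne_zero_PS (k := k) 6 (by
      have : ((6 : ℕ) : k) = 2 * 3 := by norm_num
      rw [this]; exact mul_ne_zero h2 h3)
    exact_mod_cast this
  have hodd : ¬ 2 ∣ 3 ^ d := by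
    intro hh
    have := Nat.Prime.dvd_of_dvd_pow Nat.prime_two hh
    norm_num at this
  have h4z : ∀ j, u4 j = 0 := by
    intro j
    have h1 := hz (3 ^ d) (by omega) j
    rw [hHc, if_neg hodd, if_neg hodd, if_neg hodd,
      if_neg (fun hh => hodd (dvd_trans (by norm_num) hh)), if_neg (by omega), if_pos rfl] at h1
    have h5 : 6 * X ^ 3 * u4 j = 0 := by linear_combination h1
    exact (mul_eq_zero.mp h5).resolve_left (mul_ne_zero h6 hX3)
  have h5z : ∀ j, u5 j = 0 := by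
    have h5z' : ∀ j, 1 ≤ j → u5 j = 0 := by
      intro j hj
      obtain ⟨j', rfl⟩ : ∃ j', j = j' + 1 := ⟨j - 1, by omega⟩
      have h1 := hz 0 (by omega) j'
      rw [hHc] at h1
      simp only [dvd_zero, if_true, Nat.zero_div, pow_zero, h.hS0, mul_zero, map_zero, zero_mul,
        h4z, sub_zero, mul_one, add_zero, zero_add] at h1
      exact (mul_eq_zero.mp h1).resolve_left hX3
    exact per_zero g h.hg u5 hp5 1 h5z'
  refine ⟨fun j => ?_, fun j => ?_⟩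
  · have h1 := a4 j
    rw [h4z, sub_zero] at h1
    rw [om_four]; exact h1
  · have h1 := a5 j
    rw [h5z, sub_zero] at h1
    rw [om_five]; exact h1

end Run7.h751
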