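import Pool.Agent.Run7.h751.Ev7

open PowerSeries Finset

namespace Run7.h751

variable {k : Type*} [Field k]

/-- the coefficient identities of the even class. -/
theorem EvHyp.identity {ℓ : ℕ} {ω : k} {d g : ℕ} {S : PowerSeries k} (h : EvHyp ℓ ω d g S)
    (s : Fin 6 → ℕ → PowerSeries k) (hs : EvSys ω d s) :
    ∃ w : Fin 6 → ℕ → PowerSeries k,
      (∀ o n i, (X : PowerSeries k) ^ (n * (om d o * 2 ^ i)) ∣ X ^ (3 ^ (d + 1)) * s o i -
        evt n (ox (oη ω o) (om d o) i)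
          (PowerSeries.C (w o i) * PowerSeries.map (PowerSeries.C) S)) ∧
      ∀ e i, PowerSeries.C (PowerSeries.coeff e S) * w 0 i +
        PowerSeries.C ((ω ^ (2 ^ i)) ^ e * PowerSeries.coeff e S) * w 1 i +
        PowerSeries.C (((ω ^ 2) ^ (2 ^ i)) ^ e * PowerSeries.coeff e S) * w 2 i =
        (if 3 ∣ e then PowerSeries.C (PowerSeries.coeff (e / 3) S) * w 3 i else 0) +
        3 * (if 3 ^ d ∣ e then PowerSeries.C (PowerSeries.coeff (e / 3 ^ d) S) * w 4 i else 0) -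
        (if 3 ^ (d + 1) ∣ e then PowerSeries.C (PowerSeries.coeff (e / 3 ^ (d + 1)) S) * w 5 i
          else 0) := by
  haveI := h.char
  haveI : Fact ℓ.Prime := ⟨h.prime⟩
  have hℓ2 : ℓ ≠ 2 := by have := h.five; omega
  have hω3 := h.cube
  have hle3 : 3 ≤ 3 ^ (d + 1) := by
    calc 3 = 3 ^ 1 := by norm_num
      _ ≤ 3 ^ (d + 1) := Nat.pow_le_pow_right (by norm_num) (by omega)
  have hexp : ∀ o : Fin 6, ∃ w : ℕ → PowerSeries k, (∀ i, w (i + 1) = -2 * w i) ∧
      ∀ n i, (X : PowerSeries k) ^ (n * (om d o * 2 ^ i)) ∣ X ^ (3 ^ (d + 1)) * s o i -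
        evt n (ox (oη ω o) (om d o) i)
          (PowerSeries.C (w i) * PowerSeries.map (PowerSeries.C) S) := by
    intro o
    apply h.expand_orbit s hs o
    · fin_cases o
      · exact h.stage1 s hs 0 (by simp)
      · exact h.stage1 s hs 1 (by simp)
      · exact h.stage1 s hs 2 (by simp)
      · exact h.stage3 s hs
      · exact (h.stage4 s hs).1
      · exact (h.stage4 s hs).2
    · unfold om
      split_ifs
      · exact hle3
      · exact Nat.pow_le_pow_right (by norm_num) (by omega)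
      · exact le_refl _
      · omega
  choose w hw he using hexp
  refine ⟨w, he, ?_⟩
  have he0 := he 0
  have he1 := he 1
  have he2 := he 2
  have he3 := he 3
  have he4 := he 4
  have he5 := he 5
  have hη3 : oη ω 3 = 1 := by simp [oη]
  have hη4 : oη ω 4 = 1 := by simp [oη]
  have hη5 : oη ω 5 = 1 := by simp [oη]
  rw [oη_zero, om_zero] at he0
  rw [oη_one, om_one] at he1
  rw [oη_two, om_two] at he2
  rw [hη3, om_three] at he3
  rw [hη4, om_four] at he4
  rw [hη5, om_five] at he5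
  have h3d : (3 : ℕ) ^ d ≠ 0 := by positivity
  have h3D : (3 : ℕ) ^ (d + 1) ≠ 0 := by positivity
  set Sm : PowerSeries (PowerSeries k) := PowerSeries.map (PowerSeries.C) S with hSm
  set H : ℕ → PowerSeries (PowerSeries k) := fun i =>
    FO (1 ^ (2 ^ i)) 1 one_ne_zero (PowerSeries.C (w 0 i) * Sm) +
    FO (ω ^ (2 ^ i)) 1 one_ne_zero (PowerSeries.C (w 1 i) * Sm) +
    FO ((ω ^ 2) ^ (2 ^ i)) 1 one_ne_zero (PowerSeries.C (w 2 i) * Sm) -
    FO (1 ^ (2 ^ i)) 3 three_ne_zero (PowerSeries.C (w 3 i) * Sm) -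
    PowerSeries.C 3 * FO (1 ^ (2 ^ i)) (3 ^ d) h3d (PowerSeries.C (w 4 i) * Sm) +
    FO (1 ^ (2 ^ i)) (3 ^ (d + 1)) h3D (PowerSeries.C (w 5 i) * Sm) with hH
  have hHc : ∀ e i, PowerSeries.coeff e (H i) =
      PowerSeries.C (PowerSeries.coeff e S) * w 0 i +
      PowerSeries.C ((ω ^ (2 ^ i)) ^ e * PowerSeries.coeff e S) * w 1 i +
      PowerSeries.C (((ω ^ 2) ^ (2 ^ i)) ^ e * PowerSeries.coeff e S) * w 2 i -
      (if 3 ∣ e then PowerSeries.C (PowerSeries.coeff (e / 3) S) * w 3 i else 0) -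
      3 * (if 3 ^ d ∣ e then PowerSeries.C (PowerSeries.coeff (e / 3 ^ d) S) * w 4 i else 0) +
      (if 3 ^ (d + 1) ∣ e then PowerSeries.C (PowerSeries.coeff (e / 3 ^ (d + 1)) S) * w 5 i
        else 0) := by
    intro e i
    simp only [hH]
    rw [map_add, map_sub, map_sub, map_add, map_add, PowerSeries.coeff_C_mul, hSm, coeff_FO, coeff_FO,
      coeff_FO, coeff_FO, coeff_FO, coeff_FO]
    simp only [one_dvd, if_true, Nat.div_one, one_pow, one_mul]
  have hℓg : 1 ≤ (ℓ - 1) * 1 := by have := h.five; omega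
  have hωG : ∀ z : k, z ^ 3 = 1 → ∀ j, z ^ (2 ^ (j + (ℓ - 1) * 1)) = z ^ (2 ^ j) := by
    intro z hz j
    refine pow_cube_congr hz (two_pow_mod_three _ _ ?_)
    obtain ⟨t, ht⟩ := h.prime.odd_of_ne_two hℓ2
    omega
  have hz : ∀ N0, ∀ e, e < N0 → ∀ i, PowerSeries.coeff e (H i) = 0 := by
    intro N0
    apply kill_le 1 ((ℓ - 1) * 1) N0 (le_refl 1) hℓg H
    · intro e j _
      rw [hHc, hHc]
      rw [per_neg_two ℓ hℓ2 (w 0) (hw 0) 1, per_neg_two ℓ hℓ2 (w 1) (hw 1) 1,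
        per_neg_two ℓ hℓ2 (w 2) (hw 2) 1, per_neg_two ℓ hℓ2 (w 3) (hw 3) 1,
        per_neg_two ℓ hℓ2 (w 4) (hw 4) 1, per_neg_two ℓ hℓ2 (w 5) (hw 5) 1, hωG ω hω3,
        hωG (ω ^ 2) (by rw [← pow_mul, mul_comm, pow_mul, hω3, one_pow])]
    · intro n i _
      set M := 1 * 2 ^ i with hM
      have f0 := evt_FO n M (1 ^ (2 ^ i)) 1 one_ne_zero (PowerSeries.C (w 0 i) * Sm)
      have f1 := evt_FO n M (ω ^ (2 ^ i)) 1 one_ne_zero (PowerSeries.C (w 1 i) * Sm)
      have f2 := evt_FO n M ((ω ^ 2) ^ (2 ^ i)) 1 one_ne_zero (PowerSeries.C (w 2 i) * Sm)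
      have f3 := evt_FO n M (1 ^ (2 ^ i)) 3 three_ne_zero (PowerSeries.C (w 3 i) * Sm)
      have f4 := evt_FO n M (1 ^ (2 ^ i)) (3 ^ d) h3d (PowerSeries.C (w 4 i) * Sm)
      have f5 := evt_FO n M (1 ^ (2 ^ i)) (3 ^ (d + 1)) h3D (PowerSeries.C (w 5 i) * Sm)
      have hleM : ∀ m, 1 ≤ m → n * M ≤ n * (m * 2 ^ i) := by
        intro m hm
        rw [hM]
        exact Nat.mul_le_mul_left _ (Nat.mul_le_mul_right _ hm)
      have g0 := dvd_trans (pow_dvd_pow (X : PowerSeries k) (hleM 1 (le_refl 1))) (he0 n i)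
      have g1 := dvd_trans (pow_dvd_pow (X : PowerSeries k) (hleM 1 (le_refl 1))) (he1 n i)
      have g2 := dvd_trans (pow_dvd_pow (X : PowerSeries k) (hleM 1 (le_refl 1))) (he2 n i)
      have g3 := dvd_trans (pow_dvd_pow (X : PowerSeries k) (hleM 3 (by norm_num))) (he3 n i)
      have g4 := dvd_trans (pow_dvd_pow (X : PowerSeries k) (hleM (3 ^ d) (Nat.pos_of_ne_zero h3d)))
        (he4 n i)
      have g5 := dvd_trans (pow_dvd_pow (X : PowerSeries k)
        (hleM (3 ^ (d + 1)) (Nat.pos_of_ne_zero h3D))) (he5 n i)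
      simp only [ox] at g0 g1 g2 g3 g4 g5
      have q : ∀ m, m * M = m * 2 ^ i := by intro m; rw [hM, one_mul]
      rw [q 1] at f0 f1 f2
      rw [q 3] at f3
      rw [q (3 ^ d)] at f4
      rw [q (3 ^ (d + 1))] at f5
      have hev : evt n ((X : PowerSeries k) ^ M) (H i) =
          evt n ((X : PowerSeries k) ^ M) (FO (1 ^ (2 ^ i)) 1 one_ne_zero
            (PowerSeries.C (w 0 i) * Sm)) +
          evt n ((X : PowerSeries k) ^ M) (FO (ω ^ (2 ^ i)) 1 one_ne_zero
            (PowerSeries.C (w 1 i) * Sm)) +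
          evt n ((X : PowerSeries k) ^ M) (FO ((ω ^ 2) ^ (2 ^ i)) 1 one_ne_zero
            (PowerSeries.C (w 2 i) * Sm)) -
          evt n ((X : PowerSeries k) ^ M) (FO (1 ^ (2 ^ i)) 3 three_ne_zero
            (PowerSeries.C (w 3 i) * Sm)) -
          3 * evt n ((X : PowerSeries k) ^ M) (FO (1 ^ (2 ^ i)) (3 ^ d) h3d
            (PowerSeries.C (w 4 i) * Sm)) +
          evt n ((X : PowerSeries k) ^ M) (FO (1 ^ (2 ^ i)) (3 ^ (d + 1)) h3D
            (PowerSeries.C (w 5 i) * Sm)) := by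
        simp only [hH]
        rw [evt_add, evt_sub, evt_sub, evt_add, evt_add, evt_C_mul]
      rw [hev]
      have t := (((((f0.add f1).add f2).sub f3).sub (f4.mul_left 3)).add f5)
      have t2 := (((((t.sub g0).sub g1).sub g2).add g3).add (g4.mul_left 3)).sub g5
      have r := hs.rel i
      convert t2 using 1
      linear_combination X ^ (3 ^ (d + 1)) * r
  intro e i
  have h1 := hz (e + 1) e (by omega) i
  rw [hHc] at h1
  linear_combination h1

/-- if the `w` of an orbit vanishes then so does the orbit -/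
lemma orbit_zero_of_w (S : PowerSeries k) (d : ℕ) (o : Fin 6) (N : ℕ) (η : k)
    (s w : ℕ → PowerSeries k) (hw : ∀ i, w i = 0)
    (h : ∀ n i, (X : PowerSeries k) ^ (n * (om d o * 2 ^ i)) ∣ X ^ N * s i -
        evt n (ox η (om d o) i) (PowerSeries.C (w i) * PowerSeries.map (PowerSeries.C) S)) :
    ∀ i, s i = 0 := by
  intro i
  have h1 : X ^ N * s i = 0 := by
    ext n
    have h2 := h (n + 1) i
    have h0 : evt (n + 1) (ox η (om d o) i)
        (PowerSeries.C (w i) * PowerSeries.map (PowerSeries.C) S) = 0 := by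
      rw [hw, map_zero, zero_mul]
      unfold evt; simp
    rw [h0, sub_zero, PowerSeries.X_pow_dvd_iff] at h2
    rw [map_zero]
    apply h2
    have h3 : 1 ≤ om d o * 2 ^ i := Nat.mul_pos (om_pos d o) (by positivity)
    have h4 : (n + 1) * 1 ≤ (n + 1) * (om d o * 2 ^ i) := Nat.mul_le_mul_left _ h3
    omega
  exact (mul_eq_zero.mp h1).resolve_left (pow_ne_zero _ PowerSeries.X_ne_zero)

end Run7.h751
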