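import Pool.Agent.Run7.h751.Ev8

open PowerSeries Finset

namespace Run7.h751

variable {k : Type*} [Field k]

lemma CT_cong (d : ℕ) (hd : 2 ≤ d) (K : ℕ) :
    (X : PowerSeries k) ^ ((K + 1) ^ d) ∣ CT k d * (PowerSeries.rescale (-1) (PK k d K) - PK k d K)
      - 2 * X * PK k d K := by
  have hd0 : d ≠ 0 := by omega
  have h1 := FF_mul_PK (R := k) d hd0 K
  have h3 := rescale_inv_dvd (-1) h1
  have h4 : CT k d * (FF k d - FM k d) = 2 * X * FM k d := by
    have e1 := FF_sub_FM (k := k) d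
    have e2 := X_mul_EE (k := k) d
    have e3 := CT_mul_EE (k := k) d hd
    rw [one_mul] at e1
    rw [e1, ← e2, ← e3]; ring
  have h5 : (X : PowerSeries k) ^ ((K + 1) ^ d) ∣ FM k d * PowerSeries.rescale (-1) (PK k d K) - 1 :=
    h3
  set F := FF k d
  set G := FM k d
  set P := PK k d K
  set Q := PowerSeries.rescale (-1) (PK k d K)
  set C := CT k d
  obtain ⟨s, hs⟩ := h1
  obtain ⟨t, ht⟩ := h5
  set x := (X : PowerSeries k) ^ ((K + 1) ^ d)
  refine ⟨2 * X * t * P - C * s * Q + C * t * P, ?_⟩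
  linear_combination P * Q * h4 - (C * Q) * hs + (C * P + 2 * X * P) * ht

lemma CT_low_ge3 (h2 : (2 : k) ≠ 0) (d : ℕ) (hd : 3 ≤ d) :
    (X : PowerSeries k) ^ 16 ∣ CT k d - (1 - X) := by
  have h := CT_cong (k := k) d (by omega) 2
  have hN : 1 + 16 ≤ (2 + 1) ^ d := by
    calc 1 + 16 ≤ 3 ^ 3 := by norm_num
      _ ≤ 3 ^ d := Nat.pow_le_pow_right (by norm_num) hd
  have h' := dvd_trans (pow_dvd_pow _ hN) h
  have hP : PK k d 2 = (1 - X) * (1 - X ^ (2 ^ d)) := by
    rw [show (2 : ℕ) = 0 + 1 + 1 by norm_num, PK_succ, PK_succ, PK_zero]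
    simp
  have hQ : PowerSeries.rescale (-1) (PK k d 2) = (1 + X) * (1 - X ^ (2 ^ d)) := by
    rw [hP, map_mul, rescale_one_sub]
    have he : (-1 : k) ^ (2 ^ d) = 1 := by
      apply Even.neg_one_pow
      exact Even.pow_of_ne_zero even_two (by omega)
    rw [he, map_one, one_mul, map_sub, map_one, PowerSeries.rescale_X, map_neg, map_one]
    ring
  rw [hQ, hP] at h'
  have e : CT k d * ((1 + X) * (1 - X ^ 2 ^ d) - (1 - X) * (1 - X ^ 2 ^ d)) -
      2 * X * ((1 - X) * (1 - X ^ 2 ^ d)) =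
      X ^ 1 * ((2 * (1 - X ^ (2 ^ d))) * (CT k d - (1 - X))) := by ring
  rw [e] at h'
  refine dvd_of_unit_mul ?_ (X_pow_cancel h')
  rw [map_mul, map_ofNat, map_sub, map_one, map_pow, PowerSeries.constantCoeff_X, zero_pow (by positivity)]
  simpa using h2

/-- explicit polynomial for `d = 2` -/
noncomputable def TC (k : Type*) [Field k] : PowerSeries k :=
  1 - X - X ^ 8 + X ^ 10 + X ^ 16 - X ^ 18

/-- its coefficients -/
def tc (j : ℕ) : ℤ :=
  [1, -1, 0, 0, 0, 0, 0, 0, -1, 0, 1, 0, 0, 0, 0, 0, 1, 0, -1, 0, 0, 0, 0, 0].getD j 0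

lemma coeff_TC (j : ℕ) (hj : j < 24) : PowerSeries.coeff j (TC k) = (tc j : k) := by
  unfold TC
  simp only [map_add, map_sub, PowerSeries.coeff_X_pow, PowerSeries.coeff_X, PowerSeries.coeff_one]
  interval_cases j <;> simp [tc]

lemma CT_low_two (h2 : (2 : k) ≠ 0) : (X : PowerSeries k) ^ 24 ∣ CT k 2 - TC k := by
  have h := CT_cong (k := k) 2 (by omega) 6
  have hN : 1 + 24 ≤ (6 + 1) ^ 2 := by norm_num
  have h' := dvd_trans (pow_dvd_pow _ hN) h
  have hP : PK k 2 6 = (1 - X) * (1 - X ^ 4) * (1 - X ^ 9) * (1 - X ^ 16) * (1 - X ^ 25) *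
      (1 - X ^ 36) := by
    rw [show (6 : ℕ) = 0 + 1 + 1 + 1 + 1 + 1 + 1 by norm_num, PK_succ, PK_succ, PK_succ, PK_succ,
      PK_succ, PK_succ, PK_zero]
    norm_num
  have hQ : PowerSeries.rescale (-1) (PK k 2 6) =
      (1 + X) * (1 - X ^ 4) * (1 + X ^ 9) * (1 - X ^ 16) * (1 + X ^ 25) * (1 - X ^ 36) := by
    rw [hP]
    simp only [map_mul, rescale_one_sub]
    rw [map_sub, map_one, PowerSeries.rescale_X, map_neg, map_one]
    norm_num
  rw [hQ, hP] at h'
  set C := CT k 2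
  set S : PowerSeries k := 1 + X ^ 8 + X ^ 24 + X ^ 34
  have e : C * ((1 + X) * (1 - X ^ 4) * (1 + X ^ 9) * (1 - X ^ 16) * (1 + X ^ 25) *
      (1 - X ^ 36) - (1 - X) * (1 - X ^ 4) * (1 - X ^ 9) * (1 - X ^ 16) * (1 - X ^ 25) *
      (1 - X ^ 36)) - 2 * X * ((1 - X) * (1 - X ^ 4) * (1 - X ^ 9) * (1 - X ^ 16) * (1 - X ^ 25) *
      (1 - X ^ 36)) = X ^ 1 * ((2 * (1 - X ^ 4) * (1 - X ^ 16) * (1 - X ^ 36)) * (C * S -
      (1 - X) * (1 - X ^ 9) * (1 - X ^ 25))) := by
    simp only [S]; ring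
  rw [e] at h'
  have h1 : (X : PowerSeries k) ^ 24 ∣ C * S - (1 - X) * (1 - X ^ 9) * (1 - X ^ 25) := by
    refine dvd_of_unit_mul ?_ (X_pow_cancel h')
    simp only [map_mul, map_ofNat, map_sub, map_one, map_pow, PowerSeries.constantCoeff_X]
    norm_num
    exact h2
  have h3 : (X : PowerSeries k) ^ 24 ∣ TC k * S - (1 - X) * (1 - X ^ 9) * (1 - X ^ 25) := by
    refine ⟨0 + 2 * 1 - 2 * X ^ 2 - X ^ 8 + X ^ 10 + X ^ 16 - 2 * X ^ 18 + X ^ 20 + X ^ 26 - X ^ 28, ?_⟩
    simp only [S, TC]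
    ring
  have h4 := h1.sub h3
  have e2 : C * S - (1 - X) * (1 - X ^ 9) * (1 - X ^ 25) - (TC k * S - (1 - X) * (1 - X ^ 9) *
      (1 - X ^ 25)) = S * (C - TC k) := by ring
  rw [e2] at h4
  refine dvd_of_unit_mul ?_ h4
  simp only [S, map_add, map_one, map_pow, PowerSeries.constantCoeff_X]
  norm_num

/-- coefficients of the bracket -/
noncomputable def VV (d : ℕ) (A : k) (S : PowerSeries k) (m : ℕ) : k :=
  (if 2 ∣ m then PowerSeries.coeff (m / 2) S else 0)
    - A * (if 2 ^ d ∣ m then PowerSeries.coeff (m / 2 ^ d) S else 0)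
    - A * (if 2 ^ (d + 1) ∣ m then PowerSeries.coeff (m / 2 ^ (d + 1)) S else 0)

lemma S_coeff (d : ℕ) (A : k) (S : PowerSeries k)
    (hS : X * S = CT k d * (PowerSeries.expand 2 two_ne_zero S
      - PowerSeries.C A * PowerSeries.expand (2 ^ d) (by positivity) S
      - PowerSeries.C A * PowerSeries.expand (2 ^ (d + 1)) (by positivity) S)) (e : ℕ) :
    PowerSeries.coeff e S = ∑ j ∈ Finset.range (e + 2), PowerSeries.coeff j (CT k d) *
      VV d A S (e + 1 - j) := by
  have h := congrArg (PowerSeries.coeff (e + 1)) hS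
  rw [PowerSeries.coeff_succ_X_mul, PowerSeries.coeff_mul,
    Finset.Nat.sum_antidiagonal_eq_sum_range_succ_mk] at h
  rw [h]
  apply Finset.sum_congr rfl
  intro j _
  simp only
  rw [map_sub, map_sub, PowerSeries.coeff_C_mul, PowerSeries.coeff_C_mul,
    PowerSeries.coeff_expand, PowerSeries.coeff_expand, PowerSeries.coeff_expand]
  rfl

lemma EvHyp.AA_eqs {ℓ : ℕ} {ω : k} {d g : ℕ} {S : PowerSeries k} (h : EvHyp ℓ ω d g S)
    (w : Fin 6 → ℕ → PowerSeries k) (hS2 : PowerSeries.coeff 2 S = -1)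
    (hid : ∀ e i, PowerSeries.C (PowerSeries.coeff e S) * w 0 i +
        PowerSeries.C ((ω ^ (2 ^ i)) ^ e * PowerSeries.coeff e S) * w 1 i +
        PowerSeries.C (((ω ^ 2) ^ (2 ^ i)) ^ e * PowerSeries.coeff e S) * w 2 i =
        (if 3 ∣ e then PowerSeries.C (PowerSeries.coeff (e / 3) S) * w 3 i else 0) +
        3 * (if 3 ^ d ∣ e then PowerSeries.C (PowerSeries.coeff (e / 3 ^ d) S) * w 4 i else 0) -
        (if 3 ^ (d + 1) ∣ e then PowerSeries.C (PowerSeries.coeff (e / 3 ^ (d + 1)) S) * w 5 i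
          else 0)) :
    (∀ i, w 0 i = w 1 i ∧ w 1 i = w 2 i) ∧
    ∀ e i, ¬ 3 ^ d ∣ 3 * e → 3 * (PowerSeries.C (PowerSeries.coeff (3 * e) S) * w 0 i) =
      PowerSeries.C (PowerSeries.coeff e S) * w 3 i := by
  have hω3 := h.cube
  have hd := h.hd
  have hno : ∀ e i, ¬ 3 ∣ e → PowerSeries.C (PowerSeries.coeff e S) * w 0 i +
        PowerSeries.C ((ω ^ (2 ^ i)) ^ e * PowerSeries.coeff e S) * w 1 i +
        PowerSeries.C (((ω ^ 2) ^ (2 ^ i)) ^ e * PowerSeries.coeff e S) * w 2 i = 0 := by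
    intro e i he
    rw [hid e i, if_neg he, if_neg (fun hh => he (dvd_trans (dvd_pow_self 3 (by omega)) hh)),
      if_neg (fun hh => he (dvd_trans (dvd_pow_self 3 (by omega)) hh))]
    ring
  have heq : ∀ i, w 0 i = w 1 i ∧ w 1 i = w 2 i := by
    intro i
    apply AA_equal h.hom h.two_ne h.three_ne i
    · have := hno 1 i (by norm_num)
      rw [h.hS1, map_one, one_mul, pow_one, pow_one, mul_one, mul_one] at this
      exact this
    · have := hno 2 i (by norm_num)
      rw [hS2, mul_neg, mul_neg, mul_one, mul_one, map_neg, map_neg, map_neg, map_one,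
        ← pow_mul, ← pow_mul, ← pow_succ] at this
      unfold AA
      linear_combination -this
  refine ⟨heq, ?_⟩
  intro e i he
  have h1 := hid (3 * e) i
  rw [if_pos (Dvd.intro _ rfl), if_neg he,
    if_neg (fun hh => he (dvd_trans (pow_dvd_pow 3 (by omega)) hh)),
    Nat.mul_div_cancel_left _ (by norm_num), mul_zero, add_zero, sub_zero] at h1
  have e1 : (ω ^ 2 ^ i) ^ (3 * e) = 1 := by
    rw [← pow_mul, show 2 ^ i * (3 * e) = 3 * (2 ^ i * e) by ring, pow_mul, hω3, one_pow]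
  have e2 : ((ω ^ 2) ^ 2 ^ i) ^ (3 * e) = 1 := by
    rw [← pow_mul, ← pow_mul, show 2 * (2 ^ i * (3 * e)) = 3 * (2 * (2 ^ i * e)) by ring, pow_mul, hω3,
      one_pow]
  rw [e1, e2, one_mul, ← (heq i).2, ← (heq i).1] at h1
  rw [← h1]; ring

lemma not_three_pow_dvd {d e : ℕ} (hd : 2 ≤ d) (he : ¬ 3 ∣ e) : ¬ 3 ^ d ∣ 3 * e := by
  intro hh
  have h1 : 3 * 3 ∣ 3 * e := dvd_trans (by
    have : 3 * 3 = 3 ^ 2 := by norm_num
    rw [this]; exact pow_dvd_pow 3 hd) hh
  exact he ((Nat.mul_dvd_mul_iff_left (by norm_num)).mp h1)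

/-- values of `S` for `d ≥ 3` -/
lemma S_vals_ge3 {d : ℕ} (hd : 3 ≤ d) (h2 : (2 : k) ≠ 0) (A : k) (S : PowerSeries k)
    (hS1 : PowerSeries.coeff 1 S = 1)
    (hS : X * S = CT k d * (PowerSeries.expand 2 two_ne_zero S
      - PowerSeries.C A * PowerSeries.expand (2 ^ d) (by positivity) S
      - PowerSeries.C A * PowerSeries.expand (2 ^ (d + 1)) (by positivity) S)) :
    PowerSeries.coeff 2 S = -1 ∧ PowerSeries.coeff 3 S = -1 ∧ PowerSeries.coeff 9 S = -1 := by
  have hct := CT_low_ge3 h2 d hd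
  have c0 : PowerSeries.coeff 0 (CT k d) = 1 := by
    rw [coeff_eq_of_dvd hct 0 (by norm_num)]; simp
  have c1 : PowerSeries.coeff 1 (CT k d) = -1 := by
    rw [coeff_eq_of_dvd hct 1 (by norm_num)]; simp [PowerSeries.coeff_one, PowerSeries.coeff_X]
  have cj : ∀ j, 2 ≤ j → j < 16 → PowerSeries.coeff j (CT k d) = 0 := by
    intro j h2j hj
    rw [coeff_eq_of_dvd hct j hj, map_sub, PowerSeries.coeff_one, PowerSeries.coeff_X,
      if_neg (by omega), if_neg (by omega), sub_zero]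
  have key : ∀ e, e < 14 → PowerSeries.coeff e S = VV d A S (e + 1) - VV d A S e := by
    intro e he
    rw [S_coeff d A S hS e, Finset.sum_range_succ', Finset.sum_range_succ', Finset.sum_eq_zero]
    · rw [zero_add, zero_add, c0, c1, Nat.sub_zero, Nat.add_sub_cancel]
      ring
    · intro j hj
      rw [Finset.mem_range] at hj
      rw [cj (j + 1 + 1) (by omega) (by omega), zero_mul]
  have vodd : ∀ m, ¬ 2 ∣ m → VV d A S m = 0 := by
    intro m hm
    unfold VV
    rw [if_neg hm, if_neg (fun hh => hm (dvd_trans (dvd_pow_self 2 (by omega)) hh)),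
      if_neg (fun hh => hm (dvd_trans (dvd_pow_self 2 (by omega)) hh))]
    ring
  have vev : ∀ m, ¬ 8 ∣ 2 * m → VV d A S (2 * m) = PowerSeries.coeff m S := by
    intro m hm
    unfold VV
    rw [if_pos (Dvd.intro _ rfl), if_neg (not_dvd_pow_two hd hm),
      if_neg (not_dvd_pow_two (by omega) hm), Nat.mul_div_cancel_left _ (by norm_num)]
    ring
  have s2 : PowerSeries.coeff 2 S = -1 := by
    rw [key 2 (by norm_num), vodd (2 + 1) (by norm_num), show 2 = 2 * 1 by norm_num,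
      vev 1 (by norm_num), hS1]; ring
  have s3 : PowerSeries.coeff 3 S = -1 := by
    rw [key 3 (by norm_num), vodd 3 (by norm_num), show 3 + 1 = 2 * 2 by norm_num,
      vev 2 (by norm_num), s2]; ring
  have s5 : PowerSeries.coeff 5 S = -1 := by
    rw [key 5 (by norm_num), vodd 5 (by norm_num), show 5 + 1 = 2 * 3 by norm_num,
      vev 3 (by norm_num), s3]; ring
  have s9 : PowerSeries.coeff 9 S = -1 := by
    rw [key 9 (by norm_num), vodd 9 (by norm_num), show 9 + 1 = 2 * 5 by norm_num,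
      vev 5 (by norm_num), s5]; ring
  exact ⟨s2, s3, s9⟩

/-- integer values of `S` for `d = 2` -/
def ss (j : ℕ) : ℤ :=
  [0, 1, -1, -5, 5, -5, 5, 5, -5, -6, 5, 31, -25, 5, -5, -31, 21, 5, 6, -11, -25, 51].getD j 0

/-- auxiliary bracket -/
def sv (m : ℕ) : ℤ :=
  (if 2 ∣ m then ss (m / 2) else 0) - 4 * (if 4 ∣ m then ss (m / 4) else 0)
    - 4 * (if 8 ∣ m then ss (m / 8) else 0)

lemma ss_rec : ∀ e, 2 ≤ e → e < 22 → ∑ j ∈ Finset.range (e + 2), tc j * sv (e + 1 - j) = ss e := by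
  decide +kernel

lemma S_vals_two (h2 : (2 : k) ≠ 0) (S : PowerSeries k) (hS0 : PowerSeries.coeff 0 S = 0)
    (hS1 : PowerSeries.coeff 1 S = 1)
    (hS : X * S = CT k 2 * (PowerSeries.expand 2 two_ne_zero S
      - PowerSeries.C ((-2) ^ 2) * PowerSeries.expand (2 ^ 2) (by positivity) S
      - PowerSeries.C ((-2) ^ 2) * PowerSeries.expand (2 ^ (2 + 1)) (by positivity) S)) :
    ∀ e, e < 22 → PowerSeries.coeff e S = (ss e : k) := by
  intro e
  induction e using Nat.strong_induction_on with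
  | _ e ih =>
    intro he
    rcases Nat.lt_or_ge e 2 with h | h
    · have : e = 0 ∨ e = 1 := by omega
      rcases this with rfl | rfl
      · rw [hS0]; simp [ss]
      · rw [hS1]; simp [ss]
    · rw [S_coeff 2 _ S hS e, ← ss_rec e h he, Int.cast_sum]
      apply Finset.sum_congr rfl
      intro j hj
      rw [Finset.mem_range] at hj
      rw [coeff_eq_of_dvd (CT_low_two h2) j (by omega), coeff_TC j (by omega)]
      unfold VV sv
      rw [show (2 ^ 2 : ℕ) = 4 by norm_num, show (2 ^ (2 + 1) : ℕ) = 8 by norm_num,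
        ih ((e + 1 - j) / 2) (by omega) (by omega), ih ((e + 1 - j) / 4) (by omega) (by omega),
        ih ((e + 1 - j) / 8) (by omega) (by omega)]
      split_ifs <;> push_cast <;> ring

/-- all solutions of the linearised system of the even class vanish -/
theorem EvHyp.zero {ℓ : ℕ} {ω : k} {d g : ℕ} {S : PowerSeries k} (h : EvHyp ℓ ω d g S)
    (s : Fin 6 → ℕ → PowerSeries k) (hs : EvSys ω d s) : ∀ o i, s o i = 0 := by
  have hω3 := h.cube
  have h2 := h.two_ne
  have h3 := h.three_ne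
  obtain ⟨w, hexp, hid⟩ := h.identity s hs
  have hP : ∀ n : ℕ, (n : k) ≠ 0 → ∀ a : PowerSeries k, (n : PowerSeries k) * a = 0 → a = 0 :=
    fun n hn a ha => (mul_eq_zero.mp ha).resolve_left (natCast_ne_zero_PS n hn)
  have hw0 : (∀ i, w 0 i = w 1 i ∧ w 1 i = w 2 i) ∧ ∀ i, w 0 i = 0 := by
    rcases Nat.eq_or_lt_of_le h.hd with hd | hd
    · subst hd
      have sv := S_vals_two h2 S h.hS0 h.hS1 h.hS
      have s2 : PowerSeries.coeff 2 S = -1 := by rw [sv 2 (by norm_num)]; simp [ss]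
      have s3 : PowerSeries.coeff 3 S = -5 := by rw [sv 3 (by norm_num)]; simp [ss]
      have s5 : PowerSeries.coeff 5 S = -5 := by rw [sv 5 (by norm_num)]; simp [ss]
      have s7 : PowerSeries.coeff 7 S = 5 := by rw [sv 7 (by norm_num)]; simp [ss]
      have s15 : PowerSeries.coeff 15 S = -31 := by rw [sv 15 (by norm_num)]; simp [ss]
      have s21 : PowerSeries.coeff 21 S = 51 := by rw [sv 21 (by norm_num)]; simp [ss]
      obtain ⟨heq, hrel⟩ := h.AA_eqs w s2 hid
      refine ⟨heq, ?_⟩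
      intro i
      have r1 := hrel 1 i (by norm_num)
      have r5 := hrel 5 i (by norm_num)
      have r7 := hrel 7 i (by norm_num)
      norm_num only at r1 r5 r7
      rw [s3, h.hS1] at r1
      rw [s15, s5] at r5
      rw [s21, s7] at r7
      simp only [map_neg, map_one, map_ofNat] at r1 r5 r7
      have : (12 : PowerSeries k) * w 0 i = 0 := by
        linear_combination 5 * r1 + 4 * r5 + 3 * r7
      exact hP 12 (by
        have : ((12 : ℕ) : k) = 2 ^ 2 * 3 := by norm_num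
        rw [this]; exact mul_ne_zero (pow_ne_zero _ h2) h3) _ (by exact_mod_cast this)
    · obtain ⟨s2, s3, s9⟩ := S_vals_ge3 hd h2 _ S h.hS1 h.hS
      obtain ⟨heq, hrel⟩ := h.AA_eqs w s2 hid
      refine ⟨heq, ?_⟩
      intro i
      have r1 := hrel 1 i (not_three_pow_dvd (by omega) (by norm_num))
      have r3 := hrel 3 i (by
        intro hh
        have h27 : 3 ^ 3 ∣ 3 * 3 := dvd_trans (pow_dvd_pow 3 hd) hh
        norm_num at h27)
      norm_num only at r1 r3
      rw [s3, h.hS1] at r1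
      rw [s9, s3] at r3
      simp only [map_neg, map_one] at r1 r3
      have : (6 : PowerSeries k) * w 0 i = 0 := by
        linear_combination -r1 - r3
      exact hP 6 (by
        have : ((6 : ℕ) : k) = 2 * 3 := by norm_num
        rw [this]; exact mul_ne_zero h2 h3) _ (by exact_mod_cast this)
  obtain ⟨heq, hw0⟩ := hw0
  have hw1 : ∀ i, w 1 i = 0 := fun i => by rw [← (heq i).1]; exact hw0 i
  have hw2 : ∀ i, w 2 i = 0 := fun i => by rw [← (heq i).2]; exact hw1 i
  have hd := h.hd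
  have hw3 : ∀ i, w 3 i = 0 := by
    intro i
    have h1 := hid 3 i
    have h9 : ∀ c, 2 ≤ c → ¬ 3 ^ c ∣ 3 := by
      intro c hc hh
      have h1 : 3 ^ 2 ∣ 3 := dvd_trans (pow_dvd_pow 3 hc) hh
      norm_num at h1
    rw [hw0, hw1, hw2, if_pos (dvd_refl 3), if_neg (h9 d hd), if_neg (h9 (d + 1) (by omega)),
      Nat.div_self (by norm_num), h.hS1, map_one] at h1
    linear_combination -h1
  have hw4 : ∀ i, w 4 i = 0 := by
    intro i
    have h1 := hid (3 ^ d) i
    have hnd : ¬ 3 ^ (d + 1) ∣ 3 ^ d := by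
      rw [Nat.pow_dvd_pow_iff_le_right (by norm_num)]
      omega
    rw [hw0, hw1, hw2, hw3, if_pos (dvd_refl (3 ^ d)), if_neg hnd, Nat.div_self (by positivity),
      h.hS1, map_one] at h1
    simp only [mul_zero, ite_self] at h1
    have h5 : (3 : PowerSeries k) * w 4 i = 0 := by linear_combination -h1
    exact hP 3 (by exact_mod_cast h3) _ (by exact_mod_cast h5)
  have hw5 : ∀ i, w 5 i = 0 := by
    intro i
    have h1 := hid (3 ^ (d + 1)) i
    rw [hw0, hw1, hw2, hw3, hw4, if_pos (dvd_refl (3 ^ (d + 1))), Nat.div_self (by positivity),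
      h.hS1, map_one] at h1
    simp only [mul_zero, ite_self] at h1
    linear_combination h1
  intro o
  have hwo : ∀ i, w o i = 0 := by
    fin_cases o
    · exact hw0
    · exact hw1
    · exact hw2
    · exact hw3
    · exact hw4
    · exact hw5
  exact orbit_zero_of_w S d o (3 ^ (d + 1)) (oη ω o) (s o) (w o) hwo (fun n i => hexp o n i)

end Run7.h751
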