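import Pool.Agent.Run7.h751.DerCrit

open Finset

namespace Run7.h751

/-- strong induction with a window of length `d+1`. -/
lemma window_induction (d : ℕ) (hd : 1 ≤ d) (p : ℕ → Prop) (h0 : ∀ i, i < d + 1 → p i)
    (h1 : ∀ i, p i → p (i + 1) → p (i + d) → p (i + d + 1)) : ∀ i, p i := by
  intro i
  induction i using Nat.strong_induction_on with
  | _ i ih =>
    by_cases hi : i < d + 1
    · exact h0 i hi
    · obtain ⟨j, rfl⟩ : ∃ j, i = j + d + 1 := ⟨i - (d + 1), by omega⟩
      exact h1 j (ih j (by omega)) (ih (j + 1) (by omega)) (ih (j + d) (by omega))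

section
variable {F0 Λ P : Type*} [Field F0] [Field Λ] [Algebra F0 Λ] [CommRing P] [IsDomain P]
  [Algebra P Λ] [IsFractionRing P Λ]

/-- the reduction to the linearised system. -/
theorem reduction_abs (d : ℕ) (hd : 1 ≤ d) (ε : P) (hε : ε = 1 ∨ ε = -1) (h2 : (2 : Λ) ≠ 0)
    (f g h : Fin 6 → ℕ → P) (hf : ∀ o i, IsUnit (f o i)) (hg : ∀ o i, IsUnit (g o i))
    (hh : ∀ o i, IsAlgebraic F0 (algebraMap P Λ (h o i)))
    (R2 : ∀ o i, f o i - ε * g o i = 2 * h o i)
    (R1 : ∀ o i, f o i * g o i * f o (i + d + 1) = f o (i + 1) * f o (i + d) ^ 2)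
    (R3 : ∀ i, f 0 i * f 1 i * f 2 i * f 5 i = f 3 i * f 4 i ^ 3)
    (hsys : ∀ s : Fin 6 → ℕ → P,
      (∀ o i, (g o i + ε * f o i) * s o i =
        g o i * (s o (i + 1) + 2 * s o (i + d) - s o (i + d + 1))) →
      (∀ i, s 0 i + s 1 i + s 2 i + s 5 i = s 3 i + 3 * s 4 i) → ∀ o i, s o i = 0) :
    ∀ o i, IsAlgebraic F0 (algebraMap P Λ (f o i)) := by
  classical
  have hε2 : ε * ε = 1 := by rcases hε with h | h <;> rw [h] <;> ring
  have hinj : Function.Injective (algebraMap P Λ) := IsFractionRing.injective P Λ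
  set K := algebraicClosure F0 Λ with hK
  set ι := algebraMap P Λ with hι
  have hfne : ∀ o i, ι (f o i) ≠ 0 := fun o i => ((hf o i).map ι).ne_zero
  have hgne : ∀ o i, ι (g o i) ≠ 0 := fun o i => ((hg o i).map ι).ne_zero
  set S : Finset Λ := ((Finset.univ : Finset (Fin 6)) ×ˢ Finset.range (d + 1)).image
    (fun p => ι (f p.1 p.2)) with hS
  set L := IntermediateField.adjoin K (S : Set Λ) with hL
  have hKL : ∀ x : Λ, IsAlgebraic F0 x → x ∈ L := by
    intro x hx
    have hxK : x ∈ K := mem_algebraicClosure_iff.mpr hx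
    exact L.algebraMap_mem ⟨x, hxK⟩
  have h2' : (2 : Λ) ≠ 0 := h2
  have hgL : ∀ o i, ι (f o i) ∈ L → ι (g o i) ∈ L := by
    intro o i hfi
    have e : g o i = ε * (f o i - 2 * h o i) := by
      have := R2 o i
      linear_combination (- ε) * this + (- g o i) * hε2
    rw [e, map_mul, map_sub, map_mul]
    have h2L : ι 2 ∈ L := by rw [map_ofNat]; exact ofNat_mem L 2
    have hεL : ι ε ∈ L := by
      rcases hε with h | h
      · rw [h, map_one]; exact one_mem L
      · rw [h, map_neg, map_one]; exact neg_mem (one_mem L)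
    exact mul_mem hεL (sub_mem hfi (mul_mem h2L (hKL _ (hh o i))))
  have hfL : ∀ o i, ι (f o i) ∈ L := by
    intro o
    apply window_induction d hd
    · intro i hi
      apply IntermediateField.subset_adjoin
      rw [hS, Finset.mem_coe, Finset.mem_image]
      exact ⟨(o, i), by simp [hi], rfl⟩
    · intro i h0 h1 h2
      have e : ι (f o (i + d + 1)) = ι (f o (i + 1)) * ι (f o (i + d)) ^ 2 *
          (ι (f o i) * ι (g o i))⁻¹ := by
        rw [eq_mul_inv_iff_mul_eq₀ (mul_ne_zero (hfne o i) (hgne o i)), ← map_mul, ← map_mul,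
          ← map_pow, ← map_mul, ← R1 o i]
        congr 1; ring
      rw [e]
      exact mul_mem (mul_mem h1 (pow_mem h2 2)) (inv_mem (mul_mem h0 (hgL o i h0)))
  have hcrit : ∀ D : Derivation K L Λ, ∀ o i, D ⟨ι (f o i), hfL o i⟩ = 0 := by
    intro D
    set Fe : Fin 6 → ℕ → L := fun o i => ⟨ι (f o i), hfL o i⟩ with hFe
    set Ge : Fin 6 → ℕ → L := fun o i => ⟨ι (g o i), hgL o i (hfL o i)⟩ with hGe
    have hsm : ∀ (a : L) (x : Λ), a • x = (a : Λ) * x := fun a x => rfl
    -- derivative of g
    have hDg : ∀ o i, D (Ge o i) = ι ε * D (Fe o i) := by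
      intro o i
      set He : K := ⟨ι (h o i), mem_algebraicClosure_iff.mpr (hh o i)⟩ with hHe
      rcases hε with he | he
      · have e1 : Ge o i = Fe o i - algebraMap K L (2 * He) := by
          apply Subtype.ext
          show ι (g o i) = ι (f o i) - (2 * ι (h o i))
          have := R2 o i
          rw [he] at this
          have e2 : g o i = f o i - 2 * h o i := by linear_combination -this
          rw [e2, map_sub, map_mul, map_ofNat]
        rw [e1, map_sub, Derivation.map_algebraMap, sub_zero, he, map_one, one_mul]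
      · have e1 : Ge o i = - Fe o i + algebraMap K L (2 * He) := by
          apply Subtype.ext
          show ι (g o i) = - ι (f o i) + (2 * ι (h o i))
          have := R2 o i
          rw [he] at this
          have e2 : g o i = - f o i + 2 * h o i := by linear_combination this
          rw [e2, map_add, map_neg, map_mul, map_ofNat]
        rw [e1, map_add, Derivation.map_algebraMap, add_zero, map_neg, he, map_neg, map_one]
        ring
    set v : Fin 6 → ℕ → Λ := fun o i => D (Fe o i) / ι (f o i) with hv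
    have hDv : ∀ o i, D (Fe o i) = ι (f o i) * v o i := by
      intro o i
      rw [hv]; field_simp [hfne o i]
    have V1 : ∀ o i, (ι (g o i) + ι ε * ι (f o i)) * v o i =
        ι (g o i) * (v o (i + 1) + 2 * v o (i + d) - v o (i + d + 1)) := by
      intro o i
      have e : Fe o i * Ge o i * Fe o (i + d + 1) = Fe o (i + 1) * (Fe o (i + d) * Fe o (i + d)) := by
        apply Subtype.ext
        show ι (f o i) * ι (g o i) * ι (f o (i + d + 1)) =
          ι (f o (i + 1)) * (ι (f o (i + d)) * ι (f o (i + d)))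
        rw [← map_mul, ← map_mul, ← map_mul, ← map_mul, R1 o i, pow_two]
      have e2 := congrArg D e
      rw [Derivation.leibniz, Derivation.leibniz, Derivation.leibniz, Derivation.leibniz] at e2
      simp only [hsm, hDg] at e2
      rw [hDv, hDv, hDv, hDv] at e2
      have q : ι (f o i) * ι (g o i) * ι (f o (i + d + 1)) =
          ι (f o (i + 1)) * ι (f o (i + d)) ^ 2 := by
        rw [← map_mul, ← map_mul, ← map_pow, ← map_mul, R1 o i]
      have c1 : ((Fe o i * Ge o i : L) : Λ) = ι (f o i) * ι (g o i) := rfl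
      have c2 : ((Fe o (i + d + 1) : L) : Λ) = ι (f o (i + d + 1)) := rfl
      have c3 : ((Fe o i : L) : Λ) = ι (f o i) := rfl
      have c4 : ((Ge o i : L) : Λ) = ι (g o i) := rfl
      have c5 : ((Fe o (i + 1) : L) : Λ) = ι (f o (i + 1)) := rfl
      have c6 : ((Fe o (i + d) : L) : Λ) = ι (f o (i + d)) := rfl
      have c7 : ((Fe o (i + d) * Fe o (i + d) : L) : Λ) = ι (f o (i + d)) * ι (f o (i + d)) := rfl
      rw [c1, c2, c3, c4, c5, c6, c7] at e2
      have hne : ι (f o i) * ι (f o (i + d + 1)) ≠ 0 := mul_ne_zero (hfne _ _) (hfne _ _)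
      apply mul_left_cancel₀ hne
      linear_combination e2 - (v o (i + 1) + 2 * v o (i + d)) * q
    have V3 : ∀ i, v 0 i + v 1 i + v 2 i + v 5 i = v 3 i + 3 * v 4 i := by
      intro i
      have e : Fe 0 i * Fe 1 i * Fe 2 i * Fe 5 i = Fe 3 i * (Fe 4 i * Fe 4 i * Fe 4 i) := by
        apply Subtype.ext
        show ι (f 0 i) * ι (f 1 i) * ι (f 2 i) * ι (f 5 i) =
          ι (f 3 i) * (ι (f 4 i) * ι (f 4 i) * ι (f 4 i))
        simp only [← map_mul]
        rw [R3 i]
        congr 1; ring
      have e2 := congrArg D e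
      simp only [Derivation.leibniz] at e2
      simp only [hsm] at e2
      rw [hDv, hDv, hDv, hDv, hDv, hDv] at e2
      have q : ι (f 0 i) * ι (f 1 i) * ι (f 2 i) * ι (f 5 i) = ι (f 3 i) * ι (f 4 i) ^ 3 := by
        simp only [← map_mul, ← map_pow, R3 i]
      have c1 : ((Fe 0 i * Fe 1 i * Fe 2 i : L) : Λ) = ι (f 0 i) * ι (f 1 i) * ι (f 2 i) := rfl
      have c2 : ((Fe 0 i * Fe 1 i : L) : Λ) = ι (f 0 i) * ι (f 1 i) := rfl
      have c3 : ∀ o, ((Fe o i : L) : Λ) = ι (f o i) := fun _ => rfl
      have c7 : ((Fe 4 i * Fe 4 i * Fe 4 i : L) : Λ) = ι (f 4 i) * ι (f 4 i) * ι (f 4 i) := rfl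
      have c8 : ((Fe 4 i * Fe 4 i : L) : Λ) = ι (f 4 i) * ι (f 4 i) := rfl
      rw [c1, c2, c7, c8] at e2
      simp only [c3] at e2
      have hne : ι (f 3 i) * ι (f 4 i) ^ 3 ≠ 0 := mul_ne_zero (hfne _ _) (pow_ne_zero _ (hfne _ _))
      apply mul_left_cancel₀ hne
      linear_combination e2 - (v 0 i + v 1 i + v 2 i + v 5 i) * q
    -- clear denominators
    obtain ⟨c, hc⟩ := IsLocalization.exist_integer_multiples_of_finite (nonZeroDivisors P)
      (fun p : Fin 6 × Fin (d + 1) => v p.1 p.2)
    have hc0 : ι (c : P) ≠ 0 := by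
      rw [Ne, map_eq_zero_iff _ hinj]
      exact nonZeroDivisors.coe_ne_zero c
    have hint : ∀ o i, ∃ y : P, ι y = ι (c : P) * v o i := by
      intro o
      apply window_induction d hd
      · intro i hi
        obtain ⟨y, hy⟩ := hc (o, ⟨i, hi⟩)
        refine ⟨y, ?_⟩
        rw [hι, hy, Algebra.smul_def]
      · rintro i ⟨y0, hy0⟩ ⟨y1, hy1⟩ ⟨y2, hy2⟩
        obtain ⟨gi, hgi⟩ := (hg o i).exists_right_inv
        refine ⟨y1 + 2 * y2 - gi * (g o i + ε * f o i) * y0, ?_⟩
        have hgi' : ι (g o i) * ι gi = 1 := by rw [← map_mul, hgi, map_one]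
        simp only [map_sub, map_add, map_mul, map_ofNat, hy0, hy1, hy2]
        have hV := V1 o i
        linear_combination (- ι gi * ι (c : P)) * hV -
          (ι (c : P) * (v o (i + 1) + 2 * v o (i + d) - v o (i + d + 1))) * hgi'
    choose s hs using hint
    have hs0 := hsys s (by
      intro o i
      apply hinj
      simp only [map_mul, map_add, map_sub, map_ofNat]
      rw [hs, hs, hs, hs]
      linear_combination (ι (c : P)) * V1 o i) (by
      intro i
      apply hinj
      simp only [map_mul, map_add, map_ofNat]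
      rw [hs, hs, hs, hs, hs, hs]
      linear_combination (ι (c : P)) * V3 i)
    intro o i
    have h1 := hs o i
    rw [hs0, map_zero] at h1
    have h3 : v o i = 0 := (mul_eq_zero.mp h1.symm).resolve_left hc0
    show D (Fe o i) = 0
    rw [hDv, h3, mul_zero]
  have hfin := der_criterion S (by
    intro D x hx
    rw [hS, Finset.mem_coe, Finset.mem_image] at hx
    obtain ⟨p, hp, rfl⟩ := hx
    exact hcrit D p.1 p.2)
  intro o i
  have h1 : IsAlgebraic K (ι (f o i)) := hfin _ (hfL o i)
  exact h1.restrictScalars F0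

end

end Run7.h751
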