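import Pool.Agent.Run7.h751.Oev

open PowerSeries Finset

namespace Run7.h751

variable {k : Type*} [Field k]

/-- the odd part of the generating series -/
noncomputable def F1 (k : Type*) [Field k] (d : ℕ) : PowerSeries k :=
  PowerSeries.mk fun n => if n % 2 = 1 then (pd d n : k) else 0

lemma FF_sub_FM (d : ℕ) : FF k d - 1 * FM k d = 2 * F1 k d := by
  ext n
  rw [one_mul, map_sub, coeff_two_mul]
  unfold FM FF F1
  rw [PowerSeries.coeff_rescale, PowerSeries.coeff_mk, PowerSeries.coeff_mk]
  split_ifs with h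
  · have : (-1 : k) ^ n = -1 := Odd.neg_one_pow (Nat.odd_iff.mpr h)
    rw [this]; ring
  · have : (-1 : k) ^ n = 1 := Even.neg_one_pow (Nat.even_iff.mpr (by omega))
    rw [this]; ring

theorem odd_transcendental {ω : k} (hω : 1 + ω + ω ^ 2 = 0) (ℓ : ℕ) [hℓ : Fact ℓ.Prime] [CharP k ℓ]
    (hℓ5 : 5 ≤ ℓ) (d : ℕ) (hd : 2 ≤ d) : Transcendental (Polynomial k) (F1 k d) := by
  intro halg
  have hd0 : d ≠ 0 := by omega
  have h2 : (2 : k) ≠ 0 := by
    intro h2
    have h3 : ((2 : ℕ) : k) = 0 := by exact_mod_cast h2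
    rw [CharP.cast_eq_zero_iff k ℓ] at h3
    have := (Nat.prime_dvd_prime_iff_eq hℓ.out Nat.prime_two).mp h3
    omega
  refine reduction hω ℓ (by omega) d hd 1 (Or.inl rfl) (F1 k d) (FF_sub_FM d) halg ?_
  intro s hs hrel
  have hnz : ∀ o i, om d o * 2 ^ i ≠ 0 := fun o i => by
    have := om_pos d o
    positivity
  have key : ∀ o i, 2 * s o i = oev (oη ω o) (om d o) i (CS k d) *
      (s o (i + 1) + 2 * s o (i + d) - s o (i + d + 1)) := by
    intro o i
    have h1 := congrArg (oevH (oη ω o) (om d o) i (hnz o i)) (CS_mul h2 d hd0)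
    rw [map_mul, map_add, map_mul, map_ofNat] at h1
    simp only [← oev_eq] at h1
    have hu : IsUnit (oev (oη ω o) (om d o) i (FM k d)) := by
      rw [oev_eq _ _ _ (hnz o i), PowerSeries.isUnit_iff_constantCoeff, constantCoeff_oevH,
        constCoeff_FM d hd0]
      exact isUnit_one
    have h3 := hs o i
    rw [one_mul] at h3
    apply hu.mul_left_cancel
    linear_combination (oev (oη ω o) (om d o) i (CS k d)) * h3 - s o i * h1
  let S : Sys ω d (CS k d) :=
    { s := fun a i => s (Fin.castLE (by norm_num : 3 ≤ 6) a) i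
      y1 := s 3
      yd := s 4
      yD := s 5
      hs := by
        intro a i
        have h := key (Fin.castLE (by norm_num : 3 ≤ 6) a) i
        have e1 : oη ω (Fin.castLE (by norm_num : 3 ≤ 6) a) = ω ^ (a : ℕ) := by
          fin_cases a <;> simp [oη]
        have e2 : om d (Fin.castLE (by norm_num : 3 ≤ 6) a) = 1 := by
          fin_cases a <;> simp [om]
        rw [e1, e2] at h
        exact h
      h1 := fun i => key 3 i
      hd := fun i => key 4 i
      hD := fun i => key 5 i
      rel := by
        intro i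
        have h := hrel i
        rw [Fin.sum_univ_three]
        show s 0 i + s 1 i + s 2 i = _
        linear_combination h }
  obtain ⟨z, z1, zd, zD⟩ := S.zero hω hd ℓ hℓ5
  intro o i
  fin_cases o
  · exact z 0 i
  · exact z 1 i
  · exact z 2 i
  · exact z1 i
  · exact zd i
  · exact zD i

end Run7.h751
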