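import Pool.Agent.Run7.h751.Transc

open PowerSeries Finset

namespace Run7.h751

variable {k : Type*} [Field k]

lemma expand_coe_poly (a : ℕ) (ha : a ≠ 0) (P : Polynomial k) :
    PowerSeries.expand a ha (P : PowerSeries k) = ((Polynomial.expand k a P : Polynomial k) :
      PowerSeries k) := by
  ext n
  rw [PowerSeries.coeff_expand, Polynomial.coeff_coe, Polynomial.coeff_coe,
    Polynomial.coeff_expand (Nat.pos_of_ne_zero ha)]

lemma isAlgebraic_expand (a : ℕ) (ha : a ≠ 0) (g : PowerSeries k)
    (hg : IsAlgebraic (Polynomial k) g) :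
    IsAlgebraic (Polynomial k) (PowerSeries.expand a ha g) := by
  obtain ⟨p, hp0, hp⟩ := hg
  refine ⟨p.map (Polynomial.expand k a : Polynomial k →+* Polynomial k), ?_, ?_⟩
  · rw [Ne, Polynomial.map_eq_zero_iff]
    · exact hp0
    · exact Polynomial.expand_injective (Nat.pos_of_ne_zero ha)
  · rw [Polynomial.aeval_def, Polynomial.eval₂_map]
    have h1 : (algebraMap (Polynomial k) (PowerSeries k)).comp
        (Polynomial.expand k a : Polynomial k →+* Polynomial k)
        = ((PowerSeries.expand a ha : PowerSeries k →ₐ[k] PowerSeries k) :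
          PowerSeries k →+* PowerSeries k).comp (algebraMap (Polynomial k) (PowerSeries k)) := by
      apply RingHom.ext
      intro P
      exact (expand_coe_poly a ha P).symm
    rw [h1, ← RingHom.coe_coe (PowerSeries.expand a ha), ← Polynomial.hom_eval₂]
    rw [Polynomial.aeval_def] at hp
    rw [hp, map_zero]

/-- A power series is the sum of its sections. -/
lemma eq_sum_sections (a : ℕ) (ha : a ≠ 0) (f : ℕ → k) :
    PowerSeries.mk f = ∑ b ∈ Finset.range a, X ^ b *
      PowerSeries.expand a ha (PowerSeries.mk fun n => f (a * n + b)) := by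
  ext n
  rw [PowerSeries.coeff_mk, map_sum]
  have hpos : 0 < a := Nat.pos_of_ne_zero ha
  rw [Finset.sum_eq_single (n % a)]
  · rw [PowerSeries.coeff_X_pow_mul', if_pos (Nat.mod_le n a), PowerSeries.coeff_expand,
      if_pos (Nat.dvd_sub_mod n), PowerSeries.coeff_mk]
    congr 1
    have h1 := Nat.div_add_mod n a
    have h2 : n - n % a = a * (n / a) := by omega
    rw [h2, Nat.mul_div_cancel_left _ hpos]
    omega
  · intro b hb hbn
    rw [Finset.mem_range] at hb
    rw [PowerSeries.coeff_X_pow_mul']
    split_ifs with h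
    · rw [PowerSeries.coeff_expand, if_neg]
      intro hdvd
      apply hbn
      obtain ⟨c, hc⟩ := hdvd
      have : n = b + a * c := by omega
      rw [this, Nat.add_mul_mod_self_left, Nat.mod_eq_of_lt hb]
    · rfl
  · intro h
    exact absurd (Finset.mem_range.mpr (Nat.mod_lt n hpos)) h

theorem exists_section_transcendental (ℓ : ℕ) [hℓ : Fact ℓ.Prime] [CharP k ℓ] (d : ℕ)
    (hd : 2 ≤ d) (a : ℕ) (ha : a ≠ 0) :
    ∃ b < a, Transcendental (Polynomial k)
      (PowerSeries.mk fun n => (pd d (a * n + b) : k)) := by
  by_contra hcon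
  push Not at hcon
  apply FF_transcendental (k := k) ℓ d hd
  have h := eq_sum_sections a ha (fun n => (pd d n : k))
  rw [FF, h]
  refine Finset.sum_induction _ (fun g => IsAlgebraic (Polynomial k) g)
    (fun a b ha hb => ha.add hb) isAlgebraic_zero ?_
  intro b hb
  rw [Finset.mem_range] at hb
  have h1 := hcon b hb
  rw [Transcendental, not_not] at h1
  apply IsAlgebraic.mul
  · apply IsAlgebraic.pow
    rw [← Polynomial.coe_X]
    exact isAlgebraic_algebraMap (Polynomial.X : Polynomial k)
  · exact isAlgebraic_expand a ha _ h1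

end Run7.h751
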