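import Pool.Agent.Run7.h751.An9
import Pool.Agent.Run7.h751.Fld
import Pool.Agent.Run7.h751.Section

open PowerSeries Finset

namespace Run7.h751

variable {k : Type*} [Field k]

lemma rescale_expand (c : k) (a : ℕ) (ha : a ≠ 0) (f : PowerSeries k) :
    PowerSeries.rescale c (PowerSeries.expand a ha f) =
      PowerSeries.expand a ha (PowerSeries.rescale (c ^ a) f) := by
  ext n
  rw [PowerSeries.coeff_rescale, PowerSeries.coeff_expand, PowerSeries.coeff_expand]
  split_ifs with h
  · rw [PowerSeries.coeff_rescale, ← pow_mul, Nat.mul_div_cancel' h]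
  · rw [mul_zero]

lemma expand_congr {a b : ℕ} (h : a = b) (ha : a ≠ 0) (hb : b ≠ 0) (f : PowerSeries k) :
    PowerSeries.expand a ha f = PowerSeries.expand b hb f := by
  subst h; rfl

/-- the evaluation as a ring homomorphism -/
noncomputable def oevH (η : k) (m i : ℕ) (h : m * 2 ^ i ≠ 0) : PowerSeries k →+* PowerSeries k :=
  ((PowerSeries.expand (m * 2 ^ i) h : PowerSeries k →ₐ[k] PowerSeries k) :
    PowerSeries k →+* PowerSeries k).comp (PowerSeries.rescale (η ^ (2 ^ i)))

lemma oev_eq (η : k) (m i : ℕ) (h : m * 2 ^ i ≠ 0) (f : PowerSeries k) :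
    oev η m i f = oevH η m i h f := by
  unfold oev oevH
  rw [dif_pos h]; rfl

lemma constantCoeff_oevH (η : k) (m i : ℕ) (h : m * 2 ^ i ≠ 0) (f : PowerSeries k) :
    PowerSeries.constantCoeff (oevH η m i h f) = PowerSeries.constantCoeff f := by
  rw [← oev_eq, ← PowerSeries.coeff_zero_eq_constantCoeff_apply,
    ← PowerSeries.coeff_zero_eq_constantCoeff_apply]
  have hm : 1 ≤ m := by
    rcases Nat.eq_zero_or_pos m with h0 | h0
    · subst h0; simp at h
    · exact h0
  rw [coeff_oev η m i hm, if_pos (dvd_zero _), Nat.zero_div, pow_zero, one_mul]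

lemma oev_expand_two (η : k) (m i j : ℕ) (hm : 1 ≤ m) (h : 2 ^ j ≠ 0) (f : PowerSeries k) :
    oev η m i (PowerSeries.expand (2 ^ j) h f) = oev η m (i + j) f := by
  have h1 : m * 2 ^ i ≠ 0 := by positivity
  have h2 : m * 2 ^ (i + j) ≠ 0 := by positivity
  unfold oev
  rw [dif_pos h1, dif_pos h2, rescale_expand, ← PowerSeries.expand_mul (m * 2 ^ i) h1 (2 ^ j) h,
    ← pow_mul, ← pow_add]
  exact expand_congr (by rw [pow_add]; ring) _ _ _

lemma expand_oev (m i : ℕ) (hm : m ≠ 0) (h : 2 ^ i ≠ 0) (f : PowerSeries k) :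
    PowerSeries.expand (2 ^ i) h (PowerSeries.expand m hm f) = oev 1 m i f := by
  have h1 : m * 2 ^ i ≠ 0 := mul_ne_zero hm h
  unfold oev
  rw [dif_pos h1, one_pow, PowerSeries.rescale_one, RingHom.id_apply,
    ← PowerSeries.expand_mul (2 ^ i) h m hm]
  exact expand_congr (by ring) _ _ _

lemma expand_rescale_oev (η : k) (i : ℕ) (h : 2 ^ i ≠ 0) (f : PowerSeries k) :
    PowerSeries.expand (2 ^ i) h (PowerSeries.rescale (η ^ (2 ^ i)) f) = oev η 1 i f := by
  have h1 : 1 * 2 ^ i ≠ 0 := mul_ne_zero one_ne_zero h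
  unfold oev
  rw [dif_pos h1]
  exact expand_congr (by ring) _ _ _

/-- orbit data: roots of unity -/
def oη (ω : k) (o : Fin 6) : k := if o = 1 then ω else if o = 2 then ω ^ 2 else 1

/-- orbit data: exponents -/
def om (d : ℕ) (o : Fin 6) : ℕ :=
  if o = 3 then 3 else if o = 4 then 3 ^ d else if o = 5 then 3 ^ (d + 1) else 1

lemma om_pos (d : ℕ) (o : Fin 6) : 1 ≤ om d o := by
  unfold om
  split_ifs
  · norm_num
  · exact Nat.one_le_pow _ _ (by norm_num)
  · exact Nat.one_le_pow _ _ (by norm_num)
  · norm_num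

/-- algebraicity is preserved by rescaling -/
lemma isAlgebraic_rescale (c : k) (hc : c ≠ 0) (g : PowerSeries k)
    (hg : IsAlgebraic (Polynomial k) g) :
    IsAlgebraic (Polynomial k) (PowerSeries.rescale c g) := by
  obtain ⟨p, hp0, hp⟩ := hg
  have hcoe : ∀ P : Polynomial k, PowerSeries.rescale c (P : PowerSeries k) =
      ((P.comp (Polynomial.C c * Polynomial.X) : Polynomial k) : PowerSeries k) := by
    intro P
    ext n
    rw [PowerSeries.coeff_rescale, Polynomial.coeff_coe, Polynomial.coeff_coe,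
      Polynomial.comp_C_mul_X_coeff, mul_comm]
  refine ⟨p.map (Polynomial.compRingHom (Polynomial.C c * Polynomial.X)), ?_, ?_⟩
  · rw [Ne, Polynomial.map_eq_zero_iff]
    · exact hp0
    · intro P Q hPQ
      have hPQ' : P.comp (Polynomial.C c * Polynomial.X) = Q.comp (Polynomial.C c * Polynomial.X) :=
        hPQ
      have h1 : PowerSeries.rescale c (P : PowerSeries k) = PowerSeries.rescale c (Q : PowerSeries k) := by
        rw [hcoe, hcoe, hPQ']
      have h2 := PowerSeries.rescale_injective hc h1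
      exact_mod_cast h2
  · rw [Polynomial.aeval_def, Polynomial.eval₂_map]
    have h1 : (algebraMap (Polynomial k) (PowerSeries k)).comp
        (Polynomial.compRingHom (Polynomial.C c * Polynomial.X))
        = (PowerSeries.rescale c).comp (algebraMap (Polynomial k) (PowerSeries k)) := by
      apply RingHom.ext
      intro P
      exact (hcoe P).symm
    rw [h1, ← Polynomial.hom_eval₂]
    rw [Polynomial.aeval_def] at hp
    rw [hp, map_zero]

lemma isAlgebraic_oev (η : k) (hη : η ≠ 0) (m i : ℕ) (hm : 1 ≤ m) (g : PowerSeries k)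
    (hg : IsAlgebraic (Polynomial k) g) : IsAlgebraic (Polynomial k) (oev η m i g) := by
  have h1 : m * 2 ^ i ≠ 0 := by positivity
  unfold oev
  rw [dif_pos h1]
  exact isAlgebraic_expand _ _ _ (isAlgebraic_rescale _ (pow_ne_zero _ hη) _ hg)

/-- the concrete reduction. -/
theorem reduction {ω : k} (hω : 1 + ω + ω ^ 2 = 0) (ℓ : ℕ) [hℓ : Fact ℓ.Prime] [CharP k ℓ]
    (hℓ2 : ℓ ≠ 2) (d : ℕ) (hd : 2 ≤ d) (ε : PowerSeries k) (hε : ε = 1 ∨ ε = -1)
    (Fc : PowerSeries k) (hFc : FF k d - ε * FM k d = 2 * Fc)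
    (halg : IsAlgebraic (Polynomial k) Fc)
    (hsys : ∀ s : Fin 6 → ℕ → PowerSeries k,
      (∀ o i, (oev (oη ω o) (om d o) i (FM k d) + ε * oev (oη ω o) (om d o) i (FF k d)) * s o i =
        oev (oη ω o) (om d o) i (FM k d) * (s o (i + 1) + 2 * s o (i + d) - s o (i + d + 1))) →
      (∀ i, s 0 i + s 1 i + s 2 i + s 5 i = s 3 i + 3 * s 4 i) → ∀ o i, s o i = 0) : False := by
  have hd0 : d ≠ 0 := by omega
  have hω3 : ω ^ 3 = 1 := by linear_combination (ω - 1) * hω
  have hω0 : ω ≠ 0 := by
    rintro rfl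
    norm_num at hω3
  have hη : ∀ o, oη ω o ≠ 0 := by
    intro o
    unfold oη
    split_ifs
    · exact hω0
    · exact pow_ne_zero _ hω0
    · exact one_ne_zero
  have hnz : ∀ o i, om d o * 2 ^ i ≠ 0 := fun o i => by
    have := om_pos d o
    positivity
  have hun : ∀ (G : PowerSeries k), PowerSeries.constantCoeff G = 1 → ∀ o i,
      IsUnit (oev (oη ω o) (om d o) i G) := by
    intro G hG o i
    rw [oev_eq _ _ _ (hnz o i), PowerSeries.isUnit_iff_constantCoeff, constantCoeff_oevH, hG]
    exact isUnit_one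
  haveI hfaith : FaithfulSMul (Polynomial k) (PowerSeries k) := by
    rw [faithfulSMul_iff_algebraMap_injective]
    exact Polynomial.coe_injective k
  haveI hfaith2 : FaithfulSMul (Polynomial k) (FractionRing (PowerSeries k)) := inferInstance
  letI : Algebra (FractionRing (Polynomial k)) (FractionRing (PowerSeries k)) :=
    FractionRing.liftAlgebra (Polynomial k) (FractionRing (PowerSeries k))
  haveI : IsScalarTower (Polynomial k) (FractionRing (Polynomial k))
    (FractionRing (PowerSeries k)) := FractionRing.isScalarTower_liftAlgebra (Polynomial k) (FractionRing (PowerSeries k))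
  have hinj : Function.Injective (algebraMap (PowerSeries k) (FractionRing (PowerSeries k))) :=
    IsFractionRing.injective (PowerSeries k) (FractionRing (PowerSeries k))
  have h2ne : (2 : FractionRing (PowerSeries k)) ≠ 0 := by
    have h2k : (2 : k) ≠ 0 := by
      intro h2
      have h3 : ((2 : ℕ) : k) = 0 := by exact_mod_cast h2
      rw [CharP.cast_eq_zero_iff k ℓ] at h3
      exact hℓ2 ((Nat.prime_dvd_prime_iff_eq hℓ.out Nat.prime_two).mp h3)
    have h2P : (2 : PowerSeries k) ≠ 0 := by
      intro hh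
      apply h2k
      have := congrArg (PowerSeries.constantCoeff) hh
      rwa [map_ofNat, map_zero] at this
    intro h
    apply h2P
    apply hinj
    rw [map_ofNat, map_zero]
    exact h
  have hp2 : (2 : ℕ) ^ d ≠ 0 := by positivity
  have hp2' : (2 : ℕ) ^ (d + 1) ≠ 0 := by positivity
  have hp3 : (3 : ℕ) ^ d ≠ 0 := by positivity
  have hp3' : (3 : ℕ) ^ (d + 1) ≠ 0 := by positivity
  have hR := reduction_abs (F0 := FractionRing (Polynomial k)) (Λ := FractionRing (PowerSeries k)) (P := PowerSeries k) d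
    (by omega) ε hε h2ne
    (fun o i => oev (oη ω o) (om d o) i (FF k d))
    (fun o i => oev (oη ω o) (om d o) i (FM k d))
    (fun o i => oev (oη ω o) (om d o) i Fc)
    (fun o i => hun _ (constCoeff_FF d hd0) o i)
    (fun o i => hun _ (constCoeff_FM d hd0) o i)
    (by
      intro o i
      have h1 := (isAlgebraic_oev (oη ω o) (hη o) (om d o) i (om_pos d o) Fc halg).algebraMap
        (A := FractionRing (PowerSeries k))
      exact (IsFractionRing.isAlgebraic_iff (Polynomial k) (FractionRing (Polynomial k)) (FractionRing (PowerSeries k))).mp h1)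
    (by
      intro o i
      have h1 := congrArg (oevH (oη ω o) (om d o) i (hnz o i)) hFc
      rw [map_sub, map_mul, map_mul, map_ofNat] at h1
      rw [oev_eq _ _ _ (hnz o i), oev_eq _ _ _ (hnz o i), oev_eq _ _ _ (hnz o i)]
      have he : oevH (oη ω o) (om d o) i (hnz o i) ε = ε := by
        rcases hε with h | h
        · rw [h, map_one]
        · rw [h, map_neg, map_one]
      rw [he] at h1
      exact h1)
    (by
      intro o i
      have h1 := congrArg (oevH (oη ω o) (om d o) i (hnz o i)) (norm_two (R := k) d (by omega) hp2 hp2')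
      simp only [map_mul, map_pow] at h1
      simp only [← oev_eq] at h1
      have e1 : oev (oη ω o) (om d o) i (PowerSeries.expand 2 two_ne_zero (FF k d)) =
          oev (oη ω o) (om d o) (i + 1) (FF k d) :=
        oev_expand_two (oη ω o) (om d o) i 1 (om_pos d o) two_ne_zero (FF k d)
      rw [oev_expand_two _ _ _ _ (om_pos d o), oev_expand_two _ _ _ _ (om_pos d o), e1] at h1
      exact h1)
    (by
      intro i
      have hω' : 1 + ω ^ (2 ^ i) + (ω ^ (2 ^ i)) ^ 2 = 0 := by
        have h3 : ¬ 3 ∣ 2 ^ i := fun h => by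
          have := Nat.Prime.dvd_of_dvd_pow Nat.prime_three h
          norm_num at this
        have h4 := omega_pow hω (2 ^ i) h3
        rw [← pow_mul] at h4
        rw [← pow_mul, mul_comm (2 ^ i) 2]
        exact h4
      have h2i : (2 : ℕ) ^ i ≠ 0 := by positivity
      have h1 := congrArg (PowerSeries.expand (2 ^ i) h2i) (norm_three (R := k) hω' d (by omega)
        hp3 hp3')
      simp only [map_mul, map_pow] at h1
      rw [expand_oev _ _ _ _, expand_oev _ _ _ _, expand_oev _ _ _ _, expand_rescale_oev] at h1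
      have e2 : PowerSeries.expand (2 ^ i) h2i (PowerSeries.rescale ((ω ^ 2 ^ i) ^ 2) (FF k d)) =
          oev (ω ^ 2) 1 i (FF k d) := by
        rw [← expand_rescale_oev (ω ^ 2) i h2i, ← pow_mul, ← pow_mul, mul_comm (2 ^ i) 2]
      have e0 : PowerSeries.expand (2 ^ i) h2i (FF k d) = oev 1 1 i (FF k d) := by
        rw [← expand_rescale_oev 1 i h2i, one_pow, PowerSeries.rescale_one, RingHom.id_apply]
      rw [e2, e0] at h1
      exact h1)
    hsys
  have h0 := hR 0 0
  have e : oev (oη ω 0) (om d 0) 0 (FF k d) = FF k d := by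
    have h1 : (1 : ℕ) * 2 ^ 0 ≠ 0 := by norm_num
    show oev 1 1 0 (FF k d) = FF k d
    unfold oev
    rw [dif_pos h1, one_pow, PowerSeries.rescale_one, RingHom.id_apply]
    have := expand_congr (k := k) (a := 1 * 2 ^ 0) (b := 1) (by norm_num) h1 one_ne_zero (FF k d)
    rw [this, PowerSeries.expand_one_apply]
  simp only [e] at h0
  have h1 := (IsFractionRing.isAlgebraic_iff (Polynomial k) (FractionRing (Polynomial k)) (FractionRing (PowerSeries k))).mpr h0
  rw [isAlgebraic_algebraMap_iff hinj] at h1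
  exact FF_transcendental (k := k) ℓ d hd h1

end Run7.h751
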