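import Pool.Agent.Run7.h751.Arith

open PowerSeries Finset

namespace Run7.h751

/-- The window lemma: there is `n` with `n = j0 + q * P`, `P` prime larger than `B`, and
`n - j` exactly divisible by suitable prime powers for the other `j`. -/
lemma window (ℓ : ℕ) (hℓ : ℓ.Prime) (i0 j0 B D : ℕ) (hj0 : j0 < B)
    (hD : 1 ≤ D) :
    ∃ P : ℕ, P.Prime ∧ ℓ < P ∧ B < P ∧ ∀ j, j < B → j ≠ j0 → ∃ t m : ℕ, t.Prime ∧ t % ℓ = 1 ∧
      ¬ t ∣ m ∧ j0 + ℓ ^ i0 * P = j + t ^ D * m := by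
  -- the primes
  have hP1 : ∀ N : ℕ, ∃ n > N, (n.Prime ∧ n % ℓ = 1 ∧ B < n) := by
    intro N
    obtain ⟨p, hp1, hp2, hp3⟩ := Nat.forall_exists_prime_gt_and_modEq (max N B) (q := ℓ) (a := 1)
      hℓ.ne_zero (Nat.coprime_one_left ℓ)
    refine ⟨p, lt_of_le_of_lt (le_max_left _ _) hp1, hp2, ?_, lt_of_le_of_lt (le_max_right _ _) hp1⟩
    have : p % ℓ = 1 % ℓ := hp3
    rw [this, Nat.mod_eq_of_lt hℓ.one_lt]
  obtain ⟨t, htmono, ht⟩ := Nat.exists_strictMono_subsequence hP1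
  have htinj : Function.Injective t := htmono.injective
  set s : Finset ℕ := (Finset.range B).erase j0 with hs
  -- local residues
  have hloc : ∀ j, ∃ w : ℕ, j0 + ℓ ^ i0 * w ≡ j + t j ^ D [MOD (t j ^ (D + 1))] := by
    intro j
    have hcop : Nat.Coprime (ℓ ^ i0) (t j ^ (D + 1)) := by
      apply Nat.Coprime.pow
      rw [Nat.coprime_primes hℓ (ht j).1]
      intro h
      have := (ht j).2.1
      rw [← h, Nat.mod_self] at this
      omega
    have hone : 1 < t j ^ (D + 1) := Nat.one_lt_pow (by omega) (ht j).1.one_lt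
    obtain ⟨v, -, hv⟩ := Nat.exists_mul_mod_eq_one_of_coprime hcop hone
    have hv' : ℓ ^ i0 * v ≡ 1 [MOD (t j ^ (D + 1))] := by
      show _ % _ = 1 % _
      rw [hv, Nat.mod_eq_of_lt hone]
    set M := t j ^ (D + 1) with hM
    have hle : j0 ≤ M * j0 := Nat.le_mul_of_pos_left _ (by omega)
    refine ⟨v * (j + t j ^ D + (M * j0 - j0)), ?_⟩
    have h1 : ℓ ^ i0 * (v * (j + t j ^ D + (M * j0 - j0))) ≡
        1 * (j + t j ^ D + (M * j0 - j0)) [MOD M] := by
      rw [← mul_assoc]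
      exact Nat.ModEq.mul_right _ hv'
    have h2 := Nat.ModEq.add_left j0 h1
    refine h2.trans ?_
    have h3 : j0 + 1 * (j + t j ^ D + (M * j0 - j0)) = j + t j ^ D + M * j0 := by omega
    rw [h3]
    show _ % _ = _ % _
    rw [Nat.add_mul_mod_self_left]
  choose w hw using hloc
  have hne : ∀ j ∈ s, t j ^ (D + 1) ≠ 0 := fun j _ => pow_ne_zero _ (ht j).1.ne_zero
  have hpair : Set.Pairwise (s : Set ℕ) (Function.onFun Nat.Coprime (fun j => t j ^ (D + 1))) := by
    intro a _ b _ hab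
    show Nat.Coprime (t a ^ (D + 1)) (t b ^ (D + 1))
    apply Nat.Coprime.pow
    rw [Nat.coprime_primes (ht a).1 (ht b).1]
    exact fun h => hab (htinj h)
  obtain ⟨c, hc⟩ := Nat.chineseRemainderOfFinset w (fun j => t j ^ (D + 1)) s hne hpair
  set Q : ℕ := ∏ j ∈ s, t j ^ (D + 1) with hQ
  have hQ0 : Q ≠ 0 := Finset.prod_ne_zero_iff.mpr hne
  have hcopc : c.Coprime Q := by
    rw [hQ]
    apply Nat.Coprime.prod_right
    intro j hj
    apply Nat.Coprime.pow_right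
    rw [Nat.coprime_comm, Nat.Prime.coprime_iff_not_dvd (ht j).1]
    intro hdvd
    have htl : t j ∣ t j ^ (D + 1) := dvd_pow_self _ (by omega)
    have h1 : c ≡ w j [MOD t j] := (hc j hj).of_dvd htl
    have h2 : j0 + ℓ ^ i0 * w j ≡ j + t j ^ D [MOD t j] := (hw j).of_dvd htl
    have h3 : c ≡ 0 [MOD t j] := (Nat.modEq_zero_iff_dvd).mpr hdvd
    have h4 : t j ^ D ≡ 0 [MOD t j] := (Nat.modEq_zero_iff_dvd).mpr (dvd_pow_self _ (by omega))
    have h5 : j0 + ℓ ^ i0 * 0 ≡ j + 0 [MOD t j] := by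
      refine Nat.ModEq.trans ?_ (h2.trans (Nat.ModEq.add_left _ h4))
      exact Nat.ModEq.add_left _ (Nat.ModEq.mul_left _ (h3.symm.trans h1))
    rw [mul_zero, add_zero, add_zero] at h5
    rw [hs, Finset.mem_erase, Finset.mem_range] at hj
    have hBt := (ht j).2.2
    have := Nat.ModEq.eq_of_lt_of_lt h5 (by omega) (by omega)
    exact hj.1 this.symm
  obtain ⟨P, hP1, hP2, hP3⟩ := Nat.forall_exists_prime_gt_and_modEq (max ℓ B) hQ0 hcopc
  refine ⟨P, hP2, lt_of_le_of_lt (le_max_left _ _) hP1, lt_of_le_of_lt (le_max_right _ _) hP1, ?_⟩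
  intro j hj hjj
  have hjs : j ∈ s := by
    rw [hs, Finset.mem_erase, Finset.mem_range]; exact ⟨hjj, hj⟩
  have h1 : P ≡ c [MOD (t j ^ (D + 1))] := hP3.of_dvd (Finset.dvd_prod_of_mem (fun j => t j ^ (D + 1)) hjs)
  have h2 : j0 + ℓ ^ i0 * P ≡ j + t j ^ D [MOD (t j ^ (D + 1))] := by
    refine Nat.ModEq.trans ?_ (hw j)
    exact Nat.ModEq.add_left _ (Nat.ModEq.mul_left _ (h1.trans (hc j hjs)))
  have hBP : B < P := lt_of_le_of_lt (le_max_right _ _) hP1
  have hpos : 1 ≤ ℓ ^ i0 := Nat.one_le_pow _ _ hℓ.pos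
  have hPle : P ≤ ℓ ^ i0 * P := Nat.le_mul_of_pos_left _ hpos
  obtain ⟨r, hr⟩ : ∃ r, j0 + ℓ ^ i0 * P = j + r := ⟨j0 + ℓ ^ i0 * P - j, by omega⟩
  rw [hr] at h2
  have h3 : r ≡ t j ^ D [MOD (t j ^ (D + 1))] := Nat.ModEq.add_left_cancel' j h2
  have hlt : t j ^ D < t j ^ (D + 1) := Nat.pow_lt_pow_right (ht j).1.one_lt (by omega)
  have h4 : r % (t j ^ (D + 1)) = t j ^ D := by
    have : r % (t j ^ (D + 1)) = t j ^ D % (t j ^ (D + 1)) := h3
    rw [this, Nat.mod_eq_of_lt hlt]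
  refine ⟨t j, t j * (r / (t j ^ (D + 1))) + 1, (ht j).1, (ht j).2.1, ?_, ?_⟩
  · intro h
    have h5 : t j ∣ 1 := (Nat.dvd_add_right (Dvd.intro _ rfl)).mp h
    exact (ht j).1.one_lt.ne' (Nat.dvd_one.mp h5)
  · rw [hr]
    congr 1
    have h6 := Nat.div_add_mod r (t j ^ (D + 1))
    rw [h4] at h6
    rw [← h6, pow_succ]
    have h7 : (t j ^ D * t j * (r / (t j ^ D * t j)) + t j ^ D) / (t j ^ D * t j)
      = r / (t j ^ D * t j) := by
      rw [← pow_succ]
      rw [Nat.mul_add_div (pow_pos (ht j).1.pos _), Nat.div_eq_of_lt hlt, add_zero]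
    rw [h7]
    ring

/-- `F_ℓ(X)`-linear independence of the series `L(X^{ℓ^i})`. -/
theorem LL_linear_indep {k : Type*} [Field k] (ℓ : ℕ) [hℓ : Fact ℓ.Prime] [CharP k ℓ] (d : ℕ)
    (hd : 2 ≤ d) (N : ℕ) (A : ℕ → Polynomial k)
    (hrel : ∑ i ∈ Finset.range N, (A i : PowerSeries k) *
      PowerSeries.expand (ℓ ^ i) (pow_ne_zero i hℓ.out.ne_zero) (LL k d) = 0) :
    ∀ i < N, A i = 0 := by
  classical
  by_contra hcon
  push Not at hcon
  have hex : ∃ i, i < N ∧ A i ≠ 0 := hcon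
  set i0 := Nat.find hex with hi0
  obtain ⟨hi0N, hAi0⟩ := Nat.find_spec hex
  have hmin : ∀ i < i0, A i = 0 := by
    intro i hi
    by_contra h
    exact Nat.find_min hex hi ⟨lt_trans hi hi0N, h⟩
  obtain ⟨j0, hj0⟩ : ∃ j0, (A i0).coeff j0 ≠ 0 := by
    by_contra h
    push Not at h
    exact hAi0 (Polynomial.ext (by simpa using h))
  -- bound of degrees
  obtain ⟨B, hB⟩ : ∃ B, ∀ i < N, (A i).natDegree < B := by
    refine ⟨(Finset.range N).sup (fun i => (A i).natDegree) + 1, fun i hi => ?_⟩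
    have := Finset.le_sup (f := fun i => (A i).natDegree) (Finset.mem_range.mpr hi)
    omega
  have hj0B : j0 < B := lt_of_le_of_lt (Polynomial.le_natDegree_of_ne_zero hj0) (hB i0 hi0N)
  have hℓ2 := hℓ.out.two_le
  have hD1 : 1 ≤ d * (ℓ - 1) := Nat.mul_pos (by omega) (by omega)
  obtain ⟨P, hP, hℓP, hBP, hwin⟩ := window ℓ hℓ.out i0 j0 B (d * (ℓ - 1)) hj0B hD1
  set n := j0 + ℓ ^ i0 * P with hn
  have hc := congrArg (PowerSeries.coeff n) hrel
  rw [map_sum, map_zero] at hc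
  -- value of each summand
  have hterm : ∀ i ∈ Finset.range N, i ≠ i0 → PowerSeries.coeff n ((A i : PowerSeries k) *
      PowerSeries.expand (ℓ ^ i) (pow_ne_zero i hℓ.out.ne_zero) (LL k d)) = 0 := by
    intro i hiN hii
    rcases lt_or_gt_of_ne hii with h | h
    · rw [hmin i h]; simp
    · rw [PowerSeries.coeff_mul]
      apply Finset.sum_eq_zero
      rintro ⟨a, b⟩ hab
      rw [Finset.HasAntidiagonal.mem_antidiagonal] at hab
      simp only at hab ⊢
      rw [PowerSeries.coeff_expand, Polynomial.coeff_coe]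
      by_cases hdv : ℓ ^ i ∣ b
      swap
      · rw [if_neg hdv, mul_zero]
      rw [if_pos hdv]
      by_cases haB : a < B
      swap
      · rw [Polynomial.coeff_eq_zero_of_natDegree_lt, zero_mul]
        have := hB i (Finset.mem_range.mp hiN)
        omega
      by_cases haj : a = j0
      · exfalso
        have hb : b = ℓ ^ i0 * P := by omega
        rw [hb] at hdv
        have h1 : ℓ ^ (i0 + 1) ∣ ℓ ^ i0 * P := dvd_trans (pow_dvd_pow _ h) hdv
        rw [pow_succ] at h1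
        have h2 := Nat.dvd_of_mul_dvd_mul_left (pow_pos hℓ.out.pos _) h1
        have := (Nat.prime_dvd_prime_iff_eq hℓ.out hP).mp h2
        omega
      · obtain ⟨t, m, ht, ht1, htm, heq⟩ := hwin a haB haj
        have hb : b = t ^ (d * (ℓ - 1)) * m := by omega
        have htl : t ≠ ℓ := by
          rintro rfl
          rw [Nat.mod_self] at ht1
          omega
        have hcop : Nat.Coprime (ℓ ^ i) (t ^ (d * (ℓ - 1))) := by
          apply Nat.Coprime.pow
          rw [Nat.coprime_primes hℓ.out ht]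
          exact htl.symm
        rw [hb] at hdv
        have h3 : ℓ ^ i ∣ m := hcop.dvd_of_dvd_mul_left hdv
        obtain ⟨m', hm'⟩ := h3
        have h4 : b / ℓ ^ i = t ^ (d * (ℓ - 1)) * m' := by
          rw [hb, hm']
          have : t ^ (d * (ℓ - 1)) * (ℓ ^ i * m') = ℓ ^ i * (t ^ (d * (ℓ - 1)) * m') := by ring
          rw [this, Nat.mul_div_cancel_left _ (pow_pos hℓ.out.pos _)]
        have h5 : ¬ t ∣ m' := fun h => htm (by rw [hm']; exact Dvd.dvd.mul_left h _)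
        have h6 := sd_toggle d t m' ℓ hd hℓ.out ht ht1 h5
        rw [h4, LL, PowerSeries.coeff_mk, (CharP.cast_eq_zero_iff k ℓ _).mpr h6, mul_zero]
  rw [Finset.sum_eq_single i0 hterm (fun h => absurd (Finset.mem_range.mpr hi0N) h)] at hc
  rw [PowerSeries.coeff_mul] at hc
  rw [Finset.sum_eq_single (j0, ℓ ^ i0 * P)] at hc
  · simp only at hc
    rw [PowerSeries.coeff_expand, if_pos (Dvd.intro _ rfl), Polynomial.coeff_coe,
      Nat.mul_div_cancel_left _ (pow_pos hℓ.out.pos _), LL, PowerSeries.coeff_mk,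
      sd_prime d P hd hP] at hc
    simp at hc
    exact hj0 hc
  · rintro ⟨a, b⟩ hab hne
    rw [Finset.HasAntidiagonal.mem_antidiagonal] at hab
    simp only at hab ⊢
    rw [PowerSeries.coeff_expand, Polynomial.coeff_coe]
    by_cases hdv : ℓ ^ i0 ∣ b
    swap
    · rw [if_neg hdv, mul_zero]
    rw [if_pos hdv]
    by_cases haB : a < B
    swap
    · rw [Polynomial.coeff_eq_zero_of_natDegree_lt, zero_mul]
      have := hB i0 hi0N
      omega
    have haj : a ≠ j0 := by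
      rintro rfl
      apply hne
      have : b = ℓ ^ i0 * P := by omega
      rw [this]
    obtain ⟨t, m, ht, ht1, htm, heq⟩ := hwin a haB haj
    have hb : b = t ^ (d * (ℓ - 1)) * m := by omega
    have htl : t ≠ ℓ := by
      rintro rfl
      rw [Nat.mod_self] at ht1
      omega
    have hcop : Nat.Coprime (ℓ ^ i0) (t ^ (d * (ℓ - 1))) := by
      apply Nat.Coprime.pow
      rw [Nat.coprime_primes hℓ.out ht]
      exact htl.symm
    rw [hb] at hdv
    have h3 : ℓ ^ i0 ∣ m := hcop.dvd_of_dvd_mul_left hdv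
    obtain ⟨m', hm'⟩ := h3
    have h4 : b / ℓ ^ i0 = t ^ (d * (ℓ - 1)) * m' := by
      rw [hb, hm']
      have : t ^ (d * (ℓ - 1)) * (ℓ ^ i0 * m') = ℓ ^ i0 * (t ^ (d * (ℓ - 1)) * m') := by ring
      rw [this, Nat.mul_div_cancel_left _ (pow_pos hℓ.out.pos _)]
    have h5 : ¬ t ∣ m' := fun h => htm (by rw [hm']; exact Dvd.dvd.mul_left h _)
    have h6 := sd_toggle d t m' ℓ hd hℓ.out ht ht1 h5
    rw [h4, LL, PowerSeries.coeff_mk, (CharP.cast_eq_zero_iff k ℓ _).mpr h6, mul_zero]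
  · intro h
    exfalso
    apply h
    rw [Finset.HasAntidiagonal.mem_antidiagonal]

end Run7.h751
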