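import Pool.Agent.Run7.h751.Alg

open PowerSeries Finset

namespace Run7.h751

variable {k : Type*} [Field k] (ℓ : ℕ) [hℓ : Fact ℓ.Prime] [CharP k ℓ]

include hℓ in
lemma LL_transcendental (d : ℕ) (hd : 2 ≤ d) : Transcendental (Polynomial k) (LL k d) := by
  intro halg
  obtain ⟨N, A, hrel, i, hi, hAi⟩ := rel_of_isAlgebraic ℓ (LL k d) halg
  apply hAi
  refine LL_linear_indep ℓ d hd N A ?_ i hi
  rw [← hrel]
  apply Finset.sum_congr rfl
  intro i _
  rw [LL_pow_char ℓ d i]

lemma deriv_pow_char (f : PowerSeries k) (i : ℕ) (hi : i ≠ 0) : (d⁄dX k) (f ^ (ℓ ^ i)) = 0 := by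
  rw [Derivation.leibniz_pow]
  have : ((ℓ ^ i : ℕ) : k) = 0 := by
    rw [Nat.cast_pow, CharP.cast_eq_zero, zero_pow hi]
  rw [← Nat.cast_smul_eq_nsmul k, this, zero_smul]

include hℓ in
theorem FF_transcendental (d : ℕ) (hd : 2 ≤ d) : Transcendental (Polynomial k) (FF k d) := by
  intro halg
  have hd0 : d ≠ 0 := by omega
  obtain ⟨N, A, hrel, hex⟩ := rel_of_isAlgebraic ℓ (FF k d) halg
  have hrel2 : ∑ i ∈ Finset.range N, (A i : PowerSeries k) *
      PowerSeries.expand (ℓ ^ i) (pow_ne_zero i hℓ.out.ne_zero) (FF k d) = 0 := by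
    rw [← hrel]
    apply Finset.sum_congr rfl
    intro i _
    rw [FF_pow_char ℓ d i]
  obtain ⟨M, B, hB, hM, hB0⟩ := rel_reduce ℓ (FF k d) N A hrel2 hex
  have hB' : ∑ i ∈ Finset.range M, (B i : PowerSeries k) * (FF k d) ^ (ℓ ^ i) = 0 := by
    rw [← hB]
    apply Finset.sum_congr rfl
    intro i _
    rw [FF_pow_char ℓ d i]
  obtain ⟨M', rfl⟩ : ∃ M', M = M' + 1 := ⟨M - 1, by omega⟩
  -- differentiate
  have h1 := congrArg (fun g => (X : PowerSeries k) * (d⁄dX k) g) hB'
  simp only [map_sum, map_zero, mul_zero] at h1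
  have h2 : X * ∑ i ∈ Finset.range (M' + 1), (d⁄dX k) ((B i : PowerSeries k) * (FF k d) ^ (ℓ ^ i))
      = X * (∑ i ∈ Finset.range (M' + 1), (d⁄dX k) (B i : PowerSeries k) * (FF k d) ^ (ℓ ^ i))
        + (B 0 : PowerSeries k) * (LL k d * FF k d) := by
    rw [← X_deriv_FF d hd0, Finset.sum_range_succ', Finset.sum_range_succ' (n := M')]
    have h3 : ∀ i ∈ Finset.range M', (d⁄dX k) ((B (i + 1) : PowerSeries k) * (FF k d) ^ (ℓ ^ (i + 1)))
        = (d⁄dX k) (B (i + 1) : PowerSeries k) * (FF k d) ^ (ℓ ^ (i + 1)) := by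
      intro i _
      rw [Derivation.leibniz, deriv_pow_char ℓ _ (i + 1) (by omega)]
      simp only [smul_eq_mul, mul_zero, zero_add]
      ring
    rw [Finset.sum_congr rfl h3]
    have h4 : (d⁄dX k) ((B 0 : PowerSeries k) * (FF k d) ^ (ℓ ^ 0)) =
        (d⁄dX k) (B 0 : PowerSeries k) * (FF k d) ^ (ℓ ^ 0) + (B 0 : PowerSeries k) *
          (d⁄dX k) (FF k d) := by
      rw [Derivation.leibniz]
      simp only [smul_eq_mul, pow_zero, pow_one]
      ring
    rw [h4]
    ring
  rw [h2] at h1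
  -- pass to the fraction field
  let Q := FractionRing (PowerSeries k)
  have hinj : Function.Injective (algebraMap (PowerSeries k) Q) :=
    IsFractionRing.injective (PowerSeries k) Q
  have tr : ∀ f : PowerSeries k, IsAlgebraic (Polynomial k) f →
      IsAlgebraic (Polynomial k) (algebraMap (PowerSeries k) Q f) := fun f hf => hf.algebraMap
  have hpoly : ∀ P : Polynomial k, IsAlgebraic (Polynomial k) (P : PowerSeries k) := by
    intro P
    exact isAlgebraic_algebraMap P
  have hXalg : IsAlgebraic (Polynomial k) (X : PowerSeries k) := by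
    rw [← Polynomial.coe_X]; exact hpoly _
  have hsum : IsAlgebraic (Polynomial k)
      (∑ i ∈ Finset.range (M' + 1), (d⁄dX k) (B i : PowerSeries k) * (FF k d) ^ (ℓ ^ i)) := by
    refine Finset.sum_induction _ (fun g => IsAlgebraic (Polynomial k) g)
      (fun a b ha hb => ha.add hb) isAlgebraic_zero ?_
    intro i _
    apply IsAlgebraic.mul
    · rw [PowerSeries.derivative_coe]
      exact hpoly _
    · exact halg.pow _
  have h5 : IsAlgebraic (Polynomial k) ((B 0 : PowerSeries k) * (LL k d * FF k d)) := by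
    have : (B 0 : PowerSeries k) * (LL k d * FF k d) = - (X * (∑ i ∈ Finset.range (M' + 1),
      (d⁄dX k) (B i : PowerSeries k) * (FF k d) ^ (ℓ ^ i))) := by
      linear_combination h1
    rw [this]
    exact (hXalg.mul hsum).neg
  have hB0' : (B 0 : PowerSeries k) ≠ 0 := by
    intro h
    apply hB0
    exact_mod_cast h
  have hF0 : FF k d ≠ 0 := by
    intro h
    have := constCoeff_FF (R := k) d hd0
    rw [h, map_zero] at this
    exact zero_ne_one this
  have h6 : algebraMap (PowerSeries k) Q (LL k d) =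
      algebraMap (PowerSeries k) Q ((B 0 : PowerSeries k) * (LL k d * FF k d)) *
      (algebraMap (PowerSeries k) Q ((B 0 : PowerSeries k) * FF k d))⁻¹ := by
    have hne : algebraMap (PowerSeries k) Q ((B 0 : PowerSeries k) * FF k d) ≠ 0 := by
      rw [Ne, map_eq_zero_iff _ hinj]
      exact mul_ne_zero hB0' hF0
    rw [eq_mul_inv_iff_mul_eq₀ hne, ← map_mul]
    congr 1
    ring
  have h7 : IsAlgebraic (Polynomial k) (algebraMap (PowerSeries k) Q (LL k d)) := by
    rw [h6]
    apply IsAlgebraic.mul (tr _ h5)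
    exact (tr _ ((hpoly _).mul halg)).inv
  have h8 : IsAlgebraic (Polynomial k) (LL k d) := by
    rwa [isAlgebraic_algebraMap_iff hinj] at h7
  exact LL_transcendental ℓ d hd h8

end Run7.h751
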